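import Pool.Agent.Lib.MP_a7239a_co.EX.Defs

/-! # folder EX, module CYC -/

set_option autoImplicit false

universe u v

open Finset

namespace Pool.Agent.Lib.MPa7239a.EX

variable {G : Type u} [AddCommGroup G] {a r : ℕ}

/-- an odd multiple can be undone -/
theorem CYC.undo (hG : Homo G a r) {c : ℤ} (hc : Odd c) : ∃ u : ℤ, ∀ x : G, u • (c • x) = x := by
  obtain ⟨k, hk⟩ := hc
  have h2 : IsCoprime c (2 : ℤ) := ⟨1, -k, by rw [hk]; ring⟩
  obtain ⟨u, v, huv⟩ := (h2.pow_right (n := a))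
  refine ⟨u, fun x => ?_⟩
  have h3 : (2 ^ a : ℤ) • x = 0 := by
    have := hG.kill x
    rw [← natCast_zsmul] at this
    push_cast at this
    exact this
  calc u • (c • x) = (u * c) • x := by rw [smul_smul]
    _ = (u * c) • x + v • ((2 ^ a : ℤ) • x) := by rw [h3, smul_zero, add_zero]
    _ = (u * c + v * 2 ^ a) • x := by rw [smul_smul, add_smul]
    _ = x := by rw [huv, one_smul]

/-- an even multiple of an element of `V i` is in `V (i + 1)` -/
theorem CYC.even_mem {i : ℕ} {x : G} (hx : x ∈ V G i) {c : ℤ} (hc : Even c) :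
    c • x ∈ V G (i + 1) := by
  obtain ⟨k, hk⟩ := hc
  have h2 : c • x = k • (2 • x) := by
    rw [hk, add_smul, two_nsmul, smul_add]
  rw [h2]
  exact AddSubgroup.zsmul_mem _ (two_mem hx) k

/-- an odd multiple of `x ∈ V i` is in `V (i + 1)` only if `x` is -/
theorem CYC.odd_mem {i : ℕ} {x : G} (hx : x ∈ V G i) {c : ℤ} (hc : Odd c)
    (h : c • x ∈ V G (i + 1)) : x ∈ V G (i + 1) := by
  obtain ⟨k, hk⟩ := hc
  have h1 : (2 * k) • x ∈ V G (i + 1) := CYC.even_mem hx (even_two_mul k)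
  have h2 : x = c • x - (2 * k) • x := by
    rw [← sub_smul, hk, add_sub_cancel_left, one_smul]
  rw [h2]
  exact AddSubgroup.sub_mem _ h h1

theorem CYC.aux (hG : Homo G a r) {i : ℕ} (hi : i + 1 < a) {M : AddSubgroup G} (h1 : M ≤ V G i)
    {h l : G} (hh : h ∈ M) (hh' : h ∉ V G (i + 1))
    (h3 : M ⊓ V G (i + 1) = AddSubgroup.zmultiples l) : M = AddSubgroup.zmultiples h := by
  have hl : l ∈ V G (i + 1) := by
    have : l ∈ M ⊓ V G (i + 1) := by
      rw [h3]; exact AddSubgroup.mem_zmultiples l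
    exact this.2
  have h4 : 2 • h ∈ AddSubgroup.zmultiples l := by
    rw [← h3]
    exact ⟨AddSubgroup.nsmul_mem _ hh 2, two_mem (h1 hh)⟩
  obtain ⟨c, hc⟩ := AddSubgroup.mem_zmultiples_iff.1 h4
  have hodd : Odd c := by
    rcases Int.even_or_odd c with he | ho
    · exfalso
      apply hh'
      apply hG.half hi
      rw [← hc]
      exact CYC.even_mem hl he
    · exact ho
  obtain ⟨u, hu⟩ := CYC.undo hG hodd
  have h5 : l ∈ AddSubgroup.zmultiples (2 • h) := by
    rw [AddSubgroup.mem_zmultiples_iff]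
    refine ⟨u, ?_⟩
    rw [← hc]
    exact hu l
  have h6 : ∀ m ∈ M, m ∈ V G (i + 1) → m ∈ AddSubgroup.zmultiples (2 • h) := by
    intro m hm hm'
    have : m ∈ AddSubgroup.zmultiples l := by
      rw [← h3]; exact ⟨hm, hm'⟩
    exact (AddSubgroup.zmultiples_le_of_mem h5) this
  have h7 : AddSubgroup.zmultiples (2 • h) ≤ AddSubgroup.zmultiples h :=
    AddSubgroup.zmultiples_le_of_mem (AddSubgroup.nsmul_mem _ (AddSubgroup.mem_zmultiples h) 2)
  apply le_antisymm
  · intro m hm
    obtain ⟨e, he⟩ := AddSubgroup.mem_zmultiples_iff.1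
      (h6 (2 • m) (AddSubgroup.nsmul_mem _ hm 2) (two_mem (h1 hm)))
    have h8 : 2 • (m - e • h) = 0 := by
      rw [smul_sub, ← he, smul_comm, sub_self]
    have h9 : m - e • h ∈ V G (i + 1) :=
      V_anti (by omega) (hG.invol (by omega) h8)
    have h10 := h7 (h6 _ (AddSubgroup.sub_mem _ hm (AddSubgroup.zsmul_mem _ hh e)) h9)
    have h11 : m = (m - e • h) + e • h := by abel
    rw [h11]
    exact AddSubgroup.add_mem _ h10
      (AddSubgroup.zsmul_mem _ (AddSubgroup.mem_zmultiples h) e)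
  · exact AddSubgroup.zmultiples_le_of_mem hh

/-- CYC -/
theorem cyc (hG : Homo G a r) {i : ℕ} (hi : i + 1 < a) {H H' : AddSubgroup G} (h1 : H ≤ V G i)
    (h1' : H' ≤ V G i) (h2 : ¬ H ≤ V G (i + 1)) (h2' : ¬ H' ≤ V G (i + 1))
    (h3 : ∃ l, (H ⊔ H') ⊓ V G (i + 1) = AddSubgroup.zmultiples l) :
    ∃ g ∈ V G i, g ∉ V G (i + 1) ∧ H = AddSubgroup.zmultiples g ∧
      H' = AddSubgroup.zmultiples g := by
  obtain ⟨l, h3⟩ := h3
  obtain ⟨h, hh, hh'⟩ := SetLike.not_le_iff_exists.1 h2
  obtain ⟨g, hg, hg'⟩ := SetLike.not_le_iff_exists.1 h2'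
  have hM : H ⊔ H' ≤ V G i := sup_le h1 h1'
  have e1 := CYC.aux hG hi hM (AddSubgroup.mem_sup_left hh) hh' h3
  have e2 := CYC.aux hG hi hM (AddSubgroup.mem_sup_right hg) hg' h3
  have e3 : H = AddSubgroup.zmultiples h :=
    le_antisymm (le_sup_left.trans e1.le) (AddSubgroup.zmultiples_le_of_mem hh)
  have e4 : H' = AddSubgroup.zmultiples g :=
    le_antisymm (le_sup_right.trans e2.le) (AddSubgroup.zmultiples_le_of_mem hg)
  exact ⟨h, h1 hh, hh', e3, e4.trans (e2.symm.trans e1)⟩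

/-- CYC: involutions decide -/
theorem cyc_inv (hG : Homo G a r) {i : ℕ} (hi : i < a) {M : AddSubgroup G} {l : G}
    (hM : M ≤ V G i) (hl : l ∈ M) (hl' : l ∉ V G (i + 1))
    (h : ∀ τ ∈ M, 2 • τ = 0 → τ ∈ AddSubgroup.zmultiples l) : M = AddSubgroup.zmultiples l := by
  have key : ∀ k : ℕ, ∀ m ∈ M, 2 ^ k • m = 0 → m ∈ AddSubgroup.zmultiples l := by
    intro k
    induction k with
    | zero =>
      intro m _ h0
      rw [pow_zero, one_smul] at h0
      rw [h0]
      exact AddSubgroup.zero_mem _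
    | succ k ih =>
      intro m hm h0
      have h1 : 2 • m ∈ AddSubgroup.zmultiples l := by
        apply ih _ (AddSubgroup.nsmul_mem _ hm 2)
        rw [smul_smul, ← pow_succ]
        exact h0
      obtain ⟨c, hc⟩ := AddSubgroup.mem_zmultiples_iff.1 h1
      rcases Int.even_or_odd c with he | ho
      · obtain ⟨e, he⟩ := he
        have h8 : 2 • (m - e • l) = 0 := by
          rw [smul_sub, ← hc, he, add_smul, two_nsmul, sub_self]
        have h10 := h _ (AddSubgroup.sub_mem _ hm (AddSubgroup.zsmul_mem _ hl e)) h8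
        have h11 : m = (m - e • l) + e • l := by abel
        rw [h11]
        exact AddSubgroup.add_mem _ h10
          (AddSubgroup.zsmul_mem _ (AddSubgroup.mem_zmultiples l) e)
      · exfalso
        apply hl'
        apply CYC.odd_mem (hM hl) ho
        rw [hc]
        exact two_mem (hM hm)
  apply le_antisymm
  · intro m hm
    exact key a m hm (hG.kill m)
  · exact AddSubgroup.zmultiples_le_of_mem hl

/-- CYC: a subgroup of a line not in `V (i + 1)` is the line -/
theorem cyc_sub (hG : Homo G a r) {i : ℕ} {H : AddSubgroup G} {l : G} (hl : l ∈ V G i)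
    (h1 : H ≤ AddSubgroup.zmultiples l) (h2 : ¬ H ≤ V G (i + 1)) :
    H = AddSubgroup.zmultiples l := by
  obtain ⟨h, hh, hh'⟩ := SetLike.not_le_iff_exists.1 h2
  obtain ⟨c, hc⟩ := AddSubgroup.mem_zmultiples_iff.1 (h1 hh)
  have hodd : Odd c := by
    rcases Int.even_or_odd c with he | ho
    · exfalso
      apply hh'
      rw [← hc]
      exact CYC.even_mem hl he
    · exact ho
  obtain ⟨u, hu⟩ := CYC.undo hG hodd
  apply le_antisymm h1
  apply AddSubgroup.zmultiples_le_of_mem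
  have : l = u • h := by rw [← hc, hu]
  rw [this]
  exact AddSubgroup.zsmul_mem _ hh u

end Pool.Agent.Lib.MPa7239a.EX
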