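import Pool.Agent.Lib.MP_a7239a_co.EX.Defs
import Pool.Agent.Lib.MP_a7239a_co.EX.CYC

/-! # folder EX, module CYD (helper77): cyclic subgroups -/

set_option autoImplicit false

universe u v w

open Finset

namespace Pool.Agent.Lib.MPa7239a.EX

variable {G : Type u} [AddCommGroup G] {a r : ℕ}

/-- a cyclic group has at most one involution -/
theorem CYD.unique {l σ τ : G} (hσ : σ ∈ AddSubgroup.zmultiples l)
    (hτ : τ ∈ AddSubgroup.zmultiples l) (hσ2 : 2 • σ = 0) (hτ2 : 2 • τ = 0) (hσ0 : σ ≠ 0)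
    (hτ0 : τ ≠ 0) : τ = σ := by
  obtain ⟨s, rfl⟩ := AddSubgroup.mem_zmultiples_iff.1 hσ
  obtain ⟨t, rfl⟩ := AddSubgroup.mem_zmultiples_iff.1 hτ
  have key : ∀ s : ℤ, 2 • (s • l) = 0 → s • l ≠ 0 →
      ∃ u : ℤ, 2 * s = (addOrderOf l : ℤ) * (2 * u + 1) := by
    intro s h2 h0
    have h3 : (2 * s) • l = 0 := by
      rw [mul_smul, ← h2]
      exact (natCast_zsmul (s • l) 2)
    obtain ⟨u, hu⟩ := addOrderOf_dvd_iff_zsmul_eq_zero.2 h3
    rcases Int.even_or_odd' u with ⟨w, hw | hw⟩
    · exfalso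
      apply h0
      apply addOrderOf_dvd_iff_zsmul_eq_zero.1
      refine ⟨w, ?_⟩
      rw [hw] at hu
      linarith
    · exact ⟨w, by rw [hu, hw]⟩
  obtain ⟨u, hu⟩ := key s hσ2 hσ0
  obtain ⟨v, hv⟩ := key t hτ2 hτ0
  have h4 : t - s = (addOrderOf l : ℤ) * (v - u) := by linarith
  have h5 : (t - s) • l = 0 := addOrderOf_dvd_iff_zsmul_eq_zero.1 ⟨v - u, h4⟩
  rw [sub_smul, sub_eq_zero] at h5
  exact h5

/-- a nonzero element has a multiple of order two -/
theorem CYD.exists_inv (hG : Homo G a r) {g : G} (hg : g ≠ 0) :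
    ∃ k : ℕ, 2 • (2 ^ k • g) = 0 ∧ 2 ^ k • g ≠ 0 := by
  classical
  have h : ∃ k : ℕ, 2 ^ k • g = 0 := ⟨a, hG.kill g⟩
  have h1 := Nat.find_spec h
  have h2 : Nat.find h ≠ 0 := by
    intro h3
    rw [h3, pow_zero, one_smul] at h1
    exact hg h1
  obtain ⟨k, hk⟩ := Nat.exists_eq_succ_of_ne_zero h2
  refine ⟨k, ?_, Nat.find_min h (by omega)⟩
  rw [hk] at h1
  rw [smul_smul, ← pow_succ']
  exact h1

/-- CYD: a subgroup all whose involutions lie in one cyclic group is cyclic -/
theorem cyd [Finite G] (hG : Homo G a r) {D : AddSubgroup G} {l : G}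
    (h : ∀ τ ∈ D, 2 • τ = 0 → τ ∈ AddSubgroup.zmultiples l) :
    ∃ g, D = AddSubgroup.zmultiples g := by
  obtain ⟨⟨g, hgD⟩, hmax⟩ := Finite.exists_max (fun m : D => addOrderOf (m : G))
  refine ⟨g, le_antisymm ?_ (AddSubgroup.zmultiples_le_of_mem hgD)⟩
  have key : ∀ k : ℕ, ∀ m ∈ D, 2 ^ k • m = 0 → m ∈ AddSubgroup.zmultiples g := by
    intro k
    induction k with
    | zero =>
      intro m _ h0
      rw [pow_zero, one_smul] at h0
      rw [h0]
      exact AddSubgroup.zero_mem _
    | succ k ih =>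
      intro m hm h0
      have h1 : 2 • m ∈ AddSubgroup.zmultiples g := by
        refine ih (2 • m) (AddSubgroup.nsmul_mem _ hm 2) ?_
        rw [smul_smul, ← pow_succ]
        exact h0
      obtain ⟨c, hc⟩ := AddSubgroup.mem_zmultiples_iff.1 h1
      rcases Int.even_or_odd' c with ⟨w, hw | hw⟩
      · have h2 : 2 • (m - w • g) = 0 := by
          rw [smul_sub, ← hc, hw, mul_smul]
          exact sub_eq_zero.2 (natCast_zsmul (w • g) 2)
        have h3 : m - w • g ∈ D := AddSubgroup.sub_mem _ hm (AddSubgroup.zsmul_mem _ hgD w)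
        by_cases h4 : m - w • g = 0
        · rw [sub_eq_zero.1 h4]
          exact AddSubgroup.zsmul_mem _ (AddSubgroup.mem_zmultiples g) w
        · have hg0 : g ≠ 0 := by
            rintro rfl
            have h5 := hmax ⟨m - w • 0, h3⟩
            simp only [addOrderOf_zero] at h5
            have h6 : 0 < addOrderOf (m - w • (0 : G)) := addOrderOf_pos _
            exact h4 (AddMonoid.addOrderOf_eq_one_iff.1 (by omega))
          obtain ⟨j, hj, hj'⟩ := CYD.exists_inv hG hg0
          have h5 : 2 ^ j • g ∈ D := AddSubgroup.nsmul_mem _ hgD _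
          have h6 := CYD.unique (h _ h5 hj) (h _ h3 h2) hj h2 hj' h4
          have h7 : m = w • g + 2 ^ j • g := by
            rw [← h6]
            abel
          rw [h7]
          exact AddSubgroup.add_mem _ (AddSubgroup.zsmul_mem _ (AddSubgroup.mem_zmultiples g) w)
            (AddSubgroup.nsmul_mem _ (AddSubgroup.mem_zmultiples g) _)
      · obtain ⟨u, hu⟩ := CYC.undo hG (c := c) ⟨w, hw⟩
        have h2 : g ∈ AddSubgroup.zmultiples m := by
          rw [← hu g, hc]
          exact AddSubgroup.zsmul_mem _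
            (AddSubgroup.nsmul_mem _ (AddSubgroup.mem_zmultiples m) 2) u
        have h3 : AddSubgroup.zmultiples g ≤ AddSubgroup.zmultiples m :=
          AddSubgroup.zmultiples_le_of_mem h2
        have h4 : AddSubgroup.zmultiples g = AddSubgroup.zmultiples m := by
          apply AddSubgroup.eq_of_le_of_card_ge h3
          rw [Nat.card_zmultiples, Nat.card_zmultiples]
          exact hmax ⟨m, hm⟩
        rw [h4]
        exact AddSubgroup.mem_zmultiples m
  intro m hm
  exact key a m hm (hG.kill m)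

/-- ORD: a cyclic subgroup has at most `2 ^ a` elements -/
theorem ordc [Finite G] (hG : Homo G a r) (g : G) :
    Nat.card (AddSubgroup.zmultiples g) ≤ 2 ^ a := by
  rw [Nat.card_zmultiples]
  exact Nat.le_of_dvd (by positivity) (addOrderOf_dvd_of_nsmul_eq_zero (hG.kill g))

end Pool.Agent.Lib.MPa7239a.EX
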