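import Pool.Agent.Lib.MP_a7239a_co.EX.Defs
import Pool.Agent.Lib.MP_a7239a_co.W2.UPW

/-! # folder EX, module ORDX -/

set_option autoImplicit false

universe u v w

open Finset

namespace Pool.Agent.Lib.MPa7239a.EX

variable {G : Type u} [AddCommGroup G] {a r : ℕ}

/-- a subgroup whose part in `V i` lies in `V (i + 1)` lies in `V (i + 1)` -/
theorem ORDX.key (hG : Homo G a r) {i : ℕ} (hi : i < a) {H : AddSubgroup G}
    (h : H ⊓ V G i ≤ V G (i + 1)) : H ≤ V G (i + 1) := by
  have key : ∀ k : ℕ, ∀ x ∈ H, 2 ^ k • x ∈ V G (i + 1) → x ∈ V G (i + 1) := by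
    intro k
    induction k with
    | zero =>
      intro x _ h0
      rw [pow_zero, one_smul] at h0
      exact h0
    | succ k ih =>
      intro x hx h0
      have h1 : 2 • x ∈ V G (i + 1) := by
        apply ih _ (AddSubgroup.nsmul_mem _ hx 2)
        rw [smul_smul, ← pow_succ]
        exact h0
      exact h ⟨hx, hG.half hi h1⟩
  intro x hx
  apply key a x hx
  rw [hG.kill]
  exact AddSubgroup.zero_mem _

/-- ORD: large cyclic groups -/
theorem ordh [Finite G] (hG : Homo G a r) {i : ℕ} (hi : i < a) {g : G}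
    (h : 2 ^ (a - i) ≤ Nat.card (AddSubgroup.zmultiples g)) :
    ¬ AddSubgroup.zmultiples g ⊓ V G i ≤ V G (i + 1) := by
  intro h1
  have h2 := ORDX.key hG hi h1 (AddSubgroup.mem_zmultiples g)
  rw [hG.mem_iff (by omega)] at h2
  have h3 : addOrderOf g ≤ 2 ^ (a - (i + 1)) :=
    Nat.le_of_dvd (by positivity) (addOrderOf_dvd_iff_nsmul_eq_zero.2 h2)
  rw [Nat.card_zmultiples] at h
  have h4 : 2 ^ (a - i) = 2 * 2 ^ (a - (i + 1)) := by
    rw [← pow_succ']
    congr 1
    omega
  have h5 : 0 < 2 ^ (a - (i + 1)) := by positivity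
  omega

/-- ORD: large groups -/
theorem ordl [Finite G] (hG : Homo G a r) {i : ℕ} (hi : i < a) {H : AddSubgroup G}
    (h : (2 ^ r) ^ (a - i - 1) < Nat.card H) : ¬ H ⊓ V G i ≤ V G (i + 1) := by
  intro h1
  have h2 := ORDX.key hG hi h1
  have h3 : ∀ x ∈ H, 2 ^ (a - i - 1) • x = 0 := by
    intro x hx
    have := (hG.mem_iff (by omega)).1 (h2 hx)
    rw [show a - i - 1 = a - (i + 1) by omega]
    exact this
  have h4 := W2.card_kill G 2 (2 ^ r) hG.card.le (a - i - 1)
  have h5 : Nat.card H ≤ Nat.card {y : G // 2 ^ (a - i - 1) • y = 0} := by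
    refine Nat.card_le_card_of_injective
      (fun z : H => (⟨z.1, h3 z.1 z.2⟩ : {y : G // 2 ^ (a - i - 1) • y = 0})) ?_
    intro z z' hz
    have := congrArg (fun t : {y : G // 2 ^ (a - i - 1) • y = 0} => (t : G)) hz
    exact Subtype.ext this
  omega

end Pool.Agent.Lib.MPa7239a.EX
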