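import Pool.Agent.Lib.MP_a7239a_co.EX.Defs

/-! # folder EX: module HVM (nomeet, hv_mk, hv_up, hv_last), helper75 -/

set_option autoImplicit false

universe u v w

open Finset

namespace Pool.Agent.Lib.MPa7239a.EX

variable {G : Type u} [AddCommGroup G] {a r : ℕ} {ι : Type v}

open Classical in
/-- the sum of members with the same coset -/
theorem hvm_sum {y : ι → G} {H : ι → AddSubgroup G} {J : Finset ι} {x : G} {L : AddSubgroup G}
    (h : ∀ k ∈ J, cs (y k) (H k) = cs x L) : ∑ k ∈ J, y k - #J • x ∈ L := by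
  have h1 : ∑ k ∈ J, y k - #J • x = ∑ k ∈ J, (y k - x) := by
    rw [sum_sub_distrib, sum_const]
  rw [h1]
  refine L.sum_mem fun k hk => ?_
  have h2 := cs_eq_iff.1 (h k hk)
  rw [← h2.1]
  exact h2.2

/-- NOMEET -/
theorem nomeet (hG : Homo G a r) {i : ℕ} (hi : i < a) {y : ι → G} {H : ι → AddSubgroup G}
    {I : Finset ι} (hF : Fam i y H I) (hN : NoHit (2 ^ (a - i)) y H I) {x l x' l' : G}
    (hne : cs x (AddSubgroup.zmultiples l) ≠ cs x' (AddSubgroup.zmultiples l'))
    (h : 2 ^ (a - i) ≤ 2 * cnt y H I (cs x (AddSubgroup.zmultiples l)))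
    (h' : 2 ^ (a - i) ≤ 2 * cnt y H I (cs x' (AddSubgroup.zmultiples l'))) :
    ¬ Meet i x (AddSubgroup.zmultiples l) x' (AddSubgroup.zmultiples l') := by
  classical
  intro hM
  have hq : 2 ^ (a - i) = 2 * 2 ^ (a - (i + 1)) := by
    rw [← pow_succ', show a - (i + 1) + 1 = a - i by omega]
  have hq1 : 1 ≤ 2 ^ (a - (i + 1)) := Nat.one_le_two_pow
  rw [hq] at h h'
  have hA : 2 ^ (a - (i + 1)) ≤
      #(I.filter fun k => cs (y k) (H k) = cs x (AddSubgroup.zmultiples l)) := by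
    unfold cnt at h
    have : #(I.filter fun k => cs (y k) (H k) = cs x (AddSubgroup.zmultiples l)) =
      #(@Finset.filter ι (fun k => cs (y k) (H k) = cs x (AddSubgroup.zmultiples l))
        (fun k => Classical.propDecidable _) I) := by
      congr
    omega
  have hB : 2 ^ (a - (i + 1)) ≤
      #(I.filter fun k => cs (y k) (H k) = cs x' (AddSubgroup.zmultiples l')) := by
    unfold cnt at h'
    have : #(I.filter fun k => cs (y k) (H k) = cs x' (AddSubgroup.zmultiples l')) =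
      #(@Finset.filter ι (fun k => cs (y k) (H k) = cs x' (AddSubgroup.zmultiples l'))
        (fun k => Classical.propDecidable _) I) := by
      congr
    omega
  obtain ⟨A, hAs, hAc⟩ := exists_subset_card_eq hA
  obtain ⟨B, hBs, hBc⟩ := exists_subset_card_eq hB
  have hA1 : ∀ k ∈ A, cs (y k) (H k) = cs x (AddSubgroup.zmultiples l) := fun k hk =>
    (mem_filter.1 (hAs hk)).2
  have hB1 : ∀ k ∈ B, cs (y k) (H k) = cs x' (AddSubgroup.zmultiples l') := fun k hk =>
    (mem_filter.1 (hBs hk)).2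
  have hdis : Disjoint A B := by
    rw [Finset.disjoint_left]
    intro k hk hk'
    exact hne ((hA1 k hk).symm.trans (hB1 k hk'))
  have hAI : A ⊆ I := fun k hk => (mem_filter.1 (hAs hk)).1
  have hBI : B ⊆ I := fun k hk => (mem_filter.1 (hBs hk)).1
  have hcard : #(A ∪ B) = 2 ^ (a - i) := by
    rw [card_union_of_disjoint hdis, hAc, hBc, hq, two_mul]
  obtain ⟨k0, hk0⟩ : A.Nonempty := card_pos.1 (by omega)
  obtain ⟨k1, hk1⟩ : B.Nonempty := card_pos.1 (by omega)
  have hLA : AddSubgroup.zmultiples l ≤ ⨆ k ∈ A ∪ B, H k := by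
    rw [← (cs_eq_iff.1 (hA1 k0 hk0)).1]
    exact le_iSup₂ (f := fun k (_ : k ∈ A ∪ B) => H k) k0 (mem_union_left _ hk0)
  have hLB : AddSubgroup.zmultiples l' ≤ ⨆ k ∈ A ∪ B, H k := by
    rw [← (cs_eq_iff.1 (hB1 k1 hk1)).1]
    exact le_iSup₂ (f := fun k (_ : k ∈ A ∪ B) => H k) k1 (mem_union_right _ hk1)
  have hx' : x' ∈ V G i := by
    have h2 := cs_eq_iff.1 (hB1 k1 hk1)
    have h3 : y k1 - x' ∈ V G i := hF.hH k1 (hBI hk1) h2.2
    have h4 : x' = y k1 - (y k1 - x') := by abel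
    rw [h4]
    exact AddSubgroup.sub_mem _ (hF.hy k1 (hBI hk1)) h3
  refine hN (A ∪ B) (union_subset hAI hBI) hcard ?_
  rw [sum_union hdis]
  have e1 := hvm_sum hA1
  have e2 := hvm_sum hB1
  rw [hAc] at e1
  rw [hBc] at e2
  obtain ⟨p, hp, v, hv, hpv⟩ := AddSubgroup.mem_sup.1 hM
  obtain ⟨α, hα, β, hβ, hαβ⟩ := AddSubgroup.mem_sup.1 hp
  have hv0 : 2 ^ (a - (i + 1)) • v = 0 := (hG.mem_iff (by omega)).1 hv
  have hx0 : 2 ^ (a - i) • x' = 0 := (hG.mem_iff hi.le).1 hx'
  have hsum : ∑ k ∈ A, y k + ∑ k ∈ B, y k =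
      (∑ k ∈ A, y k - 2 ^ (a - (i + 1)) • x) + (∑ k ∈ B, y k - 2 ^ (a - (i + 1)) • x') +
        (2 ^ (a - (i + 1)) • α + 2 ^ (a - (i + 1)) • β) := by
    have h5 : 2 ^ (a - (i + 1)) • α + 2 ^ (a - (i + 1)) • β =
        2 ^ (a - (i + 1)) • (x - x') := by
      rw [← hpv, ← hαβ, smul_add, smul_add, hv0, add_zero]
    rw [h5, smul_sub]
    have h6 : 2 ^ (a - (i + 1)) • x' + 2 ^ (a - (i + 1)) • x' = 0 := by
      rw [← two_smul ℕ, smul_smul, ← hq]
      exact hx0
    have h7 : (∑ k ∈ A, y k - 2 ^ (a - (i + 1)) • x) + (∑ k ∈ B, y k - 2 ^ (a - (i + 1)) • x') +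
        (2 ^ (a - (i + 1)) • x - 2 ^ (a - (i + 1)) • x') = ∑ k ∈ A, y k + ∑ k ∈ B, y k -
        (2 ^ (a - (i + 1)) • x' + 2 ^ (a - (i + 1)) • x') := by abel
    rw [h7, h6, sub_zero]
  rw [hsum]
  refine AddSubgroup.add_mem _ (AddSubgroup.add_mem _ (hLA e1) (hLB e2))
    (AddSubgroup.add_mem _ (hLA ?_) (hLB ?_))
  · exact AddSubgroup.nsmul_mem _ hα _
  · exact AddSubgroup.nsmul_mem _ hβ _

/-- HVM: `2 ^ (r - 1)` lines which do not meet are heavy -/
theorem hv_mk [Finite G] (hG : Homo G a r) (hr : 1 ≤ r) {i : ℕ} (hi : i < a)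
    (T : Finset (Set G)) (hT : #T = 2 ^ (r - 1)) (hL : ∀ t ∈ T, Ln i t)
    (hd : ∀ x l x' l' : G, cs x (AddSubgroup.zmultiples l) ∈ T →
      cs x' (AddSubgroup.zmultiples l') ∈ T →
      cs x (AddSubgroup.zmultiples l) ≠ cs x' (AddSubgroup.zmultiples l') →
      ¬ Meet i x (AddSubgroup.zmultiples l) x' (AddSubgroup.zmultiples l')) :
    ∃ x l : {t // t ∈ T} → G, Hv i x l ∧ ∀ t, t.1 = cs (x t) (AddSubgroup.zmultiples (l t)) := by
  classical
  have hL' : ∀ t : {t // t ∈ T}, ∃ x ∈ V G i, ∃ l ∈ V G i, l ∉ V G (i + 1) ∧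
      t.1 = cs x (AddSubgroup.zmultiples l) := fun t => hL t.1 t.2
  choose x hx l hl hn he using hL'
  have hdis : ∀ k k' : {t // t ∈ T}, Meet i (x k) (AddSubgroup.zmultiples (l k)) (x k')
      (AddSubgroup.zmultiples (l k')) → k = k' := by
    intro k k' hM
    by_contra hne
    refine hd (x k) (l k) (x k') (l k') ?_ ?_ ?_ hM
    · rw [← he k]; exact k.2
    · rw [← he k']; exact k'.2
    · rw [← he k, ← he k']
      exact fun h => hne (Subtype.ext h)
  refine ⟨x, l, ⟨hx, hl, hn, ?_, hdis⟩, he⟩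
  intro z hz
  let f : {t // t ∈ T} × Bool → G := fun p => x p.1 + (if p.2 then l p.1 else 0)
  have hfl : ∀ p, f p - x p.1 ∈ AddSubgroup.zmultiples (l p.1) := by
    intro p
    show x p.1 + (if p.2 then l p.1 else 0) - x p.1 ∈ _
    rw [add_sub_cancel_left]
    split_ifs
    · exact AddSubgroup.mem_zmultiples _
    · exact AddSubgroup.zero_mem _
  have hinc : ∀ p p', p ≠ p' → f p - f p' ∉ V G (i + 1) := by
    intro p p' hne hmem
    by_cases h1 : p.1 = p'.1
    · have h2 : p.2 ≠ p'.2 := fun h => hne (Prod.ext h1 h)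
      obtain ⟨k, b⟩ := p
      obtain ⟨k', b'⟩ := p'
      simp only at h1 h2
      subst h1
      cases b <;> cases b'
      · exact h2 rfl
      · apply hn k
        have h3 : l k = -(f (k, false) - f (k, true)) := by
          show l k = -(x k + (if false = true then l k else 0) -
            (x k + (if true = true then l k else 0)))
          rw [if_neg (by decide), if_pos rfl]
          abel
        rw [h3]
        exact AddSubgroup.neg_mem _ hmem
      · apply hn k
        have h3 : l k = f (k, true) - f (k, false) := by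
          show l k = (x k + (if true = true then l k else 0) -
            (x k + (if false = true then l k else 0)))
          rw [if_pos rfl, if_neg (by decide)]
          abel
        rw [h3]
        exact hmem
      · exact h2 rfl
    · apply h1
      apply hdis
      show x p.1 - x p'.1 ∈ _
      have h2 : x p.1 - x p'.1 = -(f p - x p.1) + (f p' - x p'.1) + (f p - f p') := by abel
      rw [h2]
      refine AddSubgroup.add_mem _ (AddSubgroup.add_mem _ ?_ ?_) ?_
      · exact (le_sup_left.trans le_sup_left : AddSubgroup.zmultiples (l p.1) ≤ _)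
          (AddSubgroup.neg_mem _ (hfl p))
      · exact (le_sup_right.trans le_sup_left : AddSubgroup.zmultiples (l p'.1) ≤ _) (hfl p')
      · exact (le_sup_right : V G (i + 1) ≤ _) hmem
  have hfinj : Function.Injective f := by
    intro p p' h
    by_contra hne
    apply hinc p p' hne
    rw [h, sub_self]
    exact AddSubgroup.zero_mem _
  have hcard : #(univ.image f) = 2 ^ r := by
    rw [card_image_of_injective _ hfinj, card_univ, Fintype.card_prod, Fintype.card_bool,
      Fintype.card_coe, hT, ← pow_succ, Nat.sub_add_cancel hr]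
  obtain ⟨s, hs, hzs⟩ := hG.cover hi (univ.image f) (by
    intro s hs
    obtain ⟨p, -, rfl⟩ := mem_image.1 hs
    have h2 : f p = x p.1 + (f p - x p.1) := by abel
    rw [h2]
    refine AddSubgroup.add_mem _ (hx _) ?_
    have h3 : AddSubgroup.zmultiples (l p.1) ≤ V G i := by
      rw [AddSubgroup.zmultiples_le]
      exact hl _
    exact h3 (hfl p)) (by
    intro s hs s' hs' hne
    obtain ⟨p, -, rfl⟩ := mem_image.1 hs
    obtain ⟨p', -, rfl⟩ := mem_image.1 hs'
    exact hinc p p' (fun h => hne (by rw [h]))) hcard z hz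
  obtain ⟨p, -, rfl⟩ := mem_image.1 hs
  refine ⟨p.1, ?_⟩
  have h2 : z - x p.1 = (f p - x p.1) + (z - f p) := by abel
  rw [h2]
  exact AddSubgroup.add_mem _ ((le_sup_left : AddSubgroup.zmultiples (l p.1) ≤ _) (hfl p))
    ((le_sup_right : V G (i + 1) ≤ _) hzs)

/-- HVM -/
theorem hv_up (hG : Homo G a r) {i : ℕ} (hi : i + 1 < a) {κ : Type w} {x l : κ → G}
    (h : Hv i x l) : Hv (i + 1) (fun k => 2 • x k) (fun k => 2 • l k) := by
  refine ⟨fun k => two_mem (h.hx k), fun k => two_mem (h.hl k), ?_, ?_, ?_⟩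
  · intro k hk
    exact h.hn k (hG.half hi hk)
  · intro z hz
    obtain ⟨w, hw⟩ := hz
    have hw' : 2 ^ (i + 1) • w = z := hw
    obtain ⟨k, hk⟩ := h.cov (2 ^ i • w) ⟨w, rfl⟩
    refine ⟨k, ?_⟩
    obtain ⟨p, hp, v, hv, hpv⟩ := AddSubgroup.mem_sup.1 hk
    obtain ⟨c, hc⟩ := AddSubgroup.mem_zmultiples_iff.1 hp
    have h2 : z - 2 • x k = c • (2 • l k) + 2 • v := by
      have h3 : z = 2 • (2 ^ i • w) := by rw [← hw', smul_smul, pow_succ']
      rw [h3, ← smul_sub, ← hpv, ← hc, smul_add, smul_comm 2 c (l k)]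
    show z - 2 • x k ∈ _
    rw [h2]
    exact AddSubgroup.add_mem _ ((le_sup_left : AddSubgroup.zmultiples (2 • l k) ≤ _)
      (AddSubgroup.mem_zmultiples_iff.2 ⟨c, rfl⟩))
      ((le_sup_right : V G (i + 1 + 1) ≤ _) (two_mem hv))
  · intro k k' hM
    apply h.dis
    have hM' : 2 • x k - 2 • x k' ∈ AddSubgroup.zmultiples (2 • l k) ⊔
      AddSubgroup.zmultiples (2 • l k') ⊔ V G (i + 1 + 1) := hM
    obtain ⟨p, hp, v, hv, hpv⟩ := AddSubgroup.mem_sup.1 hM'
    obtain ⟨α, hα, β, hβ, hαβ⟩ := AddSubgroup.mem_sup.1 hp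
    obtain ⟨c, hc⟩ := AddSubgroup.mem_zmultiples_iff.1 hα
    obtain ⟨c', hc'⟩ := AddSubgroup.mem_zmultiples_iff.1 hβ
    show x k - x k' ∈ _
    have h2 : x k - x k' - c • l k - c' • l k' ∈ V G (i + 1) := by
      apply hG.half hi
      have h3 : 2 • (x k - x k' - c • l k - c' • l k') = v := by
        have h4 : v = (2 • x k - 2 • x k') - (c • (2 • l k) + c' • (2 • l k')) := by
          rw [← hpv, ← hαβ, ← hc, ← hc']
          abel
        rw [h4, smul_comm c 2 (l k), smul_comm c' 2 (l k')]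
        simp only [smul_sub]
        abel
      rw [h3]
      exact hv
    have h5 : x k - x k' = (c • l k + c' • l k') + (x k - x k' - c • l k - c' • l k') := by abel
    rw [h5]
    exact AddSubgroup.add_mem _ ((le_sup_left : AddSubgroup.zmultiples (l k) ⊔
      AddSubgroup.zmultiples (l k') ≤ _) (AddSubgroup.add_mem _
      ((le_sup_left : AddSubgroup.zmultiples (l k) ≤ _)
        (AddSubgroup.mem_zmultiples_iff.2 ⟨c, rfl⟩))
      ((le_sup_right : AddSubgroup.zmultiples (l k') ≤ _)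
        (AddSubgroup.mem_zmultiples_iff.2 ⟨c', rfl⟩)))) ((le_sup_right : V G (i + 1) ≤ _) h2)

/-- HVM: `m` levels up -/
theorem hv_add (hG : Homo G a r) {i : ℕ} {κ : Type w} {x l : κ → G} (h : Hv i x l) :
    ∀ m : ℕ, i + m < a → Hv (i + m) (fun k => 2 ^ m • x k) (fun k => 2 ^ m • l k)
  | 0, _ => by simpa using h
  | m + 1, hm => by
    have h1 := hv_up hG (i := i + m) hm (hv_add hG h m (by omega))
    have h2 : ∀ z : G, 2 • 2 ^ m • z = 2 ^ (m + 1) • z := fun z => by
      rw [smul_smul, pow_succ']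
    simp only [h2] at h1
    exact h1

/-- HVM: the last level -/
theorem hv_last (hG : Homo G a r) {i : ℕ} (hi : i < a) {κ : Type w} {x l : κ → G}
    (h : Hv i x l) : Hv (a - 1) (fun k => 2 ^ (a - 1 - i) • x k)
      (fun k => 2 ^ (a - 1 - i) • l k) := by
  have h1 := hv_add hG h (a - 1 - i) (by omega)
  rw [show i + (a - 1 - i) = a - 1 by omega] at h1
  exact h1

end Pool.Agent.Lib.MPa7239a.EX
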