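import Pool.Agent.Lib.MP_a7239a_co.EX.Defs

/-!
# DISJ: families of cosets which do not meet modulo `V (i + 1)`
-/

set_option autoImplicit false

universe u v

open Finset

namespace Pool.Agent.Lib.MPa7239a.EX

variable {G : Type u} [AddCommGroup G] {a r : ℕ} {ι : Type v}

namespace DISJM

/-- the data: representatives -/
theorem exists_rep {i : ℕ} {y : ι → G} {H : ι → AddSubgroup G} {I : Finset ι}
    (hF : Fam i y H I) : ∃ h : ι → G, ∀ k ∈ I, h k ∈ H k ∧ h k ∉ V G (i + 1) := by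
  classical
  have h1 : ∀ k, ∃ g : G, k ∈ I → g ∈ H k ∧ g ∉ V G (i + 1) := by
    intro k
    by_cases hk : k ∈ I
    · have h2 := hF.hn k hk
      rw [SetLike.le_def] at h2
      push Not at h2
      obtain ⟨g, hg1, hg2⟩ := h2
      exact ⟨g, fun _ => ⟨hg1, hg2⟩⟩
    · exact ⟨0, fun h => absurd h hk⟩
  choose h hh using h1
  exact ⟨h, hh⟩

/-- the point number `b` of the member `k` -/
def pt (y h : ι → G) (p : ι × Bool) : G := if p.2 then y p.1 + h p.1 else y p.1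

theorem pt_sub_mem {y h : ι → G} {H : ι → AddSubgroup G} {k : ι} (hk : h k ∈ H k) (b : Bool) :
    pt y h (k, b) - y k ∈ H k := by
  cases b
  · show y k - y k ∈ H k
    rw [sub_self]
    exact (H k).zero_mem
  · show y k + h k - y k ∈ H k
    rw [add_sub_cancel_left]
    exact hk

theorem pt_sep {i : ℕ} {y : ι → G} {H : ι → AddSubgroup G} {I : Finset ι}
    (hd : ∀ k ∈ I, ∀ k' ∈ I, k ≠ k' → ¬ Meet i (y k) (H k) (y k') (H k')) {h : ι → G}
    (hh : ∀ k ∈ I, h k ∈ H k ∧ h k ∉ V G (i + 1)) {p p' : ι × Bool} (hp : p.1 ∈ I)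
    (hp' : p'.1 ∈ I) (hne : p ≠ p') : pt y h p - pt y h p' ∉ V G (i + 1) := by
  intro hV
  obtain ⟨k, b⟩ := p
  obtain ⟨k', b'⟩ := p'
  by_cases hk : k = k'
  · subst hk
    have hb : b ≠ b' := fun e => hne (by rw [e])
    cases b <;> cases b'
    · exact hb rfl
    · apply (hh k hp).2
      have h1 : h k = -(pt y h (k, false) - pt y h (k, true)) := by
        show h k = -(y k - (y k + h k))
        abel
      rw [h1]
      exact AddSubgroup.neg_mem _ hV
    · apply (hh k hp).2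
      have h1 : h k = pt y h (k, true) - pt y h (k, false) := by
        show h k = y k + h k - y k
        abel
      rw [h1]
      exact hV
    · exact hb rfl
  · apply hd k hp k' hp' hk
    have h1 := pt_sub_mem (y := y) (hh k hp).1 b
    have h2 := pt_sub_mem (y := y) (hh k' hp').1 b'
    have h3 : y k - y k' = -(pt y h (k, b) - y k) + (pt y h (k', b') - y k') +
        (pt y h (k, b) - pt y h (k', b')) := by abel
    show y k - y k' ∈ H k ⊔ H k' ⊔ V G (i + 1)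
    rw [h3]
    exact AddSubgroup.add_mem_sup (AddSubgroup.add_mem_sup (AddSubgroup.neg_mem _ h1) h2) hV

theorem pt_mem {i : ℕ} {y : ι → G} {H : ι → AddSubgroup G} {I : Finset ι}
    (hF : Fam i y H I) {h : ι → G}
    (hh : ∀ k ∈ I, h k ∈ H k ∧ h k ∉ V G (i + 1)) {p : ι × Bool} (hp : p.1 ∈ I) :
    pt y h p ∈ V G i := by
  obtain ⟨k, b⟩ := p
  have h1 := pt_sub_mem (y := y) (hh k hp).1 b
  have h2 : pt y h (k, b) = (pt y h (k, b) - y k) + y k := by abel
  rw [h2]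
  exact AddSubgroup.add_mem _ (hF.hH k hp h1) (hF.hy k hp)

theorem exists_set {i : ℕ} {y : ι → G} {H : ι → AddSubgroup G} {I : Finset ι}
    (hF : Fam i y H I)
    (hd : ∀ k ∈ I, ∀ k' ∈ I, k ≠ k' → ¬ Meet i (y k) (H k) (y k') (H k')) :
    ∃ S : Finset G, #S = #I * 2 ∧ (∀ x ∈ S, x ∈ V G i) ∧
      (∀ x ∈ S, ∀ y ∈ S, x ≠ y → x - y ∉ V G (i + 1)) ∧
      ∀ x ∈ S, ∃ k ∈ I, x - y k ∈ H k := by
  classical
  obtain ⟨h, hh⟩ := exists_rep hF
  have hinj : Set.InjOn (pt y h) ((I ×ˢ (univ : Finset Bool) : Finset (ι × Bool)) :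
      Set (ι × Bool)) := by
    intro p hp p' hp' he
    by_contra hne
    have hp1 := (mem_product.1 (mem_coe.1 hp)).1
    have hp2 := (mem_product.1 (mem_coe.1 hp')).1
    refine pt_sep hd hh hp1 hp2 hne ?_
    rw [he, sub_self]
    exact AddSubgroup.zero_mem _
  refine ⟨(I ×ˢ (univ : Finset Bool)).image (pt y h), ?_, ?_, ?_, ?_⟩
  · rw [card_image_of_injOn hinj, card_product, card_univ, Fintype.card_bool]
  · intro x hx
    obtain ⟨p, hp, rfl⟩ := mem_image.1 hx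
    exact pt_mem hF hh (mem_product.1 hp).1
  · intro x hx x' hx' hne
    obtain ⟨p, hp, rfl⟩ := mem_image.1 hx
    obtain ⟨p', hp', rfl⟩ := mem_image.1 hx'
    exact pt_sep hd hh (mem_product.1 hp).1 (mem_product.1 hp').1 fun e => hne (by rw [e])
  · intro x hx
    obtain ⟨⟨k, b⟩, hp, rfl⟩ := mem_image.1 hx
    exact ⟨k, (mem_product.1 hp).1, pt_sub_mem (hh k (mem_product.1 hp).1).1 b⟩

end DISJM

/-- DISJ -/
theorem disj [Finite G] (hG : Homo G a r) (hr : 1 ≤ r) {i : ℕ} (hi : i < a) {y : ι → G}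
    {H : ι → AddSubgroup G} {I : Finset ι} (hF : Fam i y H I)
    (hd : ∀ k ∈ I, ∀ k' ∈ I, k ≠ k' → ¬ Meet i (y k) (H k) (y k') (H k')) : #I ≤ 2 ^ (r - 1) := by
  obtain ⟨S, h1, h2, h3, -⟩ := DISJM.exists_set hF hd
  have h4 := hG.sep hi S h2 h3
  rw [h1, ← Nat.sub_add_cancel hr, pow_succ] at h4
  exact Nat.le_of_mul_le_mul_right h4 (by norm_num)

/-- DISJ -/
theorem disj_cover [Finite G] (hG : Homo G a r) (hr : 1 ≤ r) {i : ℕ} (hi : i < a) {y : ι → G}
    {H : ι → AddSubgroup G} {I : Finset ι} (hF : Fam i y H I)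
    (hd : ∀ k ∈ I, ∀ k' ∈ I, k ≠ k' → ¬ Meet i (y k) (H k) (y k') (H k'))
    (hc : #I = 2 ^ (r - 1)) (z : G) (hz : z ∈ V G i) : ∃ k ∈ I, z - y k ∈ H k ⊔ V G (i + 1) := by
  obtain ⟨S, h1, h2, h3, h4⟩ := DISJM.exists_set hF hd
  have h5 : #S = 2 ^ r := by
    rw [h1, hc, ← pow_succ, Nat.sub_add_cancel hr]
  obtain ⟨x, hx, hzx⟩ := hG.cover hi S h2 h3 h5 z hz
  obtain ⟨k, hk, hxk⟩ := h4 x hx
  refine ⟨k, hk, ?_⟩
  have h6 : z - y k = (x - y k) + (z - x) := by abel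
  rw [h6]
  exact AddSubgroup.add_mem_sup hxk hzx

end Pool.Agent.Lib.MPa7239a.EX
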