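import Pool.Agent.Lib.MP_a7239a_co.EX.Defs
import Pool.Agent.Lib.MP_a7239a_co.W2.HARB

/-! # folder EX, module HARBI: Harborth's bound for families of cosets at level `i` -/

set_option autoImplicit false

universe u v

open Finset

namespace Pool.Agent.Lib.MPa7239a.EX

variable {G : Type u} [AddCommGroup G] {a r : ℕ} {ι : Type v}

theorem harbi_geom (j : ℕ) : ∑ i ∈ range j, 2 ^ i = 2 ^ j - 1 := by
  induction j with
  | zero => simp
  | succ j ih =>
    rw [sum_range_succ, ih, pow_succ]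
    have : 1 ≤ 2 ^ j := Nat.one_le_two_pow
    omega

/-- HARBI -/
theorem harbi [Finite G] (hG : Homo G a r) (hr : 1 ≤ r) {i : ℕ} (hi : i < a) {y : ι → G}
    {H : ι → AddSubgroup G} {I : Finset ι} (hF : Fam i y H I)
    (hN : NoHit (2 ^ (a - i)) y H I) : #I ≤ 2 ^ (r - 1) * (2 ^ (a - i) - 1) := by
  classical
  by_contra hcon
  have hh : ∀ k, ∃ h : V G i, k ∈ I → (h : G) ∈ H k ∧ (h : G) ∉ V G (i + 1) := by
    intro k
    by_cases hk : k ∈ I
    · obtain ⟨h, h1, h2⟩ := SetLike.not_le_iff_exists.1 (hF.hn k hk)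
      exact ⟨⟨h, hF.hH k hk h1⟩, fun _ => ⟨h1, h2⟩⟩
    · exact ⟨0, fun h => absurd h hk⟩
  choose c hc using hh
  have hy' : ∀ k, ∃ z : V G i, k ∈ I → (z : G) = y k := by
    intro k
    by_cases hk : k ∈ I
    · exact ⟨⟨y k, hF.hy k hk⟩, fun _ => rfl⟩
    · exact ⟨0, fun h => absurd h hk⟩
  choose z hz using hy'
  obtain ⟨T, hTI, hTc, hsum⟩ := W2.harb.{u, v} (p := 2) (r := r) (B := 2 ^ (r - 1)) one_le_two
    (W2.comp_two hr) (a - i) (V G i)
    (by
      intro x
      apply Subtype.ext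
      exact (hG.mem_iff hi.le).1 x.2)
    (by
      have : Finite {x : G // 2 • x = 0} := inferInstance
      rw [← hG.card]
      refine Nat.card_le_card_of_injective
        (fun x : {x : V G i // 2 • x = 0} => (⟨x.1.1, congrArg Subtype.val x.2⟩ :
          {x : G // 2 • x = 0})) ?_
      intro x x' h
      have h3 : x.1.1 = x'.1.1 := congrArg (fun t : {x : G // 2 • x = 0} => (t : G)) h
      exact Subtype.ext (Subtype.ext h3))
    ι z c I
    (by
      intro k hk
      right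
      intro h
      apply (hc k hk).2
      rw [hG.mem_iff hi, show a - (i + 1) = a - i - 1 by omega]
      exact congrArg Subtype.val h)
    (by
      rw [harbi_geom]
      omega)
  refine hN T hTI hTc ?_
  have h3 := AddSubgroup.mem_map_of_mem (V G i).subtype hsum
  rw [AddMonoidHom.map_closure, map_sum] at h3
  have h4 : ∑ k ∈ T, (V G i).subtype (z k) = ∑ k ∈ T, y k :=
    sum_congr rfl fun k hk => hz k (hTI hk)
  rw [h4] at h3
  refine (AddSubgroup.closure_le _).2 ?_ h3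
  rintro x ⟨x', ⟨k, hk, rfl⟩, rfl⟩
  have hk' : k ∈ T := mem_coe.1 hk
  exact AddSubgroup.mem_iSup_of_mem k (AddSubgroup.mem_iSup_of_mem hk' (hc k (hTI hk')).1)

/-- HARBI: one coset occurs at most `2 ^ (a - i) - 1` times -/
theorem cnt_le (hG : Homo G a r) {i : ℕ} (hi : i ≤ a) {y : ι → G}
    {H : ι → AddSubgroup G} {I : Finset ι} (hF : Fam i y H I)
    (hN : NoHit (2 ^ (a - i)) y H I) (t : Set G) : cnt y H I t + 1 ≤ 2 ^ (a - i) := by
  classical
  by_contra hcon
  have h1 : 2 ^ (a - i) ≤ #(I.filter fun k => cs (y k) (H k) = t) := by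
    have : 2 ^ (a - i) ≤ cnt y H I t := by omega
    exact this
  obtain ⟨J, hJ, hJc⟩ := exists_subset_card_eq h1
  have hJI : J ⊆ I := hJ.trans (filter_subset _ _)
  have hne : J.Nonempty := card_pos.1 (by rw [hJc]; positivity)
  obtain ⟨k₀, hk₀⟩ := hne
  have ht : ∀ k ∈ J, cs (y k) (H k) = t := fun k hk => (mem_filter.1 (hJ hk)).2
  refine hN J hJI hJc ?_
  have h2 : ∑ k ∈ J, y k = ∑ k ∈ J, (y k - y k₀) + 2 ^ (a - i) • y k₀ := by
    rw [sum_sub_distrib, sum_const, hJc, sub_add_cancel]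
  rw [h2, (hG.mem_iff hi).1 (hF.hy k₀ (hJI hk₀)), add_zero]
  refine AddSubgroup.sum_mem _ fun k hk => ?_
  have h3 := cs_eq_iff.1 ((ht k hk).trans (ht k₀ hk₀).symm)
  exact AddSubgroup.mem_iSup_of_mem k (AddSubgroup.mem_iSup_of_mem hk h3.2)

end Pool.Agent.Lib.MPa7239a.EX
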