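import Pool.Agent.Lib.MP_a7239a_co.EX.Defs
import Pool.Agent.Lib.MP_a7239a_co.EX.DISJ

/-! Module MATCH (helper21): matchings. -/

set_option autoImplicit false

universe u v w

open Finset

namespace Pool.Agent.Lib.MPa7239a.EX

variable {G : Type u} [AddCommGroup G] {a r : ℕ} {ι : Type v}

namespace MATCHM

theorem ps_ne {i : ℕ} {y : ι → G} {H : ι → AddSubgroup G} {k k' : ι}
    (hk : y k' ∈ V G i) (h : Meet i (y k) (H k) (y k') (H k')) : (ps i y H k k').Nonempty := by
  obtain ⟨s, hs, z, hz, e⟩ := AddSubgroup.mem_sup.1 h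
  refine ⟨z + 2 • y k', AddSubgroup.add_mem _ hz (two_mem hk), ?_⟩
  have e2 : z + 2 • y k' - (y k + y k') = -s := by
    have e3 : y k = s + z + y k' := by rw [e]; abel
    rw [e3]
    abel
  rw [e2]
  exact AddSubgroup.neg_mem _ hs

theorem Zp_mem {i : ℕ} {y : ι → G} {H : ι → AddSubgroup G} {p : ι × ι}
    (h : (ps i y H p.1 p.2).Nonempty) : Zp i y H p ∈ ps i y H p.1 p.2 := by
  unfold Zp
  rw [dif_pos h]
  exact h.some_mem

theorem ps_cs' {i : ℕ} {y : ι → G} {H : ι → AddSubgroup G} {p : ι × ι}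
    (h : (ps i y H p.1 p.2).Nonempty) :
    cs (Zp i y H p) (Kp i H p) = ps i y H p.1 p.2 := by
  obtain ⟨h1, h2⟩ := Zp_mem h
  ext x
  constructor
  · rintro ⟨h3, h4⟩
    refine ⟨?_, ?_⟩
    · have := AddSubgroup.add_mem _ h4 h1
      rwa [sub_add_cancel] at this
    · have := AddSubgroup.add_mem _ h3 h2
      rwa [sub_add_sub_cancel] at this
  · rintro ⟨h3, h4⟩
    refine ⟨?_, AddSubgroup.sub_mem _ h3 h1⟩
    have := AddSubgroup.sub_mem _ h4 h2
    rwa [sub_sub_sub_cancel_right] at this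

theorem mat_ne {i : ℕ} {y : ι → G} {H : ι → AddSubgroup G}
    {I : Finset ι} (hF : Fam i y H I) {P : Finset (ι × ι)} (hP : Mat i y H I P) {p : ι × ι}
    (hp : p ∈ P) : (ps i y H p.1 p.2).Nonempty :=
  ps_ne (hF.hy _ (hP.mem p hp).2.1) (hP.meet p hp)

theorem mat_sub {i : ℕ} {y : ι → G} {H : ι → AddSubgroup G}
    {I : Finset ι} {P Q : Finset (ι × ι)} (hP : Mat i y H I P) (h : Q ⊆ P) : Mat i y H I Q :=
  ⟨fun p hp => hP.mem p (h hp), fun p hp => hP.meet p (h hp),
    fun p hp p' hp' hne => hP.disj p (h hp) p' (h hp') hne⟩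

section Card

variable {i : ℕ} {y : ι → G} {H : ι → AddSubgroup G} {I : Finset ι} {P : Finset (ι × ι)}

theorem inj1 (hP : Mat i y H I P) : Set.InjOn Prod.fst (P : Set (ι × ι)) := by
  intro p hp p' hp' h
  by_contra hne
  exact (hP.disj p hp p' hp' hne).1 h

theorem inj2 (hP : Mat i y H I P) : Set.InjOn Prod.snd (P : Set (ι × ι)) := by
  intro p hp p' hp' h
  by_contra hne
  exact (hP.disj p hp p' hp' hne).2.2.2 h

open Classical in
theorem disj12 (hP : Mat i y H I P) : Disjoint (P.image Prod.fst) (P.image Prod.snd) := by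
  rw [Finset.disjoint_left]
  intro k h1 h2
  obtain ⟨p, hp, rfl⟩ := mem_image.1 h1
  obtain ⟨p', hp', e⟩ := mem_image.1 h2
  by_cases hne : p = p'
  · subst hne
    exact (hP.mem p hp).2.2 e.symm
  · exact (hP.disj p hp p' hp' hne).2.1 e.symm

open Classical in
theorem card_both (hP : Mat i y H I P) : #(P.image Prod.fst ∪ P.image Prod.snd) = 2 * #P := by
  rw [card_union_of_disjoint (disj12 hP), card_image_of_injOn (inj1 hP),
    card_image_of_injOn (inj2 hP), two_mul]

end Card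

end MATCHM

open MATCHM

/-- MATCH -/
theorem mat_fam (hG : Homo G a r) {i : ℕ} (hi : i + 1 < a) {y : ι → G} {H : ι → AddSubgroup G}
    {I : Finset ι} (hF : Fam i y H I) {P : Finset (ι × ι)} (hP : Mat i y H I P) :
    Fam (i + 1) (Zp i y H) (Kp i H) P := by
  refine ⟨fun p hp => (Zp_mem (mat_ne hF hP hp)).1, fun p _ => inf_le_right, ?_⟩
  intro p hp hle
  apply hF.hn p.1 (hP.mem p hp).1
  intro h hh
  have h1 : 2 • h ∈ Kp i H p :=
    ⟨AddSubgroup.mem_sup_left (AddSubgroup.nsmul_mem _ hh 2),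
      two_mem (hF.hH p.1 (hP.mem p hp).1 hh)⟩
  exact hG.half hi (hle h1)

/-- MATCH -/
theorem mat_nohit {i : ℕ} (hi : i < a) {y : ι → G} {H : ι → AddSubgroup G}
    {I : Finset ι} (hF : Fam i y H I) (hN : NoHit (2 ^ (a - i)) y H I) {P : Finset (ι × ι)}
    (hP : Mat i y H I P) : NoHit (2 ^ (a - (i + 1))) (Zp i y H) (Kp i H) P := by
  classical
  intro J hJ hc hmem
  have hJm := mat_sub hP hJ
  apply hN (J.image Prod.fst ∪ J.image Prod.snd) ?_ ?_
  · rw [sum_union (disj12 hJm), sum_image (fun p hp p' hp' h => inj1 hJm hp hp' h),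
      sum_image (fun p hp p' hp' h => inj2 hJm hp hp' h), ← sum_add_distrib]
    have hsub : ∀ p ∈ J, H p.1 ⊔ H p.2 ≤ ⨆ k ∈ J.image Prod.fst ∪ J.image Prod.snd, H k := by
      intro p hp
      refine sup_le ?_ ?_
      · exact le_iSup₂_of_le p.1 (mem_union_left _ (mem_image_of_mem _ hp)) le_rfl
      · exact le_iSup₂_of_le p.2 (mem_union_right _ (mem_image_of_mem _ hp)) le_rfl
    have h1 : ∑ p ∈ J, Zp i y H p ∈ ⨆ k ∈ J.image Prod.fst ∪ J.image Prod.snd, H k := by
      refine (iSup₂_le fun p hp => ?_ : ⨆ k ∈ J, Kp i H k ≤ _) hmem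
      exact le_trans inf_le_left (hsub p hp)
    have h2 : ∑ p ∈ J, (Zp i y H p - (y p.1 + y p.2)) ∈
        ⨆ k ∈ J.image Prod.fst ∪ J.image Prod.snd, H k :=
      AddSubgroup.sum_mem _ fun p hp => hsub p hp (Zp_mem (mat_ne hF hP (hJ hp))).2
    have h3 := AddSubgroup.sub_mem _ h1 h2
    rw [sum_sub_distrib, sub_sub_cancel] at h3
    exact h3
  · intro k hk
    rcases mem_union.1 hk with h | h
    · obtain ⟨p, hp, rfl⟩ := mem_image.1 h
      exact (hP.mem p (hJ hp)).1
    · obtain ⟨p, hp, rfl⟩ := mem_image.1 h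
      exact (hP.mem p (hJ hp)).2.1
  · rw [card_both hJm, hc, ← pow_succ']
    congr 1
    omega

/-- MATCH: a maximum matching; the unmatched members do not meet -/
theorem mat_max (i : ℕ) (y : ι → G) (H : ι → AddSubgroup G) (I : Finset ι) :
    ∃ P, Mat i y H I P ∧ ∀ P', Mat i y H I P' → #P' ≤ #P := by
  classical
  have hmem : ∀ P, Mat i y H I P → P ∈ ((I ×ˢ I).powerset.filter fun P => Mat i y H I P) := by
    intro P hP
    rw [mem_filter, mem_powerset]
    refine ⟨fun p hp => ?_, hP⟩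
    rw [mem_product]
    exact ⟨(hP.mem p hp).1, (hP.mem p hp).2.1⟩
  have h0 : Mat i y H I ∅ :=
    ⟨fun p hp => absurd hp (notMem_empty p), fun p hp => absurd hp (notMem_empty p),
      fun p hp => absurd hp (notMem_empty p)⟩
  obtain ⟨P, hP, hmax⟩ := exists_max_image
    ((I ×ˢ I).powerset.filter fun P => Mat i y H I P) (fun P => #P) ⟨∅, hmem ∅ h0⟩
  exact ⟨P, (mem_filter.1 hP).2, fun P' hP' => hmax P' (hmem P' hP')⟩

/-- MATCH: the unmatched members of a maximum matching do not meet -/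
theorem mat_unm {i : ℕ} {y : ι → G} {H : ι → AddSubgroup G} {I : Finset ι}
    {P : Finset (ι × ι)} (hP : Mat i y H I P) (hmax : ∀ P', Mat i y H I P' → #P' ≤ #P) {k k' : ι}
    (hk : k ∈ I) (hk' : k' ∈ I) (hne : k ≠ k') (h1 : ∀ p ∈ P, p.1 ≠ k ∧ p.2 ≠ k)
    (h1' : ∀ p ∈ P, p.1 ≠ k' ∧ p.2 ≠ k') : ¬ Meet i (y k) (H k) (y k') (H k') := by
  classical
  intro hm
  have hnot : (k, k') ∉ P := fun h => (h1 _ h).1 rfl
  have hmat : Mat i y H I (insert (k, k') P) := by
    refine ⟨?_, ?_, ?_⟩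
    · intro p hp
      rcases mem_insert.1 hp with rfl | hp
      · exact ⟨hk, hk', hne⟩
      · exact hP.mem p hp
    · intro p hp
      rcases mem_insert.1 hp with rfl | hp
      · exact hm
      · exact hP.meet p hp
    · intro p hp p' hp' hpp
      rcases mem_insert.1 hp with rfl | hp
      · rcases mem_insert.1 hp' with rfl | hp'
        · exact absurd rfl hpp
        · exact ⟨(h1 p' hp').1.symm, (h1 p' hp').2.symm, (h1' p' hp').1.symm,
            (h1' p' hp').2.symm⟩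
      · rcases mem_insert.1 hp' with rfl | hp'
        · exact ⟨(h1 p hp).1, (h1' p hp).1, (h1 p hp).2, (h1' p hp).2⟩
        · exact hP.disj p hp p' hp' hpp
  have := hmax _ hmat
  rw [card_insert_of_notMem hnot] at this
  omega

/-- MATCH: the number of matched members -/
theorem mat_card {i : ℕ} {y : ι → G} {H : ι → AddSubgroup G} {I : Finset ι}
    {P : Finset (ι × ι)} (hP : Mat i y H I P) (U : Finset ι)
    (hU : ∀ k, k ∈ U ↔ k ∈ I ∧ ∀ p ∈ P, p.1 ≠ k ∧ p.2 ≠ k) : #I = 2 * #P + #U := by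
  classical
  have e : I = (P.image Prod.fst ∪ P.image Prod.snd) ∪ U := by
    ext k
    constructor
    · intro hk
      by_cases h : ∀ p ∈ P, p.1 ≠ k ∧ p.2 ≠ k
      · exact mem_union_right _ ((hU k).2 ⟨hk, h⟩)
      · push Not at h
        obtain ⟨p, hp, h⟩ := h
        refine mem_union_left _ ?_
        by_cases h1 : p.1 = k
        · exact mem_union_left _ (mem_image.2 ⟨p, hp, h1⟩)
        · exact mem_union_right _ (mem_image.2 ⟨p, hp, h h1⟩)
    · intro hk
      rcases mem_union.1 hk with h | h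
      · rcases mem_union.1 h with h | h
        · obtain ⟨p, hp, rfl⟩ := mem_image.1 h
          exact (hP.mem p hp).1
        · obtain ⟨p, hp, rfl⟩ := mem_image.1 h
          exact (hP.mem p hp).2.1
      · exact ((hU k).1 h).1
  have hd : Disjoint (P.image Prod.fst ∪ P.image Prod.snd) U := by
    rw [Finset.disjoint_left]
    intro k h hk
    have h2 := ((hU k).1 hk).2
    rcases mem_union.1 h with h | h
    · obtain ⟨p, hp, e⟩ := mem_image.1 h
      exact (h2 p hp).1 e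
    · obtain ⟨p, hp, e⟩ := mem_image.1 h
      exact (h2 p hp).2 e
  rw [e, card_union_of_disjoint hd, card_both hP]

/-- MATCH: the size of a maximum matching -/
theorem mat_size [Finite G] (hG : Homo G a r) (hr : 1 ≤ r) {i : ℕ} (hi : i < a) {y : ι → G}
    {H : ι → AddSubgroup G} {I : Finset ι} (hF : Fam i y H I) {P : Finset (ι × ι)}
    (hP : Mat i y H I P) (hmax : ∀ P', Mat i y H I P' → #P' ≤ #P) :
    #I ≤ 2 * #P + 2 ^ (r - 1) := by
  classical
  have hU : ∀ k, k ∈ I.filter (fun k => ∀ p ∈ P, p.1 ≠ k ∧ p.2 ≠ k) ↔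
      k ∈ I ∧ ∀ p ∈ P, p.1 ≠ k ∧ p.2 ≠ k := fun k => mem_filter
  rw [mat_card hP _ hU]
  refine Nat.add_le_add_left ?_ _
  have hFU : Fam i y H (I.filter fun k => ∀ p ∈ P, p.1 ≠ k ∧ p.2 ≠ k) :=
    ⟨fun k hk => hF.hy k ((hU k).1 hk).1, fun k hk => hF.hH k ((hU k).1 hk).1,
      fun k hk => hF.hn k ((hU k).1 hk).1⟩
  exact disj hG hr hi hFU fun k hk k' hk' hne =>
    mat_unm hP hmax ((hU k).1 hk).1 ((hU k').1 hk').1 hne ((hU k).1 hk).2 ((hU k').1 hk').2

open Classical in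
/-- MATCH: the number of pairs with a given value -/
theorem mat_cnt {i : ℕ} {y : ι → G} {H : ι → AddSubgroup G} {I : Finset ι} (hF : Fam i y H I)
    {P : Finset (ι × ι)} (hP : Mat i y H I P) (t : Set G) :
    cnt (Zp i y H) (Kp i H) P t = #(P.filter fun p => ps i y H p.1 p.2 = t) := by
  unfold cnt
  congr 1
  refine filter_congr fun p hp => ?_
  rw [ps_cs' (mat_ne hF hP hp)]

end Pool.Agent.Lib.MPa7239a.EX
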