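import Pool.Agent.Lib.MP_a7239a_co.EX.Defs
import Pool.Agent.Lib.MP_a7239a_co.EX.CYC

/-! # folder EX, module PSI (helper77): the value of a pair -/

set_option autoImplicit false

universe u v w

open Finset

namespace Pool.Agent.Lib.MPa7239a.EX

variable {G : Type u} [AddCommGroup G] {a r : ℕ} {ι : Type v}

/-- PSI -/
theorem ps_comm (i : ℕ) (y : ι → G) (H : ι → AddSubgroup G) (k k' : ι) :
    ps i y H k k' = ps i y H k' k := by
  unfold ps
  rw [add_comm (y k) (y k'), sup_comm (H k) (H k')]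

/-- PSI -/
theorem ps_nonempty {i : ℕ} {y : ι → G} {H : ι → AddSubgroup G} {k k' : ι}
    (hk : y k' ∈ V G i) (h : Meet i (y k) (H k) (y k') (H k')) : (ps i y H k k').Nonempty := by
  obtain ⟨u, hu, v, hv, huv⟩ := AddSubgroup.mem_sup.1 h
  refine ⟨v + 2 • y k', AddSubgroup.add_mem _ hv (two_mem hk), ?_⟩
  have e : v + 2 • y k' - (y k + y k') = -u := by
    have e1 : v = y k - y k' - u := by rw [← huv]; abel
    rw [e1, two_nsmul]
    abel
  rw [e]
  exact AddSubgroup.neg_mem _ hu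

/-- PSI -/
theorem ps_cs {i : ℕ} {y : ι → G} {H : ι → AddSubgroup G} {p : ι × ι}
    (h : (ps i y H p.1 p.2).Nonempty) :
    cs (Zp i y H p) (Kp i H p) = ps i y H p.1 p.2 := by
  have hz : Zp i y H p ∈ ps i y H p.1 p.2 := by
    unfold Zp
    rw [dif_pos h]
    exact h.some_mem
  obtain ⟨hz1, hz2⟩ := hz
  ext x
  constructor
  · intro hx
    obtain ⟨hx1, hx2⟩ : x - Zp i y H p ∈ (H p.1 ⊔ H p.2) ∧ x - Zp i y H p ∈ V G (i + 1) := hx
    refine ⟨?_, ?_⟩
    · have := AddSubgroup.add_mem _ hx2 hz1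
      rwa [sub_add_cancel] at this
    · have := AddSubgroup.add_mem _ hx1 hz2
      rwa [sub_add_sub_cancel] at this
  · rintro ⟨hx1, hx2⟩
    refine (show x - Zp i y H p ∈ (H p.1 ⊔ H p.2) ⊓ V G (i + 1) from ⟨?_, ?_⟩)
    · have := AddSubgroup.sub_mem _ hx2 hz2
      rwa [sub_sub_sub_cancel_right] at this
    · exact AddSubgroup.sub_mem _ hx1 hz1

/-- PSI: if the value of a pair is a line, the two members have the same group, a line -/
theorem ps_line (hG : Homo G a r) {i : ℕ} (hi : i + 1 < a) {y : ι → G} {H : ι → AddSubgroup G}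
    {I : Finset ι} (hF : Fam i y H I) {k k' : ι} (hk : k ∈ I) (hk' : k' ∈ I)
    (hn : (ps i y H k k').Nonempty) (h : Ln (i + 1) (ps i y H k k')) :
    ∃ g ∈ V G i, g ∉ V G (i + 1) ∧ H k = AddSubgroup.zmultiples g ∧
      H k' = AddSubgroup.zmultiples g := by
  obtain ⟨x, -, l, -, -, hl⟩ := h
  have h1 := ps_cs (i := i) (y := y) (H := H) (p := (k, k')) hn
  rw [hl] at h1
  have h2 := (cs_eq_iff.1 h1).1
  exact cyc hG hi (hF.hH k hk) (hF.hH k' hk') (hF.hn k hk) (hF.hn k' hk') ⟨l, h2⟩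

/-- PSI: the value of a pair and one member determine the coset of the other -/
theorem ps_inj {i : ℕ} {y : ι → G} {H : ι → AddSubgroup G} {k m m' : ι}
    (hn : (ps i y H k m).Nonempty) (h1 : H k = H m) (h2 : H m = H m')
    (h : ps i y H k m = ps i y H k m') : cs (y m) (H m) = cs (y m') (H m') := by
  obtain ⟨x, hx⟩ := hn
  have hx' := hx
  rw [h] at hx'
  obtain ⟨-, hx2⟩ := hx
  obtain ⟨-, hx2'⟩ := hx'
  rw [h1, sup_idem] at hx2
  rw [h1, ← h2, sup_idem] at hx2'
  rw [cs_eq_iff]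
  refine ⟨h2, ?_⟩
  have h3 := AddSubgroup.sub_mem _ hx2' hx2
  have e : x - (y k + y m') - (x - (y k + y m)) = y m - y m' := by abel
  rwa [e] at h3

end Pool.Agent.Lib.MPa7239a.EX
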