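import Pool.Agent.Lib.MP_a7239a_co.EX.Defs

/-! # folder EX, module SWAP: exchange of partners in a matching -/

set_option autoImplicit false

universe u v w

open Finset

namespace Pool.Agent.Lib.MPa7239a.EX

variable {G : Type u} [AddCommGroup G] {a r : ℕ} {ι : Type v}

namespace SwapAux

theorem ps_comm (i : ℕ) (y : ι → G) (H : ι → AddSubgroup G) (k k' : ι) :
    ps i y H k k' = ps i y H k' k := by
  unfold ps
  rw [add_comm (y k) (y k'), sup_comm (H k) (H k')]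

theorem ps_nonempty {i : ℕ} {y : ι → G} {H : ι → AddSubgroup G} {k k' : ι}
    (hk : y k' ∈ V G i) (h : Meet i (y k) (H k) (y k') (H k')) : (ps i y H k k').Nonempty := by
  obtain ⟨h1, hh1, v, hv, e⟩ := AddSubgroup.mem_sup.1 h
  refine ⟨2 • y k' + v, (V G (i + 1)).add_mem (two_mem hk) hv, ?_⟩
  have e2 : 2 • y k' + v - (y k + y k') = -h1 := by
    have : v = y k - y k' - h1 := by rw [← e]; abel
    rw [this]
    abel
  rw [e2]
  exact AddSubgroup.neg_mem _ hh1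

theorem ps_cs {i : ℕ} {y : ι → G} {H : ι → AddSubgroup G} {p : ι × ι}
    (h : (ps i y H p.1 p.2).Nonempty) :
    cs (Zp i y H p) (Kp i H p) = ps i y H p.1 p.2 := by
  have hz : Zp i y H p ∈ ps i y H p.1 p.2 := by
    unfold Zp
    rw [dif_pos h]
    exact h.some_mem
  ext x
  rw [mem_cs]
  constructor
  · intro hx
    obtain ⟨a1, a2⟩ := AddSubgroup.mem_inf.1 hx
    refine ⟨?_, ?_⟩
    · have : x = (x - Zp i y H p) + Zp i y H p := by abel
      rw [this]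
      exact (V G (i + 1)).add_mem a2 hz.1
    · have : x - (y p.1 + y p.2) = (x - Zp i y H p) + (Zp i y H p - (y p.1 + y p.2)) := by abel
      rw [this]
      exact (H p.1 ⊔ H p.2).add_mem a1 hz.2
  · rintro ⟨a1, a2⟩
    refine AddSubgroup.mem_inf.2 ⟨?_, (V G (i + 1)).sub_mem a1 hz.1⟩
    have : x - Zp i y H p = (x - (y p.1 + y p.2)) - (Zp i y H p - (y p.1 + y p.2)) := by abel
    rw [this]
    exact (H p.1 ⊔ H p.2).sub_mem a2 hz.2

open Classical in
theorem mat_cnt {i : ℕ} {y : ι → G} {H : ι → AddSubgroup G} {I : Finset ι} (hF : Fam i y H I)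
    {P : Finset (ι × ι)} (hP : Mat i y H I P) (t : Set G) :
    cnt (Zp i y H) (Kp i H) P t = #(P.filter fun p => ps i y H p.1 p.2 = t) := by
  unfold cnt
  congr 1
  refine filter_congr fun p hp => ?_
  rw [ps_cs (ps_nonempty (hF.hy _ (hP.mem p hp).2.1) (hP.meet p hp))]

theorem meet_comm {i : ℕ} {x y : G} {H K : AddSubgroup G} (h : Meet i x H y K) :
    Meet i y K x H := by
  have h1 : -(x - y) ∈ H ⊔ K ⊔ V G (i + 1) := AddSubgroup.neg_mem _ h
  rw [neg_sub, sup_comm H K] at h1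
  exact h1

theorem mat_sub {i : ℕ} {y : ι → G} {H : ι → AddSubgroup G} {I : Finset ι}
    {P Q : Finset (ι × ι)} (hP : Mat i y H I P) (h : Q ⊆ P) : Mat i y H I Q :=
  ⟨fun p hp => hP.mem p (h hp), fun p hp => hP.meet p (h hp),
    fun p hp p' hp' => hP.disj p (h hp) p' (h hp')⟩

open Classical in
theorem mat_ins {i : ℕ} {y : ι → G} {H : ι → AddSubgroup G} {I : Finset ι}
    {P : Finset (ι × ι)} (hP : Mat i y H I P) {u v : ι} (hu : u ∈ I) (hv : v ∈ I) (huv : u ≠ v)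
    (hm : Meet i (y u) (H u) (y v) (H v))
    (hd : ∀ q ∈ P, q.1 ≠ u ∧ q.1 ≠ v ∧ q.2 ≠ u ∧ q.2 ≠ v) :
    Mat i y H I (insert (u, v) P) ∧ (u, v) ∉ P := by
  refine ⟨⟨?_, ?_, ?_⟩, ?_⟩
  · intro p hp
    rcases mem_insert.1 hp with rfl | hp
    · exact ⟨hu, hv, huv⟩
    · exact hP.mem p hp
  · intro p hp
    rcases mem_insert.1 hp with rfl | hp
    · exact hm
    · exact hP.meet p hp
  · intro p hp p' hp' hne
    rcases mem_insert.1 hp with e | hp <;> rcases mem_insert.1 hp' with e' | hp'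
    · exact absurd (e.trans e'.symm) hne
    · subst e
      obtain ⟨h1, h2, h3, h4⟩ := hd p' hp'
      exact ⟨h1.symm, h3.symm, h2.symm, h4.symm⟩
    · subst e'
      obtain ⟨h1, h2, h3, h4⟩ := hd p hp
      exact ⟨h1, h2, h3, h4⟩
    · exact hP.disj p hp p' hp' hne
  · intro h
    exact (hd _ h).1 rfl

open Classical in
theorem cnt_ins {i : ℕ} {y : ι → G} {H : ι → AddSubgroup G} {I : Finset ι}
    (hF : Fam i y H I) {P : Finset (ι × ι)} {n : ι × ι} (hP : Mat i y H I (insert n P))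
    (hn : n ∉ P) (t : Set G) :
    cnt (Zp i y H) (Kp i H) (insert n P) t =
      cnt (Zp i y H) (Kp i H) P t + (if ps i y H n.1 n.2 = t then 1 else 0) := by
  rw [mat_cnt hF hP, mat_cnt hF (mat_sub hP (subset_insert n P)), filter_insert]
  split_ifs with h
  · rw [card_insert_of_notMem]
    intro h'
    exact hn (mem_filter.1 h').1
  · rfl

open Classical in
theorem cnt_era {i : ℕ} {y : ι → G} {H : ι → AddSubgroup G} {I : Finset ι}
    (hF : Fam i y H I) {P : Finset (ι × ι)} {n : ι × ι} (hP : Mat i y H I P)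
    (hn : n ∈ P) (t : Set G) :
    cnt (Zp i y H) (Kp i H) (P.erase n) t + (if ps i y H n.1 n.2 = t then 1 else 0) =
      cnt (Zp i y H) (Kp i H) P t := by
  have h1 : insert n (P.erase n) = P := insert_erase hn
  have h2 := cnt_ins hF (P := P.erase n) (n := n) (by rw [h1]; exact hP) (notMem_erase n P) t
  rw [h1] at h2
  exact h2.symm

open Classical in
theorem one {i : ℕ} {y : ι → G} {H : ι → AddSubgroup G} {I : Finset ι}
    (hF : Fam i y H I) {P : Finset (ι × ι)} (hP : Mat i y H I P) {p : ι × ι} (hp : p ∈ P)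
    {u v : ι} (hu : u ∈ I) (hv : v ∈ I) (huv : u ≠ v)
    (hm : Meet i (y u) (H u) (y v) (H v))
    (hd : ∀ q ∈ P, q ≠ p → q.1 ≠ u ∧ q.1 ≠ v ∧ q.2 ≠ u ∧ q.2 ≠ v) :
    Mat i y H I (insert (u, v) (P.erase p)) ∧ #(insert (u, v) (P.erase p)) = #P ∧
      (∀ t, cnt (Zp i y H) (Kp i H) (insert (u, v) (P.erase p)) t +
      (if ps i y H p.1 p.2 = t then 1 else 0) = cnt (Zp i y H) (Kp i H) P t +
      (if ps i y H u v = t then 1 else 0)) := by
  have h1 := mat_ins (mat_sub hP (erase_subset p P)) hu hv huv hm (fun q hq =>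
    hd q (mem_of_mem_erase hq) (ne_of_mem_erase hq))
  refine ⟨h1.1, ?_, ?_⟩
  · rw [card_insert_of_notMem h1.2, card_erase_add_one hp]
  · intro t
    rw [cnt_ins hF h1.1 h1.2 t, ← cnt_era hF hP hp t]
    ring

end SwapAux

/-- SWAP: turning a pair -/
theorem mat_flip {i : ℕ} {y : ι → G} {H : ι → AddSubgroup G} {I : Finset ι} (hF : Fam i y H I)
    {P : Finset (ι × ι)} (hP : Mat i y H I P) {p : ι × ι} (hp : p ∈ P) :
    ∃ P', Mat i y H I P' ∧ #P' = #P ∧ p.swap ∈ P' ∧ (∀ q ∈ P, q ≠ p → q ∈ P') ∧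
      ∀ t, cnt (Zp i y H) (Kp i H) P' t = cnt (Zp i y H) (Kp i H) P t := by
  classical
  obtain ⟨m1, m2, m3⟩ := hP.mem p hp
  obtain ⟨h1, h2, h3⟩ := SwapAux.one hF hP hp m2 m1 (Ne.symm m3) (SwapAux.meet_comm (hP.meet p hp))
    (fun q hq hne => by
      obtain ⟨d1, d2, d3, d4⟩ := hP.disj q hq p hp hne
      exact ⟨d2, d1, d4, d3⟩)
  refine ⟨_, h1, h2, mem_insert_self _ _, ?_, ?_⟩
  · intro q hq hne
    exact mem_insert_of_mem (mem_erase.2 ⟨hne, hq⟩)
  · intro t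
    have h4 := h3 t
    rw [SwapAux.ps_comm i y H p.2 p.1] at h4
    exact Nat.add_right_cancel h4

open Classical in
/-- SWAP: exchange of partners in two pairs -/
theorem mat_swap {i : ℕ} {y : ι → G} {H : ι → AddSubgroup G} {I : Finset ι} (hF : Fam i y H I)
    {P : Finset (ι × ι)} (hP : Mat i y H I P) {p p' : ι × ι} (hp : p ∈ P) (hp' : p' ∈ P)
    (hne : p ≠ p') (h1 : Meet i (y p.1) (H p.1) (y p'.1) (H p'.1))
    (h2 : Meet i (y p.2) (H p.2) (y p'.2) (H p'.2)) (t : Set G)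
    (ht : ps i y H p.1 p.2 = t) (ht' : ps i y H p'.1 p'.2 = t)
    (hn1 : ps i y H p.1 p'.1 ≠ t) (hn2 : ps i y H p.2 p'.2 ≠ t) :
    ∃ P', Mat i y H I P' ∧ #P' = #P ∧
      cnt (Zp i y H) (Kp i H) P' t + 2 = cnt (Zp i y H) (Kp i H) P t := by
  obtain ⟨m1, m2, m3⟩ := hP.mem p hp
  obtain ⟨m1', m2', m3'⟩ := hP.mem p' hp'
  obtain ⟨d1, d2, d3, d4⟩ := hP.disj p hp p' hp' hne
  have hp'1 : p' ∈ P.erase p := mem_erase.2 ⟨Ne.symm hne, hp'⟩
  have hE : Mat i y H I (P.erase p) := SwapAux.mat_sub hP (erase_subset p P)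
  have hE' : Mat i y H I ((P.erase p).erase p') := SwapAux.mat_sub hE (erase_subset p' _)
  have hq : ∀ q ∈ (P.erase p).erase p', q ∈ P ∧ q ≠ p ∧ q ≠ p' := by
    intro q hq
    have e1 := mem_erase.1 hq
    have e2 := mem_erase.1 e1.2
    exact ⟨e2.2, e2.1, e1.1⟩
  have hA := SwapAux.mat_ins hE' m2 m2' d4 h2 (fun q hq' => by
    obtain ⟨a1, a2, a3⟩ := hq q hq'
    obtain ⟨b1, b2, b3, b4⟩ := hP.disj q a1 p hp a2
    obtain ⟨c1, c2, c3, c4⟩ := hP.disj q a1 p' hp' a3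
    exact ⟨b2, c2, b4, c4⟩)
  have hB := SwapAux.mat_ins hA.1 m1 m1' d1 h1 (fun q hq' => by
    rcases mem_insert.1 hq' with rfl | hq'
    · exact ⟨Ne.symm m3, d3, Ne.symm d2, Ne.symm m3'⟩
    · obtain ⟨a1, a2, a3⟩ := hq q hq'
      obtain ⟨b1, b2, b3, b4⟩ := hP.disj q a1 p hp a2
      obtain ⟨c1, c2, c3, c4⟩ := hP.disj q a1 p' hp' a3
      exact ⟨b1, c1, b3, c3⟩)
  refine ⟨_, hB.1, ?_, ?_⟩
  · rw [card_insert_of_notMem hB.2, card_insert_of_notMem hA.2, card_erase_add_one hp'1,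
      card_erase_add_one hp]
  · have e1 := SwapAux.cnt_ins hF hB.1 hB.2 t
    have e2 := SwapAux.cnt_ins hF hA.1 hA.2 t
    have e3 := SwapAux.cnt_era hF hE hp'1 t
    have e4 := SwapAux.cnt_era hF hP hp t
    rw [if_neg hn1] at e1
    rw [if_neg hn2] at e2
    rw [if_pos ht'] at e3
    rw [if_pos ht] at e4
    rw [e1, e2, ← e4, ← e3]

open Classical in
/-- SWAP: an unmatched member replaces a partner -/
theorem mat_swap_one {i : ℕ} {y : ι → G} {H : ι → AddSubgroup G} {I : Finset ι}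
    (hF : Fam i y H I) {P : Finset (ι × ι)} (hP : Mat i y H I P) {p : ι × ι} (hp : p ∈ P) {u : ι}
    (hu : u ∈ I) (hu' : ∀ q ∈ P, q.1 ≠ u ∧ q.2 ≠ u)
    (h : Meet i (y p.1) (H p.1) (y u) (H u)) :
    ∃ P', Mat i y H I P' ∧ #P' = #P ∧ (∀ t, cnt (Zp i y H) (Kp i H) P' t +
      (if ps i y H p.1 p.2 = t then 1 else 0) = cnt (Zp i y H) (Kp i H) P t +
      (if ps i y H p.1 u = t then 1 else 0)) ∧ (p.1, u) ∈ P' := by
  obtain ⟨m1, m2, m3⟩ := hP.mem p hp
  obtain ⟨h1, h2, h3⟩ := SwapAux.one hF hP hp m1 hu (hu' p hp).1 h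
    (fun q hq hne => by
      obtain ⟨d1, d2, d3, d4⟩ := hP.disj q hq p hp hne
      exact ⟨d1, (hu' q hq).1, d3, (hu' q hq).2⟩)
  exact ⟨_, h1, h2, h3, mem_insert_self _ _⟩

open Classical in
/-- SWAP: the same with the second member of the pair -/
theorem mat_swap_two {i : ℕ} {y : ι → G} {H : ι → AddSubgroup G} {I : Finset ι}
    (hF : Fam i y H I) {P : Finset (ι × ι)} (hP : Mat i y H I P) {p : ι × ι} (hp : p ∈ P) {u : ι}
    (hu : u ∈ I) (hu' : ∀ q ∈ P, q.1 ≠ u ∧ q.2 ≠ u)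
    (h : Meet i (y p.2) (H p.2) (y u) (H u)) :
    ∃ P', Mat i y H I P' ∧ #P' = #P ∧ (∀ t, cnt (Zp i y H) (Kp i H) P' t +
      (if ps i y H p.1 p.2 = t then 1 else 0) = cnt (Zp i y H) (Kp i H) P t +
      (if ps i y H p.2 u = t then 1 else 0)) ∧ (p.2, u) ∈ P' := by
  obtain ⟨m1, m2, m3⟩ := hP.mem p hp
  obtain ⟨h1, h2, h3⟩ := SwapAux.one hF hP hp m2 hu (hu' p hp).2 h
    (fun q hq hne => by
      obtain ⟨d1, d2, d3, d4⟩ := hP.disj q hq p hp hne
      exact ⟨d2, (hu' q hq).1, d4, (hu' q hq).2⟩)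
  exact ⟨_, h1, h2, h3, mem_insert_self _ _⟩

end Pool.Agent.Lib.MPa7239a.EX
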