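import Pool.Agent.Lib.MP_a7239a_co.EX.CYC
import Pool.Agent.Lib.MP_a7239a_co.EX.DISJ
import Pool.Agent.Lib.MP_a7239a_co.EX.PSI
import Pool.Agent.Lib.MP_a7239a_co.EX.MATCH
import Pool.Agent.Lib.MP_a7239a_co.EX.SWAP
import Pool.Agent.Lib.MP_a7239a_co.EX.HARBI

/-! # folder EX, module ESTEP -/

set_option autoImplicit false

universe u v w

open Finset

namespace Pool.Agent.Lib.MPa7239a.EX

variable {G : Type u} [AddCommGroup G] {a r : ℕ} {ι : Type v}

theorem ESTEP.cnt_pos {y : ι → G} {H : ι → AddSubgroup G} {I : Finset ι} {t : Set G} :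
    0 < cnt y H I t ↔ ∃ k ∈ I, cs (y k) (H k) = t := by
  classical
  unfold cnt
  rw [card_pos]
  constructor
  · rintro ⟨k, hk⟩
    rw [mem_filter] at hk
    exact ⟨k, hk.1, hk.2⟩
  · rintro ⟨k, hk, h⟩
    exact ⟨k, mem_filter.2 ⟨hk, h⟩⟩

theorem ESTEP.meet_of_eq {i : ℕ} {y y' : G} {H H' : AddSubgroup G} (h : cs y H = cs y' H') :
    Meet i y H y' H' :=
  AddSubgroup.mem_sup_left (AddSubgroup.mem_sup_left (cs_eq_iff.1 h).2)

/-- at the last level members of a family without a hit do not meet -/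
theorem ESTEP.nm (hG : Homo G a r) {i : ℕ} (ha : i + 2 = a) {κ : Type w} {z : κ → G}
    {K : κ → AddSubgroup G} {P : Finset κ} (hF : Fam (i + 1) z K P)
    (hN : NoHit (2 ^ (a - (i + 1))) z K P) {k k' : κ} (hk : k ∈ P) (hk' : k' ∈ P) (hne : k ≠ k') :
    ¬ Meet (i + 1) (z k) (K k) (z k') (K k') := by
  classical
  intro h
  have hV : V G (i + 1 + 1) = ⊥ := by
    rw [show i + 1 + 1 = a by omega]
    exact hG.bot
  unfold Meet at h
  rw [hV, sup_bot_eq] at h
  have h2 : 2 • z k' = 0 := by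
    have := two_mem (hF.hy k' hk')
    rw [hV] at this
    exact this
  refine hN {k, k'} ?_ ?_ ?_
  · intro m hm
    rcases mem_insert.1 hm with rfl | hm
    · exact hk
    · rw [mem_singleton.1 hm]; exact hk'
  · rw [card_pair hne, show a - (i + 1) = 1 by omega, pow_one]
  · rw [sum_pair hne]
    have e : z k + z k' = (z k - z k') + 2 • z k' := by rw [two_nsmul]; abel
    rw [e, h2, add_zero]
    refine (sup_le ?_ ?_ : K k ⊔ K k' ≤ _) h
    · exact le_iSup₂_of_le k (mem_insert_self _ _) le_rfl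
    · exact le_iSup₂_of_le k' (mem_insert_of_mem (mem_singleton_self _)) le_rfl

theorem ESTEP.val {i : ℕ} {y : ι → G} {H : ι → AddSubgroup G} {I : Finset ι}
    (hF : Fam i y H I) {P : Finset (ι × ι)} (hP : Mat i y H I P) {p : ι × ι} (hp : p ∈ P) :
    cs (Zp i y H p) (Kp i H p) = ps i y H p.1 p.2 :=
  ps_cs (ps_nonempty (hF.hy _ (hP.mem p hp).2.1) (hP.meet p hp))

open Classical in
theorem ESTEP.all {y : ι → G} {H : ι → AddSubgroup G} {I : Finset ι}
    {T : Finset (Set G)}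
    (h : #(I.filter fun k => cs (y k) (H k) ∉ T) ≤ 0) {k : ι} (hk : k ∈ I) :
    cs (y k) (H k) ∈ T := by
  have h1 := card_eq_zero.1 (Nat.le_zero.1 h)
  exact not_not.1 (filter_eq_empty_iff.1 h1 hk)

open Classical in
/-- replacing one value by another does not change it -/
theorem ESTEP.same [Finite G] (hG : Homo G a r) (hr : 1 ≤ r) {i : ℕ} (hi : i + 1 < a) {y : ι → G}
    {H : ι → AddSubgroup G} {I : Finset ι} (hF : Fam i y H I) (hN : NoHit (2 ^ (a - i)) y H I)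
    (IH : ∀ P, Mat i y H I P → 2 ^ (r - 1) * (2 ^ (a - (i + 1)) - 1) ≤ #P →
      Str a r (i + 1) 0 (Zp i y H) (Kp i H) P)
    {P P' : Finset (ι × ι)} (hP : Mat i y H I P) (hP' : Mat i y H I P')
    (hc : #P = 2 ^ (r - 1) * (2 ^ (a - (i + 1)) - 1)) (hc' : #P' = #P)
    {p p' : ι × ι} (hp : p ∈ P) (hp' : p' ∈ P')
    (hcnt : ∀ t, cnt (Zp i y H) (Kp i H) P' t + (if ps i y H p.1 p.2 = t then 1 else 0) =
      cnt (Zp i y H) (Kp i H) P t + (if ps i y H p'.1 p'.2 = t then 1 else 0)) :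
    ps i y H p'.1 p'.2 = ps i y H p.1 p.2 := by
  by_contra hne
  obtain ⟨T, -, hT1, hT2⟩ := IH P hP hc.ge
  obtain ⟨T', -, hT1', hT2'⟩ := IH P' hP' (by rw [hc']; exact hc.ge)
  have hFP := mat_fam hG hi hF hP
  have hFP' := mat_fam hG hi hF hP'
  have hNP := mat_nohit (by omega : i < a) hF hN hP
  have hNP' := mat_nohit (by omega : i < a) hF hN hP'
  have ht : ps i y H p.1 p.2 ∈ T := by
    rw [← ESTEP.val hF hP hp]
    exact ESTEP.all hT2 hp
  have ht' : ps i y H p'.1 p'.2 ∈ T' := by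
    rw [← ESTEP.val hF hP' hp']
    exact ESTEP.all hT2' hp'
  have h1 := (hT1 _ ht).2
  have h2 := hcnt (ps i y H p.1 p.2)
  rw [if_pos rfl, if_neg hne] at h2
  have h3 := cnt_le hG (by omega : i + 1 ≤ a) hFP hNP (ps i y H p.1 p.2)
  have h4 : cnt (Zp i y H) (Kp i H) P' (ps i y H p.1 p.2) = 0 := by
    by_contra h0
    obtain ⟨p2, hp2, hp2'⟩ := ESTEP.cnt_pos.1 (Nat.pos_of_ne_zero h0)
    have h5 : ps i y H p.1 p.2 ∈ T' := by
      rw [← hp2']
      exact ESTEP.all hT2' hp2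
    have h6 := (hT1' _ h5).2
    omega
  have hq : 2 ^ (a - (i + 1)) ≤ 2 := by omega
  have ha : i + 2 = a := by
    by_contra hna
    have h5 : 2 ^ 2 ≤ 2 ^ (a - (i + 1)) := Nat.pow_le_pow_right (by norm_num) (by omega)
    omega
  have hq2 : 2 ^ (a - (i + 1)) = 2 := by
    rw [show a - (i + 1) = 1 by omega, pow_one]
  have hV : V G (i + 1 + 1) = ⊥ := by
    rw [show i + 1 + 1 = a by omega]
    exact hG.bot
  have hcov := disj_cover hG hr (by omega : i + 1 < a) hFP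
    (fun k hk k' hk' hkk => ESTEP.nm hG ha hFP hNP hk hk' hkk)
    (by rw [hc, hq2, Nat.mul_one])
  have hsub : ps i y H p'.1 p'.2 ⊆ ps i y H p.1 p.2 := by
    intro z hz
    obtain ⟨p1, hp1, hz1⟩ := hcov z hz.1
    rw [hV, sup_bot_eq] at hz1
    have hv1 := ESTEP.val hF hP hp1
    have hz2 : z ∈ ps i y H p1.1 p1.2 := by
      rw [← hv1]
      exact hz1
    by_cases hcase : ps i y H p.1 p.2 = ps i y H p1.1 p1.2
    · rw [hcase]
      exact hz2
    exfalso
    have h5 := hcnt (ps i y H p1.1 p1.2)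
    rw [if_neg hcase, add_zero] at h5
    have h6 : 0 < cnt (Zp i y H) (Kp i H) P (ps i y H p1.1 p1.2) :=
      ESTEP.cnt_pos.2 ⟨p1, hp1, hv1⟩
    have h7 : 0 < cnt (Zp i y H) (Kp i H) P' (ps i y H p1.1 p1.2) := by omega
    obtain ⟨p2, hp2, hp2'⟩ := ESTEP.cnt_pos.1 h7
    have hv' := ESTEP.val hF hP' hp'
    by_cases hpp : p2 = p'
    · rw [hpp, hv'] at hp2'
      rw [if_pos hp2'] at h5
      have h8 := cnt_le hG (by omega : i + 1 ≤ a) hFP' hNP' (ps i y H p1.1 p1.2)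
      omega
    · apply ESTEP.nm hG ha hFP' hNP' hp2 hp' hpp
      have h9 : z ∈ cs (Zp i y H p2) (Kp i H p2) := by
        rw [hp2']
        exact hz2
      have h10 : z ∈ cs (Zp i y H p') (Kp i H p') := by
        rw [hv']
        exact hz
      have h11 : Zp i y H p2 - Zp i y H p' = (z - Zp i y H p') - (z - Zp i y H p2) := by abel
      unfold Meet
      rw [h11]
      exact AddSubgroup.mem_sup_left (AddSubgroup.sub_mem _ (AddSubgroup.mem_sup_right h10)
        (AddSubgroup.mem_sup_left h9))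
  obtain ⟨x, hx, l, hl, hl', e⟩ := (hT1 _ ht).1
  obtain ⟨x', hx', m, hm, hm', e'⟩ := (hT1' _ ht').1
  rw [e, e'] at hsub
  have hxx : x' - x ∈ AddSubgroup.zmultiples l := by
    have : x' ∈ cs x' (AddSubgroup.zmultiples m) := by
      rw [mem_cs, sub_self]; exact AddSubgroup.zero_mem _
    exact hsub this
  have hml : m ∈ AddSubgroup.zmultiples l := by
    have h5 : x' + m ∈ cs x' (AddSubgroup.zmultiples m) := by
      rw [mem_cs, add_sub_cancel_left]; exact AddSubgroup.mem_zmultiples m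
    have h6 : x' + m - x ∈ AddSubgroup.zmultiples l := hsub h5
    have h7 : m = (x' + m - x) - (x' - x) := by abel
    rw [h7]
    exact AddSubgroup.sub_mem _ h6 hxx
  have hll : AddSubgroup.zmultiples m = AddSubgroup.zmultiples l :=
    cyc_sub hG hl (AddSubgroup.zmultiples_le_of_mem hml)
      (fun h => hm' (h (AddSubgroup.mem_zmultiples m)))
  apply hne
  rw [e, e', cs_eq_iff]
  exact ⟨hll, by rw [hll]; exact hxx⟩

theorem ESTEP.key (hG : Homo G a r) {i : ℕ} (hi : i + 1 < a) {y : ι → G}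
    {H : ι → AddSubgroup G} {I : Finset ι} (hF : Fam i y H I) {k k' u : ι} (hk : k ∈ I)
    (hk' : k' ∈ I) (hu : u ∈ I) (hL : Ln (i + 1) (ps i y H k k'))
    (hM : Meet i (y k) (H k) (y u) (H u)) (hM' : Meet i (y k) (H k) (y k') (H k'))
    (h : ps i y H k u = ps i y H k k') :
    cs (y u) (H u) = cs (y k') (H k') ∧ Ln i (cs (y k') (H k')) := by
  have hn := ps_nonempty (hF.hy _ hu) hM
  have hn' := ps_nonempty (hF.hy _ hk') hM'
  obtain ⟨g, hg, hg', e1, e2⟩ := ps_line hG hi hF hk hk' hn' hL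
  obtain ⟨m, hm, hm', e3, e4⟩ := ps_line hG hi hF hk hu hn (by rw [h]; exact hL)
  refine ⟨ps_inj hn (e3.trans e4.symm) (e4.trans (e3.symm.trans (e1.trans e2.symm))) h, ?_⟩
  exact ⟨y k', hF.hy _ hk', g, hg, hg', by rw [e2]⟩

/-- ESTEP -/
theorem estep [Finite G] (hG : Homo G a r) (hr : 1 ≤ r) {i : ℕ} (hi : i + 1 < a) {y : ι → G}
    {H : ι → AddSubgroup G} {I : Finset ι} (hF : Fam i y H I) (hN : NoHit (2 ^ (a - i)) y H I)
    (hI : 2 ^ (r - 1) * (2 ^ (a - i) - 1) ≤ #I)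
    (IH : ∀ P, Mat i y H I P → 2 ^ (r - 1) * (2 ^ (a - (i + 1)) - 1) ≤ #P →
      Str a r (i + 1) 0 (Zp i y H) (Kp i H) P) : Str a r i 0 y H I := by
  classical
  obtain ⟨P, hP, hmax⟩ := mat_max i y H I
  have hsize := mat_size hG hr (by omega : i < a) hF hP hmax
  have hFP := mat_fam hG hi hF hP
  have hNP := mat_nohit (by omega : i < a) hF hN hP
  have hPle := harbi hG hr (by omega : i + 1 < a) hFP hNP
  have hq : 2 ^ (a - i) = 2 * 2 ^ (a - (i + 1)) := by
    rw [show a - i = a - (i + 1) + 1 by omega, pow_succ, mul_comm]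
  have hq' : 2 ≤ 2 ^ (a - (i + 1)) := by
    calc 2 = 2 ^ 1 := (pow_one 2).symm
      _ ≤ _ := Nat.pow_le_pow_right (by norm_num) (by omega)
  have hR : 0 < 2 ^ (r - 1) := by positivity
  set R := 2 ^ (r - 1) with hRdef
  set q' := 2 ^ (a - (i + 1)) with hqdef
  have hmul : R * (2 ^ (a - i) - 1) = 2 * (R * (q' - 1)) + R := by
    rw [hq]
    obtain ⟨c, hc⟩ : ∃ c, q' = c + 1 := ⟨q' - 1, by omega⟩
    rw [hc, show 2 * (c + 1) - 1 = 2 * c + 1 by omega, show c + 1 - 1 = c by omega]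
    ring
  set U := I.filter fun k => ∀ p ∈ P, p.1 ≠ k ∧ p.2 ≠ k with hUdef
  have hUmem : ∀ k, k ∈ U ↔ k ∈ I ∧ ∀ p ∈ P, p.1 ≠ k ∧ p.2 ≠ k := by
    intro k
    rw [hUdef, mem_filter]
  have hcard := mat_card hP U hUmem
  have hPc : #P = R * (q' - 1) := by omega
  have hIc : #I = R * (2 ^ (a - i) - 1) := by omega
  have hUc : #U = R := by omega
  have hUnm : ∀ k ∈ U, ∀ k' ∈ U, k ≠ k' → ¬ Meet i (y k) (H k) (y k') (H k') := by
    intro k hk k' hk' hne
    have h1 := (hUmem k).1 hk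
    have h2 := (hUmem k').1 hk'
    exact mat_unm hP hmax h1.1 h2.1 hne h1.2 h2.2
  have hFU : Fam i y H U :=
    ⟨fun k hk => hF.hy k ((hUmem k).1 hk).1, fun k hk => hF.hH k ((hUmem k).1 hk).1,
      fun k hk => hF.hn k ((hUmem k).1 hk).1⟩
  obtain ⟨T0, -, hT0, hT0'⟩ := IH P hP hPc.ge
  have hline : ∀ p ∈ P, Ln (i + 1) (ps i y H p.1 p.2) := by
    intro p hp
    rw [← ESTEP.val hF hP hp]
    exact (hT0 _ (ESTEP.all hT0' hp)).1
  -- the two swaps
  have hA : ∀ p ∈ P, ∀ u ∈ U, Meet i (y p.1) (H p.1) (y u) (H u) →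
      cs (y u) (H u) = cs (y p.2) (H p.2) ∧ Ln i (cs (y p.2) (H p.2)) := by
    intro p hp u hu hM
    have hu' := (hUmem u).1 hu
    obtain ⟨P', hP', hc', hcnt, hm⟩ := mat_swap_one hF hP hp hu'.1 hu'.2 hM
    have h1 := ESTEP.same hG hr hi hF hN IH hP hP' hPc hc' hp hm hcnt
    exact ESTEP.key hG hi hF (hP.mem p hp).1 (hP.mem p hp).2.1 hu'.1 (hline p hp) hM
      (hP.meet p hp) h1
  have hB : ∀ p ∈ P, ∀ u ∈ U, Meet i (y p.2) (H p.2) (y u) (H u) →
      cs (y u) (H u) = cs (y p.1) (H p.1) ∧ Ln i (cs (y p.1) (H p.1)) := by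
    intro p hp u hu hM
    have hu' := (hUmem u).1 hu
    obtain ⟨P', hP', hc', hcnt, hm⟩ := mat_swap_two hF hP hp hu'.1 hu'.2 hM
    have h1 := ESTEP.same hG hr hi hF hN IH hP hP' hPc hc' hp hm hcnt
    have hM' : Meet i (y p.2) (H p.2) (y p.1) (H p.1) := by
      have := hP.meet p hp
      unfold Meet at this ⊢
      rw [← neg_sub, sup_comm (H p.2) (H p.1)]
      exact AddSubgroup.neg_mem _ this
    exact ESTEP.key hG hi hF (hP.mem p hp).2.1 (hP.mem p hp).1 hu'.1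
      (by rw [ps_comm]; exact hline p hp) hM hM' (by rw [ps_comm i y H p.2 p.1]; exact h1)
  -- every matched member has the coset of an unmatched one
  have hC : ∀ k ∈ I, k ∉ U → ∃ u ∈ U, cs (y k) (H k) = cs (y u) (H u) ∧ Ln i (cs (y k) (H k)) := by
    intro k hk hkU
    obtain ⟨u, hu, hku⟩ := disj_cover hG hr (by omega : i < a) hFU hUnm hUc (y k) (hF.hy k hk)
    have hM : Meet i (y k) (H k) (y u) (H u) := by
      unfold Meet
      exact (sup_le (le_sup_right.trans le_sup_left) le_sup_right :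
        H u ⊔ V G (i + 1) ≤ H k ⊔ H u ⊔ V G (i + 1)) hku
    have h1 : ∃ p ∈ P, p.1 = k ∨ p.2 = k := by
      by_contra hcon
      push Not at hcon
      exact hkU ((hUmem k).2 ⟨hk, hcon⟩)
    obtain ⟨p, hp, rfl | rfl⟩ := h1
    · have h2 := hA p hp u hu hM
      have h3 := hB p hp u hu (ESTEP.meet_of_eq h2.1.symm)
      exact ⟨u, hu, h3.1.symm, h3.2⟩
    · have h2 := hB p hp u hu hM
      have h3 := hA p hp u hu (ESTEP.meet_of_eq h2.1.symm)
      exact ⟨u, hu, h3.1.symm, h3.2⟩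
  set T := U.image fun u => cs (y u) (H u) with hTdef
  have hall : ∀ k ∈ I, cs (y k) (H k) ∈ T := by
    intro k hk
    by_cases hkU : k ∈ U
    · exact mem_image_of_mem _ hkU
    · obtain ⟨u, hu, e, -⟩ := hC k hk hkU
      rw [e]
      exact mem_image_of_mem _ hu
  have hTle : #T ≤ R := by
    rw [← hUc]
    exact card_image_le
  have hsum : #I = ∑ t ∈ T, cnt y H I t := by
    have := card_eq_sum_card_fiberwise (f := fun k => cs (y k) (H k)) (s := I) (t := T)
      (fun k hk => mem_coe.2 (hall k hk))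
    rw [this]
    rfl
  have hle : ∀ t ∈ T, cnt y H I t ≤ 2 ^ (a - i) - 1 := by
    intro t _
    have := cnt_le hG (by omega : i ≤ a) hF hN t
    omega
  have hq3 : 3 ≤ 2 ^ (a - i) - 1 := by omega
  have hsum2 : ∑ t ∈ T, cnt y H I t ≤ #T * (2 ^ (a - i) - 1) := by
    rw [← smul_eq_mul]
    exact sum_le_card_nsmul T _ _ hle
  have hTc : #T = R := by
    apply le_antisymm hTle
    by_contra hlt
    push Not at hlt
    have h1 : #T * (2 ^ (a - i) - 1) < R * (2 ^ (a - i) - 1) :=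
      Nat.mul_lt_mul_of_pos_right hlt (by omega)
    omega
  have heq : ∀ t ∈ T, cnt y H I t = 2 ^ (a - i) - 1 := by
    have h1 : ∑ t ∈ T, cnt y H I t = ∑ t ∈ T, (2 ^ (a - i) - 1) := by
      rw [sum_const, smul_eq_mul, hTc, ← hIc, hsum]
    exact (sum_eq_sum_iff_of_le hle).1 h1
  refine ⟨T, hTc, ?_, ?_⟩
  · intro t ht
    have h1 := heq t ht
    refine ⟨?_, by omega⟩
    obtain ⟨u, hu, hut⟩ := mem_image.1 ht
    have huI := ((hUmem u).1 hu).1
    have h2 : 1 < cnt y H I t := by omega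
    unfold cnt at h2
    obtain ⟨k, hk, hne⟩ := exists_mem_ne h2 u
    rw [mem_filter] at hk
    have hkU : k ∉ U := by
      intro hkU
      exact hUnm k hkU u hu hne (ESTEP.meet_of_eq (hk.2.trans hut.symm))
    obtain ⟨-, -, -, hLn⟩ := hC k hk.1 hkU
    rw [← hk.2]
    exact hLn
  · rw [Nat.le_zero, card_eq_zero, filter_eq_empty_iff]
    intro k hk h
    exact h (hall k hk)

end Pool.Agent.Lib.MPa7239a.EX
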