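import Pool.Agent.Lib.MP_a7239a_co.EX.Defs

/-! # folder EX: the destination of an element (PATH) -/

set_option autoImplicit false

universe u v w

open Finset

namespace Pool.Agent.Lib.MPa7239a.EX

namespace PATHM

variable {G : Type u} [AddCommGroup G] {a r : ℕ}

theorem up (hG : Homo G a r) {i : ℕ} (hi : i + 1 < a) {κ : Type w} {x l : κ → G}
    (h : Hv i x l) : Hv (i + 1) (fun k => 2 • x k) (fun k => 2 • l k) where
  hx k := two_mem (h.hx k)
  hl k := two_mem (h.hl k)
  hn k hk := h.hn k (hG.half hi hk)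
  cov z hz := by
    obtain ⟨y, hy⟩ := hz
    have hy' : z = 2 • (2 ^ i • y) := by
      rw [← hy]
      show 2 ^ (i + 1) • y = 2 • (2 ^ i • y)
      rw [smul_smul, pow_succ']
    obtain ⟨k, hk⟩ := h.cov (2 ^ i • y) ⟨y, rfl⟩
    refine ⟨k, ?_⟩
    obtain ⟨p, hp, q, hq, e⟩ := AddSubgroup.mem_sup.1 hk
    obtain ⟨c, rfl⟩ := AddSubgroup.mem_zmultiples_iff.1 hp
    refine AddSubgroup.mem_sup.2 ⟨c • (2 • l k), AddSubgroup.mem_zmultiples_iff.2 ⟨c, rfl⟩, 2 • q,
      two_mem hq, ?_⟩
    have e2 : 2 • (c • l k + q) = 2 • (2 ^ i • y - x k) := by rw [e]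
    rw [hy']
    show c • (2 • l k) + 2 • q = 2 • (2 ^ i • y) - 2 • x k
    rw [← smul_sub, ← e2, smul_add, smul_comm c 2 (l k)]
  dis k k' hm := by
    apply h.dis k k'
    unfold Meet at hm ⊢
    obtain ⟨p, hp, q, hq, e⟩ := AddSubgroup.mem_sup.1 hm
    obtain ⟨s, hs, s', hs', e'⟩ := AddSubgroup.mem_sup.1 hp
    obtain ⟨c, rfl⟩ := AddSubgroup.mem_zmultiples_iff.1 hs
    obtain ⟨c', rfl⟩ := AddSubgroup.mem_zmultiples_iff.1 hs'
    have hd : 2 • (x k - x k' - (c • l k + c' • l k')) ∈ V G (i + 1 + 1) := by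
      have : 2 • (x k - x k' - (c • l k + c' • l k')) = q := by
        have e3 : c • (2 • l k) + c' • (2 • l k') + q = 2 • x k - 2 • x k' := by
          rw [e', e]
        rw [smul_sub, smul_sub, smul_add, ← e3, smul_comm 2 c (l k), smul_comm 2 c' (l k')]
        abel
      rw [this]
      exact hq
    have hv := hG.half hi hd
    refine AddSubgroup.mem_sup.2 ⟨c • l k + c' • l k', AddSubgroup.mem_sup.2
      ⟨c • l k, AddSubgroup.mem_zmultiples_iff.2 ⟨c, rfl⟩, c' • l k',
      AddSubgroup.mem_zmultiples_iff.2 ⟨c', rfl⟩, rfl⟩, _, hv, ?_⟩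
    abel

theorem le_Lb {κ : Type w} {l : κ → G} {b : κ → ℕ} {k : κ} (hk : b k ≠ 0) :
    AddSubgroup.zmultiples (l k) ≤ Lb l b :=
  le_iSup_of_le k (le_iSup_of_le hk le_rfl)

theorem aux (hG : Homo G a r) {κ : Type w} [Fintype κ] (K : AddSubgroup G) (m : ℕ) :
    ∀ i : ℕ, i + m + 1 = a → ∀ (x l : κ → G), Hv i x l → ∀ z ∈ V G i,
    ∃ (j : ℕ) (t : κ) (b : κ → ℕ), i + j < a ∧ ∑ k, b k = 2 ^ j - 1 ∧
      (j = 0 ∨ b t + 1 ≤ 2 ^ (j - 1)) ∧
      z + ∑ k, b k • x k - 2 ^ j • x t ∈ K ⊔ Lb l b ⊔ AddSubgroup.zmultiples (l t) := by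
  classical
  induction m with
  | zero =>
    intro i hi x l h z hz
    obtain ⟨k, hk⟩ := h.cov z hz
    have ha : V G (i + 1) = ⊥ := by
      have : i + 1 = a := by omega
      rw [this]
      exact hG.bot
    rw [ha, sup_bot_eq] at hk
    refine ⟨0, k, fun _ => 0, by omega, by simp, Or.inl rfl, ?_⟩
    have : z + ∑ k : κ, (0 : ℕ) • x k - 2 ^ 0 • x k = z - x k := by simp
    rw [this]
    exact AddSubgroup.mem_sup_right hk
  | succ m ih =>
    intro i hi x l h z hz
    by_cases hB : ∃ t, z - x t ∈ K ⊔ AddSubgroup.zmultiples (l t)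
    · obtain ⟨t, ht⟩ := hB
      refine ⟨0, t, fun _ => 0, by omega, by simp, Or.inl rfl, ?_⟩
      have : z + ∑ k : κ, (0 : ℕ) • x k - 2 ^ 0 • x t = z - x t := by simp
      rw [this]
      exact (sup_le_sup_right (le_sup_left : K ≤ K ⊔ Lb l fun _ => 0)
        (AddSubgroup.zmultiples (l t))) ht
    · obtain ⟨k, hk⟩ := h.cov z hz
      obtain ⟨p, hp, v, hv, e⟩ := AddSubgroup.mem_sup.1 hk
      obtain ⟨c, rfl⟩ := AddSubgroup.mem_zmultiples_iff.1 hp
      have hz' : z + x k + c • l k ∈ V G (i + 1) := by
        have e1 : z + x k + c • l k = 2 • (x k + c • l k) + v := by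
          have : z = c • l k + v + x k := by rw [e]; abel
          rw [this]; abel
        rw [e1]
        exact AddSubgroup.add_mem _ (two_mem (AddSubgroup.add_mem _ (h.hx k)
          (AddSubgroup.zsmul_mem _ (h.hl k) c))) hv
      obtain ⟨j, t, b, h1, h2, h3, h4⟩ := ih (i + 1) (by omega) _ _ (up hG (by omega) h) _ hz'
      have hpos : 1 ≤ 2 ^ j := Nat.one_le_two_pow
      refine ⟨j + 1, t, fun s => 2 * b s + if s = k then 1 else 0, by omega, ?_, Or.inr ?_, ?_⟩
      · rw [Finset.sum_add_distrib, ← Finset.mul_sum, h2, Finset.sum_ite_eq' univ k]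
        simp only [mem_univ, if_true]
        rw [pow_succ]
        omega
      · rw [Nat.add_sub_cancel]
        rcases Nat.eq_zero_or_pos j with rfl | hj
        · have hb : ∀ s, b s = 0 := by
            intro s
            have : ∑ k, b k = 0 := by rw [h2]; simp
            exact (Finset.sum_eq_zero_iff.1 this) s (mem_univ s)
          have htk : t ≠ k := by
            rintro rfl
            apply hB
            refine ⟨t, ?_⟩
            have hs : ∑ s, b s • (2 • x s) = 0 := Finset.sum_eq_zero fun s _ => by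
              rw [hb s, zero_smul]
            have hL : Lb (fun k => 2 • l k) b = ⊥ := by
              unfold Lb
              simp [hb]
            rw [hs, add_zero, hL, sup_bot_eq] at h4
            have h5 : z - x t + c • l t ∈ K ⊔ AddSubgroup.zmultiples (l t) := by
              have e5 : z - x t + c • l t = z + x t + c • l t - 2 ^ 0 • (2 • x t) := by
                rw [pow_zero, one_smul, two_smul]; abel
              rw [e5]
              refine (sup_le_sup_left ?_ K) h4
              rw [AddSubgroup.zmultiples_le]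
              exact AddSubgroup.nsmul_mem _ (AddSubgroup.mem_zmultiples _) 2
            have h6 : c • l t ∈ K ⊔ AddSubgroup.zmultiples (l t) :=
              AddSubgroup.mem_sup_right (AddSubgroup.zsmul_mem _ (AddSubgroup.mem_zmultiples _) c)
            have h7 := AddSubgroup.sub_mem _ h5 h6
            rwa [add_sub_cancel_right] at h7
          show 2 * b t + (if t = k then 1 else 0) + 1 ≤ 2 ^ 0
          rw [hb t, if_neg htk]
          simp
        · rcases h3 with h3 | h3
          · omega
          · have e2 : 2 ^ j = 2 * 2 ^ (j - 1) := by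
              rw [← pow_succ', Nat.sub_add_cancel hj]
            show 2 * b t + (if t = k then 1 else 0) + 1 ≤ 2 ^ j
            have : (if t = k then 1 else 0) ≤ 1 := by split_ifs <;> omega
            omega
      · have hk1 : (2 * b k + if k = k then 1 else 0) ≠ 0 := by simp
        have hle : Lb (fun k => 2 • l k) b ≤ Lb l fun s => 2 * b s + if s = k then 1 else 0 := by
          refine iSup_le fun s => iSup_le fun hs => ?_
          refine le_trans ?_ (le_Lb (l := l) (k := s) ?_)
          · rw [AddSubgroup.zmultiples_le]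
            exact AddSubgroup.nsmul_mem _ (AddSubgroup.mem_zmultiples _) 2
          · show 2 * b s + (if s = k then 1 else 0) ≠ 0
            omega
        have hle2 : AddSubgroup.zmultiples (2 • l t) ≤ AddSubgroup.zmultiples (l t) := by
          rw [AddSubgroup.zmultiples_le]
          exact AddSubgroup.nsmul_mem _ (AddSubgroup.mem_zmultiples _) 2
        have h5 := (sup_le_sup (sup_le_sup_left hle K) hle2) h4
        have h6 : c • l k ∈ K ⊔ (Lb l fun s => 2 * b s + if s = k then 1 else 0) ⊔
            AddSubgroup.zmultiples (l t) := by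
          refine AddSubgroup.mem_sup_left (AddSubgroup.mem_sup_right ?_)
          exact (le_Lb (l := l) (k := k) (b := fun s => 2 * b s + if s = k then 1 else 0) hk1)
            (AddSubgroup.zsmul_mem _ (AddSubgroup.mem_zmultiples _) c)
        have h7 := AddSubgroup.sub_mem _ h5 h6
        have e7 : z + x k + c • l k + ∑ s, b s • (2 • x s) - 2 ^ j • (2 • x t) - c • l k =
            z + ∑ s, (2 * b s + if s = k then 1 else 0) • x s - 2 ^ (j + 1) • x t := by
          have e8 : ∑ s, (2 * b s + if s = k then 1 else 0) • x s =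
              ∑ s, b s • (2 • x s) + x k := by
            have e9 : ∑ s, (if s = k then x s else 0) = x k := by
              rw [Finset.sum_ite_eq' univ k x]
              simp
            rw [← e9, ← Finset.sum_add_distrib]
            refine Finset.sum_congr rfl fun s _ => ?_
            rw [add_smul, mul_comm, mul_smul, ite_smul, one_smul, zero_smul]
          rw [e8, pow_succ, mul_smul]
          abel
        rw [e7] at h7
        exact h7

end PATHM

variable {G : Type u} [AddCommGroup G] {a r : ℕ}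

/-- PATH: the destination of an element -/
theorem path (hG : Homo G a r) {κ : Type w} [Fintype κ] {i : ℕ} (hi : i < a) {x l : κ → G}
    (h : Hv i x l) (K : AddSubgroup G) (z : G) (hz : z ∈ V G i) :
    ∃ (j : ℕ) (t : κ) (b : κ → ℕ), i + j < a ∧ ∑ k, b k = 2 ^ j - 1 ∧
      (j = 0 ∨ b t + 1 ≤ 2 ^ (j - 1)) ∧
      z + ∑ k, b k • x k - 2 ^ j • x t ∈ K ⊔ Lb l b ⊔ AddSubgroup.zmultiples (l t) :=
  PATHM.aux hG K (a - i - 1) i (by omega) x l h z hz

end Pool.Agent.Lib.MPa7239a.EX
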