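import Pool.Agent.Lib.MP_a7239a_co.EX.HVM
import Pool.Agent.Lib.MP_a7239a_co.EX.CYC
import Pool.Agent.Lib.MP_a7239a_co.EX.PATH

/-! # folder EX: module DEST, helper75 -/

set_option autoImplicit false

universe u v w

open Finset

namespace Pool.Agent.Lib.MPa7239a.EX

variable {G : Type u} [AddCommGroup G] {a r : ℕ} {ι : Type v}

/-- DEST: the destination of an exceptional member -/
theorem dest (hG : Homo G a r) {κ : Type w} [Fintype κ] {i : ℕ} (hi : i + 1 < a) {x l : κ → G}
    (h : Hv i x l) (y : G) (hy : y ∈ V G i) (H : AddSubgroup G) (hH : H ≤ V G i)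
    (hH' : ¬ H ≤ V G (i + 1)) (hne : ∀ k, cs y H ≠ cs (x k) (AddSubgroup.zmultiples (l k))) :
    ∃ (j : ℕ) (t : κ) (b : κ → ℕ), 1 ≤ j ∧ i + j < a ∧ ∑ k, b k = 2 ^ j - 1 ∧
      b t + 1 ≤ 2 ^ (j - 1) ∧
      y + ∑ k, b k • x k - 2 ^ j • x t ∈ H ⊔ Lb l b ⊔ AddSubgroup.zmultiples (l t) := by
  classical
  by_cases hc : ∃ t, y - x t ∈ H ⊔ AddSubgroup.zmultiples (l t)
  · obtain ⟨t, ht⟩ := hc
    have hlt : AddSubgroup.zmultiples (l t) ≤ V G i := by
      rw [AddSubgroup.zmultiples_le]
      exact h.hl t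
    -- an involution
    have hinv : ∃ τ ∈ H ⊔ AddSubgroup.zmultiples (l t), 2 • τ = 0 ∧
        τ ∉ AddSubgroup.zmultiples (l t) := by
      by_contra hcon
      push Not at hcon
      have hM := cyc_inv hG (by omega : i < a) (sup_le hH hlt)
        ((le_sup_right : AddSubgroup.zmultiples (l t) ≤ H ⊔ AddSubgroup.zmultiples (l t))
          (AddSubgroup.mem_zmultiples _)) (h.hn t) hcon
      have hHl : H ≤ AddSubgroup.zmultiples (l t) := by
        have h1 : H ≤ H ⊔ AddSubgroup.zmultiples (l t) := le_sup_left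
        rwa [hM] at h1
      have hHe := cyc_sub hG (h.hl t) hHl hH'
      apply hne t
      rw [cs_eq_iff]
      refine ⟨hHe, ?_⟩
      rw [hM] at ht
      rw [hHe]
      exact ht
    obtain ⟨τ, hτ, hτ2, hτn⟩ := hinv
    have hlast := hv_last hG (by omega : i < a) h
    have hzV : 2 ^ (a - 1 - i) • x t + τ ∈ V G (a - 1) :=
      AddSubgroup.add_mem _ (hlast.hx t) (hG.invol (by omega) hτ2)
    obtain ⟨k, hk⟩ := hlast.cov _ hzV
    have hk' : 2 ^ (a - 1 - i) • x t + τ - 2 ^ (a - 1 - i) • x k ∈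
        AddSubgroup.zmultiples (2 ^ (a - 1 - i) • l k) := by
      rw [show a - 1 + 1 = a by omega, hG.bot, sup_bot_eq] at hk
      exact hk
    have hpow : ∀ k, AddSubgroup.zmultiples (2 ^ (a - 1 - i) • l k) ≤
        AddSubgroup.zmultiples (l k) := by
      intro k
      rw [AddSubgroup.zmultiples_le]
      exact AddSubgroup.nsmul_mem _ (AddSubgroup.mem_zmultiples _) _
    have hkt : k ≠ t := by
      rintro rfl
      apply hτn
      rw [add_sub_cancel_left] at hk'
      exact hpow k hk'
    have hm1 : 1 ≤ 2 ^ (a - 1 - i) := Nat.one_le_two_pow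
    have hm2 : 2 ≤ 2 ^ (a - 1 - i) := by
      rw [show a - 1 - i = (a - 2 - i) + 1 by omega, pow_succ]
      have := Nat.one_le_two_pow (n := a - 2 - i)
      omega
    refine ⟨a - 1 - i, k, Pi.single t (2 ^ (a - 1 - i) - 1), by omega, by omega, ?_, ?_, ?_⟩
    · rw [Finset.sum_pi_single']
      simp
    · rw [Pi.single_eq_of_ne hkt, zero_add]
      exact Nat.one_le_two_pow
    · have hs : ∑ k', (Pi.single t (2 ^ (a - 1 - i) - 1) : κ → ℕ) k' • x k' =
          (2 ^ (a - 1 - i) - 1) • x t := by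
        rw [Finset.sum_eq_single t]
        · rw [Pi.single_eq_same]
        · intro k' _ hk'
          rw [Pi.single_eq_of_ne hk', zero_smul]
        · intro hh
          exact absurd (mem_univ t) hh
      rw [hs]
      have hτ' : -τ = τ := by
        rw [neg_eq_iff_add_eq_zero, ← two_smul ℕ]
        exact hτ2
      have h5 : y + (2 ^ (a - 1 - i) - 1) • x t - 2 ^ (a - 1 - i) • x k =
          (y - x t) + τ + (2 ^ (a - 1 - i) • x t + τ - 2 ^ (a - 1 - i) • x k) := by
        have h6 : (2 ^ (a - 1 - i) - 1) • x t = 2 ^ (a - 1 - i) • x t - x t := by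
          have h7 : 2 ^ (a - 1 - i) • x t = (2 ^ (a - 1 - i) - 1 + 1) • x t := by
            rw [Nat.sub_add_cancel hm1]
          rw [h7, add_smul, one_smul, add_sub_cancel_right]
        have h8 : (y - x t) + τ + (2 ^ (a - 1 - i) • x t + τ - 2 ^ (a - 1 - i) • x k) =
            y + (2 ^ (a - 1 - i) • x t - x t) - 2 ^ (a - 1 - i) • x k + (τ - (-τ)) := by abel
        rw [h8, h6, hτ', sub_self, add_zero]
      rw [h5]
      have hLt : AddSubgroup.zmultiples (l t) ≤
          Lb l (Pi.single t (2 ^ (a - 1 - i) - 1) : κ → ℕ) := by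
        have hb : (Pi.single t (2 ^ (a - 1 - i) - 1) : κ → ℕ) t ≠ 0 := by
          rw [Pi.single_eq_same]
          omega
        exact le_iSup₂ (f := fun k (_ : (Pi.single t (2 ^ (a - 1 - i) - 1) : κ → ℕ) k ≠ 0) =>
          AddSubgroup.zmultiples (l k)) t hb
      have hMle : H ⊔ AddSubgroup.zmultiples (l t) ≤
          H ⊔ Lb l (Pi.single t (2 ^ (a - 1 - i) - 1) : κ → ℕ) ⊔
            AddSubgroup.zmultiples (l k) :=
        (sup_le_sup_left hLt H).trans le_sup_left
      refine AddSubgroup.add_mem _ (AddSubgroup.add_mem _ (hMle ht) (hMle hτ)) ?_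
      exact (le_sup_right : AddSubgroup.zmultiples (l k) ≤ _) (hpow k hk')
  · push Not at hc
    obtain ⟨j, t, b, h1, h2, h3, h4⟩ := path hG (by omega : i < a) h H y hy
    rcases h3 with h3 | h3
    · exfalso
      subst h3
      have hb : ∀ k, b k = 0 := by
        intro k
        have h5 : b k ≤ ∑ k, b k := single_le_sum (fun _ _ => Nat.zero_le _) (mem_univ k)
        rw [h2] at h5
        simpa using h5
      have hs : ∑ k, b k • x k = 0 := sum_eq_zero fun k _ => by rw [hb k, zero_smul]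
      have hLb : Lb l b = ⊥ := by
        unfold Lb
        simp [hb]
      rw [hs, hLb, sup_bot_eq, pow_zero, one_smul, add_zero] at h4
      exact hc t h4
    · refine ⟨j, t, b, ?_, h1, h2, h3, h4⟩
      by_contra hj
      have hj0 : j = 0 := by omega
      subst hj0
      have hb : ∀ k, b k = 0 := by
        intro k
        have h5 : b k ≤ ∑ k, b k := single_le_sum (fun _ _ => Nat.zero_le _) (mem_univ k)
        rw [h2] at h5
        simpa using h5
      have hs : ∑ k, b k • x k = 0 := sum_eq_zero fun k _ => by rw [hb k, zero_smul]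
      have hLb : Lb l b = ⊥ := by
        unfold Lb
        simp [hb]
      rw [hs, hLb, sup_bot_eq, pow_zero, one_smul, add_zero] at h4
      exact hc t h4

end Pool.Agent.Lib.MPa7239a.EX
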