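import Pool.Agent.Lib.MP_a7239a_co.EX.Defs
import Pool.Agent.Lib.MP_a7239a_co.EX.DEST
import Pool.Agent.Lib.MP_a7239a_co.EX.HVM

/-! # folder EX: few exceptional members (fmin, impr), helper45 -/

set_option autoImplicit false

universe u v w

open Finset

namespace Pool.Agent.Lib.MPa7239a.EX

variable {G : Type u} [AddCommGroup G] {a r : ℕ} {ι : Type v}

/-- FMIN: choice of few exceptional members with enough weight -/
theorem fmin {α : Type v} (E : Finset α) (w σ : α → ℕ) {s q : ℕ} (hs : 16 * (s + 1) ≤ q)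
    (hw : ∀ e ∈ E, σ e ≤ 2 * w e) (hσ : ∀ e ∈ E, 2 * σ e ≤ q) (hE : s + 1 ≤ ∑ e ∈ E, w e) :
    ∃ F ⊆ E, s + 1 ≤ ∑ e ∈ F, w e ∧ 2 * ∑ e ∈ F, σ e ≤ q ∧ F.Nonempty := by
  classical
  have hne : (E.powerset.filter fun F => s + 1 ≤ ∑ e ∈ F, w e).Nonempty :=
    ⟨E, mem_filter.2 ⟨mem_powerset.2 (Subset.refl E), hE⟩⟩
  obtain ⟨F, hF, hmin⟩ := exists_min_image _ card hne
  obtain ⟨hFE, hFw⟩ := mem_filter.1 hF
  rw [mem_powerset] at hFE
  have hFn : F.Nonempty := by
    rw [nonempty_iff_ne_empty]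
    rintro rfl
    rw [sum_empty] at hFw
    omega
  have key : ∀ f ∈ F, ∑ e ∈ F.erase f, w e ≤ s := by
    intro f hf
    by_contra hcon
    have h1 := hmin (F.erase f) (mem_filter.2 ⟨mem_powerset.2
      ((erase_subset f F).trans hFE), by omega⟩)
    rw [card_erase_of_mem hf] at h1
    have := card_pos.2 hFn
    omega
  refine ⟨F, hFE, hFw, ?_, hFn⟩
  obtain ⟨f, hf⟩ := hFn
  rcases (F.erase f).eq_empty_or_nonempty with h0 | ⟨g, hg⟩
  · have h1 : ∑ e ∈ F, σ e = σ f := by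
      rw [← add_sum_erase F σ hf, h0, sum_empty, add_zero]
    rw [h1]
    exact hσ f (hFE hf)
  · have hgF : g ∈ F := mem_of_mem_erase hg
    have h1 : w g ≤ s := (single_le_sum (f := w) (fun _ _ => Nat.zero_le _) hg).trans (key f hf)
    have h2 := key g hgF
    have h3 := add_sum_erase F w hgF
    have h4 : ∑ e ∈ F, σ e ≤ 2 * ∑ e ∈ F, w e := by
      rw [mul_sum]
      exact sum_le_sum fun e he => hw e (hFE he)
    omega

namespace IMPRM

open Classical in
/-- a subfamily with prescribed numbers of members of the lines -/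
theorem build {κ : Type w} [Fintype κ] {i : ℕ} {x l : κ → G} (h : Hv i x l) {y : ι → G}
    {H : ι → AddSubgroup G} {I : Finset ι} (F : Finset ι) (hFI : F ⊆ I)
    (hFe : ∀ e ∈ F, ∀ k, cs (y e) (H e) ≠ cs (x k) (AddSubgroup.zmultiples (l k))) (B : κ → ℕ)
    (hB : ∀ k, B k ≤ cnt y H I (cs (x k) (AddSubgroup.zmultiples (l k)))) :
    ∃ J ⊆ I, #J = #F + ∑ k, B k ∧ F ⊆ J ∧
      (∀ k, B k ≠ 0 → AddSubgroup.zmultiples (l k) ≤ ⨆ m ∈ J, H m) ∧
      ∑ m ∈ J, y m - (∑ e ∈ F, y e + ∑ k, B k • x k) ∈ ⨆ m ∈ J, H m := by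
  have hex : ∀ k, ∃ C ⊆ I.filter (fun m => cs (y m) (H m) =
      cs (x k) (AddSubgroup.zmultiples (l k))), #C = B k := by
    intro k
    exact exists_subset_card_eq (hB k)
  choose C hC hCc using hex
  have hCm : ∀ k, ∀ m ∈ C k, cs (y m) (H m) = cs (x k) (AddSubgroup.zmultiples (l k)) :=
    fun k m hm => (mem_filter.1 (hC k hm)).2
  have hCI : ∀ k, C k ⊆ I := fun k m hm => (mem_filter.1 (hC k hm)).1
  have hinj : ∀ k k', k ≠ k' → Disjoint (C k) (C k') := by
    intro k k' hkk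
    rw [Finset.disjoint_left]
    intro m hm hm'
    have e := (hCm k m hm).symm.trans (hCm k' m hm')
    apply hkk
    apply h.dis
    have e2 := (cs_eq_iff.1 e).2
    exact AddSubgroup.mem_sup_left (AddSubgroup.mem_sup_left e2)
  have hdis : Disjoint F (univ.biUnion C) := by
    rw [Finset.disjoint_left]
    intro m hm hm'
    obtain ⟨k, -, hk⟩ := mem_biUnion.1 hm'
    exact hFe m hm k (hCm k m hk)
  have hpd : ((univ : Finset κ) : Set κ).PairwiseDisjoint C := fun k _ k' _ hkk => hinj k k' hkk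
  refine ⟨F ∪ univ.biUnion C, union_subset hFI ?_, ?_, subset_union_left, ?_, ?_⟩
  · intro m hm
    obtain ⟨k, -, hk⟩ := mem_biUnion.1 hm
    exact hCI k hk
  · rw [card_union_of_disjoint hdis, card_biUnion hpd]
    congr 1
    exact sum_congr rfl fun k _ => hCc k
  · intro k hk
    have : 0 < #(C k) := by rw [hCc k]; omega
    obtain ⟨m, hm⟩ := card_pos.1 this
    rw [← (cs_eq_iff.1 (hCm k m hm)).1]
    exact le_iSup₂ (f := fun m (_ : m ∈ F ∪ univ.biUnion C) => H m) m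
      (mem_union_right _ (mem_biUnion.2 ⟨k, mem_univ k, hm⟩))
  · rw [sum_union hdis, sum_biUnion hpd]
    have e : ∑ e ∈ F, y e + ∑ k, ∑ m ∈ C k, y m - (∑ e ∈ F, y e + ∑ k, B k • x k) =
        ∑ k, (∑ m ∈ C k, y m - B k • x k) := by
      rw [sum_sub_distrib]
      abel
    rw [e]
    refine AddSubgroup.sum_mem _ fun k _ => ?_
    rcases (C k).eq_empty_or_nonempty with h0 | ⟨m, hm⟩
    · have : B k = 0 := by rw [← hCc k, h0, card_empty]
      rw [h0, this, sum_empty, zero_smul, sub_zero]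
      exact AddSubgroup.zero_mem _
    · have h1 := hvm_sum (hCm k)
      rw [hCc k] at h1
      rw [← (cs_eq_iff.1 (hCm k m hm)).1] at h1
      exact (le_iSup₂ (f := fun m (_ : m ∈ F ∪ univ.biUnion C) => H m) m
        (mem_union_right _ (mem_biUnion.2 ⟨k, mem_univ k, hm⟩))) h1

end IMPRM

open Classical in
/-- IMPR -/
theorem impr (hG : Homo G a r) {κ : Type w} [Fintype κ] {i : ℕ} (hi : i + 1 < a) {x l : κ → G}
    (h : Hv i x l) {y : ι → G} {H : ι → AddSubgroup G} {I : Finset ι} (hF : Fam i y H I)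
    (hN : NoHit (2 ^ (a - i)) y H I) (s : κ → ℕ)
    (hs : ∀ k, cnt y H I (cs (x k) (AddSubgroup.zmultiples (l k))) + 1 + s k = 2 ^ (a - i))
    (hs' : ∀ k, 16 * (s k + 1) ≤ 2 ^ (a - i)) :
    2 * #(I.filter fun m => ∀ k, cs (y m) (H m) ≠ cs (x k) (AddSubgroup.zmultiples (l k))) ≤
      ∑ k, s k := by
  set E := I.filter fun m => ∀ k, cs (y m) (H m) ≠ cs (x k) (AddSubgroup.zmultiples (l k))
    with hEdef
  by_contra hcon
  have hEI : ∀ e ∈ E, e ∈ I := fun e he => (mem_filter.1 he).1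
  have hEe : ∀ e ∈ E, ∀ k, cs (y e) (H e) ≠ cs (x k) (AddSubgroup.zmultiples (l k)) :=
    fun e he => (mem_filter.1 he).2
  -- the index set is not empty
  have hκ : Nonempty κ := by
    obtain ⟨k, -⟩ := h.cov 0 (AddSubgroup.zero_mem _)
    exact ⟨k⟩
  have hdest : ∀ e, ∃ (j : ℕ) (t : κ) (b : κ → ℕ), e ∈ E → 1 ≤ j ∧ i + j < a ∧
      ∑ k, b k = 2 ^ j - 1 ∧ b t + 1 ≤ 2 ^ (j - 1) ∧
      y e + ∑ k, b k • x k - 2 ^ j • x t ∈ H e ⊔ Lb l b ⊔ AddSubgroup.zmultiples (l t) := by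
    intro e
    by_cases he : e ∈ E
    · obtain ⟨j, t, b, h1⟩ := dest hG hi h (y e) (hF.hy e (hEI e he)) (H e)
        (hF.hH e (hEI e he)) (hF.hn e (hEI e he)) (hEe e he)
      exact ⟨j, t, b, fun _ => h1⟩
    · exact ⟨0, hκ.some, fun _ => 0, fun h' => absurd h' he⟩
  choose j t b hjtb using hdest
  have hj1 : ∀ e ∈ E, 1 ≤ j e := fun e he => (hjtb e he).1
  have hja : ∀ e ∈ E, i + j e < a := fun e he => (hjtb e he).2.1
  have hbs : ∀ e ∈ E, ∑ k, b e k = 2 ^ (j e) - 1 := fun e he => (hjtb e he).2.2.1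
  have hbt : ∀ e ∈ E, b e (t e) + 1 ≤ 2 ^ (j e - 1) := fun e he => (hjtb e he).2.2.2.1
  have hmem : ∀ e ∈ E, y e + ∑ k, b e k • x k - 2 ^ (j e) • x (t e) ∈
      H e ⊔ Lb l (b e) ⊔ AddSubgroup.zmultiples (l (t e)) := fun e he => (hjtb e he).2.2.2.2
  have hpow : ∀ e ∈ E, 2 ^ (j e) = 2 * 2 ^ (j e - 1) := by
    intro e he
    have := hj1 e he
    rw [← pow_succ', show j e - 1 + 1 = j e by omega]
  have hpow1 : ∀ e, 1 ≤ 2 ^ (j e - 1) := fun e => Nat.one_le_two_pow
  set wt : ι → ℕ := fun e => 2 ^ (j e) - b e (t e) with hwt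
  have hw2 : ∀ e ∈ E, 2 ≤ wt e ∧ 2 ^ (j e) ≤ 2 * wt e := by
    intro e he
    have h1 := hbt e he
    have h2 := hpow e he
    have h3 := hpow1 e
    simp only [hwt]
    omega
  -- a class with too much weight
  have hcl : ∃ c : κ, s c + 1 ≤ ∑ e ∈ E.filter (fun e => t e = c), wt e := by
    by_contra hno
    push Not at hno
    apply hcon
    have h1 : 2 * #E ≤ ∑ e ∈ E, wt e := by
      rw [mul_comm, ← smul_eq_mul, ← sum_const]
      exact sum_le_sum fun e he => (hw2 e he).1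
    have h2 : ∑ c : κ, ∑ e ∈ E.filter (fun e => t e = c), wt e = ∑ e ∈ E, wt e :=
      sum_fiberwise E t wt
    have h3 : ∑ c : κ, ∑ e ∈ E.filter (fun e => t e = c), wt e ≤ ∑ c, s c :=
      sum_le_sum fun c _ => by have := hno c; omega
    omega
  obtain ⟨c, hc⟩ := hcl
  obtain ⟨F, hFE, hFw, hFσ, hFn⟩ := fmin (E.filter fun e => t e = c) wt (fun e => 2 ^ (j e))
    (hs' c) (fun e he => (hw2 e (mem_filter.1 he).1).2) (fun e he => by
      have h1 := hja e (mem_filter.1 he).1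
      show 2 * 2 ^ (j e) ≤ 2 ^ (a - i)
      rw [← pow_succ']
      exact Nat.pow_le_pow_right (by norm_num) (by omega)) hc
  have hFE' : ∀ e ∈ F, e ∈ E := fun e he => (mem_filter.1 (hFE he)).1
  have hFt : ∀ e ∈ F, t e = c := fun e he => (mem_filter.1 (hFE he)).2
  -- the numbers
  set q : ℕ := 2 ^ (a - i) with hq
  set S : ℕ := ∑ e ∈ F, 2 ^ (j e) with hS
  have hwle : ∑ e ∈ F, wt e + ∑ e ∈ F, b e c = S := by
    rw [← sum_add_distrib, hS]
    refine sum_congr rfl fun e he => ?_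
    have h1 := hbt e (hFE' e he)
    have h2 := hpow e (hFE' e he)
    simp only [hwt]
    rw [hFt e he] at h1 ⊢
    omega
  set B : κ → ℕ := fun k => if k = c then q - ∑ e ∈ F, wt e else ∑ e ∈ F, b e k with hBdef
  have hBc : B c = q - ∑ e ∈ F, wt e := by simp only [hBdef, if_true]
  have hBk : ∀ k, k ≠ c → B k = ∑ e ∈ F, b e k := fun k hk => by simp only [hBdef, if_neg hk]
  have hbl : ∀ k, ∑ e ∈ F, b e k + #F ≤ S := by
    intro k
    rw [hS, card_eq_sum_ones, ← sum_add_distrib]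
    refine sum_le_sum fun e he => ?_
    have h1 : b e k ≤ ∑ k, b e k := single_le_sum (f := b e) (fun _ _ => Nat.zero_le _) (mem_univ k)
    rw [hbs e (hFE' e he)] at h1
    have h2 := hpow e (hFE' e he)
    have h3 := hpow1 e
    omega
  have hFpos : 0 < #F := card_pos.2 hFn
  have hBcnt : ∀ k, B k ≤ cnt y H I (cs (x k) (AddSubgroup.zmultiples (l k))) := by
    intro k
    have h1 := hs k
    have h2 := hs' k
    by_cases hk : k = c
    · subst hk
      rw [hBc]
      omega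
    · rw [hBk k hk]
      have h3 := hbl k
      omega
  obtain ⟨J, hJI, hJc, hFJ, hJl, hJs⟩ := IMPRM.build h F (fun e he => hEI e (hFE' e he))
    (fun e he => hEe e (hFE' e he)) B hBcnt
  have hsumB : #F + ∑ k, B k = q := by
    have h1 : ∑ k, B k = B c + ∑ k ∈ univ.erase c, B k := (add_sum_erase univ B (mem_univ c)).symm
    have h2 : ∑ k ∈ univ.erase c, B k = ∑ k ∈ univ.erase c, ∑ e ∈ F, b e k :=
      sum_congr rfl fun k hk => hBk k (ne_of_mem_erase hk)
    have h3 : ∑ e ∈ F, b e c + ∑ k ∈ univ.erase c, ∑ e ∈ F, b e k = ∑ k, ∑ e ∈ F, b e k :=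
      add_sum_erase univ (fun k => ∑ e ∈ F, b e k) (mem_univ c)
    have h4 : ∑ k, ∑ e ∈ F, b e k + #F = S := by
      rw [sum_comm, hS, card_eq_sum_ones, ← sum_add_distrib]
      refine sum_congr rfl fun e he => ?_
      rw [hbs e (hFE' e he)]
      have := hpow e (hFE' e he)
      have := hpow1 e
      omega
    rw [h1, h2, hBc]
    omega
  refine hN J hJI (hJc.trans hsumB) ?_
  -- the sum
  have hqx : q • x c = 0 := (hG.mem_iff (by omega)).1 (h.hx c)
  have hBx : ∑ k, B k • x k = ∑ e ∈ F, (∑ k, b e k • x k - 2 ^ (j e) • x c) := by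
    have h1 : ∑ k, B k • x k = B c • x c + ∑ k ∈ univ.erase c, B k • x k :=
      (add_sum_erase univ (fun k => B k • x k) (mem_univ c)).symm
    have h2 : ∑ k ∈ univ.erase c, B k • x k = ∑ k ∈ univ.erase c, (∑ e ∈ F, b e k) • x k :=
      sum_congr rfl fun k hk => by rw [hBk k (ne_of_mem_erase hk)]
    have h3 : (∑ e ∈ F, b e c) • x c + ∑ k ∈ univ.erase c, (∑ e ∈ F, b e k) • x k =
        ∑ k, (∑ e ∈ F, b e k) • x k :=
      add_sum_erase univ (fun k => (∑ e ∈ F, b e k) • x k) (mem_univ c)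
    have h4 : ∑ k, (∑ e ∈ F, b e k) • x k = ∑ e ∈ F, ∑ k, b e k • x k := by
      rw [sum_comm]
      exact sum_congr rfl fun k _ => sum_smul
    have h5 : B c • x c + S • x c = (∑ e ∈ F, b e c) • x c := by
      rw [← add_smul, hBc]
      have : q - ∑ e ∈ F, wt e + S = q + ∑ e ∈ F, b e c := by omega
      rw [this, add_smul, hqx, zero_add]
    have h6 : S • x c = ∑ e ∈ F, 2 ^ (j e) • x c := by rw [hS, sum_smul]
    rw [sum_sub_distrib, ← h6, ← h4, ← h3, ← h5, h1, h2]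
    abel
  have hfin : ∑ e ∈ F, y e + ∑ k, B k • x k ∈ ⨆ m ∈ J, H m := by
    rw [hBx, ← sum_add_distrib]
    refine AddSubgroup.sum_mem _ fun e he => ?_
    have h1 := hmem e (hFE' e he)
    rw [hFt e he] at h1
    rw [← add_sub_assoc]
    have hBc0 : B c ≠ 0 := by
      rw [hBc]
      have := hs' c
      omega
    refine (sup_le (sup_le ?_ ?_) ?_ : H e ⊔ Lb l (b e) ⊔ AddSubgroup.zmultiples (l c) ≤
      ⨆ m ∈ J, H m) h1
    · exact le_iSup₂ (f := fun m (_ : m ∈ J) => H m) e (hFJ he)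
    · refine iSup_le fun k => iSup_le fun hk => ?_
      by_cases hkc : k = c
      · subst hkc
        exact hJl k hBc0
      · apply hJl k
        rw [hBk k hkc]
        have : b e k ≤ ∑ e ∈ F, b e k :=
          single_le_sum (f := fun e => b e k) (fun _ _ => Nat.zero_le _) he
        omega
    · exact hJl c hBc0
  have := AddSubgroup.add_mem _ hJs hfin
  rwa [sub_add_cancel] at this

end Pool.Agent.Lib.MPa7239a.EX
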