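import Pool.Agent.Lib.MP_a7239a_co.EX.DISJ
import Pool.Agent.Lib.MP_a7239a_co.EX.PSI
import Pool.Agent.Lib.MP_a7239a_co.EX.MATCH
import Pool.Agent.Lib.MP_a7239a_co.EX.SWAP

/-! # MP_a7239a_co, folder EX: module NSTEP (helper54), the step for families near the maximum -/

set_option autoImplicit false

universe u v w

open Finset

namespace Pool.Agent.Lib.MPa7239a.EX

variable {G : Type u} [AddCommGroup G] {a r : ℕ} {ι : Type v}

namespace NSTEPM

theorem ps_congr {i : ℕ} {y : ι → G} {H : ι → AddSubgroup G} {k m k' : ι}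
    (h : cs (y k) (H k) = cs (y m) (H m)) : ps i y H k k' = ps i y H m k' := by
  obtain ⟨h1, h2⟩ := cs_eq_iff.1 h
  have h3 : y k - y m ∈ H m ⊔ H k' :=
    (le_sup_left : H m ≤ H m ⊔ H k') (by rw [← h1]; exact h2)
  ext x
  show (x ∈ V G (i + 1) ∧ x - (y k + y k') ∈ H k ⊔ H k') ↔
    (x ∈ V G (i + 1) ∧ x - (y m + y k') ∈ H m ⊔ H k')
  rw [h1]
  refine and_congr_right fun _ => ?_
  constructor
  · intro h4
    have h5 : x - (y m + y k') = (x - (y k + y k')) + (y k - y m) := by abel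
    rw [h5]
    exact add_mem h4 h3
  · intro h4
    have h5 : x - (y k + y k') = (x - (y m + y k')) - (y k - y m) := by abel
    rw [h5]
    exact sub_mem h4 h3

/-- only even multiples of `g` are in `V (i + 1)` -/
theorem even_of {i : ℕ} {g : G} (hg : g ∈ V G i) (hn : g ∉ V G (i + 1)) {c : ℤ}
    (h : c • g ∈ V G (i + 1)) : ∃ e : ℤ, c = 2 * e := by
  rcases Int.even_or_odd' c with ⟨e, rfl | rfl⟩
  · exact ⟨e, rfl⟩
  · exfalso
    apply hn
    have h1 : e • (2 • g) ∈ V G (i + 1) := AddSubgroup.zsmul_mem _ (two_mem hg) e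
    have h2 : g = (2 * e + 1) • g - e • (2 • g) := by
      rw [← natCast_zsmul g 2, smul_smul, ← sub_smul]
      rw [show (2 * e + 1 - e * ((2 : ℕ) : ℤ)) = 1 by push_cast; ring, one_smul]
    rw [h2]
    exact sub_mem h h1

theorem invol_mem (hG : Homo G a r) {i : ℕ} (hi : i + 1 < a) {x : G} (h : 2 • x = 0) :
    x ∈ V G (i + 1) :=
  V_anti (show i + 1 ≤ a - 1 by omega) (hG.invol (by omega) h)

theorem line_le (hG : Homo G a r) {i : ℕ} (hi : i + 1 < a) {g g' : G} (hg : g ∈ V G i)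
    (hg' : g' ∈ V G i) (hn' : g' ∉ V G (i + 1))
    (h : 2 • g ∈ AddSubgroup.zmultiples g') :
    AddSubgroup.zmultiples g ≤ AddSubgroup.zmultiples g' ⊔ V G (i + 1) := by
  rw [AddSubgroup.zmultiples_le]
  obtain ⟨c, hc⟩ := AddSubgroup.mem_zmultiples_iff.1 h
  obtain ⟨e, rfl⟩ := even_of (c := c) hg' hn' (by rw [hc]; exact two_mem hg)
  have h1 : g - e • g' ∈ V G (i + 1) := by
    refine invol_mem hG hi ?_
    rw [smul_sub, ← hc, ← natCast_zsmul (e • g') 2, smul_smul]
    exact sub_self _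
  have h2 : g = e • g' + (g - e • g') := by abel
  rw [h2]
  exact add_mem ((le_sup_left : AddSubgroup.zmultiples g' ≤ _)
    (AddSubgroup.zsmul_mem_zmultiples g' e)) ((le_sup_right : V G (i + 1) ≤ _) h1)

/-- members of pairs with the same value, a line, have the same group modulo `V (i + 1)` -/
theorem sup_eq (hG : Homo G a r) {i : ℕ} (hi : i + 1 < a) {y : ι → G} {H : ι → AddSubgroup G}
    {k k' m m' : ι} {g g' : G} (hg : g ∈ V G i) (hn : g ∉ V G (i + 1)) (hg' : g' ∈ V G i)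
    (hn' : g' ∉ V G (i + 1)) (h1 : H k = AddSubgroup.zmultiples g)
    (h2 : H k' = AddSubgroup.zmultiples g) (h3 : H m = AddSubgroup.zmultiples g')
    (h4 : H m' = AddSubgroup.zmultiples g') (hne : (ps i y H k k').Nonempty)
    (he : ps i y H k k' = ps i y H m m') :
    AddSubgroup.zmultiples g ⊔ V G (i + 1) = AddSubgroup.zmultiples g' ⊔ V G (i + 1) := by
  obtain ⟨z, hz⟩ := hne
  have hz' := hz
  rw [he] at hz'
  have e1 : z - (y k + y k') ∈ AddSubgroup.zmultiples g := by
    have := hz.2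
    rwa [h1, h2, sup_idem] at this
  have e2 : z - (y m + y m') ∈ AddSubgroup.zmultiples g' := by
    have := hz'.2
    rwa [h3, h4, sup_idem] at this
  have f1 : z + 2 • g ∈ ps i y H m m' := by
    rw [← he]
    refine ⟨add_mem hz.1 (two_mem hg), ?_⟩
    rw [h1, h2, sup_idem]
    have : z + 2 • g - (y k + y k') = (z - (y k + y k')) + 2 • g := by abel
    rw [this]
    exact add_mem e1 (AddSubgroup.nsmul_mem _ (AddSubgroup.mem_zmultiples g) 2)
  have f2 : z + 2 • g' ∈ ps i y H k k' := by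
    rw [he]
    refine ⟨add_mem hz.1 (two_mem hg'), ?_⟩
    rw [h3, h4, sup_idem]
    have : z + 2 • g' - (y m + y m') = (z - (y m + y m')) + 2 • g' := by abel
    rw [this]
    exact add_mem e2 (AddSubgroup.nsmul_mem _ (AddSubgroup.mem_zmultiples g') 2)
  have k1 : 2 • g ∈ AddSubgroup.zmultiples g' := by
    have h5 := f1.2
    rw [h3, h4, sup_idem] at h5
    have : 2 • g = (z + 2 • g - (y m + y m')) - (z - (y m + y m')) := by abel
    rw [this]
    exact sub_mem h5 e2
  have k2 : 2 • g' ∈ AddSubgroup.zmultiples g := by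
    have h5 := f2.2
    rw [h1, h2, sup_idem] at h5
    have : 2 • g' = (z + 2 • g' - (y k + y k')) - (z - (y k + y k')) := by abel
    rw [this]
    exact sub_mem h5 e1
  exact le_antisymm (sup_le (line_le hG hi hg hg' hn' k1) le_sup_right)
    (sup_le (line_le hG hi hg' hg hn k2) le_sup_right)

theorem Ln_nonempty {i : ℕ} {t : Set G} (h : Ln i t) : t.Nonempty := by
  obtain ⟨x, -, l, -, -, rfl⟩ := h
  exact ⟨x, by rw [mem_cs, sub_self]; exact AddSubgroup.zero_mem _⟩

/-- all four members of two pairs with value `t` meet if the first members do -/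
theorem meet_all (hG : Homo G a r) {i : ℕ} (hi : i + 1 < a) {y : ι → G}
    {H : ι → AddSubgroup G} {I : Finset ι} (hF : Fam i y H I) {t : Set G} (ht : Ln (i + 1) t)
    {k k' m m' : ι} (hk : k ∈ I) (hk' : k' ∈ I) (hm : m ∈ I) (hm' : m' ∈ I)
    (e1 : ps i y H k k' = t) (e2 : ps i y H m m' = t)
    (m1 : Meet i (y k) (H k) (y k') (H k')) (m2 : Meet i (y m) (H m) (y m') (H m'))
    (m3 : Meet i (y k) (H k) (y m) (H m)) :
    Meet i (y k') (H k') (y m') (H m') ∧ Meet i (y k) (H k) (y m') (H m') ∧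
      Meet i (y k') (H k') (y m) (H m) := by
  have hn1 : (ps i y H k k').Nonempty := by rw [e1]; exact Ln_nonempty ht
  have hn2 : (ps i y H m m').Nonempty := by rw [e2]; exact Ln_nonempty ht
  obtain ⟨g, hg, hgn, h1, h2⟩ := ps_line hG hi hF hk hk' hn1 (by rw [e1]; exact ht)
  obtain ⟨g', hg', hgn', h3, h4⟩ := ps_line hG hi hF hm hm' hn2 (by rw [e2]; exact ht)
  have hW := sup_eq hG hi hg hgn hg' hgn' h1 h2 h3 h4 hn1 (e1.trans e2.symm)
  unfold Meet at *
  rw [h1, h2, sup_sup_distrib_right, sup_idem] at m1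
  rw [h3, h4, sup_sup_distrib_right, sup_idem, ← hW] at m2
  rw [h1, h3, sup_sup_distrib_right, ← hW, sup_idem] at m3
  rw [h1, h2, h3, h4, sup_sup_distrib_right, ← hW, sup_idem]
  refine ⟨?_, ?_, ?_⟩
  · have : y k' - y m' = (y k - y m) - (y k - y k') + (y m - y m') := by abel
    rw [this]
    exact add_mem (sub_mem m3 m1) m2
  · have : y k - y m' = (y k - y m) + (y m - y m') := by abel
    rw [this]
    exact add_mem m3 m2
  · have : y k' - y m = (y k - y m) - (y k - y k') := by abel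
    rw [this]
    exact sub_mem m3 m1

/-- a swap which creates the value `t` -/
theorem create (hG : Homo G a r) {i : ℕ} (hi : i + 1 < a) {y : ι → G}
    {H : ι → AddSubgroup G} {I : Finset ι} (hF : Fam i y H I) {t : Set G} (ht : Ln (i + 1) t)
    {k k' m m' : ι} (hk : k ∈ I) (hk' : k' ∈ I) (hm : m ∈ I) (hm' : m' ∈ I)
    (e1 : ps i y H k k' = t) (e2 : ps i y H m m' = t) (e3 : ps i y H k m = t) :
    cs (y k') (H k') = cs (y m) (H m) ∧ cs (y k) (H k) = cs (y m') (H m') := by
  have hn1 : (ps i y H k k').Nonempty := by rw [e1]; exact Ln_nonempty ht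
  have hn2 : (ps i y H m m').Nonempty := by rw [e2]; exact Ln_nonempty ht
  have hn3 : (ps i y H k m).Nonempty := by rw [e3]; exact Ln_nonempty ht
  obtain ⟨g, -, -, h1, h2⟩ := ps_line hG hi hF hk hk' hn1 (by rw [e1]; exact ht)
  obtain ⟨g', -, -, h3, h4⟩ := ps_line hG hi hF hm hm' hn2 (by rw [e2]; exact ht)
  obtain ⟨g'', -, -, h5, h6⟩ := ps_line hG hi hF hk hm hn3 (by rw [e3]; exact ht)
  refine ⟨ps_inj hn1 (h1.trans h2.symm) (h2.trans (h1.symm.trans (h5.trans h6.symm)))
    (e1.trans e3.symm), ?_⟩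
  have hn4 : (ps i y H m k).Nonempty := by rw [ps_comm]; exact hn3
  refine ps_inj hn4 (h6.trans h5.symm) (h5.trans (h6.symm.trans (h3.trans h4.symm))) ?_
  rw [ps_comm, e3, e2]

/-- two pairs with value `t` and equal cosets inside the pairs meet -/
theorem meet_of_double (hG : Homo G a r) {i : ℕ} (hi : i + 1 < a) {y : ι → G}
    {H : ι → AddSubgroup G} {I : Finset ι} (hF : Fam i y H I) {t : Set G} (ht : Ln (i + 1) t)
    {k k' m m' : ι} (hk : k ∈ I) (hk' : k' ∈ I) (hm : m ∈ I) (hm' : m' ∈ I)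
    (e1 : ps i y H k k' = t) (e2 : ps i y H m m' = t)
    (c1 : cs (y k) (H k) = cs (y k') (H k')) (c2 : cs (y m) (H m) = cs (y m') (H m')) :
    Meet i (y k) (H k) (y m) (H m) := by
  have hn1 : (ps i y H k k').Nonempty := by rw [e1]; exact Ln_nonempty ht
  have hn2 : (ps i y H m m').Nonempty := by rw [e2]; exact Ln_nonempty ht
  obtain ⟨g, hg, hgn, h1, h2⟩ := ps_line hG hi hF hk hk' hn1 (by rw [e1]; exact ht)
  obtain ⟨g', hg', hgn', h3, h4⟩ := ps_line hG hi hF hm hm' hn2 (by rw [e2]; exact ht)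
  obtain ⟨z, hz⟩ := hn1
  have hz' := hz
  rw [e1, ← e2] at hz'
  -- `z = 2 y + 2 e g`
  have key : ∀ (k k' : ι) (g : G), k ∈ I → g ∈ V G i → g ∉ V G (i + 1) →
      H k = AddSubgroup.zmultiples g → H k' = AddSubgroup.zmultiples g → z ∈ ps i y H k k' →
      cs (y k) (H k) = cs (y k') (H k') → ∃ e : ℤ, z = 2 • (y k + e • g) := by
    intro k k' g hk hg hgn h1 h2 hz c
    obtain ⟨-, hc⟩ := cs_eq_iff.1 c
    rw [h1] at hc
    have hz2 := hz.2
    rw [h1, h2, sup_idem] at hz2
    have h5 : z - 2 • y k ∈ AddSubgroup.zmultiples g := by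
      have : z - 2 • y k = (z - (y k + y k')) - (y k - y k') := by rw [two_smul]; abel
      rw [this]
      exact sub_mem hz2 hc
    obtain ⟨c, hc'⟩ := AddSubgroup.mem_zmultiples_iff.1 h5
    obtain ⟨e, rfl⟩ := even_of (c := c) hg hgn (by
      rw [hc']
      exact sub_mem hz.1 (two_mem (hF.hy k hk)))
    refine ⟨e, ?_⟩
    rw [smul_add, ← natCast_zsmul (e • g) 2, smul_smul]
    have h6 : z = 2 • y k + (z - 2 • y k) := by abel
    rw [← hc'] at h6
    exact h6
  obtain ⟨e, he⟩ := key k k' g hk hg hgn h1 h2 hz c1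
  obtain ⟨e', he'⟩ := key m m' g' hm hg' hgn' h3 h4 hz' c2
  have h7 : (y k + e • g) - (y m + e' • g') ∈ V G (i + 1) := by
    refine invol_mem hG hi ?_
    rw [smul_sub, ← he, ← he', sub_self]
  unfold Meet
  rw [h1, h3]
  have h8 : y k - y m = (-(e • g) + e' • g') + ((y k + e • g) - (y m + e' • g')) := by abel
  rw [h8]
  refine add_mem ((le_sup_left : _ ≤ _ ⊔ V G (i + 1)) (add_mem ?_ ?_))
    ((le_sup_right : V G (i + 1) ≤ _) h7)
  · exact (le_sup_left : AddSubgroup.zmultiples g ≤ _)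
      (neg_mem (AddSubgroup.zsmul_mem_zmultiples g e))
  · exact (le_sup_right : AddSubgroup.zmultiples g' ≤ _)
      (AddSubgroup.zsmul_mem_zmultiples g' e')

/-- in a matching with no reducing swap, two meeting pairs with value `t` consist of one coset -/
theorem four (hG : Homo G a r) {i : ℕ} (hi : i + 1 < a) {y : ι → G}
    {H : ι → AddSubgroup G} {I : Finset ι} (hF : Fam i y H I) {t : Set G} (ht : Ln (i + 1) t)
    {P : Finset (ι × ι)} (hP : Mat i y H I P)
    (hmin : ∀ P', Mat i y H I P' → #P' = #P →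
      cnt (Zp i y H) (Kp i H) P' t + 2 ≠ cnt (Zp i y H) (Kp i H) P t)
    {p p' : ι × ι} (hp : p ∈ P) (hp' : p' ∈ P) (hne : p ≠ p') (e1 : ps i y H p.1 p.2 = t)
    (e2 : ps i y H p'.1 p'.2 = t) (hm : Meet i (y p.1) (H p.1) (y p'.1) (H p'.1)) :
    cs (y p.1) (H p.1) = cs (y p.2) (H p.2) ∧ cs (y p'.1) (H p'.1) = cs (y p'.2) (H p'.2) ∧
      cs (y p.1) (H p.1) = cs (y p'.1) (H p'.1) := by
  obtain ⟨a1, a2, -⟩ := hP.mem p hp
  obtain ⟨b1, b2, -⟩ := hP.mem p' hp'
  obtain ⟨m1, m2, m3⟩ := meet_all hG hi hF ht a1 a2 b1 b2 e1 e2 (hP.meet p hp)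
    (hP.meet p' hp') hm
  have s1 : cs (y p.2) (H p.2) = cs (y p'.1) (H p'.1) ∧
      cs (y p.1) (H p.1) = cs (y p'.2) (H p'.2) := by
    by_cases c1 : ps i y H p.1 p'.1 = t
    · exact create hG hi hF ht a1 a2 b1 b2 e1 e2 c1
    · by_cases c2 : ps i y H p.2 p'.2 = t
      · have := create hG hi hF ht a2 a1 b2 b1 (by rw [ps_comm]; exact e1)
          (by rw [ps_comm]; exact e2) c2
        exact ⟨this.2, this.1⟩
      · obtain ⟨P', h1, h2, h3⟩ := mat_swap hF hP hp hp' hne hm m1 t e1 e2 c1 c2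
        exact absurd h3 (hmin P' h1 h2)
  have s2 : cs (y p.2) (H p.2) = cs (y p'.2) (H p'.2) ∧
      cs (y p.1) (H p.1) = cs (y p'.1) (H p'.1) := by
    by_cases c1 : ps i y H p.1 p'.2 = t
    · exact create hG hi hF ht a1 a2 b2 b1 e1 (by rw [ps_comm]; exact e2) c1
    · by_cases c2 : ps i y H p.2 p'.1 = t
      · have := create hG hi hF ht a2 a1 b1 b2 (by rw [ps_comm]; exact e1) e2 c2
        exact ⟨this.2, this.1⟩
      · obtain ⟨P1, g1, g2, g3, g4, g5⟩ := mat_flip hF hP hp'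
        have hne' : p ≠ p'.swap := by
          intro h
          exact (hP.disj p hp p' hp' hne).2.1 (by rw [h]; rfl)
        obtain ⟨P', h1, h2, h3⟩ := mat_swap hF g1 (g4 p hp hne) g3 hne' m2 m3 t e1
          (by rw [ps_comm]; exact e2) c1 c2
        refine absurd ?_ (hmin P' h1 (h2.trans g2))
        rw [h3, g5]
  exact ⟨s2.2.trans s1.1.symm, s1.1.symm.trans s2.1, s2.2⟩

/-- pairwise non-meeting first members -/
theorem few [Finite G] (hG : Homo G a r) (hr : 1 ≤ r) {i : ℕ} (hi : i < a) {y : ι → G}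
    {H : ι → AddSubgroup G} {I : Finset ι} (hF : Fam i y H I) {P : Finset (ι × ι)}
    (hP : Mat i y H I P) (Q : Finset (ι × ι)) (hQ : Q ⊆ P)
    (h : ∀ p ∈ Q, ∀ p' ∈ Q, p ≠ p' → ¬ Meet i (y p.1) (H p.1) (y p'.1) (H p'.1)) :
    #Q ≤ 2 ^ (r - 1) := by
  classical
  have hinj : Set.InjOn (fun p : ι × ι => p.1) (Q : Set (ι × ι)) := by
    intro p hp p' hp' he
    by_contra hne
    exact (hP.disj p (hQ hp) p' (hQ hp') hne).1 he
  rw [← card_image_of_injOn hinj]
  refine disj hG hr hi (y := y) (H := H) ⟨?_, ?_, ?_⟩ ?_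
  · intro k hk
    obtain ⟨p, hp, rfl⟩ := mem_image.1 hk
    exact hF.hy _ (hP.mem p (hQ hp)).1
  · intro k hk
    obtain ⟨p, hp, rfl⟩ := mem_image.1 hk
    exact hF.hH _ (hP.mem p (hQ hp)).1
  · intro k hk
    obtain ⟨p, hp, rfl⟩ := mem_image.1 hk
    exact hF.hn _ (hP.mem p (hQ hp)).1
  · intro k hk k' hk' hne
    obtain ⟨p, hp, rfl⟩ := mem_image.1 hk
    obtain ⟨p', hp', rfl⟩ := mem_image.1 hk'
    exact h p hp p' hp' fun he => hne (by rw [he])

end NSTEPM

open NSTEPM in
/-- NSTEP -/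
theorem nstep [Finite G] (hG : Homo G a r) (hr : 1 ≤ r) {i d' : ℕ} (hi : i + 1 < a)
    (hq : 3 * d' + 2 ^ (r - 1) + 4 ≤ 2 ^ (a - (i + 1))) {y : ι → G}
    {H : ι → AddSubgroup G} {I : Finset ι} (hF : Fam i y H I) (hN : NoHit (2 ^ (a - i)) y H I)
    {P : Finset (ι × ι)} (hP : Mat i y H I P)
    (IH : ∀ P', Mat i y H I P' → #P' = #P → Str a r (i + 1) d' (Zp i y H) (Kp i H) P') :
    ∃ T : Finset (Set G), #T = 2 ^ (r - 1) ∧
      ∀ t ∈ T, Ln i t ∧ 2 ^ (a - i) ≤ cnt y H I t + 4 * d' + 2 * 2 ^ (r - 1) := by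
  classical
  have hpow : 2 ^ (a - i) = 2 * 2 ^ (a - (i + 1)) := by
    rw [show a - i = a - (i + 1) + 1 by omega, pow_succ]
    ring
  obtain ⟨T, hT, hTl, -⟩ := IH P hP rfl
  have claim : ∀ t ∈ T, ∃ c : Set G,
      (Ln i c ∧ 2 ^ (a - i) ≤ cnt y H I c + 4 * d' + 2 * 2 ^ (r - 1)) ∧
      ∃ k, cs (y k) (H k) = c ∧ ps i y H k k = t := by
    intro t ht
    obtain ⟨hLn, hct⟩ := hTl t ht
    -- a matching of minimal count
    have hex : ∃ n, ∃ P', Mat i y H I P' ∧ #P' = #P ∧ cnt (Zp i y H) (Kp i H) P' t = n ∧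
        2 ^ (a - (i + 1)) ≤ n + 1 + 2 * d' := ⟨_, P, hP, rfl, rfl, hct⟩
    obtain ⟨P', hP', hcard, hn, hge⟩ := Nat.find_spec hex
    have hmin : ∀ P'', Mat i y H I P'' → #P'' = #P' →
        cnt (Zp i y H) (Kp i H) P'' t + 2 ≠ cnt (Zp i y H) (Kp i H) P' t := by
      intro P'' hM hc he
      obtain ⟨T'', -, hT1, hT2⟩ := IH P'' hM (hc.trans hcard)
      by_cases htT : t ∈ T''
      · have h1 := (hT1 t htT).2
        have h2 := Nat.find_min hex (m := cnt (Zp i y H) (Kp i H) P'' t) (by omega)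
        exact h2 ⟨P'', hM, hc.trans hcard, rfl, h1⟩
      · have h1 : cnt (Zp i y H) (Kp i H) P'' t ≤ d' := by
          refine le_trans (card_le_card ?_) hT2
          intro p hp
          rw [mem_filter] at hp ⊢
          refine ⟨hp.1, ?_⟩
          rw [hp.2]
          exact htT
        have hR := Nat.one_le_two_pow (n := r - 1)
        omega
    set Q : Finset (ι × ι) := P'.filter fun p => ps i y H p.1 p.2 = t with hQ
    have hQc : #Q = cnt (Zp i y H) (Kp i H) P' t := (mat_cnt hF hP' t).symm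
    have hQn : 2 ^ (a - (i + 1)) ≤ #Q + 1 + 2 * d' := by rw [hQc, hn]; exact hge
    have hQP : Q ⊆ P' := filter_subset _ _
    have hQv : ∀ p ∈ Q, ps i y H p.1 p.2 = t := fun p hp => (mem_filter.1 hp).2
    -- two meeting pairs
    obtain ⟨p0, hp0, p1, hp1, hne01, hm01⟩ : ∃ p0 ∈ Q, ∃ p1 ∈ Q, p0 ≠ p1 ∧
        Meet i (y p0.1) (H p0.1) (y p1.1) (H p1.1) := by
      by_contra hcon
      push Not at hcon
      have := few hG hr (by omega) hF hP' Q hQP (fun p hp p' hp' hne => hcon p hp p' hp' hne)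
      omega
    have hc0 := four hG hi hF hLn hP' hmin (hQP hp0) (hQP hp1) hne01 (hQv _ hp0)
      (hQv _ hp1) hm01
    set c : Set G := cs (y p0.1) (H p0.1) with hc
    set good : Finset (ι × ι) := Q.filter fun p => cs (y p.1) (H p.1) = c ∧
      cs (y p.2) (H p.2) = c with hgood
    set bad : Finset (ι × ι) := Q.filter fun p => ¬ (cs (y p.1) (H p.1) = c ∧
      cs (y p.2) (H p.2) = c) with hbad
    have hsum : good.card + bad.card = #Q := card_filter_add_card_filter_not _
    have hp0b : p0 ∉ bad := by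
      rw [hbad, mem_filter]
      rintro ⟨-, h⟩
      exact h ⟨rfl, hc0.1.symm⟩
    have hbadc : bad.card + 1 ≤ 2 ^ (r - 1) := by
      rw [← card_insert_of_notMem hp0b]
      refine few hG hr (by omega) hF hP' (insert p0 bad) ?_ ?_
      · intro p hp
        rcases mem_insert.1 hp with rfl | hp
        · exact hQP hp0
        · exact hQP (mem_filter.1 hp).1
      · -- a bad pair with one coset is impossible
        have hbb : ∀ b ∈ bad, cs (y b.1) (H b.1) = cs (y b.2) (H b.2) → False := by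
          intro b hb hcb
          obtain ⟨hbQ, hbn⟩ := mem_filter.1 hb
          have hne : b ≠ p0 := by
            rintro rfl
            exact hp0b hb
          have a1 := hP'.mem b (hQP hbQ)
          have a2 := hP'.mem p0 (hQP hp0)
          have hmt := meet_of_double hG hi hF hLn a1.1 a1.2.1 a2.1 a2.2.1 (hQv b hbQ)
            (hQv p0 hp0) hcb hc0.1
          have h4 := four hG hi hF hLn hP' hmin (hQP hbQ) (hQP hp0) hne (hQv b hbQ)
            (hQv p0 hp0) hmt
          exact hbn ⟨h4.2.2, hcb.symm.trans h4.2.2⟩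
        intro p hp p' hp' hne hmt
        have hpQ : p ∈ Q := by
          rcases mem_insert.1 hp with rfl | hp
          · exact hp0
          · exact (mem_filter.1 hp).1
        have hpQ' : p' ∈ Q := by
          rcases mem_insert.1 hp' with rfl | hp'
          · exact hp0
          · exact (mem_filter.1 hp').1
        have h4 := four hG hi hF hLn hP' hmin (hQP hpQ) (hQP hpQ') hne (hQv p hpQ)
          (hQv p' hpQ') hmt
        rcases mem_insert.1 hp with h | hb
        · rcases mem_insert.1 hp' with h' | hb'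
          · exact hne (h.trans h'.symm)
          · exact hbb p' hb' h4.2.1
        · exact hbb p hb h4.1
    have hcount : 2 * good.card ≤ cnt y H I c := by
      have i1 : Set.InjOn (fun p : ι × ι => p.1) (good : Set (ι × ι)) := by
        intro p hp p' hp' he
        by_contra hne
        exact (hP'.disj p (hQP (mem_filter.1 hp).1) p' (hQP (mem_filter.1 hp').1) hne).1 he
      have i2 : Set.InjOn (fun p : ι × ι => p.2) (good : Set (ι × ι)) := by
        intro p hp p' hp' he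
        by_contra hne
        exact (hP'.disj p (hQP (mem_filter.1 hp).1) p' (hQP (mem_filter.1 hp').1) hne).2.2.2 he
      have hd : Disjoint (good.image fun p : ι × ι => p.1) (good.image fun p : ι × ι => p.2) := by
        rw [disjoint_left]
        intro k hk hk'
        obtain ⟨p, hp, rfl⟩ := mem_image.1 hk
        obtain ⟨p', hp', he⟩ := mem_image.1 hk'
        have b1 := hQP (mem_filter.1 hp).1
        have b2 := hQP (mem_filter.1 hp').1
        by_cases hpp : p = p'
        · subst hpp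
          exact (hP'.mem p b1).2.2 he.symm
        · exact (hP'.disj p b1 p' b2 hpp).2.1 he.symm
      have h1 : #((good.image fun p : ι × ι => p.1) ∪ (good.image fun p : ι × ι => p.2)) =
          2 * good.card := by
        rw [card_union_of_disjoint hd, card_image_of_injOn i1, card_image_of_injOn i2, two_mul]
      rw [← h1]
      refine card_le_card ?_
      intro k hk
      rw [mem_filter]
      rcases mem_union.1 hk with hk | hk
      · obtain ⟨p, hp, rfl⟩ := mem_image.1 hk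
        exact ⟨(hP'.mem p (hQP (mem_filter.1 hp).1)).1, (mem_filter.1 hp).2.1⟩
      · obtain ⟨p, hp, rfl⟩ := mem_image.1 hk
        exact ⟨(hP'.mem p (hQP (mem_filter.1 hp).1)).2.1, (mem_filter.1 hp).2.2⟩
    refine ⟨c, ⟨?_, by omega⟩, p0.1, rfl, ?_⟩
    · have a2 := hP'.mem p0 (hQP hp0)
      obtain ⟨g, hg, hgn, h1, -⟩ := ps_line hG hi hF a2.1 a2.2.1
        (by rw [hQv p0 hp0]; exact Ln_nonempty hLn) (by rw [hQv p0 hp0]; exact hLn)
      exact ⟨y p0.1, hF.hy _ a2.1, g, hg, hgn, by rw [hc, h1]⟩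
    · rw [ps_comm i y H p0.1 p0.1, ← hQv p0 hp0, ps_comm i y H p0.1 p0.2]
      exact ps_congr hc0.1
  choose! f hf using claim
  refine ⟨T.image f, ?_, ?_⟩
  · rw [card_image_of_injOn, hT]
    intro t ht t' ht' he
    obtain ⟨-, k, hk1, hk2⟩ := hf t ht
    obtain ⟨-, k', hk1', hk2'⟩ := hf t' ht'
    have hcc : cs (y k) (H k) = cs (y k') (H k') := by rw [hk1, hk1', he]
    rw [← hk2, ← hk2', ps_congr hcc, ps_comm, ps_congr hcc]
  · intro c hc
    obtain ⟨t, ht, rfl⟩ := mem_image.1 hc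
    exact (hf t ht).1

end Pool.Agent.Lib.MPa7239a.EX
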