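import Pool.Agent.Lib.MP_a7239a_co.EX.EBASE
import Pool.Agent.Lib.MP_a7239a_co.EX.ESTEP
import Pool.Agent.Lib.MP_a7239a_co.EX.NSTEP
import Pool.Agent.Lib.MP_a7239a_co.EX.HVM
import Pool.Agent.Lib.MP_a7239a_co.EX.MATCH
import Pool.Agent.Lib.MP_a7239a_co.EX.HARBI
import Pool.Agent.Lib.MP_a7239a_co.EX.IMPR

/-! # folder EX, module LTM: the stable theorem `lt` -/

set_option autoImplicit false

universe u v w

open Finset

namespace Pool.Agent.Lib.MPa7239a.EX

variable {G : Type u} [AddCommGroup G] {a r : ℕ}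

/-- numbers: the next level -/
theorem LTM_num1 {R q q' d d' I P : ℕ} (hR : 1 ≤ R) (hd : 1 ≤ d) (hq : q = 2 * q')
    (hdd : d' = d / 2) (h1 : 32 * (R + 1) * d ≤ q) (h2 : R * (q - 1) ≤ I + d)
    (h3 : I ≤ 2 * P + R) :
    32 * (R + 1) * d' ≤ q' ∧ R * (q' - 1) ≤ P + d' ∧ 3 * d' + R + 4 ≤ q' ∧
      2 * (4 * d' + 2 * R) ≤ q ∧ 16 * (4 * d' + 2 * R) ≤ q := by
  have e1 : R ≤ R * d := Nat.le_mul_of_pos_right R hd
  have e2 : 32 * (R + 1) * d = 32 * (R * d) + 32 * d := by ring
  have e3 : 32 * (R + 1) * d' = 32 * (R * d') + 32 * d' := by ring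
  have e4 : R * (2 * d') ≤ R * d := Nat.mul_le_mul_left R (by omega)
  have e5 : R * (2 * d') = 2 * (R * d') := by ring
  have hq' : 1 ≤ q' := by
    rcases Nat.eq_zero_or_pos q' with h | h
    · subst h
      omega
    · exact h
  have e6 : R * (q - 1) = 2 * (R * (q' - 1)) + R := by
    obtain ⟨m, rfl⟩ : ∃ m, q' = m + 1 := ⟨q' - 1, by omega⟩
    subst hq
    have : 2 * (m + 1) - 1 = 2 * m + 1 := by omega
    rw [this, Nat.add_sub_cancel]
    ring
  refine ⟨?_, ?_, ?_, ?_, ?_⟩
  · omega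
  · omega
  · omega
  · omega
  · omega

open Classical in
/-- partition of `I` by the cosets in `T` -/
theorem LTM_part {ι : Type v} (y : ι → G) (H : ι → AddSubgroup G) (I : Finset ι)
    (T : Finset (Set G)) :
    #I = ∑ t ∈ T, cnt y H I t + #(I.filter fun k => cs (y k) (H k) ∉ T) := by
  have h1 : #(I.filter fun k => cs (y k) (H k) ∈ T) = ∑ t ∈ T, cnt y H I t := by
    refine (card_eq_sum_card_fiberwise (s := I.filter fun k => cs (y k) (H k) ∈ T)
      (f := fun k => cs (y k) (H k)) (t := T)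
      (fun k hk => (mem_filter.1 (mem_coe.1 hk)).2)).trans ?_
    refine sum_congr rfl fun t ht => ?_
    unfold cnt
    congr 1
    ext k
    simp only [mem_filter]
    constructor
    · rintro ⟨⟨h1, _⟩, h2⟩
      exact ⟨h1, h2⟩
    · rintro ⟨h1, h2⟩
      exact ⟨⟨h1, h2 ▸ ht⟩, h2⟩
  rw [← h1]
  exact (card_filter_add_card_filter_not (s := I) (fun k => cs (y k) (H k) ∈ T)).symm

/-- LT: the stable theorem -/
theorem lt [Finite G] (hG : Homo G a r) (hr : 1 ≤ r) : ∀ i < a, ∀ d,
    (d = 0 ∨ 32 * (2 ^ (r - 1) + 1) * d ≤ 2 ^ (a - i)) → ∀ (ι : Type v) (y : ι → G)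
    (H : ι → AddSubgroup G) (I : Finset ι), Fam i y H I → NoHit (2 ^ (a - i)) y H I →
    2 ^ (r - 1) * (2 ^ (a - i) - 1) ≤ #I + d → Str a r i d y H I := by
  classical
  suffices hmain : ∀ n i, i < a → a - 1 - i = n → ∀ d,
      (d = 0 ∨ 32 * (2 ^ (r - 1) + 1) * d ≤ 2 ^ (a - i)) → ∀ (ι : Type v) (y : ι → G)
      (H : ι → AddSubgroup G) (I : Finset ι), Fam i y H I → NoHit (2 ^ (a - i)) y H I →
      2 ^ (r - 1) * (2 ^ (a - i) - 1) ≤ #I + d → Str a r i d y H I from
    fun i hi => hmain (a - 1 - i) i hi rfl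
  intro n
  induction n with
  | zero =>
    intro i hi hn d hd ι y H I hF hN hI
    have hia : i + 1 = a := by omega
    have hd0 : d = 0 := by
      rcases hd with hd | hd
      · exact hd
      · by_contra hne
        have h1 : a - i = 1 := by omega
        rw [h1, pow_one] at hd
        have h2 : 1 ≤ 2 ^ (r - 1) := Nat.one_le_two_pow
        have h3 : 1 * 1 ≤ (2 ^ (r - 1) + 1) * d := Nat.mul_le_mul (by omega) (by omega)
        rw [mul_assoc] at hd
        omega
    subst hd0
    exact ebase hG hr hia hF hN (by simpa using hI)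
  | succ n IHn =>
    intro i hi hn d hd ι y H I hF hN hI
    have hi1 : i + 1 < a := by omega
    have IH := IHn (i + 1) hi1 (by omega)
    rcases Nat.eq_zero_or_pos d with hd0 | hd0
    · subst hd0
      refine estep hG hr hi1 hF hN (by simpa using hI) fun P hP hPc => ?_
      exact IH 0 (Or.inl rfl) (ι × ι) _ _ P (mat_fam hG hi1 hF hP) (mat_nohit hi hF hN hP)
        (by simpa using hPc)
    · have hdq : 32 * (2 ^ (r - 1) + 1) * d ≤ 2 ^ (a - i) := by
        rcases hd with hd | hd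
        · omega
        · exact hd
      obtain ⟨P, hP, hmax⟩ := mat_max i y H I
      have hsz := mat_size hG hr hi hF hP hmax
      have hq2 : 2 ^ (a - i) = 2 * 2 ^ (a - (i + 1)) := by
        rw [← pow_succ', show a - (i + 1) + 1 = a - i by omega]
      obtain ⟨n1, n2, n3, n4, n5⟩ := LTM_num1 (R := 2 ^ (r - 1)) (q := 2 ^ (a - i))
        (q' := 2 ^ (a - (i + 1))) (d := d) (d' := d / 2) (I := #I) (P := #P)
        Nat.one_le_two_pow hd0 hq2 rfl hdq hI hsz
      obtain ⟨T, hTc, hT⟩ := nstep hG hr (d' := d / 2) hi1 n3 hF hN hP fun P' hP' hc =>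
        IH (d / 2) (Or.inr n1) (ι × ι) _ _ P' (mat_fam hG hi1 hF hP')
          (mat_nohit hi hF hN hP') (by rw [hc]; exact n2)
      have hTh : ∀ t ∈ T, 2 ^ (a - i) ≤ 2 * cnt y H I t := by
        intro t ht
        have := (hT t ht).2
        omega
      obtain ⟨x, l, hv, hxl⟩ := hv_mk hG hr hi T hTc (fun t ht => (hT t ht).1)
        (fun x l x' l' h h' hne => nomeet hG hi hF hN hne (hTh _ h) (hTh _ h'))
      have hcl : ∀ t, cnt y H I t + 1 ≤ 2 ^ (a - i) := cnt_le hG hi.le hF hN
      have himp := impr hG hi1 hv hF hN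
        (fun t : {t // t ∈ T} => 2 ^ (a - i) - 1 - cnt y H I t.1)
        (fun t => by
          rw [← hxl t]
          have := hcl t.1
          omega)
        (fun t => by
          have h1 := (hT t.1 t.2).2
          have h2 := hcl t.1
          omega)
      have hEeq : (I.filter fun m => ∀ k : {t // t ∈ T},
          cs (y m) (H m) ≠ cs (x k) (AddSubgroup.zmultiples (l k))) =
          I.filter fun k => cs (y k) (H k) ∉ T := by
        ext m
        simp only [mem_filter]
        constructor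
        · rintro ⟨h1, h2⟩
          refine ⟨h1, fun h3 => h2 ⟨_, h3⟩ ?_⟩
          exact hxl ⟨_, h3⟩
        · rintro ⟨h1, h2⟩
          refine ⟨h1, fun k hk => h2 ?_⟩
          rw [hk, ← hxl k]
          exact k.2
      rw [hEeq, Finset.sum_coe_sort T (fun t => 2 ^ (a - i) - 1 - cnt y H I t)] at himp
      have hpart := LTM_part y H I T
      have hsum : ∑ t ∈ T, cnt y H I t + ∑ t ∈ T, (2 ^ (a - i) - 1 - cnt y H I t) =
          2 ^ (r - 1) * (2 ^ (a - i) - 1) := by
        rw [← sum_add_distrib, ← hTc, ← smul_eq_mul, ← sum_const]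
        refine sum_congr rfl fun t _ => ?_
        have := hcl t
        omega
      refine ⟨T, hTc, fun t ht => ⟨(hT t ht).1, ?_⟩, ?_⟩
      · have h1 : 2 ^ (a - i) - 1 - cnt y H I t ≤
            ∑ t ∈ T, (2 ^ (a - i) - 1 - cnt y H I t) :=
          single_le_sum (f := fun t => 2 ^ (a - i) - 1 - cnt y H I t)
            (fun t _ => Nat.zero_le _) ht
        have h2 := hcl t
        omega
      · omega

end Pool.Agent.Lib.MPa7239a.EX
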