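import Pool.Agent.Lib.MP_a7239a_co.EX.Defs2
import Pool.Agent.Lib.MP_a7239a_co.EX.LTM
import Pool.Agent.Lib.MP_a7239a_co.EX.HVM

/-! # folder EX: module SING (theorem LT for the groups of `2 ^ i` elements of one cell), helper18 -/

set_option autoImplicit false

universe u v w

open Finset

namespace Pool.Agent.Lib.MPa7239a.EX

open Pool.Agent.Lib.MPa7239a.RN (Sol HW DW)

variable {G : Type u} [AddCommGroup G] {a r : ℕ}

namespace SINGM

/-- disjoint groups of `2 ^ i` elements give a family without a hit -/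
theorem grp0 {N : ℕ} {x : Fin N → G} {H : Fin N → AddSubgroup G} {m : Fin N → ℕ}
    {W : Finset (Fin N)} (hS : ¬ Sol (2 ^ a) x H m W) {i : ℕ} (hi : i ≤ a) {ι : Type v}
    (I : Finset ι) (b : ι → Fin N → ℕ) (y : ι → G) (H' : ι → AddSubgroup G)
    (h1 : ∀ k ∈ I, ∑ c, b k c = 2 ^ i) (h2 : ∀ k ∈ I, ∀ c, c ∉ W → b k c = 0)
    (h3 : ∀ c, ∑ k ∈ I, b k c ≤ m c)
    (h4 : ∀ k ∈ I, y k - ∑ c, b k c • x c ∈ HW H (univ.filter fun c => b k c ≠ 0))
    (h5 : ∀ k ∈ I, H' k ≤ HW H (univ.filter fun c => b k c ≠ 0)) :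
    NoHit (2 ^ (a - i)) y H' I := by
  intro J hJ hJc hmem
  apply hS
  have hle : ∀ k ∈ J, HW H (univ.filter fun c => b k c ≠ 0) ≤
      HW H (univ.filter fun c => ∑ k ∈ J, b k c ≠ 0) := by
    intro k hk
    unfold HW
    refine iSup₂_le fun c hc => ?_
    refine le_iSup₂ (f := fun c (_ : c ∈ univ.filter fun c => ∑ k ∈ J, b k c ≠ 0) => H c) c ?_
    rw [mem_filter] at hc ⊢
    refine ⟨mem_univ _, fun h => hc.2 ?_⟩
    exact (sum_eq_zero_iff.1 h) k hk
  refine ⟨fun c => ∑ k ∈ J, b k c, fun c => ?_, fun c hc => ?_, ?_, ?_⟩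
  · exact (sum_le_sum_of_subset hJ).trans (h3 c)
  · exact sum_eq_zero fun k hk => h2 k (hJ hk) c hc
  · rw [sum_comm, sum_congr rfl fun k hk => h1 k (hJ hk), sum_const, hJc, smul_eq_mul, ← pow_add,
      Nat.sub_add_cancel hi]
  · have e : ∑ c, (∑ k ∈ J, b k c) • x c =
        ∑ k ∈ J, y k - ∑ k ∈ J, (y k - ∑ c, b k c • x c) := by
      rw [sum_sub_distrib, sub_sub_cancel]
      simp_rw [sum_smul]
      rw [sum_comm]
    rw [e]
    refine AddSubgroup.sub_mem _ ?_ ?_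
    · refine (iSup₂_le fun k hk => ?_ : ⨆ k ∈ J, H' k ≤ _) hmem
      exact (h5 k (hJ hk)).trans (hle k hk)
    · exact AddSubgroup.sum_mem _ fun k hk => hle k hk (h4 k (hJ hk))

variable {N : ℕ}

/-- the members: `m c / 2 ^ i` copies of the cell `c` -/
def Ix (m : Fin N → ℕ) (W : Finset (Fin N)) (i : ℕ) : Finset (Σ _ : Fin N, ℕ) :=
  W.sigma fun c => range (m c / 2 ^ i)

theorem mem_Ix {m : Fin N → ℕ} {W : Finset (Fin N)} {i : ℕ} {k : Σ _ : Fin N, ℕ} :
    k ∈ Ix m W i ↔ k.1 ∈ W ∧ k.2 < m k.1 / 2 ^ i := by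
  unfold Ix
  rw [mem_sigma, mem_range]

theorem card_Ix (m : Fin N → ℕ) (W : Finset (Fin N)) (i : ℕ) :
    #(Ix m W i) = ∑ c ∈ W, m c / 2 ^ i := by
  unfold Ix
  rw [card_sigma]
  exact sum_congr rfl fun c _ => card_range _

theorem filter_Ix (m : Fin N → ℕ) (W : Finset (Fin N)) (i : ℕ) (p : Fin N → Prop)
    [DecidablePred p] [DecidablePred fun k : Σ _ : Fin N, ℕ => p k.1] :
    #((Ix m W i).filter (fun k => p k.1)) = ∑ c ∈ W.filter p, m c / 2 ^ i := by
  rw [← card_Ix]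
  refine congrArg Finset.card ?_
  ext k
  rw [mem_filter, mem_Ix, mem_Ix, mem_filter]
  tauto

end SINGM

open SINGM in
open Classical in
/-- SING: the theorem LT for the groups of `2 ^ i` elements of one cell -/
theorem sing [Finite G] (hG : Homo G a r) (hr : 1 ≤ r) {N : ℕ} {x : Fin N → G}
    {H : Fin N → AddSubgroup G} {m : Fin N → ℕ} {W : Finset (Fin N)}
    (hS : ¬ Sol (2 ^ a) x H m W) {i d : ℕ} (hi : i < a)
    (hd : d = 0 ∨ 32 * (2 ^ (r - 1) + 1) * d ≤ 2 ^ (a - i))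
    (hn : ∀ c ∈ W, ¬ H c ⊓ V G i ≤ V G (i + 1))
    (hm : 2 ^ (r - 1) * (2 ^ (a - i) - 1) ≤ ∑ c ∈ W, m c / 2 ^ i + d) :
    ∃ T : Finset (Set G), #T = 2 ^ (r - 1) ∧
      (∀ t ∈ T, Ln i t ∧ 2 ^ (a - i) ≤
        ∑ c ∈ W.filter (fun c => cs (2 ^ i • x c) (H c ⊓ V G i) = t), m c / 2 ^ i + 1 + 2 * d) ∧
      ∑ c ∈ W.filter (fun c => cs (2 ^ i • x c) (H c ⊓ V G i) ∉ T), m c / 2 ^ i ≤ d ∧
      ∀ y l y' l' : G, cs y (AddSubgroup.zmultiples l) ∈ T →
        cs y' (AddSubgroup.zmultiples l') ∈ T →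
        cs y (AddSubgroup.zmultiples l) ≠ cs y' (AddSubgroup.zmultiples l') →
        ¬ Meet i y (AddSubgroup.zmultiples l) y' (AddSubgroup.zmultiples l') := by
  have hF : Fam i (fun k : Σ _ : Fin N, ℕ => 2 ^ i • x k.1) (fun k => H k.1 ⊓ V G i)
      (Ix m W i) := by
    refine ⟨fun k _ => ⟨x k.1, rfl⟩, fun k _ => inf_le_right, fun k hk => ?_⟩
    exact hn k.1 (mem_Ix.1 hk).1
  have hNH : NoHit (2 ^ (a - i)) (fun k : Σ _ : Fin N, ℕ => 2 ^ i • x k.1)
      (fun k => H k.1 ⊓ V G i) (Ix m W i) := by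
    refine grp0 hS hi.le (Ix m W i) (fun k c => if c = k.1 then 2 ^ i else 0) _ _ ?_ ?_ ?_ ?_ ?_
    · intro k _
      rw [sum_ite_eq' univ k.1 (fun _ => 2 ^ i), if_pos (mem_univ _)]
    · intro k hk c hc
      rw [if_neg]
      rintro rfl
      exact hc (mem_Ix.1 hk).1
    · intro c
      unfold Ix
      rw [sum_sigma]
      have h1 : ∀ c' ∈ W, (∑ u ∈ range (m c' / 2 ^ i),
          if c = (⟨c', u⟩ : Σ _ : Fin N, ℕ).1 then 2 ^ i else 0) =
          if c = c' then m c' / 2 ^ i * 2 ^ i else 0 := by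
        intro c' _
        show ∑ u ∈ range (m c' / 2 ^ i), (if c = c' then 2 ^ i else 0) = _
        rw [sum_const, card_range, smul_eq_mul]
        split_ifs <;> simp
      rw [sum_congr rfl h1, sum_ite_eq]
      split_ifs
      · exact Nat.div_mul_le_self _ _
      · exact Nat.zero_le _
    · intro k _
      have h1 : ∑ c, (if c = k.1 then 2 ^ i else 0) • x c = 2 ^ i • x k.1 := by
        rw [sum_eq_single k.1]
        · rw [if_pos rfl]
        · intro c _ hc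
          rw [if_neg hc, zero_smul]
        · intro h
          exact absurd (mem_univ _) h
      rw [h1, sub_self]
      exact AddSubgroup.zero_mem _
    · intro k _
      refine inf_le_left.trans ?_
      unfold HW
      refine le_iSup₂ (f := fun c (_ : c ∈ univ.filter fun c => (if c = k.1 then 2 ^ i else 0) ≠ 0) => H c)
        k.1 ?_
      rw [mem_filter]
      refine ⟨mem_univ _, ?_⟩
      rw [if_pos rfl]
      exact (Nat.two_pow_pos i).ne'
  obtain ⟨T, hT1, hT2, hT3⟩ := lt hG hr i hi d hd _ _ _ _ hF hNH (by rw [card_Ix]; exact hm)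
  have hc : ∀ t : Set G, cnt (fun k : Σ _ : Fin N, ℕ => 2 ^ i • x k.1) (fun k => H k.1 ⊓ V G i)
      (Ix m W i) t =
      ∑ c ∈ W.filter (fun c => cs (2 ^ i • x c) (H c ⊓ V G i) = t), m c / 2 ^ i := by
    intro t
    unfold cnt
    exact filter_Ix m W i (fun c => cs (2 ^ i • x c) (H c ⊓ V G i) = t)
  refine ⟨T, hT1, ?_, ?_, ?_⟩
  · intro t ht
    refine ⟨(hT2 t ht).1, ?_⟩
    rw [← hc]
    exact (hT2 t ht).2
  · refine le_trans (le_of_eq ?_) hT3
    exact (filter_Ix m W i (fun c => cs (2 ^ i • x c) (H c ⊓ V G i) ∉ T)).symm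
  · intro y l y' l' hy hy' hne
    have hq : 1 ≤ 2 ^ (a - (i + 1)) := Nat.one_le_two_pow
    have hq2 : 2 ^ (a - i) = 2 * 2 ^ (a - (i + 1)) := by
      rw [← pow_succ', show a - (i + 1) + 1 = a - i by omega]
    have key : ∀ t ∈ T, 2 ^ (a - i) ≤ 2 * cnt (fun k : Σ _ : Fin N, ℕ => 2 ^ i • x k.1)
        (fun k => H k.1 ⊓ V G i) (Ix m W i) t := by
      intro t ht
      have h1 := (hT2 t ht).2
      rcases hd with rfl | hd
      · omega
      · have h2 : 32 * 2 * d ≤ 32 * (2 ^ (r - 1) + 1) * d := by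
          have : 1 ≤ 2 ^ (r - 1) := Nat.one_le_two_pow
          exact Nat.mul_le_mul_right _ (Nat.mul_le_mul_left _ (by omega))
        omega
    exact nomeet hG hi hF hNH hne (key _ hy) (key _ hy')

end Pool.Agent.Lib.MPa7239a.EX
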