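import Pool.Agent.Lib.MP_a7239a_co.EX.Defs2
import Pool.Agent.Lib.MP_a7239a_co.EX.ORDX
import Pool.Agent.Lib.MP_a7239a_co.EX.CYD
import Pool.Agent.Lib.MP_a7239a_co.EX.SING

/-! # folder EX: almost all of the mass is in cells with cyclic groups (CELA) -/

set_option autoImplicit false

universe u v

open Finset

namespace Pool.Agent.Lib.MPa7239a.EX

open Pool.Agent.Lib.MPa7239a.RN (Sol HW DW)

/-- the mass of the cells is at most `2 ^ i` times (the number of full groups plus the number of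
cells) -/
theorem CELA_mass {N K i : ℕ} (hN : N ≤ K) (m : Fin N → ℕ) (S : Finset (Fin N)) :
    (∑ c ∈ S, (m c : ℝ)) ≤ 2 ^ i * ((∑ c ∈ S, m c / 2 ^ i : ℕ) + K) := by
  have h1 : ∀ c ∈ S, (m c : ℝ) ≤ 2 ^ i * (((m c / 2 ^ i : ℕ) : ℝ) + 1) := by
    intro c _
    have h2 : m c < 2 ^ i * (m c / 2 ^ i + 1) := Nat.lt_mul_div_succ _ (by positivity)
    exact_mod_cast h2.le
  refine (sum_le_sum h1).trans ?_
  rw [← mul_sum, sum_add_distrib, sum_const, nsmul_eq_mul, mul_one]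
  refine mul_le_mul_of_nonneg_left ?_ (by positivity)
  have h3 : (#S : ℝ) ≤ K := by
    have := card_le_univ S
    rw [Fintype.card_fin] at this
    exact_mod_cast this.trans hN
  push_cast
  linarith

/-- CELA: almost all of the mass is in cells with cyclic groups -/
theorem cela (r : ℕ) (hr : 1 ≤ r) (K : ℕ) (δ η : ℝ) (hδ : 0 < δ) (hη : 0 < η)
    (hη' : 1000 * (2 ^ (r - 1) + 1) * η ≤ 1) : ∃ a₀ : ℕ, ∀ a ≥ a₀, ∀ (G : Type u)
    [AddCommGroup G] [Finite G], Homo G a r → ∀ (N : ℕ) (x : Fin N → G)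
    (H : Fin N → AddSubgroup G) (m : Fin N → ℕ) (W : Finset (Fin N)), CP a r η δ K x H m W →
    ∃ W₁ ⊆ W, CP a r (8 * η) δ K x H m W₁ ∧ ∀ c ∈ W₁, ∃ g, H c = AddSubgroup.zmultiples g := by
  classical
  obtain ⟨j, hj⟩ : ∃ j : ℕ, (2 * K + 2) / η < (2 : ℝ) ^ j := pow_unbounded_of_one_lt _ (by norm_num)
  obtain ⟨a₁, ha₁⟩ : ∃ a₁ : ℕ, ((2 : ℝ) ^ r) ^ (j + 1) / δ < (2 : ℝ) ^ a₁ :=
    pow_unbounded_of_one_lt _ (by norm_num)
  have hj' : (2 * K + 2 : ℝ) < η * 2 ^ (j + 1) := by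
    rw [div_lt_iff₀ hη] at hj
    have : (2 : ℝ) ^ j * η ≤ η * 2 ^ (j + 1) := by
      rw [pow_succ]
      have : 0 < (2 : ℝ) ^ j * η := by positivity
      nlinarith
    linarith
  refine ⟨a₁ + j + 2, fun a ha G _ _ hG N x H m W hC => ?_⟩
  set i := a - (j + 1) with hi
  have hia : i < a := by omega
  have hai : a - i = j + 1 := by omega
  have hpow : (2 : ℝ) ^ a = 2 ^ i * 2 ^ (j + 1) := by
    rw [← pow_add]
    congr 1
    omega
  obtain ⟨q, hq⟩ : ∃ q : ℝ, q = 2 ^ (j + 1) := ⟨_, rfl⟩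
  have hq0 : 0 < q := by rw [hq]; positivity
  obtain ⟨d, hd⟩ : ∃ d : ℕ, d = ⌈2 * η * q⌉₊ := ⟨_, rfl⟩
  have hK0 : (0 : ℝ) ≤ K := Nat.cast_nonneg K
  have hjq : (2 * K + 2 : ℝ) < η * q := by rw [hq]; exact hj'
  have hd1 : 2 * η * q ≤ d := by rw [hd]; exact Nat.le_ceil _
  have hd2 : (d : ℝ) ≤ 3 * (η * q) := by
    have := (Nat.ceil_lt_add_one (a := 2 * η * q) (by positivity)).le
    rw [← hd] at this
    linarith
  have hpi : (0 : ℝ) < 2 ^ i := by positivity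
  obtain ⟨T, hT1, hT2, hT3, -⟩ := sing hG hr hC.no (i := i) (d := d) hia (by
    right
    rw [hai]
    have h1 : (32 * (2 ^ (r - 1) + 1) * d : ℝ) ≤ 2 ^ (j + 1) := by
      rw [← hq]
      have hR : (0 : ℝ) < 2 ^ (r - 1) + 1 := by positivity
      calc (32 * (2 ^ (r - 1) + 1) * d : ℝ) ≤ 32 * (2 ^ (r - 1) + 1) * (3 * (η * q)) := by
            apply mul_le_mul_of_nonneg_left hd2 (by positivity)
        _ ≤ (1000 * (2 ^ (r - 1) + 1) * η) * q := by
            have : 0 < (2 ^ (r - 1) + 1) * η * q := by positivity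
            nlinarith
        _ ≤ 1 * q := mul_le_mul_of_nonneg_right hη' hq0.le
        _ = q := one_mul q
    exact_mod_cast h1) (by
    intro c hc
    apply ordl hG hia
    have h1 := hC.hH c hc
    have h2 : ((2 : ℝ) ^ r) ^ (j + 1) < Nat.card (H c) := by
      rw [div_lt_iff₀ hδ] at ha₁
      refine ha₁.trans_le (le_trans ?_ h1)
      rw [mul_comm]
      exact mul_le_mul_of_nonneg_left (pow_le_pow_right₀ (by norm_num) (by omega)) hδ.le
    have h3 : (2 ^ r) ^ (j + 1) < Nat.card (H c) := by exact_mod_cast h2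
    refine lt_of_le_of_lt (Nat.pow_le_pow_right (by positivity) (by omega)) h3) (by
    have h1 := hC.tot
    have h2 := CELA_mass (i := i) hC.hN m W
    rw [hai]
    have h3 : (2 ^ (r - 1) - η) * q ≤ ((∑ c ∈ W, m c / 2 ^ i : ℕ) + K : ℝ) := by
      have h4 := h1.trans h2
      rw [hpow, ← hq] at h4
      have h5 : (2 ^ i : ℝ) * ((2 ^ (r - 1) - η) * q) ≤
          2 ^ i * ((∑ c ∈ W, m c / 2 ^ i : ℕ) + K : ℝ) := by linarith
      exact le_of_mul_le_mul_left h5 hpi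
    have h6 : (2 ^ (r - 1) * 2 ^ (j + 1) : ℝ) ≤ ((∑ c ∈ W, m c / 2 ^ i : ℕ) + d : ℝ) := by
      rw [← hq]
      nlinarith
    have h7 : 2 ^ (r - 1) * 2 ^ (j + 1) ≤ ∑ c ∈ W, m c / 2 ^ i + d := by exact_mod_cast h6
    exact (Nat.mul_le_mul_left _ (Nat.sub_le _ _)).trans h7)
  refine ⟨W.filter (fun c => cs (2 ^ i • x c) (H c ⊓ V G i) ∈ T), filter_subset _ _,
    ⟨hC.hN, fun h => hC.no (h.mono (filter_subset _ _)),
      fun c hc => hC.hH c (mem_filter.1 hc).1, fun c hc => hC.hm c (mem_filter.1 hc).1,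
      fun c hc => hC.hm' c (mem_filter.1 hc).1, ?_⟩, ?_⟩
  · have h1 := sum_filter_add_sum_filter_not W
      (fun c => cs (2 ^ i • x c) (H c ⊓ V G i) ∈ T) (fun c => (m c : ℝ))
    have h2 := CELA_mass (i := i) hC.hN m
      (W.filter (fun c => cs (2 ^ i • x c) (H c ⊓ V G i) ∉ T))
    have h3 : ((∑ c ∈ W.filter (fun c => cs (2 ^ i • x c) (H c ⊓ V G i) ∉ T), m c / 2 ^ i : ℕ)
        : ℝ) ≤ d := by exact_mod_cast hT3
    have h4 : (2 : ℝ) ^ i * ((∑ c ∈ W.filter (fun c => cs (2 ^ i • x c) (H c ⊓ V G i) ∉ T),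
        m c / 2 ^ i : ℕ) + K) ≤ 2 ^ i * (4 * (η * q)) :=
      mul_le_mul_of_nonneg_left (by linarith) hpi.le
    have h5 := hC.tot
    have h6 : (2 : ℝ) ^ i * (4 * (η * q)) = 4 * η * 2 ^ a := by
      rw [hpow, ← hq]; ring
    have h7 : 0 < η * (2 : ℝ) ^ a := by positivity
    nlinarith
  · intro c hc
    obtain ⟨x', -, l, hl, -, hl'⟩ := (hT2 _ (mem_filter.1 hc).2).1
    obtain ⟨h1, -⟩ := cs_eq_iff.1 hl'
    apply cyd hG (l := l)
    intro τ hτ h2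
    rw [← h1]
    exact ⟨hτ, V_anti (by omega) (hG.invol (by omega) h2)⟩

end Pool.Agent.Lib.MPa7239a.EX
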