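import Pool.Agent.Lib.MP_a7239a_co.EX.SING
import Pool.Agent.Lib.MP_a7239a_co.EX.ORDX

/-!
# CELB: the classes at a bounded level
-/

set_option autoImplicit false

universe u v w

open Finset

namespace Pool.Agent.Lib.MPa7239a.EX

open Pool.Agent.Lib.MPa7239a.RN (Sol HW DW)

variable {G : Type u} [AddCommGroup G] {a r : ℕ}


namespace CELBM

theorem div_sum {ι : Type} (W : Finset ι) (m : ι → ℕ) (i : ℕ) :
    (∑ c ∈ W, (m c : ℝ)) ≤ 2 ^ i * ((∑ c ∈ W, m c / 2 ^ i : ℕ) : ℝ) + 2 ^ i * (#W : ℝ) := by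
  have h1 : ∀ c ∈ W, (m c : ℝ) ≤ 2 ^ i * ((m c / 2 ^ i : ℕ) : ℝ) + 2 ^ i := by
    intro c _
    have h2 : m c ≤ 2 ^ i * (m c / 2 ^ i) + 2 ^ i := by
      have h3 := Nat.div_add_mod (m c) (2 ^ i)
      have h4 := Nat.mod_lt (m c) (show 0 < 2 ^ i by positivity)
      omega
    exact_mod_cast h2
  refine (sum_le_sum h1).trans (le_of_eq ?_)
  rw [sum_add_distrib, sum_const, nsmul_eq_mul, Nat.cast_sum, mul_sum]
  ring

theorem div_sum' {ι : Type} (W : Finset ι) (m : ι → ℕ) (i : ℕ) :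
    2 ^ i * ((∑ c ∈ W, m c / 2 ^ i : ℕ) : ℝ) ≤ ∑ c ∈ W, (m c : ℝ) := by
  rw [Nat.cast_sum, mul_sum]
  refine sum_le_sum fun c _ => ?_
  have h2 : 2 ^ i * (m c / 2 ^ i) ≤ m c := Nat.mul_div_le _ _
  exact_mod_cast h2

end CELBM

/-- CELB: the classes at a bounded level -/
theorem celb (r : ℕ) (hr : 1 ≤ r) (K : ℕ) (δ η : ℝ) (hδ : 0 < δ) (hη : 0 < η)
    (hη' : 1000 * (2 ^ (r - 1) + 1) * η ≤ 1) : ∃ i₂ a₀ : ℕ, ∀ a ≥ a₀, i₂ + 1 < a ∧ ∀ (G : Type u)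
    [AddCommGroup G] [Finite G], Homo G a r → ∀ (N : ℕ) (x : Fin N → G)
    (H : Fin N → AddSubgroup G) (m : Fin N → ℕ) (W : Finset (Fin N)), CP a r η δ K x H m W →
    (∀ c ∈ W, ∃ g, H c = AddSubgroup.zmultiples g) →
    ∃ (z l : Fin (2 ^ (r - 1)) → G) (U : Fin (2 ^ (r - 1)) → Finset (Fin N)),
      (∀ k, U k ⊆ W) ∧ (∀ k, l k ∈ V G i₂ ∧ l k ∉ V G (i₂ + 1)) ∧
      (∀ k, ∀ c ∈ U k, H c ⊓ V G i₂ = AddSubgroup.zmultiples (l k) ∧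
        2 ^ i₂ • x c - z k ∈ AddSubgroup.zmultiples (l k)) ∧
      (∀ k k', Meet i₂ (z k) (AddSubgroup.zmultiples (l k)) (z k')
        (AddSubgroup.zmultiples (l k')) → k = k') ∧
      ∀ k, (1 - 8 * η) * 2 ^ a ≤ ∑ c ∈ U k, (m c : ℝ) := by
  classical
  obtain ⟨i₂, hi₂⟩ := pow_unbounded_of_one_lt (1 / δ) (show (1 : ℝ) < 2 by norm_num)
  obtain ⟨n₀, hn₀⟩ := pow_unbounded_of_one_lt ((K + 1) / η) (show (1 : ℝ) < 2 by norm_num)
  refine ⟨i₂, i₂ + n₀ + 2, fun a ha => ⟨by omega, ?_⟩⟩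
  intro G _ _ hG N x H m W hCP hcyc
  have hi : i₂ < a := by omega
  set q : ℝ := (2 : ℝ) ^ (a - i₂) with hq
  have hq0 : 0 < q := by positivity
  have hqa : (2 : ℝ) ^ i₂ * q = 2 ^ a := by
    rw [hq, ← pow_add]
    congr 1
    omega
  have hηq : (K : ℝ) + 1 ≤ η * q := by
    rw [div_lt_iff₀ hη] at hn₀
    have h1 : (2 : ℝ) ^ n₀ ≤ q := pow_le_pow_right₀ (by norm_num) (by omega)
    have h2 := mul_le_mul_of_nonneg_left h1 hη.le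
    linarith
  have hK0 : (0 : ℝ) ≤ K := Nat.cast_nonneg K
  have hi0 : (0 : ℝ) < 2 ^ i₂ := by positivity
  obtain ⟨d, hd⟩ : ∃ d : ℕ, d = ⌈2 * η * q⌉₊ := ⟨_, rfl⟩
  have hd1 : 2 * η * q ≤ d := by rw [hd]; exact Nat.le_ceil _
  have hd2 : (d : ℝ) ≤ 3 * η * q := by
    have h1 : (d : ℝ) < 2 * η * q + 1 := by
      rw [hd]
      exact Nat.ceil_lt_add_one (by positivity)
    linarith
  have hn : ∀ c ∈ W, ¬ H c ⊓ V G i₂ ≤ V G (i₂ + 1) := by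
    intro c hc
    obtain ⟨g, hg⟩ := hcyc c hc
    have h1 := hCP.hH c hc
    rw [hg] at h1 ⊢
    refine ordh hG hi ?_
    have h2 : (2 : ℝ) ^ (a - i₂) ≤ (Nat.card (AddSubgroup.zmultiples g) : ℝ) := by
      refine le_trans ?_ h1
      rw [← hqa, ← mul_assoc]
      rw [div_lt_iff₀ hδ] at hi₂
      have h3 : 1 ≤ δ * 2 ^ i₂ := by linarith
      calc (2 : ℝ) ^ (a - i₂) = 1 * q := by rw [one_mul]
        _ ≤ δ * 2 ^ i₂ * q := mul_le_mul_of_nonneg_right h3 hq0.le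
    exact_mod_cast h2
  have hW : (#W : ℝ) ≤ K := by
    have h1 : #W ≤ N := card_finset_fin_le W
    exact_mod_cast h1.trans hCP.hN
  have hm : 2 ^ (r - 1) * (2 ^ (a - i₂) - 1) ≤ ∑ c ∈ W, m c / 2 ^ i₂ + d := by
    have h1 := CELBM.div_sum W m i₂
    have h2 := hCP.tot
    have h3 : (2 ^ (r - 1) - η) * q ≤ ((∑ c ∈ W, m c / 2 ^ i₂ : ℕ) : ℝ) + #W := by
      have h4 : (2 : ℝ) ^ i₂ * ((2 ^ (r - 1) - η) * q) ≤
          2 ^ i₂ * (((∑ c ∈ W, m c / 2 ^ i₂ : ℕ) : ℝ) + #W) := by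
        calc (2 : ℝ) ^ i₂ * ((2 ^ (r - 1) - η) * q) = (2 ^ (r - 1) - η) * 2 ^ a := by
              rw [← hqa]; ring
          _ ≤ ∑ c ∈ W, (m c : ℝ) := h2
          _ ≤ _ := h1
          _ = _ := by ring
      exact le_of_mul_le_mul_left h4 hi0
    have h5 : (2 : ℝ) ^ (r - 1) * (2 ^ (a - i₂) - 1) ≤
        ((∑ c ∈ W, m c / 2 ^ i₂ : ℕ) : ℝ) + d := by
      rw [← hq]
      have h6 : (0 : ℝ) ≤ 2 ^ (r - 1) := by positivity
      nlinarith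
    have h7 : ((2 ^ (r - 1) * (2 ^ (a - i₂) - 1) : ℕ) : ℝ) =
        (2 : ℝ) ^ (r - 1) * (2 ^ (a - i₂) - 1) := by
      rw [Nat.cast_mul, Nat.cast_sub Nat.one_le_two_pow]
      push_cast
      ring
    have h8 : ((2 ^ (r - 1) * (2 ^ (a - i₂) - 1) : ℕ) : ℝ) ≤
        ((∑ c ∈ W, m c / 2 ^ i₂ + d : ℕ) : ℝ) := by
      rw [h7, Nat.cast_add]
      exact h5
    exact_mod_cast h8
  have hdd : 32 * (2 ^ (r - 1) + 1) * d ≤ 2 ^ (a - i₂) := by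
    have h1 : (32 : ℝ) * (2 ^ (r - 1) + 1) * d ≤ 2 ^ (a - i₂) := by
      have h2 : (0 : ℝ) < 2 ^ (r - 1) + 1 := by positivity
      calc (32 : ℝ) * (2 ^ (r - 1) + 1) * d ≤ 32 * (2 ^ (r - 1) + 1) * (3 * η * q) :=
            mul_le_mul_of_nonneg_left hd2 (by positivity)
        _ = (1000 * (2 ^ (r - 1) + 1) * η) * (96 / 1000 * q) := by ring
        _ ≤ 1 * (96 / 1000 * q) := mul_le_mul_of_nonneg_right hη' (by positivity)
        _ ≤ q := by linarith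
    exact_mod_cast h1
  obtain ⟨T, hT, hT1, -, hT3⟩ := sing hG hr hCP.no hi (Or.inr hdd) hn hm
  let φ : Fin (2 ^ (r - 1)) ≃ T := (T.equivFinOfCardEq hT).symm
  have hln : ∀ k, ∃ zz ∈ V G i₂, ∃ ll ∈ V G i₂, ll ∉ V G (i₂ + 1) ∧
      (φ k : Set G) = cs zz (AddSubgroup.zmultiples ll) := fun k => (hT1 _ (φ k).2).1
  choose z hz l hl hl' hzl using hln
  refine ⟨z, l, fun k => W.filter (fun c => cs (2 ^ i₂ • x c) (H c ⊓ V G i₂) = (φ k : Set G)),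
    fun k => filter_subset _ _, fun k => ⟨hl k, hl' k⟩, ?_, ?_, ?_⟩
  · intro k c hc
    have h1 := (mem_filter.1 hc).2
    rw [hzl k] at h1
    obtain ⟨h2, h3⟩ := cs_eq_iff.1 h1
    refine ⟨h2, ?_⟩
    rwa [h2] at h3
  · intro k k' hmeet
    by_contra hne
    refine hT3 (z k) (l k) (z k') (l k') (by rw [← hzl k]; exact (φ k).2)
      (by rw [← hzl k']; exact (φ k').2) ?_ hmeet
    rw [← hzl k, ← hzl k']
    intro h
    exact hne (φ.injective (Subtype.ext h))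
  · intro k
    have h1 := (hT1 _ (φ k).2).2
    have h2 := CELBM.div_sum' (W.filter (fun c => cs (2 ^ i₂ • x c) (H c ⊓ V G i₂) =
      (φ k : Set G))) m i₂
    refine le_trans ?_ h2
    have h3 : (q : ℝ) ≤ ((∑ c ∈ W.filter (fun c => cs (2 ^ i₂ • x c) (H c ⊓ V G i₂) =
        (φ k : Set G)), m c / 2 ^ i₂ : ℕ) : ℝ) + 1 + 2 * d := by
      rw [hq]
      exact_mod_cast h1
    calc (1 - 8 * η) * 2 ^ a = 2 ^ i₂ * ((1 - 8 * η) * q) := by rw [← hqa]; ring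
      _ ≤ _ := mul_le_mul_of_nonneg_left (by nlinarith) hi0.le

end Pool.Agent.Lib.MPa7239a.EX
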