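import Pool.Agent.Lib.MP_a7239a_co.EX.Defs2
import Pool.Agent.Lib.MP_a7239a_co.EX.HVM
import Pool.Agent.Lib.MP_a7239a_co.EX.LTM

/-! # folder EX: the class of a line contains no involution outside the line (MIX) -/

set_option autoImplicit false

universe u v w

open Finset

namespace Pool.Agent.Lib.MPa7239a.EX

open Pool.Agent.Lib.MPa7239a.RN (Sol HW DW)

namespace MIXM

variable {G : Type u} [AddCommGroup G] {a r : ℕ}

theorem le_HW {N : ℕ} {H : Fin N → AddSubgroup G} {W : Finset (Fin N)} {c : Fin N} (hc : c ∈ W) :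
    H c ≤ HW H W := le_iSup_of_le c (le_iSup_of_le hc le_rfl)

/-- the differences as integral combinations -/
theorem dec {N : ℕ} {x : Fin N → G} {H : Fin N → AddSubgroup G} {W : Finset (Fin N)} {τ : G}
    (h : τ ∈ DW x H W) : ∃ z : Fin N → ℤ, (∀ c, c ∉ W → z c = 0) ∧ ∑ c, z c = 0 ∧
      ∃ q ∈ HW H W, τ = ∑ c, z c • x c + q := by
  classical
  obtain ⟨p, hp, q, hq, rfl⟩ := AddSubgroup.mem_sup.1 h
  suffices hs : ∃ z : Fin N → ℤ, (∀ c, c ∉ W → z c = 0) ∧ ∑ c, z c = 0 ∧ p = ∑ c, z c • x c by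
    obtain ⟨z, h1, h2, h3⟩ := hs
    exact ⟨z, h1, h2, q, hq, by rw [h3]⟩
  induction hp using AddSubgroup.closure_induction with
  | mem y hy =>
    obtain ⟨c, hc, c', hc', rfl⟩ := hy
    refine ⟨fun s => (if s = c then 1 else 0) - if s = c' then 1 else 0, ?_, ?_, ?_⟩
    · intro s hs
      have h1 : s ≠ c := fun h => hs (h ▸ hc)
      have h2 : s ≠ c' := fun h => hs (h ▸ hc')
      simp [h1, h2]
    · simp
    · simp [sub_smul, ite_smul]
  | zero => exact ⟨0, fun _ _ => rfl, by simp, by simp⟩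
  | add y y' _ _ ih ih' =>
    obtain ⟨z, h1, h2, h3⟩ := ih (AddSubgroup.mem_sup.2 ⟨_, ‹_›, q, hq, rfl⟩)
    obtain ⟨z', h1', h2', h3'⟩ := ih' (AddSubgroup.mem_sup.2 ⟨_, ‹_›, q, hq, rfl⟩)
    refine ⟨z + z', fun c hc => ?_, ?_, ?_⟩
    · rw [Pi.add_apply, h1 c hc, h1' c hc, add_zero]
    · simp only [Pi.add_apply, sum_add_distrib, h2, h2', add_zero]
    · simp only [Pi.add_apply, add_smul, sum_add_distrib, h3, h3']
  | neg y _ ih =>
    obtain ⟨z, h1, h2, h3⟩ := ih (AddSubgroup.mem_sup.2 ⟨_, ‹_›, q, hq, rfl⟩)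
    refine ⟨-z, fun c hc => ?_, ?_, ?_⟩
    · rw [Pi.neg_apply, h1 c hc, neg_zero]
    · simp only [Pi.neg_apply, sum_neg_distrib, h2, neg_zero]
    · simp only [Pi.neg_apply, neg_smul, sum_neg_distrib, h3]

/-- the representative in `[1, q]` -/
theorem rep {q : ℕ} (hq : 0 < q) (z : ℤ) : ∃ b : ℕ, 1 ≤ b ∧ b ≤ q ∧ (q : ℤ) ∣ z - b := by
  have h1 := Int.emod_nonneg (z - 1) (show (q : ℤ) ≠ 0 by omega)
  have h2 := Int.emod_lt_of_pos (z - 1) (show (0 : ℤ) < q by omega)
  refine ⟨((z - 1) % q).toNat + 1, by omega, by omega, ?_⟩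
  have h3 : (((z - 1) % q).toNat : ℤ) = (z - 1) % q := Int.toNat_of_nonneg h1
  have h4 := Int.emod_add_mul_ediv (z - 1) q
  refine ⟨(z - 1) / q, ?_⟩
  push_cast
  rw [h3]
  linarith

/-- the vector of a mixed group -/
theorem vec {N : ℕ} {W : Finset (Fin N)} {i i₂ : ℕ} (hN : 2 ^ (i₂ + 1) * N ≤ 2 ^ i)
    (z : Fin N → ℤ) (hz : ∀ c, c ∉ W → z c = 0) {c : Fin N} (hc : c ∈ W) :
    ∃ b : Fin N → ℕ, (∀ c', c' ∉ W → b c' = 0) ∧ (∀ c' ∈ W, b c' ≠ 0) ∧ ∑ c', b c' = 2 ^ i ∧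
      (∀ c', c' ≠ c → b c' ≤ 2 ^ i₂) ∧ b c ≤ 2 ^ i ∧
      ∀ c', c' ≠ c → ((2 ^ i₂ : ℕ) : ℤ) ∣ z c' - b c' := by
  classical
  choose rp h1 h2 h3 using fun s : ℤ => rep (q := 2 ^ i₂) (Nat.two_pow_pos _) s
  have hS : ∑ s ∈ W.erase c, rp (z s) ≤ N * 2 ^ i₂ := by
    refine (Finset.sum_le_card_nsmul _ _ (2 ^ i₂) fun s _ => h2 _).trans ?_
    rw [smul_eq_mul]
    refine Nat.mul_le_mul_right _ ?_
    exact (Finset.card_le_univ _).trans (by simp)
  have hS2 : 2 * ∑ s ∈ W.erase c, rp (z s) ≤ 2 ^ i := by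
    refine le_trans (Nat.mul_le_mul_left 2 hS) (le_trans (le_of_eq ?_) hN)
    rw [pow_succ]
    ring
  have hpos : 1 ≤ 2 ^ i := Nat.one_le_two_pow
  refine ⟨fun s => if s ∈ W then (if s = c then 2 ^ i - ∑ s ∈ W.erase c, rp (z s) else rp (z s))
    else 0, ?_, ?_, ?_, ?_, ?_, ?_⟩
  · intro s hs
    simp [hs]
  · intro s hs
    by_cases hsc : s = c
    · simp only [if_true, hsc]
      rw [if_pos hc]
      omega
    · simp only [hs, if_true, hsc, if_false]
      have := h1 (z s)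
      omega
  · rw [← Finset.sum_filter]
    have e1 : (univ.filter fun s => s ∈ W) = W := by ext s; simp
    rw [e1, ← Finset.add_sum_erase W _ hc, if_pos rfl]
    have e2 : ∑ s ∈ W.erase c, (if s = c then 2 ^ i - ∑ s ∈ W.erase c, rp (z s) else rp (z s)) =
        ∑ s ∈ W.erase c, rp (z s) :=
      Finset.sum_congr rfl fun s hs => if_neg (Finset.ne_of_mem_erase hs)
    rw [e2]
    omega
  · intro s hs
    by_cases hsW : s ∈ W
    · simp only [hsW, if_true, hs, if_false]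
      exact h2 _
    · simp only [hsW, if_false]
      exact Nat.zero_le _
  · simp only [hc, if_true]
    omega
  · intro s hs
    by_cases hsW : s ∈ W
    · simp only [hsW, if_true, hs, if_false]
      exact h3 _
    · simp only [hsW, if_false, hz s hsW]
      simp

/-- the sum of a mixed group -/
theorem vec_sum {N : ℕ} {x : Fin N → G} {H : Fin N → AddSubgroup G} {W : Finset (Fin N)} {l : G}
    {i i₂ : ℕ} (hlH : ∀ c ∈ W, AddSubgroup.zmultiples l ≤ H c)
    (hx : ∀ c ∈ W, ∀ c' ∈ W, 2 ^ i₂ • (x c - x c') ∈ AddSubgroup.zmultiples l)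
    {z : Fin N → ℤ} (hz : ∀ c, c ∉ W → z c = 0) (hz' : ∑ c, z c = 0) {q τ : G} (hq : q ∈ HW H W)
    (hτ : τ = ∑ c, z c • x c + q) {c : Fin N} (hc : c ∈ W) {b : Fin N → ℕ}
    (hb0 : ∀ c', c' ∉ W → b c' = 0) (hb : ∑ c', b c' = 2 ^ i)
    (hd : ∀ c', c' ≠ c → ((2 ^ i₂ : ℕ) : ℤ) ∣ z c' - b c') :
    2 ^ i • x c + τ - ∑ c', b c' • x c' ∈ HW H W := by
  have e : 2 ^ i • x c + τ - ∑ c', b c' • x c' =
      q + ∑ c', (z c' - b c') • (x c' - x c) := by
    have e1 : ∑ c', (z c' - b c') • (x c' - x c) =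
        ∑ c', z c' • x c' - ∑ c', b c' • x c' - (∑ c', (z c' - (b c' : ℤ))) • x c := by
      rw [Finset.sum_smul, ← Finset.sum_sub_distrib, ← Finset.sum_sub_distrib]
      refine Finset.sum_congr rfl fun s _ => ?_
      rw [smul_sub, sub_smul (z s) (b s : ℤ) (x s), natCast_zsmul]
    have e2 : ∑ c', (z c' - (b c' : ℤ)) = -((2 ^ i : ℕ) : ℤ) := by
      rw [Finset.sum_sub_distrib, hz', ← Nat.cast_sum, hb, zero_sub]
    rw [e1, e2, hτ, neg_smul, natCast_zsmul]
    abel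
  rw [e]
  refine AddSubgroup.add_mem _ hq (AddSubgroup.sum_mem _ fun s _ => ?_)
  by_cases hsc : s = c
  · rw [hsc, sub_self, smul_zero]
    exact AddSubgroup.zero_mem _
  by_cases hsW : s ∈ W
  · obtain ⟨k, hk⟩ := hd s hsc
    rw [hk, mul_comm, mul_smul, natCast_zsmul]
    exact le_HW hc (hlH c hc (AddSubgroup.zsmul_mem _ (hx s hsW c hc) k))
  · rw [hz s hsW, hb0 s hsW]
    simp only [Nat.cast_zero, sub_zero, zero_smul]
    exact AddSubgroup.zero_mem _

/-- half of the items of the class -/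
theorem halves {N : ℕ} (W : Finset (Fin N)) (M : Fin N → ℕ) {e : ℕ}
    (h : 2 * e + N ≤ ∑ c ∈ W, M c) :
    e ≤ ∑ c ∈ W, M c / 2 ∧ e ≤ ∑ c ∈ W, (M c - M c / 2) := by
  have h1 : ∑ c ∈ W, M c ≤ ∑ c ∈ W, (2 * (M c / 2) + 1) :=
    Finset.sum_le_sum fun c _ => by omega
  have h2 : ∑ c ∈ W, M c ≤ ∑ c ∈ W, 2 * (M c - M c / 2) :=
    Finset.sum_le_sum fun c _ => by omega
  rw [Finset.sum_add_distrib, ← Finset.mul_sum, Finset.sum_const, smul_eq_mul, mul_one] at h1
  rw [← Finset.mul_sum] at h2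
  have h3 : #W ≤ N := (Finset.card_le_univ _).trans (by simp)
  constructor <;> omega

/-- disjoint groups of `2 ^ i` elements give a family without a hit (a private copy of GRP) -/
theorem grp' {N : ℕ} {x : Fin N → G} {H : Fin N → AddSubgroup G} {m : Fin N → ℕ}
    {W : Finset (Fin N)} (hS : ¬ Sol (2 ^ a) x H m W) {i : ℕ} (hi : i ≤ a) {ι : Type v}
    (I : Finset ι) (b : ι → Fin N → ℕ) (y : ι → G) (H' : ι → AddSubgroup G)
    (h1 : ∀ k ∈ I, ∑ c, b k c = 2 ^ i) (h2 : ∀ k ∈ I, ∀ c, c ∉ W → b k c = 0)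
    (h3 : ∀ c, ∑ k ∈ I, b k c ≤ m c)
    (h4 : ∀ k ∈ I, y k - ∑ c, b k c • x c ∈ HW H (univ.filter fun c => b k c ≠ 0))
    (h5 : ∀ k ∈ I, H' k ≤ HW H (univ.filter fun c => b k c ≠ 0)) :
    NoHit (2 ^ (a - i)) y H' I := by
  intro J hJ hc hmem
  apply hS
  have hmono : ∀ k ∈ J, HW H (univ.filter fun c => b k c ≠ 0) ≤
      HW H (univ.filter fun c => ∑ k ∈ J, b k c ≠ 0) := by
    intro k hk
    refine iSup_le fun c => iSup_le fun hcm => le_HW ?_
    rw [mem_filter] at hcm ⊢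
    refine ⟨mem_univ _, fun h => hcm.2 ?_⟩
    exact (Finset.sum_eq_zero_iff.1 h) k hk
  refine ⟨fun c => ∑ k ∈ J, b k c, fun c => ?_, fun c hcW => ?_, ?_, ?_⟩
  · exact (Finset.sum_le_sum_of_subset hJ).trans (h3 c)
  · exact Finset.sum_eq_zero fun k hk => h2 k (hJ hk) c hcW
  · rw [Finset.sum_comm, Finset.sum_congr rfl fun k hk => h1 k (hJ hk), Finset.sum_const,
      smul_eq_mul, hc, ← pow_add, Nat.sub_add_cancel hi]
  · have e : ∑ c, (∑ k ∈ J, b k c) • x c =
        ∑ k ∈ J, y k - ∑ k ∈ J, (y k - ∑ c, b k c • x c) := by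
      rw [Finset.sum_sub_distrib, sub_sub_cancel, Finset.sum_comm]
      exact Finset.sum_congr rfl fun c _ => Finset.sum_smul
    rw [e]
    refine AddSubgroup.sub_mem _ ?_ (AddSubgroup.sum_mem _ fun k hk => hmono k hk (h4 k (hJ hk)))
    refine (iSup_le fun k => iSup_le fun hk => ?_ : (⨆ k ∈ J, H' k) ≤ _) hmem
    exact (h5 k (hJ hk)).trans (hmono k hk)

end MIXM

variable {G : Type u} [AddCommGroup G] {a r : ℕ}

/-- MIX: the class `W'` of a line contains no involution outside the line -/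
theorem mix [Finite G] (hG : Homo G a r) (hr : 1 ≤ r) {N : ℕ} {x : Fin N → G}
    {H : Fin N → AddSubgroup G} {m : Fin N → ℕ} {W : Finset (Fin N)}
    (hS : ¬ Sol (2 ^ a) x H m W) {i i₂ d : ℕ} (hi : i + 1 < a) (hi₂ : i₂ ≤ i)
    (hd : d = 0 ∨ 32 * (2 ^ (r - 1) + 1) * d ≤ 2 ^ (a - i))
    (hn : ∀ c ∈ W, ¬ H c ⊓ V G i ≤ V G (i + 1)) {W' : Finset (Fin N)} (hW : W' ⊆ W) {l : G}
    (hl : ∀ c ∈ W', H c ⊓ V G i₂ = AddSubgroup.zmultiples l)
    (hx : ∀ c ∈ W', ∀ c' ∈ W', 2 ^ i₂ • (x c - x c') ∈ AddSubgroup.zmultiples l)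
    (hN : 2 ^ (i₂ + 1) * N ≤ 2 ^ i) (M : Fin N → ℕ)
    (hM : ∀ c ∈ W', 2 ^ i * M c + 2 ^ (i₂ + 1) * ∑ c' ∈ W', M c' ≤ m c)
    (hM' : 2 * (d + 1) + N ≤ ∑ c ∈ W', M c)
    (hs : 2 ^ (r - 1) * (2 ^ (a - i) - 1) ≤ ∑ c ∈ W \ W', m c / 2 ^ i + ∑ c ∈ W', M c + d) :
    ∀ τ ∈ DW x H W', 2 • τ = 0 → τ ∈ AddSubgroup.zmultiples l := by
  classical
  intro τ hτ hτ2
  by_contra hτl
  obtain ⟨z, hz, hz', q, hq, hτe⟩ := MIXM.dec hτ
  have hlH : ∀ c ∈ W', AddSubgroup.zmultiples l ≤ H c := fun c hc => by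
    rw [← hl c hc]
    exact inf_le_left
  have hex : ∀ c : Fin N, ∃ b : Fin N → ℕ, c ∈ W' → (∀ c', c' ∉ W' → b c' = 0) ∧
      (∀ c' ∈ W', b c' ≠ 0) ∧ ∑ c', b c' = 2 ^ i ∧ (∀ c', c' ≠ c → b c' ≤ 2 ^ i₂) ∧ b c ≤ 2 ^ i ∧
      ∀ c', c' ≠ c → ((2 ^ i₂ : ℕ) : ℤ) ∣ z c' - b c' := by
    intro c
    by_cases hc : c ∈ W'
    · obtain ⟨b, hb⟩ := MIXM.vec hN z hz hc
      exact ⟨b, fun _ => hb⟩
    · exact ⟨0, fun h => absurd h hc⟩
  choose bm hbm using hex
  have hτV : τ ∈ V G (a - 1) := hG.invol (by omega) hτ2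
  have hτV1 : τ ∈ V G (i + 1) := V_anti (by omega) hτV
  have hτV0 : τ ∈ V G i := V_succ_le i hτV1
  set K : Fin N → ℕ := fun c => if c ∈ W' then M c else m c / 2 ^ i with hK
  set mx : (Σ _ : Fin N, ℕ) → Prop := fun p => p.1 ∈ W' ∧ p.2 < M p.1 / 2 with hmx
  set I : Finset (Σ _ : Fin N, ℕ) := W.sigma fun c => range (K c) with hI
  set y : (Σ _ : Fin N, ℕ) → G := fun p => 2 ^ i • x p.1 + if mx p then τ else 0 with hy
  set H' : (Σ _ : Fin N, ℕ) → AddSubgroup G := fun p => H p.1 ⊓ V G i with hH'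
  set b : (Σ _ : Fin N, ℕ) → Fin N → ℕ := fun p c =>
    if mx p then bm p.1 c else if c = p.1 then 2 ^ i else 0 with hb
  have hpos : 2 ^ i ≠ 0 := (Nat.two_pow_pos i).ne'
  have hsum : ∀ f : (Σ _ : Fin N, ℕ) → ℕ, ∑ p ∈ I, f p = ∑ c ∈ W, ∑ u ∈ range (K c), f ⟨c, u⟩ :=
    fun f => Finset.sum_sigma _ _ _
  -- the family
  have hF : Fam i y H' I := by
    refine ⟨fun p hp => ?_, fun p hp => inf_le_right, fun p hp => hn p.1 (mem_sigma.1 hp).1⟩
    refine AddSubgroup.add_mem _ ⟨x p.1, rfl⟩ ?_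
    split_ifs
    · exact hτV0
    · exact AddSubgroup.zero_mem _
  -- no hit
  have hNH : NoHit (2 ^ (a - i)) y H' I := by
    refine MIXM.grp' hS (by omega) I b y H' ?_ ?_ ?_ ?_ ?_
    · intro p hp
      by_cases hm : mx p
      · simp only [hb, hm, if_true]
        exact (hbm p.1 hm.1).2.2.1
      · simp only [hb, hm, if_false]
        rw [Finset.sum_ite_eq' univ p.1 fun _ => 2 ^ i]
        simp
    · intro p hp c hc
      by_cases hm : mx p
      · simp only [hb, hm, if_true]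
        exact (hbm p.1 hm.1).1 c fun h => hc (hW h)
      · simp only [hb, hm, if_false]
        rw [if_neg]
        rintro rfl
        exact hc (mem_sigma.1 hp).1
    · intro c
      rw [hsum]
      by_cases hcW' : c ∈ W'
      · have hbd : ∀ c'' ∈ W, ∀ u ∈ range (K c''), b ⟨c'', u⟩ c ≤
            (if c'' = c then 2 ^ i else 0) + if c'' ∈ W' then 2 ^ i₂ else 0 := by
          intro c'' _ u _
          by_cases hm : mx ⟨c'', u⟩
          · simp only [hb, hm, if_true]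
            have hc'' : c'' ∈ W' := hm.1
            rw [if_pos hc'']
            by_cases he : c'' = c
            · rw [if_pos he, ← he]
              exact le_trans (hbm c'' hc'').2.2.2.2.1 (Nat.le_add_right _ _)
            · rw [if_neg he, zero_add]
              exact (hbm c'' hc'').2.2.2.1 c (fun h => he h.symm)
          · simp only [hb, hm, if_false]
            by_cases he : c'' = c
            · rw [if_pos he, if_pos he.symm]
              exact Nat.le_add_right _ _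
            · rw [if_neg fun h => he h.symm]
              exact Nat.zero_le _
        have h1 : ∑ c'' ∈ W, ∑ u ∈ range (K c''), b ⟨c'', u⟩ c ≤
            ∑ c'' ∈ W, K c'' * ((if c'' = c then 2 ^ i else 0) +
              if c'' ∈ W' then 2 ^ i₂ else 0) := by
          refine Finset.sum_le_sum fun c'' hc'' => ?_
          refine (Finset.sum_le_card_nsmul _ _ _ (hbd c'' hc'')).trans ?_
          rw [card_range, smul_eq_mul]
        have h2 : ∑ c'' ∈ W, K c'' * ((if c'' = c then 2 ^ i else 0) +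
              if c'' ∈ W' then 2 ^ i₂ else 0) = 2 ^ i * M c + 2 ^ i₂ * ∑ c' ∈ W', M c' := by
          simp only [mul_add, Finset.sum_add_distrib, mul_ite, mul_zero]
          rw [Finset.sum_ite_eq' W c, if_pos (hW hcW'), ← Finset.sum_filter,
            Finset.filter_mem_eq_inter, Finset.inter_eq_right.2 hW, Finset.mul_sum]
          have h3 : K c = M c := if_pos hcW'
          rw [h3, mul_comm]
          congr 1
          refine Finset.sum_congr rfl fun s hs => ?_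
          have h4 : K s = M s := if_pos hs
          rw [h4, mul_comm]
        have h3 := hM c hcW'
        have h4 : 2 ^ i₂ * ∑ c' ∈ W', M c' ≤ 2 ^ (i₂ + 1) * ∑ c' ∈ W', M c' :=
          Nat.mul_le_mul_right _ (Nat.pow_le_pow_right (by norm_num) (Nat.le_succ _))
        omega
      · have hbd : ∀ c'' ∈ W, ∀ u ∈ range (K c''), b ⟨c'', u⟩ c ≤ if c'' = c then 2 ^ i else 0 := by
          intro c'' _ u _
          by_cases hm : mx ⟨c'', u⟩
          · simp only [hb, hm, if_true]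
            rw [(hbm c'' hm.1).1 c hcW']
            exact Nat.zero_le _
          · simp only [hb, hm, if_false]
            by_cases he : c'' = c
            · rw [if_pos he, if_pos he.symm]
            · rw [if_neg fun h => he h.symm]
              exact Nat.zero_le _
        have h1 : ∑ c'' ∈ W, ∑ u ∈ range (K c''), b ⟨c'', u⟩ c ≤
            ∑ c'' ∈ W, K c'' * (if c'' = c then 2 ^ i else 0) := by
          refine Finset.sum_le_sum fun c'' hc'' => ?_
          refine (Finset.sum_le_card_nsmul _ _ _ (hbd c'' hc'')).trans ?_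
          rw [card_range, smul_eq_mul]
        refine h1.trans ?_
        simp only [mul_ite, mul_zero]
        rw [Finset.sum_ite_eq' W c]
        split_ifs with hcW
        · have h3 : K c = m c / 2 ^ i := if_neg hcW'
          rw [h3]
          exact Nat.div_mul_le_self _ _
        · exact Nat.zero_le _
    · intro p hp
      by_cases hm : mx p
      · have hb' : b p = bm p.1 := by
          funext c
          simp only [hb, hm, if_true]
        have hfil : (univ.filter fun c => b p c ≠ 0) = W' := by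
          ext c
          simp only [mem_filter, mem_univ, true_and, hb']
          constructor
          · intro h
            by_contra hc
            exact h ((hbm p.1 hm.1).1 c hc)
          · exact (hbm p.1 hm.1).2.1 c
        rw [hfil, hb']
        have hyp : y p = 2 ^ i • x p.1 + τ := by
          simp only [hy, hm, if_true]
        rw [hyp]
        exact MIXM.vec_sum hlH hx hz hz' hq hτe hm.1 (hbm p.1 hm.1).1 (hbm p.1 hm.1).2.2.1
          (hbm p.1 hm.1).2.2.2.2.2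
      · have h1 : ∑ c, b p c • x c = 2 ^ i • x p.1 := by
          simp only [hb, hm, if_false, ite_smul, zero_smul]
          rw [Finset.sum_ite_eq' univ p.1]
          simp
        have h2 : y p = 2 ^ i • x p.1 := by
          simp only [hy, hm, if_false, add_zero]
        rw [h1, h2, sub_self]
        exact AddSubgroup.zero_mem _
    · intro p hp
      refine le_trans inf_le_left (MIXM.le_HW ?_)
      rw [mem_filter]
      refine ⟨mem_univ _, ?_⟩
      by_cases hm : mx p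
      · simp only [hb, hm, if_true]
        exact (hbm p.1 hm.1).2.1 p.1 hm.1
      · simp only [hb, hm, if_false, if_true]
        exact hpos
  -- the structure
  have hcard : #I = ∑ c ∈ W \ W', m c / 2 ^ i + ∑ c ∈ W', M c := by
    rw [hI, card_sigma, ← Finset.sum_sdiff hW]
    congr 1
    · refine Finset.sum_congr rfl fun c hc => ?_
      rw [card_range]
      exact if_neg (mem_sdiff.1 hc).2
    · refine Finset.sum_congr rfl fun c hc => ?_
      rw [card_range]
      exact if_pos hc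
  obtain ⟨T, -, hT1, hT2⟩ := lt hG hr i (by omega) d hd _ y H' I hF hNH (by rw [hcard]; exact hs)
  obtain ⟨hh1, hh2⟩ := MIXM.halves W' M hM'
  have hne : W'.Nonempty := by
    rw [Finset.nonempty_iff_ne_empty]
    rintro rfl
    simp at hM'
  obtain ⟨c₀, hc₀⟩ := hne
  have hHV : ∀ c ∈ W', H c ⊓ V G i = AddSubgroup.zmultiples l ⊓ V G i := by
    intro c hc
    rw [← hl c hc, inf_assoc, inf_eq_right.2 (V_anti hi₂)]
  have hxx : ∀ c ∈ W', 2 ^ i • x c - 2 ^ i • x c₀ ∈ H c ⊓ V G i := by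
    intro c hc
    rw [hHV c hc, ← smul_sub]
    refine ⟨?_, ⟨x c - x c₀, rfl⟩⟩
    have h1 : 2 ^ i = 2 ^ (i - i₂) * 2 ^ i₂ := by
      rw [← pow_add, Nat.sub_add_cancel hi₂]
    rw [h1, mul_smul]
    exact AddSubgroup.nsmul_mem _ (hx c hc c₀ hc₀) _
  set t0 : Set G := cs (2 ^ i • x c₀) (H c₀ ⊓ V G i) with ht0
  set t1 : Set G := cs (2 ^ i • x c₀ + τ) (H c₀ ⊓ V G i) with ht1
  have hc1 : ∀ p : (Σ _ : Fin N, ℕ), mx p → cs (y p) (H' p) = t1 := by
    intro p hm
    rw [ht1, cs_eq_iff]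
    refine ⟨?_, ?_⟩
    · show H p.1 ⊓ V G i = H c₀ ⊓ V G i
      rw [hHV _ hm.1, hHV _ hc₀]
    · have h1 : y p = 2 ^ i • x p.1 + τ := by
        simp only [hy, hm, if_true]
      rw [h1, add_sub_add_right_eq_sub]
      exact hxx _ hm.1
  have hc0 : ∀ p : (Σ _ : Fin N, ℕ), p.1 ∈ W' → ¬ mx p → cs (y p) (H' p) = t0 := by
    intro p hp hm
    rw [ht0, cs_eq_iff]
    refine ⟨?_, ?_⟩
    · show H p.1 ⊓ V G i = H c₀ ⊓ V G i
      rw [hHV _ hp, hHV _ hc₀]
    · have h1 : y p = 2 ^ i • x p.1 := by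
        simp only [hy, hm, if_false, add_zero]
      rw [h1]
      exact hxx _ hp
  have hbig : ∀ (t : Set G) (g : Fin N → Finset ℕ), (∀ c ∈ W', g c ⊆ range (M c)) →
      d + 1 ≤ ∑ c ∈ W', #(g c) → (∀ c ∈ W', ∀ u ∈ g c, cs (y ⟨c, u⟩) (H' ⟨c, u⟩) = t) →
      t ∈ T := by
    intro t g hg1 hg2 hg3
    by_contra hcon
    have h1 : W'.sigma g ⊆ I.filter fun k => cs (y k) (H' k) ∉ T := by
      rintro ⟨c, u⟩ hp
      obtain ⟨hp1, hp2⟩ := mem_sigma.1 hp
      rw [mem_filter]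
      refine ⟨mem_sigma.2 ⟨hW hp1, ?_⟩, ?_⟩
      · have h2 : K c = M c := if_pos hp1
        show u ∈ range (K c)
        rw [h2]
        exact hg1 c hp1 hp2
      · rw [hg3 c hp1 u hp2]
        exact hcon
    have h2 := card_le_card h1
    rw [card_sigma] at h2
    omega
  have ht1T : t1 ∈ T := by
    refine hbig t1 (fun c => range (M c / 2)) ?_ ?_ ?_
    · intro c _
      exact range_subset_range.2 (Nat.div_le_self _ _)
    · simp only [card_range]
      exact hh1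
    · intro c hc u hu
      exact hc1 ⟨c, u⟩ ⟨hc, mem_range.1 hu⟩
  have ht0T : t0 ∈ T := by
    refine hbig t0 (fun c => range (M c) \ range (M c / 2)) ?_ ?_ ?_
    · intro c _
      exact sdiff_subset
    · have h1 : ∀ c, #(range (M c) \ range (M c / 2)) = M c - M c / 2 := by
        intro c
        rw [card_sdiff_of_subset (range_subset_range.2 (Nat.div_le_self _ _)), card_range,
          card_range]
      simp only [h1]
      exact hh2
    · intro c hc u hu
      refine hc0 ⟨c, u⟩ hc ?_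
      rintro ⟨-, h⟩
      exact (mem_sdiff.1 hu).2 (mem_range.2 h)
  obtain ⟨⟨x0, -, l0, -, -, e0⟩, hq0⟩ := hT1 t0 ht0T
  obtain ⟨⟨x1, -, l1, -, -, e1⟩, hq1⟩ := hT1 t1 ht1T
  have hne : t0 ≠ t1 := by
    intro h
    rw [ht0, ht1, cs_eq_iff] at h
    have h2 := h.2
    rw [hHV _ hc₀] at h2
    have h3 : 2 ^ i • x c₀ - (2 ^ i • x c₀ + τ) = -τ := by abel
    rw [h3] at h2
    exact hτl ((AddSubgroup.neg_mem_iff _).1 h2.1)
  have hq4 : 4 ≤ 2 ^ (a - i) := by
    have : 2 ^ 2 ≤ 2 ^ (a - i) := Nat.pow_le_pow_right (by norm_num) (by omega)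
    omega
  have hdq : 1 + 2 * d + 1 + 2 * d ≤ 2 ^ (a - i) := by
    rcases hd with hd | hd
    · omega
    · have h1 : 32 * (1 + 1) * d ≤ 32 * (2 ^ (r - 1) + 1) * d := by
        refine Nat.mul_le_mul_right _ (Nat.mul_le_mul_left _ ?_)
        have : 1 ≤ 2 ^ (r - 1) := Nat.one_le_two_pow
        omega
      omega
  rw [e0] at hq0 hne
  rw [e1] at hq1 hne
  refine nomeet hG (by omega) hF hNH hne (by omega) (by omega) ?_
  have hm0 := cs_eq_iff.1 (ht0.symm.trans e0)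
  have hm1 := cs_eq_iff.1 (ht1.symm.trans e1)
  have g0 : 2 ^ i • x c₀ - x0 ∈ AddSubgroup.zmultiples l0 := by
    rw [← hm0.1]
    exact hm0.2
  have g1 : 2 ^ i • x c₀ + τ - x1 ∈ AddSubgroup.zmultiples l1 := by
    rw [← hm1.1]
    exact hm1.2
  have hfin : x0 - x1 = (-(2 ^ i • x c₀ - x0) + (2 ^ i • x c₀ + τ - x1)) + -τ := by abel
  unfold Meet
  rw [hfin]
  refine AddSubgroup.mem_sup.2 ⟨_, AddSubgroup.mem_sup.2 ⟨_, AddSubgroup.neg_mem _ g0, _, g1, rfl⟩,
    _, AddSubgroup.neg_mem _ hτV1, rfl⟩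

end Pool.Agent.Lib.MPa7239a.EX
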