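import Pool.Agent.Lib.MP_a7239a_co.EX.CELB
import Pool.Agent.Lib.MP_a7239a_co.EX.MIX
import Pool.Agent.Lib.MP_a7239a_co.EX.CYD

/-!
# CELC: a class generates a cyclic group
-/

set_option autoImplicit false

universe u v w

open Finset

namespace Pool.Agent.Lib.MPa7239a.EX

open Pool.Agent.Lib.MPa7239a.RN (Sol HW DW)

/-- CELC: a class generates a cyclic group -/
theorem celc (r : ℕ) (hr : 1 ≤ r) (K : ℕ) (δ η : ℝ) (hδ : 0 < δ) (hη : 0 < η)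
    (hη' : 1000 * (2 ^ (r - 1) + 1) * η ≤ 1) (i₂ : ℕ) : ∃ a₀ : ℕ, ∀ a ≥ a₀, ∀ (G : Type u)
    [AddCommGroup G] [Finite G], Homo G a r → ∀ (N : ℕ) (x : Fin N → G)
    (H : Fin N → AddSubgroup G) (m : Fin N → ℕ) (W : Finset (Fin N)), CP a r η δ K x H m W →
    (∀ c ∈ W, ∃ g, H c = AddSubgroup.zmultiples g) → ∀ (U : Finset (Fin N)) (z l : G), U ⊆ W →
    (∀ c ∈ U, H c ⊓ V G i₂ = AddSubgroup.zmultiples l ∧
      2 ^ i₂ • x c - z ∈ AddSubgroup.zmultiples l) →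
    (2 : ℝ) ^ a ≤ 2 * ∑ c ∈ U, (m c : ℝ) →
    ∀ τ ∈ DW x H U, 2 • τ = 0 → τ ∈ AddSubgroup.zmultiples l := by
  classical
  obtain ⟨j, hj⟩ := pow_unbounded_of_one_lt ((4 * K + 4) / η) (show (1 : ℝ) < 2 by norm_num)
  set S₀ : ℕ := 2 ^ (i₂ + 1) * K * 2 ^ j with hS₀
  obtain ⟨n₀, hn₀⟩ := pow_unbounded_of_one_lt (((2 : ℝ) ^ j + S₀ + 1) / δ)
    (show (1 : ℝ) < 2 by norm_num)
  have hηR : 1000 * η ≤ 1 := by
    have h1 : (1 : ℝ) ≤ 2 ^ (r - 1) + 1 := by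
      have : (0 : ℝ) < 2 ^ (r - 1) := by positivity
      linarith
    nlinarith
  have hj2 : 2 ≤ j := by
    by_contra hcon
    have h1 : (2 : ℝ) ^ j ≤ 2 := by
      calc (2 : ℝ) ^ j ≤ 2 ^ 1 := pow_le_pow_right₀ (by norm_num) (by omega)
        _ = 2 := by norm_num
    have h2 : (4 : ℝ) ≤ (4 * K + 4) / η := by
      rw [le_div_iff₀ hη]
      have : (0 : ℝ) ≤ K := Nat.cast_nonneg K
      nlinarith
    linarith
  refine ⟨n₀ + i₂ + j + S₀ + 2, fun a ha => ?_⟩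
  intro G _ _ hG N x H m W hCP hcyc U z l hUW hU hUm
  set i : ℕ := a - j with hi
  have hai : a - i = j := by omega
  have hia : i + 1 < a := by omega
  have hii : i₂ ≤ i := by omega
  set q : ℝ := (2 : ℝ) ^ j with hq
  have hq0 : 0 < q := by positivity
  have hqa : (2 : ℝ) ^ i * q = 2 ^ a := by
    rw [hq, ← pow_add]
    congr 1
    omega
  have hηq : 4 * (K : ℝ) + 4 ≤ η * q := by
    rw [div_lt_iff₀ hη] at hj
    linarith
  have hK0 : (0 : ℝ) ≤ K := Nat.cast_nonneg K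
  have hi0 : (0 : ℝ) < 2 ^ i := by positivity
  have hN : N ≤ K := hCP.hN
  have hNR : (N : ℝ) ≤ K := by exact_mod_cast hN
  -- size of `S₀`
  have hS1 : S₀ ≤ 2 ^ i := by
    calc S₀ ≤ 2 ^ S₀ := Nat.lt_two_pow_self.le
      _ ≤ 2 ^ i := Nat.pow_le_pow_right (by norm_num) (by omega)
  have hδa : (2 : ℝ) ^ j + S₀ + 1 ≤ δ * 2 ^ a := by
    rw [div_lt_iff₀ hδ] at hn₀
    have h1 : (2 : ℝ) ^ n₀ ≤ 2 ^ a := pow_le_pow_right₀ (by norm_num) (by omega)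
    have h2 := mul_le_mul_of_nonneg_left h1 hδ.le
    linarith
  obtain ⟨d, hd⟩ : ∃ d : ℕ, d = ⌈2 * η * q⌉₊ := ⟨_, rfl⟩
  have hd1 : 2 * η * q ≤ d := by rw [hd]; exact Nat.le_ceil _
  have hd2 : (d : ℝ) ≤ 3 * η * q := by
    have h1 : (d : ℝ) < 2 * η * q + 1 := by
      rw [hd]
      exact Nat.ceil_lt_add_one (by positivity)
    linarith
  have hn : ∀ c ∈ W, ¬ H c ⊓ V G i ≤ V G (i + 1) := by
    intro c hc
    obtain ⟨g, hg⟩ := hcyc c hc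
    have h1 := hCP.hH c hc
    rw [hg] at h1 ⊢
    refine ordh hG (by omega) ?_
    have h2 : (2 : ℝ) ^ (a - i) ≤ (Nat.card (AddSubgroup.zmultiples g) : ℝ) := by
      rw [hai]
      have h3 : (0 : ℝ) ≤ S₀ := Nat.cast_nonneg _
      linarith
    exact_mod_cast h2
  have hmS : ∀ c ∈ W, S₀ ≤ m c := by
    intro c hc
    have h1 := hCP.hm c hc
    have h2 : (S₀ : ℝ) ≤ m c := by linarith
    exact_mod_cast h2
  have hma : ∀ c ∈ W, m c ≤ 2 ^ a := by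
    intro c hc
    obtain ⟨g, hg⟩ := hcyc c hc
    have h1 := hCP.hm' c hc
    rw [hg] at h1
    exact h1.trans (ordc hG g)
  have hdd : 32 * (2 ^ (r - 1) + 1) * d ≤ 2 ^ (a - i) := by
    have h1 : (32 : ℝ) * (2 ^ (r - 1) + 1) * d ≤ 2 ^ (a - i) := by
      rw [hai]
      have h2 : (0 : ℝ) < 2 ^ (r - 1) + 1 := by positivity
      calc (32 : ℝ) * (2 ^ (r - 1) + 1) * d ≤ 32 * (2 ^ (r - 1) + 1) * (3 * η * q) :=
            mul_le_mul_of_nonneg_left hd2 (by positivity)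
        _ = (1000 * (2 ^ (r - 1) + 1) * η) * (96 / 1000 * q) := by ring
        _ ≤ 1 * (96 / 1000 * q) := mul_le_mul_of_nonneg_right hη' (by positivity)
        _ ≤ q := by linarith
    exact_mod_cast h1
  set M : Fin N → ℕ := fun c => (m c - S₀) / 2 ^ i with hM
  have hM1 : ∀ c ∈ W, M c ≤ 2 ^ j := by
    intro c hc
    have h1 := hma c hc
    have h2 : 2 ^ a = 2 ^ i * 2 ^ j := by
      rw [← pow_add]
      congr 1
      omega
    refine Nat.div_le_of_le_mul ?_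
    omega
  have hM2 : ∀ c ∈ W, m c / 2 ^ i ≤ M c + 1 := by
    intro c hc
    have h1 := hmS c hc
    have h2 : m c / 2 ^ i - 1 ≤ M c := by
      rw [hM, Nat.le_div_iff_mul_le (by positivity)]
      have h3 := Nat.div_mul_le_self (m c) (2 ^ i)
      rw [Nat.sub_mul, one_mul]
      omega
    omega
  have hW : (#W : ℝ) ≤ K := by
    have h1 : #W ≤ N := card_finset_fin_le W
    exact_mod_cast h1.trans hN
  have hUc : #U ≤ N := card_finset_fin_le U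
  have hUR : (#U : ℝ) ≤ K := by exact_mod_cast hUc.trans hN
  have hsumM : ∑ c ∈ U, m c / 2 ^ i ≤ ∑ c ∈ U, M c + #U := by
    rw [card_eq_sum_ones, ← sum_add_distrib]
    exact sum_le_sum fun c hc => hM2 c (hUW hc)
  have hsplit : ∑ c ∈ W \ U, m c / 2 ^ i + ∑ c ∈ U, m c / 2 ^ i = ∑ c ∈ W, m c / 2 ^ i :=
    sum_sdiff hUW
  have hs : 2 ^ (r - 1) * (2 ^ (a - i) - 1) ≤ ∑ c ∈ W \ U, m c / 2 ^ i + ∑ c ∈ U, M c + d := by
    have h1 := CELBM.div_sum W m i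
    have h2 := hCP.tot
    have h3 : (2 ^ (r - 1) - η) * q ≤ ((∑ c ∈ W, m c / 2 ^ i : ℕ) : ℝ) + #W := by
      have h4 : (2 : ℝ) ^ i * ((2 ^ (r - 1) - η) * q) ≤
          2 ^ i * (((∑ c ∈ W, m c / 2 ^ i : ℕ) : ℝ) + #W) := by
        calc (2 : ℝ) ^ i * ((2 ^ (r - 1) - η) * q) = (2 ^ (r - 1) - η) * 2 ^ a := by
              rw [← hqa]; ring
          _ ≤ ∑ c ∈ W, (m c : ℝ) := h2
          _ ≤ _ := h1
          _ = _ := by ring
      exact le_of_mul_le_mul_left h4 hi0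
    have h3' : ((∑ c ∈ W, m c / 2 ^ i : ℕ) : ℝ) ≤
        ((∑ c ∈ W \ U, m c / 2 ^ i + ∑ c ∈ U, M c : ℕ) : ℝ) + #U := by
      rw [← hsplit]
      exact_mod_cast (by omega : ∑ c ∈ W \ U, m c / 2 ^ i + ∑ c ∈ U, m c / 2 ^ i ≤
        ∑ c ∈ W \ U, m c / 2 ^ i + ∑ c ∈ U, M c + #U)
    have h5 : (2 : ℝ) ^ (r - 1) * (2 ^ (a - i) - 1) ≤
        ((∑ c ∈ W \ U, m c / 2 ^ i + ∑ c ∈ U, M c : ℕ) : ℝ) + d := by
      rw [hai, ← hq]
      have h6 : (0 : ℝ) ≤ 2 ^ (r - 1) := by positivity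
      nlinarith
    have h7 : ((2 ^ (r - 1) * (2 ^ (a - i) - 1) : ℕ) : ℝ) =
        (2 : ℝ) ^ (r - 1) * (2 ^ (a - i) - 1) := by
      rw [Nat.cast_mul, Nat.cast_sub Nat.one_le_two_pow]
      push_cast
      ring
    have h8 : ((2 ^ (r - 1) * (2 ^ (a - i) - 1) : ℕ) : ℝ) ≤
        ((∑ c ∈ W \ U, m c / 2 ^ i + ∑ c ∈ U, M c + d : ℕ) : ℝ) := by
      rw [h7, Nat.cast_add _ d]
      exact h5
    exact_mod_cast h8
  have hM' : 2 * (d + 1) + N ≤ ∑ c ∈ U, M c := by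
    have h1 := CELBM.div_sum U m i
    have h2 : q / 2 ≤ ((∑ c ∈ U, m c / 2 ^ i : ℕ) : ℝ) + #U := by
      have h4 : (2 : ℝ) ^ i * (q / 2) ≤ 2 ^ i * (((∑ c ∈ U, m c / 2 ^ i : ℕ) : ℝ) + #U) := by
        calc (2 : ℝ) ^ i * (q / 2) = 2 ^ a / 2 := by rw [← hqa]; ring
          _ ≤ ∑ c ∈ U, (m c : ℝ) := by linarith
          _ ≤ _ := h1
          _ = _ := by ring
      exact le_of_mul_le_mul_left h4 hi0
    have h3 : ((∑ c ∈ U, m c / 2 ^ i : ℕ) : ℝ) ≤ ((∑ c ∈ U, M c : ℕ) : ℝ) + #U := by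
      exact_mod_cast hsumM
    have h5 : ((2 * (d + 1) + N : ℕ) : ℝ) ≤ ((∑ c ∈ U, M c : ℕ) : ℝ) := by
      push_cast at h2 h3 ⊢
      nlinarith
    exact_mod_cast h5
  refine mix hG hr hCP.no hia hii (Or.inr hdd) hn hUW (fun c hc => (hU c hc).1)
    (fun c hc c' hc' => ?_) ?_ M (fun c hc => ?_) hM' hs
  · have h1 := AddSubgroup.sub_mem _ (hU c hc).2 (hU c' hc').2
    rw [smul_sub]
    have h2 : 2 ^ i₂ • x c - 2 ^ i₂ • x c' = (2 ^ i₂ • x c - z) - (2 ^ i₂ • x c' - z) := by abel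
    rw [h2]
    exact h1
  · calc 2 ^ (i₂ + 1) * N ≤ 2 ^ (i₂ + 1) * K := Nat.mul_le_mul_left _ hN
      _ ≤ S₀ := Nat.le_mul_of_pos_right _ (by positivity)
      _ ≤ 2 ^ i := hS1
  · have h1 : 2 ^ i * M c ≤ m c - S₀ := Nat.mul_div_le _ _
    have h2 : ∑ c' ∈ U, M c' ≤ K * 2 ^ j := by
      calc ∑ c' ∈ U, M c' ≤ ∑ _c' ∈ U, 2 ^ j := sum_le_sum fun c' hc' => hM1 c' (hUW hc')
        _ = #U * 2 ^ j := by rw [sum_const, smul_eq_mul]
        _ ≤ K * 2 ^ j := Nat.mul_le_mul_right _ (hUc.trans hN)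
    have h3 : 2 ^ (i₂ + 1) * ∑ c' ∈ U, M c' ≤ S₀ := by
      calc 2 ^ (i₂ + 1) * ∑ c' ∈ U, M c' ≤ 2 ^ (i₂ + 1) * (K * 2 ^ j) :=
            Nat.mul_le_mul_left _ h2
        _ = S₀ := by rw [hS₀, mul_assoc]
    have h4 := hmS c (hUW hc)
    omega

end Pool.Agent.Lib.MPa7239a.EX
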