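import Pool.Agent.Lib.MP_a7239a_co.EX.CYC

/-! # folder EX, module COMPN -/

set_option autoImplicit false

universe u v w

open Finset

namespace Pool.Agent.Lib.MPa7239a.EX

variable {G : Type u} [AddCommGroup G] {a r : ℕ}

open Classical in
/-- half of a full line is incompatible with `e` -/
theorem COMPN.half [Finite G] (hG : Homo G a r) (ha : 1 ≤ a) {x l e : G} (hl : l ∉ V G 1)
    (he : e - x ∈ AddSubgroup.zmultiples l ⊔ V G 1) (S : Finset G)
    (hS : ∀ g ∈ S, g - x ∈ AddSubgroup.zmultiples l ∧ e + g ∉ V G 1) :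
    #S ≤ 2 ^ (a - 1) := by
  have hl0 : l ∈ V G 0 := by rw [V_zero]; trivial
  -- the sums
  have h1 : ∀ g : G, g - x ∈ AddSubgroup.zmultiples l →
      e + g ∈ AddSubgroup.zmultiples l ⊔ V G 1 := by
    intro g hg
    have h2 : e + g = (e - x) + (g - x) + 2 • x := by
      rw [two_nsmul]; abel
    rw [h2]
    refine AddSubgroup.add_mem _ (AddSubgroup.add_mem _ he (AddSubgroup.mem_sup_left hg))
      (AddSubgroup.mem_sup_right ?_)
    have hx0 : x ∈ V G 0 := by rw [V_zero]; trivial
    exact two_mem hx0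
  have h2 : ∀ g ∈ S, e + (g + l) ∈ V G 1 := by
    intro g hg
    obtain ⟨hg1, hg2⟩ := hS g hg
    obtain ⟨y, hy, z, hz, hyz⟩ := AddSubgroup.mem_sup.1 (h1 g hg1)
    obtain ⟨c, hc⟩ := AddSubgroup.mem_zmultiples_iff.1 hy
    have hodd : Odd c := by
      rcases Int.even_or_odd c with hev | ho
      · exfalso
        apply hg2
        rw [← hyz, ← hc]
        exact AddSubgroup.add_mem _ (CYC.even_mem hl0 hev) hz
      · exact ho
    have h3 : e + (g + l) = (c + 1) • l + z := by
      rw [add_smul, one_smul, hc, ← add_assoc, ← hyz]; abel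
    rw [h3]
    exact AddSubgroup.add_mem _ (CYC.even_mem hl0 hodd.add_one) hz
  -- the shifted copy is disjoint from the set
  have h3 : Disjoint S (S.image fun g => g + l) := by
    rw [Finset.disjoint_left]
    intro g hg hg'
    obtain ⟨g₀, hg₀, rfl⟩ := mem_image.1 hg'
    exact (hS _ hg).2 (h2 g₀ hg₀)
  have h4 : #(S.image fun g => g + l) = #S :=
    card_image_of_injective _ (add_left_injective l)
  -- both are in the line
  have hord : addOrderOf l ≤ 2 ^ a :=
    Nat.le_of_dvd (by positivity) (addOrderOf_dvd_iff_nsmul_eq_zero.2 (hG.kill l))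
  have h5 : #(S ∪ S.image fun g => g + l) ≤ addOrderOf l := by
    have : Fintype (AddSubgroup.zmultiples l) := Fintype.ofFinite _
    rw [← Nat.card_zmultiples, Nat.card_eq_fintype_card, ← card_univ]
    refine card_le_card_of_injOn
      (fun g => if h : g - x ∈ AddSubgroup.zmultiples l then ⟨g - x, h⟩ else ⟨0, zero_mem _⟩)
      (fun _ _ => mem_coe.2 (mem_univ _)) ?_
    have hmem : ∀ g ∈ S ∪ S.image fun g => g + l, g - x ∈ AddSubgroup.zmultiples l := by
      intro g hg
      rcases mem_union.1 hg with hg | hg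
      · exact (hS g hg).1
      · obtain ⟨g₀, hg₀, rfl⟩ := mem_image.1 hg
        have h6 : g₀ + l - x = (g₀ - x) + l := by abel
        rw [h6]
        exact AddSubgroup.add_mem _ (hS g₀ hg₀).1 (AddSubgroup.mem_zmultiples l)
    intro g hg g' hg' h
    have e1 := hmem g (mem_coe.1 hg)
    have e2 := hmem g' (mem_coe.1 hg')
    simp only [e1, e2, dif_pos] at h
    exact sub_left_injective (congrArg Subtype.val h)
  rw [card_union_of_disjoint h3, h4] at h5
  have h6 : 2 ^ a = 2 * 2 ^ (a - 1) := by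
    rw [← pow_succ', Nat.sub_add_cancel ha]
  omega

open Classical in
/-- COMPN: the companions -/
theorem compn [Finite G] (hG : Homo G a r) (ha : 1 ≤ a) {κ : Type w} [Fintype κ] {x l : κ → G}
    (h : Hv 0 x l) (A : Finset G) (E : Finset G)
    (hs : ∀ k, 2 ^ (a - 1) + #E ≤ #(A.filter fun g => g - x k ∈ AddSubgroup.zmultiples (l k))) :
    ∃ (f : G → G) (κe : G → κ), Set.InjOn f E ∧ ∀ e ∈ E, f e ∈ A ∧
      f e - x (κe e) ∈ AddSubgroup.zmultiples (l (κe e)) ∧ e + f e ∈ V G 1 := by
  have hcov : ∀ e : G, ∃ k, e - x k ∈ AddSubgroup.zmultiples (l k) ⊔ V G 1 := fun e =>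
    h.cov e (by rw [V_zero]; trivial)
  choose κe hκ using hcov
  set F : G → Finset G := fun e =>
    (A.filter fun g => g - x (κe e) ∈ AddSubgroup.zmultiples (l (κe e))).filter
      fun g => e + g ∈ V G 1 with hF
  have hcard : ∀ e : G, #E ≤ #(F e) := by
    intro e
    have h1 := hs (κe e)
    have h2 := card_filter_add_card_filter_not
      (s := A.filter fun g => g - x (κe e) ∈ AddSubgroup.zmultiples (l (κe e)))
      (fun g => e + g ∈ V G 1)
    have h3 := COMPN.half hG ha (h.hn (κe e)) (hκ e)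
      ((A.filter fun g => g - x (κe e) ∈ AddSubgroup.zmultiples (l (κe e))).filter
        fun g => ¬ e + g ∈ V G 1) (fun g hg => by
          obtain ⟨hg1, hg2⟩ := mem_filter.1 hg
          exact ⟨(mem_filter.1 hg1).2, hg2⟩)
    have h4 : #(F e) = #((A.filter fun g => g - x (κe e) ∈
      AddSubgroup.zmultiples (l (κe e))).filter fun g => e + g ∈ V G 1) := rfl
    omega
  have hall : ∀ s : Finset E, #s ≤ #(s.biUnion fun e => F e.1) := by
    intro s
    rcases s.eq_empty_or_nonempty with rfl | ⟨e, he⟩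
    · simp
    · calc #s ≤ Fintype.card E := card_le_univ s
        _ = #E := Fintype.card_coe E
        _ ≤ #(F e.1) := hcard e.1
        _ ≤ #(s.biUnion fun e => F e.1) :=
          card_le_card (subset_biUnion_of_mem (fun e : E => F e.1) he)
  obtain ⟨f, hf1, hf2⟩ :=
    (Finset.all_card_le_biUnion_card_iff_exists_injective fun e : E => F e.1).1 hall
  refine ⟨fun e => if he : e ∈ E then f ⟨e, he⟩ else 0, κe, ?_, ?_⟩
  · intro e he e' he' hee
    have e1 : e ∈ E := mem_coe.1 he
    have e2 : e' ∈ E := mem_coe.1 he'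
    simp only [e1, e2, dif_pos] at hee
    exact congrArg Subtype.val (hf1 hee)
  · intro e he
    simp only [he, dif_pos]
    have h1 := hf2 ⟨e, he⟩
    obtain ⟨h2, h3⟩ := mem_filter.1 h1
    obtain ⟨h4, h5⟩ := mem_filter.1 h2
    exact ⟨h4, h5, h3⟩

end Pool.Agent.Lib.MPa7239a.EX
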