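import Mathlib

/-!
# The exact value for `(Z / 2 ^ a) ^ r` in all ranks (folder EX, captain helper59): definitions
-/

set_option autoImplicit false

universe u v

open Finset

namespace Pool.Agent.Lib.MPa7239a.EX

/-- `G` is isomorphic to `(Z / 2 ^ a) ^ r` -/
structure Homo (G : Type u) [AddCommGroup G] (a r : ℕ) : Prop where
  kill : ∀ x : G, 2 ^ a • x = 0
  div : ∀ i ≤ a, ∀ x : G, 2 ^ (a - i) • x = 0 → ∃ y, 2 ^ i • y = x
  card : Nat.card {x : G // 2 • x = 0} = 2 ^ r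

/-- `V i = 2 ^ i G` -/
def V (G : Type u) [AddCommGroup G] (i : ℕ) : AddSubgroup G :=
  (nsmulAddMonoidHom (α := G) (2 ^ i)).range

variable {G : Type u} [AddCommGroup G]

/-- the coset `y + H` -/
def cs (y : G) (H : AddSubgroup G) : Set G := {x | x - y ∈ H}

/-- the cosets `y + H`, `y' + H'` meet modulo `V (i + 1)` -/
def Meet (i : ℕ) (y : G) (H : AddSubgroup G) (y' : G) (H' : AddSubgroup G) : Prop :=
  y - y' ∈ H ⊔ H' ⊔ V G (i + 1)

/-- a line: a coset of a cyclic group generated by an element of `V i` outside `V (i + 1)` -/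
def Ln (i : ℕ) (t : Set G) : Prop :=
  ∃ x ∈ V G i, ∃ l ∈ V G i, l ∉ V G (i + 1) ∧ t = cs x (AddSubgroup.zmultiples l)

section Families

variable {ι : Type v}

/-- a family of cosets at level `i` -/
structure Fam (i : ℕ) (y : ι → G) (H : ι → AddSubgroup G) (I : Finset ι) : Prop where
  hy : ∀ k ∈ I, y k ∈ V G i
  hH : ∀ k ∈ I, H k ≤ V G i
  hn : ∀ k ∈ I, ¬ H k ≤ V G (i + 1)

/-- no `q` members with compatible sum -/
def NoHit (q : ℕ) (y : ι → G) (H : ι → AddSubgroup G) (I : Finset ι) : Prop :=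
  ∀ J ⊆ I, #J = q → ∑ k ∈ J, y k ∉ ⨆ k ∈ J, H k

open Classical in
/-- the number of members of `I` whose coset is `t` -/
noncomputable def cnt (y : ι → G) (H : ι → AddSubgroup G) (I : Finset ι) (t : Set G) : ℕ :=
  #(I.filter fun k => cs (y k) (H k) = t)

open Classical in
/-- the structure: `2 ^ (r - 1)` lines carry all but `d` members -/
def Str (a r i d : ℕ) (y : ι → G) (H : ι → AddSubgroup G) (I : Finset ι) : Prop :=
  ∃ T : Finset (Set G), #T = 2 ^ (r - 1) ∧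
    (∀ t ∈ T, Ln i t ∧ 2 ^ (a - i) ≤ cnt y H I t + 1 + 2 * d) ∧
    #(I.filter fun k => cs (y k) (H k) ∉ T) ≤ d

/-- the set of the elements of `V (i + 1)` in `y k + y k' + H k + H k'` -/
def ps (i : ℕ) (y : ι → G) (H : ι → AddSubgroup G) (k k' : ι) : Set G :=
  {x | x ∈ V G (i + 1) ∧ x - (y k + y k') ∈ H k ⊔ H k'}

open Classical in
/-- a representative -/
noncomputable def Zp (i : ℕ) (y : ι → G) (H : ι → AddSubgroup G) (p : ι × ι) : G :=
  if h : (ps i y H p.1 p.2).Nonempty then h.some else 0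

/-- the group of a pair -/
def Kp (i : ℕ) (H : ι → AddSubgroup G) (p : ι × ι) : AddSubgroup G :=
  (H p.1 ⊔ H p.2) ⊓ V G (i + 1)

/-- a matching of the members of `I` in the graph `Meet` -/
structure Mat (i : ℕ) (y : ι → G) (H : ι → AddSubgroup G) (I : Finset ι)
    (P : Finset (ι × ι)) : Prop where
  mem : ∀ p ∈ P, p.1 ∈ I ∧ p.2 ∈ I ∧ p.1 ≠ p.2
  meet : ∀ p ∈ P, Meet i (y p.1) (H p.1) (y p.2) (H p.2)
  disj : ∀ p ∈ P, ∀ p' ∈ P, p ≠ p' → p.1 ≠ p'.1 ∧ p.1 ≠ p'.2 ∧ p.2 ≠ p'.1 ∧ p.2 ≠ p'.2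

end Families

/-- heavy lines: they partition `V i` modulo `V (i + 1)` -/
structure Hv (i : ℕ) {κ : Type v} (x l : κ → G) : Prop where
  hx : ∀ k, x k ∈ V G i
  hl : ∀ k, l k ∈ V G i
  hn : ∀ k, l k ∉ V G (i + 1)
  cov : ∀ z ∈ V G i, ∃ k, z - x k ∈ AddSubgroup.zmultiples (l k) ⊔ V G (i + 1)
  dis : ∀ k k', Meet i (x k) (AddSubgroup.zmultiples (l k)) (x k')
    (AddSubgroup.zmultiples (l k')) → k = k'

/-- the group generated by the directions of the classes used by `b` -/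
def Lb {κ : Type v} (l : κ → G) (b : κ → ℕ) : AddSubgroup G :=
  ⨆ k, ⨆ (_ : b k ≠ 0), AddSubgroup.zmultiples (l k)

/-! ## basic facts -/

theorem mem_V {i : ℕ} {x : G} : x ∈ V G i ↔ ∃ y, 2 ^ i • y = x := Iff.rfl

theorem V_anti {i j : ℕ} (h : i ≤ j) : V G j ≤ V G i := by
  rintro x ⟨y, rfl⟩
  refine ⟨2 ^ (j - i) • y, ?_⟩
  show 2 ^ i • (2 ^ (j - i) • y) = 2 ^ j • y
  rw [smul_smul, ← pow_add, Nat.add_sub_cancel' h]

theorem V_succ_le (i : ℕ) : V G (i + 1) ≤ V G i := V_anti (Nat.le_succ i)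

theorem V_zero : V G 0 = ⊤ := by
  rw [eq_top_iff]
  rintro x -
  exact ⟨x, by show 2 ^ 0 • x = x; rw [pow_zero, one_smul]⟩

theorem two_mem {i : ℕ} {x : G} (hx : x ∈ V G i) : 2 • x ∈ V G (i + 1) := by
  obtain ⟨y, rfl⟩ := hx
  refine ⟨y, ?_⟩
  show 2 ^ (i + 1) • y = 2 • (2 ^ i • y)
  rw [smul_smul, pow_succ']

theorem mem_cs {x y : G} {H : AddSubgroup G} : x ∈ cs y H ↔ x - y ∈ H := Iff.rfl

theorem cs_eq_iff {y y' : G} {H H' : AddSubgroup G} : cs y H = cs y' H' ↔ H = H' ∧ y - y' ∈ H := by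
  constructor
  · intro h
    have h1 : y ∈ cs y' H' := by
      rw [← h, mem_cs, sub_self]; exact H.zero_mem
    have h2 : ∀ g, g ∈ H ↔ g ∈ H' := by
      intro g
      have h3 : y + g ∈ cs y H ↔ y + g ∈ cs y' H' := by rw [h]
      rw [mem_cs, mem_cs] at h3
      rw [add_sub_cancel_left] at h3
      rw [h3]
      have h4 : y + g - y' = (y - y') + g := by abel
      rw [h4]
      exact (H'.add_mem_cancel_left h1)
    have h3 : H = H' := AddSubgroup.ext h2
    exact ⟨h3, by rw [h3]; exact h1⟩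
  · rintro ⟨rfl, h⟩
    ext z
    rw [mem_cs, mem_cs]
    have : z - y' = (z - y) + (y - y') := by abel
    rw [this]
    exact (H.add_mem_cancel_right h).symm

namespace Homo

variable {a r : ℕ}

theorem mem_iff (hG : Homo G a r) {i : ℕ} (hi : i ≤ a) {x : G} :
    x ∈ V G i ↔ 2 ^ (a - i) • x = 0 := by
  constructor
  · rintro ⟨y, rfl⟩
    show 2 ^ (a - i) • (2 ^ i • y) = 0
    rw [smul_smul, ← pow_add, Nat.sub_add_cancel hi]
    exact hG.kill y
  · exact hG.div i hi x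

theorem bot (hG : Homo G a r) : V G a = ⊥ := by
  rw [eq_bot_iff]
  intro x hx
  rw [hG.mem_iff le_rfl, Nat.sub_self, pow_zero, one_smul] at hx
  exact hx

theorem half (hG : Homo G a r) {i : ℕ} (hi : i < a) {x : G} (h : 2 • x ∈ V G (i + 1)) :
    x ∈ V G i := by
  rw [hG.mem_iff (by omega)] at h
  rw [hG.mem_iff (by omega), show a - i = a - (i + 1) + 1 by omega, pow_succ, ← smul_smul]
  exact h

theorem invol (hG : Homo G a r) (ha : 1 ≤ a) {x : G} (h : 2 • x = 0) : x ∈ V G (a - 1) := by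
  rw [hG.mem_iff (by omega), show a - (a - 1) = 1 by omega, pow_one]
  exact h

theorem congr_iff (hG : Homo G a r) {i : ℕ} (hi : i < a) {x y : G} :
    2 ^ (a - 1 - i) • x = 2 ^ (a - 1 - i) • y ↔ x - y ∈ V G (i + 1) := by
  rw [hG.mem_iff (by omega), ← sub_eq_zero, ← smul_sub, show a - (i + 1) = a - 1 - i by omega]

/-- a set of pairwise incongruent elements has at most `2 ^ r` members -/
theorem sep [Finite G] (hG : Homo G a r) {i : ℕ} (hi : i < a) (S : Finset G)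
    (hS : ∀ x ∈ S, x ∈ V G i) (hd : ∀ x ∈ S, ∀ y ∈ S, x ≠ y → x - y ∉ V G (i + 1)) :
    #S ≤ 2 ^ r := by
  classical
  have : Fintype {x : G // 2 • x = 0} := Fintype.ofFinite _
  rw [← hG.card, Nat.card_eq_fintype_card, ← card_univ]
  have hk : ∀ x ∈ S, 2 • (2 ^ (a - 1 - i) • x) = 0 := by
    intro x hx
    have := (hG.mem_iff hi.le).1 (hS x hx)
    rw [smul_smul, ← pow_succ', show a - 1 - i + 1 = a - i by omega]
    exact this
  refine card_le_card_of_injOn
    (fun x => if h : 2 • (2 ^ (a - 1 - i) • x) = 0 then ⟨2 ^ (a - 1 - i) • x, h⟩ else ⟨0, smul_zero _⟩)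
    (fun x _ => mem_coe.2 (mem_univ _)) ?_
  intro x hx y hy h
  by_contra hne
  have h1 := hk x hx
  have h2 := hk y hy
  simp only [h1, h2, dif_pos] at h
  exact hd x hx y hy hne ((hG.congr_iff hi).1 (congrArg Subtype.val h))

/-- `2 ^ r` pairwise incongruent elements cover `V i` modulo `V (i + 1)` -/
theorem cover [Finite G] (hG : Homo G a r) {i : ℕ} (hi : i < a) (S : Finset G)
    (hS : ∀ x ∈ S, x ∈ V G i) (hd : ∀ x ∈ S, ∀ y ∈ S, x ≠ y → x - y ∉ V G (i + 1))
    (hc : #S = 2 ^ r) (z : G) (hz : z ∈ V G i) : ∃ x ∈ S, z - x ∈ V G (i + 1) := by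
  classical
  by_contra hcon
  push Not at hcon
  have hzS : z ∉ S := fun h => hcon z h (by rw [sub_self]; exact AddSubgroup.zero_mem _)
  have h := hG.sep hi (insert z S) (fun x hx => by
    rcases mem_insert.1 hx with rfl | hx
    · exact hz
    · exact hS x hx) (fun x hx y hy hne => by
    rcases mem_insert.1 hx with e₁ | m₁ <;> rcases mem_insert.1 hy with e₂ | m₂
    · exact absurd (e₁.trans e₂.symm) hne
    · rw [e₁]
      exact hcon y m₂
    · intro h
      apply hcon x m₁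
      rw [← neg_sub, ← e₂]
      exact AddSubgroup.neg_mem _ h
    · exact hd x m₁ y m₂ hne)
  rw [card_insert_of_notMem hzS] at h
  omega

end Homo

end Pool.Agent.Lib.MPa7239a.EX
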