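import Pool.Agent.Lib.MP_a7239a_co.EX.Defs
import Pool.Agent.Lib.MP_a7239a_co.RN.Defs

/-!
# The exact value for `(Z / 2 ^ a) ^ r` in all ranks (folder EX): cell problems
-/

set_option autoImplicit false

universe u

open Finset

namespace Pool.Agent.Lib.MPa7239a.EX

open Pool.Agent.Lib.MPa7239a.RN (Sol HW DW)

variable {G : Type u} [AddCommGroup G]

/-- a cell problem without solution, with groups and masses of size `≥ δ 2 ^ a`, of total mass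
`≥ (2 ^ (r - 1) - η) 2 ^ a` -/
structure CP (a r : ℕ) (η δ : ℝ) (K : ℕ) {N : ℕ} (x : Fin N → G) (H : Fin N → AddSubgroup G)
    (m : Fin N → ℕ) (W : Finset (Fin N)) : Prop where
  hN : N ≤ K
  no : ¬ Sol (2 ^ a) x H m W
  hH : ∀ c ∈ W, δ * 2 ^ a ≤ Nat.card (H c)
  hm : ∀ c ∈ W, δ * 2 ^ a ≤ m c
  hm' : ∀ c ∈ W, m c ≤ Nat.card (H c)
  tot : (2 ^ (r - 1) - η) * 2 ^ a ≤ ∑ c ∈ W, (m c : ℝ)

end Pool.Agent.Lib.MPa7239a.EX
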