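import Pool.Agent.Lib.MP_a7239a_co.EX.Defs

/-! # folder EX: the module EBASE -/

set_option autoImplicit false

universe u v

open Finset

namespace Pool.Agent.Lib.MPa7239a.EX

variable {G : Type u} [AddCommGroup G] {a r : ℕ} {ι : Type v}

/-- EBASE -/
theorem ebase [Finite G] (hG : Homo G a r) (hr : 1 ≤ r) {i : ℕ} (hi : i + 1 = a) {y : ι → G}
    {H : ι → AddSubgroup G} {I : Finset ι} (hF : Fam i y H I) (hN : NoHit (2 ^ (a - i)) y H I)
    (hI : 2 ^ (r - 1) * (2 ^ (a - i) - 1) ≤ #I) : Str a r i 0 y H I := by
  classical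
  have : Fintype G := Fintype.ofFinite _
  subst hi
  have hq : 2 ^ (i + 1 - i) = 2 := by rw [Nat.add_sub_cancel_left, pow_one]
  rw [hq] at hN hI
  have hbot : V G (i + 1) = ⊥ := hG.bot
  have hr2 : 2 ^ r = 2 * 2 ^ (r - 1) := by
    rw [← pow_succ', Nat.sub_add_cancel hr]
  have hI' : 2 ^ (r - 1) ≤ #I := by omega
  -- different members do not meet
  have hdis : ∀ k ∈ I, ∀ k' ∈ I, k ≠ k' → ∀ x, x ∈ cs (y k) (H k) → x ∉ cs (y k') (H k') := by
    intro k hk k' hk' hne x hx hx'
    rw [mem_cs] at hx hx'
    refine hN {k, k'} (fun z hz => ?_) (card_pair hne) ?_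
    · rcases mem_insert.1 hz with rfl | hz
      · exact hk
      · rw [mem_singleton.1 hz]
        exact hk'
    · rw [sum_pair hne]
      have hxV : x ∈ V G i := by
        have := (V G i).add_mem (hF.hH k hk hx) (hF.hy k hk)
        rwa [sub_add_cancel] at this
      have h2 : 2 • x = 0 := by
        have := two_mem hxV
        rwa [hbot, AddSubgroup.mem_bot] at this
      have h3 : y k + y k' = -(x - y k) + -(x - y k') := by
        have h4 : y k + y k' = -(x - y k) + -(x - y k') + 2 • x := by
          rw [two_nsmul]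
          abel
        rwa [h2, add_zero] at h4
      rw [h3]
      have e1 : H k ≤ ⨆ j ∈ ({k, k'} : Finset ι), H j :=
        le_biSup H (mem_insert_self k {k'})
      have e2 : H k' ≤ ⨆ j ∈ ({k, k'} : Finset ι), H j :=
        le_biSup H (mem_insert_of_mem (mem_singleton_self k'))
      exact AddSubgroup.add_mem _ (e1 (AddSubgroup.neg_mem _ hx)) (e2 (AddSubgroup.neg_mem _ hx'))
  -- the cosets as finite sets
  let C : ι → Finset G := fun k => univ.filter fun x => x ∈ cs (y k) (H k)
  have hC : ∀ k x, x ∈ C k ↔ x - y k ∈ H k := by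
    intro k x
    simp only [C, mem_filter, mem_univ, true_and, mem_cs]
  have hyC : ∀ k, y k ∈ C k := by
    intro k
    rw [hC, sub_self]
    exact (H k).zero_mem
  have hex : ∀ k ∈ I, ∃ h ∈ H k, h ≠ 0 := by
    intro k hk
    by_contra hcon
    push Not at hcon
    refine hF.hn k hk fun g hg => ?_
    rw [hcon g hg]
    exact AddSubgroup.zero_mem _
  have h2C : ∀ k ∈ I, 2 ≤ #(C k) := by
    intro k hk
    obtain ⟨h, hh, hne⟩ := hex k hk
    have hsub : ({y k, y k + h} : Finset G) ⊆ C k := by
      intro x hx
      rcases mem_insert.1 hx with rfl | hx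
      · exact hyC k
      · rw [mem_singleton.1 hx, hC, add_sub_cancel_left]
        exact hh
    have hc := card_le_card hsub
    rwa [card_pair (fun e => hne (by
      have := e.symm
      rwa [add_eq_left] at this))] at hc
  have hsum : ∑ k ∈ I, #(C k) ≤ 2 ^ r := by
    rw [← card_biUnion]
    · refine hG.sep (Nat.lt_succ_self i) _ ?_ ?_
      · intro x hx
        obtain ⟨k, hk, hx⟩ := mem_biUnion.1 hx
        rw [hC] at hx
        have := (V G i).add_mem (hF.hH k hk hx) (hF.hy k hk)
        rwa [sub_add_cancel] at this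
      · intro x _ z _ hne h
        rw [hbot, AddSubgroup.mem_bot, sub_eq_zero] at h
        exact hne h
    · intro k hk k' hk' hne
      rw [Function.onFun, disjoint_left]
      intro x hx hx'
      rw [hC] at hx hx'
      exact hdis k hk k' hk' hne x hx hx'
  have hge : ∑ k ∈ I, 2 ≤ ∑ k ∈ I, #(C k) := sum_le_sum h2C
  have hcst : ∑ k ∈ I, 2 = 2 * #I := by rw [sum_const, smul_eq_mul, mul_comm]
  have heq : ∑ k ∈ I, 2 = ∑ k ∈ I, #(C k) := by
    apply le_antisymm hge
    rw [hcst]
    omega
  have hcardC : ∀ k ∈ I, 2 = #(C k) := (sum_eq_sum_iff_of_le h2C).1 heq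
  have hcI : #I = 2 ^ (r - 1) := by
    rw [hcst] at hge
    omega
  refine ⟨I.image fun k => cs (y k) (H k), ?_, ?_, ?_⟩
  · rw [card_image_of_injOn, hcI]
    intro k hk k' hk' h
    by_contra hne
    have hyk : y k ∈ cs (y k) (H k) := (hC k (y k)).1 (hyC k)
    refine hdis k (mem_coe.1 hk) k' (mem_coe.1 hk') hne (y k) hyk ?_
    have h' : cs (y k) (H k) = cs (y k') (H k') := h
    rw [← h']
    exact hyk
  · intro t ht
    obtain ⟨k, hk, rfl⟩ := mem_image.1 ht
    constructor
    · obtain ⟨h, hh, hne⟩ := hex k hk
      have hsub : ({y k, y k + h} : Finset G) ⊆ C k := by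
        intro x hx
        rcases mem_insert.1 hx with rfl | hx
        · exact hyC k
        · rw [mem_singleton.1 hx, hC, add_sub_cancel_left]
          exact hh
      have hne' : y k ≠ y k + h := fun e => hne (by
        have := e.symm
        rwa [add_eq_left] at this)
      have hset : ({y k, y k + h} : Finset G) = C k := by
        apply eq_of_subset_of_card_le hsub
        rw [← hcardC k hk, card_pair hne']
      refine ⟨y k, hF.hy k hk, h, hF.hH k hk hh, ?_, ?_⟩
      · rw [hbot, AddSubgroup.mem_bot]
        exact hne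
      · congr 1
        apply le_antisymm
        · intro g hg
          have hgC : y k + g ∈ C k := by
            rw [hC, add_sub_cancel_left]
            exact hg
          rw [← hset] at hgC
          rcases mem_insert.1 hgC with e | e
          · rw [add_eq_left] at e
            rw [e]
            exact AddSubgroup.zero_mem _
          · have e' := add_left_cancel (mem_singleton.1 e)
            rw [e']
            exact AddSubgroup.mem_zmultiples h
        · exact (AddSubgroup.zmultiples_le_of_mem hh)
    · rw [hq]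
      have : 1 ≤ cnt y H I (cs (y k) (H k)) := by
        unfold cnt
        rw [Nat.one_le_iff_ne_zero, card_ne_zero]
        exact ⟨k, mem_filter.2 ⟨hk, rfl⟩⟩
      omega
  · rw [Nat.le_zero, card_eq_zero, filter_eq_empty_iff]
    intro k hk h
    exact h (mem_image_of_mem _ hk)

end Pool.Agent.Lib.MPa7239a.EX
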