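import Pool.Agent.Lib.MP_a7239a_co.EX.Defs

/-! # folder EX, module REPL: elements of a sum of cyclic groups -/

set_option autoImplicit false

universe u v w

open Finset

namespace Pool.Agent.Lib.MPa7239a.EX

variable {G : Type u} [AddCommGroup G] {a r : ℕ}

namespace ReplAux

/-- the sums of elements of the allowed cyclic groups -/
def S {κ : Type w} [Fintype κ] (l : κ → G) (b : κ → ℕ) (t : κ) : AddSubgroup G where
  carrier := {g | ∃ lam : κ → G, (∀ k, lam k ∈ AddSubgroup.zmultiples (l k)) ∧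
      (∀ k, k ≠ t → b k = 0 → lam k = 0) ∧ ∑ k, lam k = g}
  add_mem' := by
    rintro x y ⟨p, p1, p2, p3⟩ ⟨q, q1, q2, q3⟩
    refine ⟨fun k => p k + q k, fun k => AddSubgroup.add_mem _ (p1 k) (q1 k), ?_, ?_⟩
    · intro k hk hb
      show p k + q k = 0
      rw [p2 k hk hb, q2 k hk hb, add_zero]
    · rw [sum_add_distrib, p3, q3]
  zero_mem' := ⟨fun _ => 0, fun _ => AddSubgroup.zero_mem _, fun _ _ _ => rfl, by simp⟩
  neg_mem' := by
    rintro x ⟨p, p1, p2, p3⟩
    refine ⟨fun k => -p k, fun k => AddSubgroup.neg_mem _ (p1 k), ?_, ?_⟩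
    · intro k hk hb
      show -p k = 0
      rw [p2 k hk hb, neg_zero]
    · rw [sum_neg_distrib, p3]

theorem le {κ : Type w} [Fintype κ] [DecidableEq κ] (l : κ → G) (b : κ → ℕ) (t k : κ)
    (h : k = t ∨ b k ≠ 0) : AddSubgroup.zmultiples (l k) ≤ S l b t := by
  intro g hg
  refine ⟨Pi.single k g, ?_, ?_, ?_⟩
  · intro j
    by_cases hj : j = k
    · subst hj
      rw [Pi.single_eq_same]
      exact hg
    · rw [Pi.single_eq_of_ne hj]
      exact AddSubgroup.zero_mem _
  · intro j hj hb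
    rw [Pi.single_eq_of_ne]
    rintro rfl
    rcases h with h | h
    · exact hj h
    · exact h hb
  · rw [Finset.sum_eq_single k]
    · rw [Pi.single_eq_same]
    · intro j _ hj
      rw [Pi.single_eq_of_ne hj]
    · intro hk
      exact absurd (mem_univ k) hk

end ReplAux

/-- REP: elements of a sum of cyclic groups -/
theorem rep {κ : Type w} [Fintype κ] [DecidableEq κ] {l : κ → G} {b : κ → ℕ} {t : κ} {g : G}
    (h : g ∈ Lb l b ⊔ AddSubgroup.zmultiples (l t)) :
    ∃ lam : κ → G, (∀ k, lam k ∈ AddSubgroup.zmultiples (l k)) ∧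
      (∀ k, k ≠ t → b k = 0 → lam k = 0) ∧ ∑ k, lam k = g := by
  have h1 : Lb l b ⊔ AddSubgroup.zmultiples (l t) ≤ ReplAux.S l b t := by
    refine sup_le ?_ (ReplAux.le l b t t (Or.inl rfl))
    unfold Lb
    exact iSup_le fun k => iSup_le fun hk => ReplAux.le l b t k (Or.inr hk)
  exact h1 h

end Pool.Agent.Lib.MPa7239a.EX
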