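import Pool.Agent.Lib.MP_a7239a_co.EX.NFC
import Pool.Agent.Lib.MP_a7239a_co.EX.REPL

/-! # folder EX: ENDB (a hit from exceptional elements with one destination) -/

set_option autoImplicit false

universe u v w

open Finset

namespace Pool.Agent.Lib.MPa7239a.EX

open Pool.Agent.Lib.MPa7239a.GC (Hit)

variable {G : Type u} [AddCommGroup G] {a r : ℕ}

namespace ENDBaux

theorem order (hG : Homo G a r) (ha : 1 ≤ a) {l : G} (hl : l ∉ V G 1) :
    addOrderOf l = 2 ^ a := by
  obtain ⟨a', rfl⟩ := Nat.exists_eq_succ_of_ne_zero (show a ≠ 0 by omega)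
  have h1 : ¬ 2 ^ a' • l = 0 := by
    intro h
    apply hl
    rw [hG.mem_iff (by omega)]
    simpa using h
  exact addOrderOf_eq_prime_pow (p := 2) h1 (hG.kill l)

theorem Lb_mono {κ : Type w} {l : κ → G} {b b' : κ → ℕ} (h : ∀ k, b k ≠ 0 → b' k ≠ 0) :
    Lb l b ≤ Lb l b' := by
  refine iSup_le fun k => iSup_le fun hk => ?_
  exact le_iSup_of_le k (le_iSup_of_le (h k hk) le_rfl)

end ENDBaux

open ENDBaux

open Classical in
/-- ENDB: a hit from exceptional elements with one destination -/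
theorem endb [Finite G] (hG : Homo G a r) (ha : 10 ≤ a) {κ : Type w} [Fintype κ] {x l : κ → G}
    (h : Hv 0 x l) (A : Finset G) (s : κ → ℕ)
    (hs : ∀ k, #(A.filter fun g => g - x k ∈ AddSubgroup.zmultiples (l k)) + s k = 2 ^ a)
    (F : Finset G) (hFA : F ⊆ A) (hF : ∀ e ∈ F, ∀ k, e - x k ∉ AddSubgroup.zmultiples (l k))
    (f : G → G) (κe : G → κ) (hf : Set.InjOn f F)
    (hf' : ∀ e ∈ F, f e ∈ A ∧ f e - x (κe e) ∈ AddSubgroup.zmultiples (l (κe e)))
    (t : κ) (j : G → ℕ) (b : G → κ → ℕ) (hb : ∀ e ∈ F, ∑ k, b e k = 2 ^ j e - 1)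
    (hp : ∀ e ∈ F, e + f e + ∑ k, b e k • (2 • x k) - 2 ^ j e • (2 • x t) ∈
      Lb l (b e) ⊔ AddSubgroup.zmultiples (l t))
    (hσ : 2 * ∑ e ∈ F, 2 ^ (j e + 1) ≤ 2 ^ a)
    (hw : s t + 2 + ∑ e ∈ F, (2 * b e t + if κe e = t then 1 else 0) ≤ ∑ e ∈ F, 2 ^ (j e + 1))
    (hsmall : ∀ k, 8 * (s k + #F + 2) ≤ 2 ^ a) : Hit A (2 ^ a) 0 := by
  have h1024 : 1024 ≤ 2 ^ a := by
    calc 1024 = 2 ^ 10 := by norm_num
      _ ≤ 2 ^ a := Nat.pow_le_pow_right (by norm_num) ha
  -- the classes are disjoint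
  have hdis : ∀ g k k', g - x k ∈ AddSubgroup.zmultiples (l k) →
      g - x k' ∈ AddSubgroup.zmultiples (l k') → k = k' := by
    intro g k k' h1 h2
    apply h.dis
    unfold Meet
    have e : x k - x k' = -(g - x k) + (g - x k') := by abel
    rw [e]
    exact AddSubgroup.mem_sup_left (AddSubgroup.add_mem_sup (neg_mem h1) h2)
  obtain ⟨Ak, hAk⟩ : ∃ Ak : κ → Finset G, ∀ k g, g ∈ Ak k ↔ g ∈ A ∧
      g - x k ∈ AddSubgroup.zmultiples (l k) := ⟨fun k => A.filter fun g =>
        g - x k ∈ AddSubgroup.zmultiples (l k), fun k g => mem_filter⟩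
  have hAkc : ∀ k, #(Ak k) + s k = 2 ^ a := by
    intro k
    rw [← hs k]
    congr 2
    ext g
    rw [hAk, mem_filter]
  obtain ⟨fF, hfFd⟩ : ∃ fF : Finset G, fF = F.image f := ⟨_, rfl⟩
  have hfFc : #fF = #F := by rw [hfFd]; exact card_image_of_injOn hf
  obtain ⟨C, hC⟩ : ∃ C : κ → Finset G, ∀ k, C k = Ak k \ fF := ⟨_, fun k => rfl⟩
  have hC78 : ∀ k, 7 * 2 ^ a ≤ 8 * #(C k) := by
    intro k
    have h1 := le_card_sdiff fF (Ak k)
    have h2 := hAkc k
    have h3 := hsmall k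
    rw [hC]
    omega
  have hCt : 2 ^ a ≤ #(C t) + s t + ∑ e ∈ F, (if κe e = t then 1 else 0) := by
    have h1 : #(Ak t ∩ fF) ≤ ∑ e ∈ F, (if κe e = t then 1 else 0) := by
      rw [← card_filter]
      refine (card_le_card (t := (F.filter fun e => κe e = t).image f) ?_).trans card_image_le
      intro g hg
      rw [mem_inter, hAk, hfFd, mem_image] at hg
      obtain ⟨⟨_, h2⟩, e, he, rfl⟩ := hg
      rw [mem_image]
      exact ⟨e, mem_filter.2 ⟨he, hdis _ _ _ (hf' e he).2 h2⟩, rfl⟩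
    have h2 := card_sdiff_add_card_inter (Ak t) fF
    have h3 := hAkc t
    rw [hC]
    omega
  -- the numbers
  obtain ⟨σ, hσd⟩ : ∃ σ, σ = ∑ e ∈ F, 2 ^ (j e + 1) := ⟨_, rfl⟩
  obtain ⟨β, hβ⟩ : ∃ β : κ → ℕ, ∀ k, β k = 2 * ∑ e ∈ F, b e k := ⟨_, fun k => rfl⟩
  have hβs : ∑ k, β k + 2 * #F = σ := by
    simp only [hβ]
    rw [← mul_sum, sum_comm, sum_congr rfl hb, hσd, ← mul_add, card_eq_sum_ones,
      ← sum_add_distrib, mul_sum]
    refine sum_congr rfl fun e _ => ?_
    have : 1 ≤ 2 ^ j e := Nat.one_le_two_pow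
    rw [Nat.sub_add_cancel this, pow_succ']
  obtain ⟨B, hB⟩ : ∃ B : κ → ℕ, ∀ k, B k = β k + if k = t then 2 ^ a - σ else 0 :=
    ⟨_, fun k => rfl⟩
  rw [← hσd] at hσ hw
  have hBs : ∑ k, B k + 2 * #F = 2 ^ a := by
    simp only [hB]
    rw [sum_add_distrib, sum_ite_eq' univ t, if_pos (mem_univ _)]
    omega
  rw [sum_add_distrib, ← mul_sum, ← hβ] at hw
  have hβle : ∀ k, β k ≤ σ := by
    intro k
    have := single_le_sum (f := β) (fun _ _ => Nat.zero_le _) (mem_univ k)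
    omega
  have hBC : ∀ k, B k + 2 ≤ #(C k) := by
    intro k
    rw [hB]
    by_cases hk : k = t
    · rw [if_pos hk, hk]
      omega
    · rw [if_neg hk]
      have h1 := hβle k
      have h2 := hC78 k
      omega
  -- the relation
  have hrel : ∑ e ∈ F, e + ∑ e ∈ F, f e + ∑ k, B k • x k ∈
      Lb l B ⊔ AddSubgroup.zmultiples (l t) := by
    have h1 : ∑ e ∈ F, (e + f e + ∑ k, b e k • (2 • x k) - 2 ^ j e • (2 • x t)) ∈
        Lb l B ⊔ AddSubgroup.zmultiples (l t) := by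
      refine AddSubgroup.sum_mem _ fun e he => ?_
      refine sup_le_sup_right (Lb_mono fun k hk => ?_) _ (hp e he)
      rw [hB, hβ]
      have := single_le_sum (f := fun e => b e k) (fun _ _ => Nat.zero_le _) he
      omega
    have h2 : ∑ e ∈ F, ∑ k, b e k • (2 • x k) = ∑ k, β k • x k := by
      rw [sum_comm]
      refine sum_congr rfl fun k _ => ?_
      rw [hβ, mul_sum, sum_smul]
      exact sum_congr rfl fun e _ => by rw [smul_smul, mul_comm]
    have h3 : ∑ e ∈ F, 2 ^ j e • (2 • x t) = σ • x t := by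
      rw [hσd, sum_smul]
      exact sum_congr rfl fun e _ => by rw [smul_smul, pow_succ]
    have h4 : ∑ k, B k • x k = ∑ k, β k • x k + (2 ^ a - σ) • x t := by
      simp only [hB, add_smul]
      rw [sum_add_distrib]
      simp only [ite_smul, zero_smul]
      rw [sum_ite_eq' univ t, if_pos (mem_univ _)]
    have h5 : (2 ^ a - σ) • x t + σ • x t = 0 := by
      rw [← add_smul, Nat.sub_add_cancel (by omega)]
      exact hG.kill _
    rw [sum_sub_distrib, sum_add_distrib, sum_add_distrib, h2, h3] at h1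
    rw [h4, eq_neg_of_add_eq_zero_left h5, ← add_assoc, ← sub_eq_add_neg]
    exact h1
  obtain ⟨lam, hlam1, hlam2, hlam3⟩ := rep (neg_mem hrel)
  -- the parts
  have hparts : ∀ k, ∃ D ⊆ C k, #D = B k ∧ ∑ g ∈ D, g = B k • x k + lam k := by
    intro k
    by_cases hk : B k = 0
    · have hkt : k ≠ t := by
        rintro rfl
        rw [hB, if_pos rfl] at hk
        omega
      exact ⟨∅, empty_subset _, by rw [hk, card_empty], by
        rw [hk, hlam2 k hkt hk, sum_empty, zero_smul, zero_add]⟩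
    · have h2 : 2 ≤ B k := by
        rw [hB] at hk ⊢
        by_cases hkt : k = t
        · rw [if_pos hkt] at hk ⊢
          omega
        · rw [if_neg hkt] at hk ⊢
          rw [hβ] at hk ⊢
          omega
      refine nfc (x := x k) (by omega) (order hG (by omega) (h.hn k)) ?_ (hC78 k) h2 (hBC k) ?_
      · intro g hg
        rw [hC, mem_sdiff, hAk] at hg
        exact hg.1.2
      · rw [add_sub_cancel_left]
        exact hlam1 k
  choose D hD1 hD2 hD3 using hparts
  have hDA : ∀ k, ∀ g ∈ D k, g ∈ Ak k ∧ g ∉ fF := by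
    intro k g hg
    have := hD1 k hg
    rwa [hC, mem_sdiff] at this
  have hDd : ∀ k ∈ (univ : Finset κ), ∀ k' ∈ (univ : Finset κ), k ≠ k' →
      Disjoint (D k) (D k') := by
    intro k _ k' _ hkk
    rw [disjoint_left]
    intro g hg hg'
    exact hkk (hdis g k k' ((hAk _ _).1 (hDA k g hg).1).2 ((hAk _ _).1 (hDA k' g hg').1).2)
  have hFf : Disjoint F fF := by
    rw [disjoint_left]
    intro g hg hg'
    rw [hfFd, mem_image] at hg'
    obtain ⟨e, he, rfl⟩ := hg'
    exact hF _ hg _ (hf' e he).2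
  have hFD : Disjoint (F ∪ fF) (univ.biUnion D) := by
    rw [disjoint_left]
    intro g hg hg'
    rw [mem_biUnion] at hg'
    obtain ⟨k, _, hk⟩ := hg'
    have h1 := hDA k g hk
    rcases mem_union.1 hg with h2 | h2
    · exact hF g h2 k ((hAk _ _).1 h1.1).2
    · exact h1.2 h2
  refine ⟨F ∪ fF ∪ univ.biUnion D, ?_, ?_, ?_⟩
  · refine union_subset (union_subset hFA ?_) ?_
    · intro g hg
      rw [hfFd, mem_image] at hg
      obtain ⟨e, he, rfl⟩ := hg
      exact (hf' e he).1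
    · intro g hg
      rw [mem_biUnion] at hg
      obtain ⟨k, _, hk⟩ := hg
      exact ((hAk _ _).1 (hDA k g hk).1).1
  · rw [card_union_of_disjoint hFD, card_union_of_disjoint hFf, card_biUnion hDd, hfFc,
      sum_congr rfl fun k _ => hD2 k, ← hBs]
    ring
  · rw [sum_union hFD, sum_union hFf, sum_biUnion (fun k hk k' hk' => hDd k (mem_coe.1 hk) k'
      (mem_coe.1 hk')), sum_congr rfl fun k _ => hD3 k, sum_add_distrib, hlam3, hfFd,
      sum_image hf]
    abel

end Pool.Agent.Lib.MPa7239a.EX
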