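import Pool.Agent.Lib.MP_a7239a_co.EX.HVM
import Pool.Agent.Lib.MP_a7239a_co.EX.PATH
import Pool.Agent.Lib.MP_a7239a_co.EX.COMPN
import Pool.Agent.Lib.MP_a7239a_co.EX.ENDB
import Pool.Agent.Lib.MP_a7239a_co.GC.Defs

/-!
# folder EX: the end, exceptional elements (ENDE)
-/

set_option autoImplicit false

universe u v w

open Finset

namespace Pool.Agent.Lib.MPa7239a.EX

open Pool.Agent.Lib.MPa7239a.GC (Hit)

variable {G : Type u} [AddCommGroup G] {a r : ℕ}


namespace ENDEM

/-- the classes do not meet -/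
theorem dis_mem {κ : Type w} {x l : κ → G} (h : Hv 0 x l) {g : G} {k k' : κ}
    (h1 : g - x k ∈ AddSubgroup.zmultiples (l k)) (h2 : g - x k' ∈ AddSubgroup.zmultiples (l k')) :
    k = k' := by
  apply h.dis
  unfold Meet
  have h3 : x k - x k' = (g - x k') + -(g - x k) := by abel
  rw [h3]
  refine AddSubgroup.mem_sup_left (add_mem (AddSubgroup.mem_sup_right h2)
    (neg_mem (AddSubgroup.mem_sup_left h1)))

open Classical in
/-- the number of exceptional elements -/
theorem card_exc {κ : Type w} [Fintype κ] {x l : κ → G} (h : Hv 0 x l) (A : Finset G) (s : κ → ℕ)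
    (hs : ∀ k, #(A.filter fun g => g - x k ∈ AddSubgroup.zmultiples (l k)) + s k = 2 ^ a)
    (hA : Fintype.card κ * 2 ^ a + 1 ≤ #A) :
    ∑ k, s k + 1 ≤ #(A.filter fun g => ∀ k, g - x k ∉ AddSubgroup.zmultiples (l k)) := by
  have h1 : A = (univ.biUnion fun k => A.filter fun g => g - x k ∈ AddSubgroup.zmultiples (l k)) ∪
      A.filter fun g => ∀ k, g - x k ∉ AddSubgroup.zmultiples (l k) := by
    ext g
    rw [mem_union, mem_biUnion, mem_filter]
    constructor
    · intro hg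
      by_cases hh : ∀ k, g - x k ∉ AddSubgroup.zmultiples (l k)
      · exact Or.inr ⟨hg, hh⟩
      · push Not at hh
        obtain ⟨k, hk⟩ := hh
        exact Or.inl ⟨k, mem_univ _, mem_filter.2 ⟨hg, hk⟩⟩
    · rintro (⟨k, _, hk⟩ | hg)
      · exact (mem_filter.1 hk).1
      · exact hg.1
  have h2 : #A ≤ ∑ k, #(A.filter fun g => g - x k ∈ AddSubgroup.zmultiples (l k)) +
      #(A.filter fun g => ∀ k, g - x k ∉ AddSubgroup.zmultiples (l k)) := by
    conv_lhs => rw [h1]
    exact (card_union_le _ _).trans (Nat.add_le_add_right card_biUnion_le _)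
  have h3 : ∑ k, #(A.filter fun g => g - x k ∈ AddSubgroup.zmultiples (l k)) + ∑ k, s k
      = Fintype.card κ * 2 ^ a := by
    rw [← sum_add_distrib, sum_congr rfl fun k _ => hs k, sum_const, card_univ, smul_eq_mul]
  omega

theorem Lb_two {κ : Type w} (l : κ → G) (b : κ → ℕ) : Lb (fun k => 2 • l k) b ≤ Lb l b := by
  unfold Lb
  refine iSup_mono fun k => iSup_mono fun _ => ?_
  rw [AddSubgroup.zmultiples_le]
  exact AddSubgroup.nsmul_mem _ (AddSubgroup.mem_zmultiples _) 2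

/-- choice of few exceptional elements with enough weight -/
theorem fmin0 {α : Type u} (E : Finset α) (w σ : α → ℕ) {s q : ℕ} (hs : 16 * (s + 1) ≤ q)
    (hw : ∀ e ∈ E, σ e ≤ 2 * w e) (hσ : ∀ e ∈ E, 2 * σ e ≤ q) (hE : s + 1 ≤ ∑ e ∈ E, w e) :
    ∃ F ⊆ E, s + 1 ≤ ∑ e ∈ F, w e ∧ 2 * ∑ e ∈ F, σ e ≤ q := by
  classical
  obtain ⟨F, hF, hmin⟩ := exists_min_image (E.powerset.filter fun F => s + 1 ≤ ∑ e ∈ F, w e) card
    ⟨E, mem_filter.2 ⟨mem_powerset.2 (Subset.refl E), hE⟩⟩
  rw [mem_filter, mem_powerset] at hF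
  obtain ⟨hFE, hFw⟩ := hF
  have hne : F.Nonempty := by
    rw [nonempty_iff_ne_empty]
    intro h
    rw [h, sum_empty] at hFw
    omega
  have hrem : ∀ e ∈ F, ∑ x ∈ F.erase e, w x ≤ s := by
    intro e he
    by_contra hcon
    have h1 := hmin (F.erase e) (mem_filter.2
      ⟨mem_powerset.2 ((erase_subset e F).trans hFE), by omega⟩)
    have h2 := card_erase_lt_of_mem he
    omega
  refine ⟨F, hFE, hFw, ?_⟩
  obtain ⟨e, he, hemin⟩ := exists_min_image F w hne
  rcases (F.erase e).eq_empty_or_nonempty with h0 | ⟨e', he'⟩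
  · rw [← sum_erase_add _ _ he, h0, sum_empty, zero_add]
    exact hσ e (hFE he)
  · have h1 : w e ≤ w e' := hemin e' (mem_of_mem_erase he')
    have h2 : w e' ≤ ∑ x ∈ F.erase e, w x :=
      single_le_sum (f := w) (fun _ _ => Nat.zero_le _) he'
    have h3 := hrem e he
    have h4 : ∑ x ∈ F, σ x ≤ 2 * ∑ x ∈ F, w x := by
      rw [mul_sum]
      exact sum_le_sum fun x hx => hw x (hFE hx)
    have h5 : ∑ x ∈ F, w x = ∑ x ∈ F.erase e, w x + w e := (sum_erase_add _ _ he).symm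
    omega

end ENDEM

open ENDEM in
open Classical in
/-- ENDE -/
theorem ende [Finite G] (hG : Homo G a r) (ha : 10 ≤ a) {κ : Type w} [Fintype κ] {x l : κ → G}
    (h : Hv 0 x l) (A : Finset G) (s : κ → ℕ)
    (hs : ∀ k, #(A.filter fun g => g - x k ∈ AddSubgroup.zmultiples (l k)) + s k = 2 ^ a)
    (hsmall : 64 * (∑ k, s k + 2) ≤ 2 ^ a) (hA : Fintype.card κ * 2 ^ a + 1 ≤ #A) :
    Hit A (2 ^ a) 0 := by
  have hE := card_exc h A s hs hA
  obtain ⟨E, hEsub, hEcard⟩ := exists_subset_card_eq hE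
  have hEA : ∀ e ∈ E, e ∈ A := fun e he => (mem_filter.1 (hEsub he)).1
  have hEx : ∀ e ∈ E, ∀ k, e - x k ∉ AddSubgroup.zmultiples (l k) :=
    fun e he => (mem_filter.1 (hEsub he)).2
  have hsk : ∀ k, s k ≤ ∑ k, s k := fun k =>
    single_le_sum (f := s) (fun _ _ => Nat.zero_le _) (mem_univ k)
  have hpow : 2 ^ a = 2 * 2 ^ (a - 1) := by
    rw [← pow_succ', Nat.sub_add_cancel (by omega)]
  obtain ⟨f, κe, hf, hfe⟩ := compn hG (by omega) h A E (fun k => by
    have h1 := hs k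
    have h2 := hsk k
    omega)
  have hv1 := hv_up hG (i := 0) (by omega) h
  -- paths
  have hpath : ∀ e, ∃ (j : ℕ) (t : κ) (b : κ → ℕ), e ∈ E → (1 + j < a ∧ ∑ k, b k = 2 ^ j - 1 ∧
      (j = 0 ∨ b t + 1 ≤ 2 ^ (j - 1)) ∧
      e + f e + ∑ k, b k • (2 • x k) - 2 ^ j • (2 • x t) ∈
        ⊥ ⊔ Lb (fun k => 2 • l k) b ⊔ AddSubgroup.zmultiples (2 • l t)) := by
    intro e
    by_cases he : e ∈ E
    · obtain ⟨j, t, b, h1, h2, h3, h4⟩ := path hG (i := 1) (by omega) hv1 ⊥ (e + f e) (hfe e he).2.2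
      exact ⟨j, t, b, fun _ => ⟨h1, h2, h3, h4⟩⟩
    · exact ⟨0, κe e, fun _ => 0, fun h' => absurd h' he⟩
  choose j t b hp using hpath
  -- weights
  have hj0 : ∀ e ∈ E, j e = 0 → κe e ≠ t e ∧ b e (t e) = 0 := by
    intro e he hj
    obtain ⟨_, h2, _, h4⟩ := hp e he
    rw [hj, pow_zero, Nat.sub_self] at h2
    have hb0 : ∀ k, b e k = 0 := fun k => (sum_eq_zero_iff.1 h2) k (mem_univ k)
    refine ⟨fun hk => hEx e he (t e) ?_, hb0 _⟩
    have hL : Lb (fun k => 2 • l k) (b e) = ⊥ := by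
      unfold Lb
      rw [iSup_eq_bot]
      intro k
      rw [iSup_eq_bot]
      intro hk'
      exact absurd (hb0 k) hk'
    rw [hL, bot_sup_eq, bot_sup_eq, hj, pow_zero, one_smul] at h4
    have hz : ∑ k, b e k • (2 • x k) = 0 := sum_eq_zero fun k _ => by rw [hb0 k, zero_smul]
    rw [hz, add_zero] at h4
    have h5 : e + f e - 2 • x (t e) ∈ AddSubgroup.zmultiples (l (t e)) := by
      have : AddSubgroup.zmultiples (2 • l (t e)) ≤ AddSubgroup.zmultiples (l (t e)) := by
        rw [AddSubgroup.zmultiples_le]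
        exact AddSubgroup.nsmul_mem _ (AddSubgroup.mem_zmultiples _) 2
      exact this h4
    have h6 := (hfe e he).2.1
    rw [hk] at h6
    have h7 : e - x (t e) = (e + f e - 2 • x (t e)) - (f e - x (t e)) := by
      rw [two_smul]
      abel
    rw [h7]
    exact sub_mem h5 h6
  let c : G → ℕ := fun e => 2 * b e (t e) + if κe e = t e then 1 else 0
  have hc2 : ∀ e ∈ E, c e + 2 ≤ 2 ^ (j e + 1) ∧ 2 ^ (j e + 1) ≤ 2 * (2 ^ (j e + 1) - c e) := by
    intro e he
    have h3 := (hp e he).2.2.1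
    rcases Nat.eq_zero_or_pos (j e) with hj | hj
    · obtain ⟨h4, h5⟩ := hj0 e he hj
      have h6 : c e = 0 := by
        simp only [c]
        rw [h5, if_neg h4]
      rw [h6, hj]
      norm_num
    · have h4 : b e (t e) + 1 ≤ 2 ^ (j e - 1) := by
        rcases h3 with h3 | h3
        · omega
        · exact h3
      have h5 : 2 ^ (j e + 1) = 4 * 2 ^ (j e - 1) := by
        rw [show j e + 1 = (j e - 1) + 2 by omega, pow_add]
        ring
      have h6 : c e ≤ 2 * b e (t e) + 1 := by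
        simp only [c]
        split_ifs <;> omega
      omega
  -- the common destination
  obtain ⟨t₀, ht₀⟩ : ∃ t₀, s t₀ < #(E.filter fun e => t e = t₀) := by
    by_contra hcon
    push Not at hcon
    have h1 : #E = ∑ k, #(E.filter fun e => t e = k) :=
      card_eq_sum_card_fiberwise fun _ _ => mem_coe.2 (mem_univ _)
    have h2 : ∑ k, #(E.filter fun e => t e = k) ≤ ∑ k, s k := sum_le_sum fun k _ => hcon k
    omega
  have hw : s t₀ + 1 + 1 ≤ ∑ e ∈ E.filter (fun e => t e = t₀), (2 ^ (j e + 1) - c e) := by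
    have h1 : ∑ e ∈ E.filter (fun e => t e = t₀), 2
        ≤ ∑ e ∈ E.filter (fun e => t e = t₀), (2 ^ (j e + 1) - c e) := by
      refine sum_le_sum fun e he => ?_
      have := (hc2 e (mem_filter.1 he).1).1
      omega
    rw [sum_const, smul_eq_mul] at h1
    omega
  have hst := hsk t₀
  obtain ⟨F, hFsub, hF1, hF2⟩ := fmin0 (E.filter fun e => t e = t₀)
    (fun e => 2 ^ (j e + 1) - c e) (fun e => 2 ^ (j e + 1)) (s := s t₀ + 1) (q := 2 ^ a)
    (by omega) (fun e he => (hc2 e (mem_filter.1 he).1).2) (fun e he => by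
      have h1 := (hp e (mem_filter.1 he).1).1
      rw [← pow_succ']
      exact Nat.pow_le_pow_right (by norm_num) (by omega)) hw
  have hFE : ∀ e ∈ F, e ∈ E := fun e he => (mem_filter.1 (hFsub he)).1
  have hFt : ∀ e ∈ F, t e = t₀ := fun e he => (mem_filter.1 (hFsub he)).2
  have hFcard : #F ≤ ∑ k, s k + 1 := by
    rw [← hEcard]
    exact card_le_card fun e he => hFE e he
  refine endb hG ha h A s hs F (fun e he => hEA e (hFE e he)) (fun e he => hEx e (hFE e he)) f κe
    (hf.mono fun e he => mem_coe.2 (hFE e (mem_coe.1 he)))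
    (fun e he => ⟨(hfe e (hFE e he)).1, (hfe e (hFE e he)).2.1⟩) t₀ j b
    (fun e he => (hp e (hFE e he)).2.1) ?_ hF2 ?_ ?_
  · intro e he
    have h4 := (hp e (hFE e he)).2.2.2
    rw [hFt e he, bot_sup_eq] at h4
    refine (sup_le_sup (Lb_two l (b e)) ?_) h4
    rw [AddSubgroup.zmultiples_le]
    exact AddSubgroup.nsmul_mem _ (AddSubgroup.mem_zmultiples _) 2
  · have h1 : ∑ e ∈ F, (2 ^ (j e + 1) - c e) + ∑ e ∈ F, c e = ∑ e ∈ F, 2 ^ (j e + 1) := by
      rw [← sum_add_distrib]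
      refine sum_congr rfl fun e he => ?_
      have := (hc2 e (hFE e he)).1
      omega
    have h2 : ∑ e ∈ F, (2 * b e t₀ + if κe e = t₀ then 1 else 0) = ∑ e ∈ F, c e := by
      refine sum_congr rfl fun e he => ?_
      simp only [c]
      rw [hFt e he]
    rw [h2]
    omega
  · intro k
    have h1 := hsk k
    omega

end Pool.Agent.Lib.MPa7239a.EX
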