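import Pool.Agent.Lib.MP_a7239a_co.EX.PATH
import Pool.Agent.Lib.MP_a7239a_co.EX.HVM
import Pool.Agent.Lib.MP_a7239a_co.EX.COMPN
import Pool.Agent.Lib.MP_a7239a_co.EX.IMPR
import Pool.Agent.Lib.MP_a7239a_co.EX.ENDB

/-!
# EX, module ENDI: the inverse theorem near the structure
-/

set_option autoImplicit false

universe u v w

open Finset

namespace Pool.Agent.Lib.MPa7239a.EX

open Pool.Agent.Lib.MPa7239a.GC (Hit)

namespace ENDIM

variable {G : Type u} [AddCommGroup G] {a r : ℕ}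

open Classical in
/-- the number of elements of class `t` which an exceptional element replaces -/
noncomputable def wt {κ : Type w} (κe : G → κ) (t : κ) (j : G → ℕ) (b : G → κ → ℕ) (e : G) : ℕ :=
  2 ^ (j e + 1) - (2 * b e t + if κe e = t then 1 else 0)

omit [AddCommGroup G] in
theorem wt_spec {κ : Type w} [Fintype κ] {κe : G → κ} {t : κ} {j : G → ℕ} {b : G → κ → ℕ} {e : G}
    (hb : ∑ k, b e k = 2 ^ j e - 1) (hbt : j e = 0 ∨ b e t + 1 ≤ 2 ^ (j e - 1)) :
    2 ^ (j e + 1) ≤ 2 * wt κe t j b e ∧ (1 ≤ j e → 3 ≤ wt κe t j b e) ∧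
    (j e = 0 → κe e ≠ t → wt κe t j b e = 2) := by
  classical
  have h0 : (if κe e = t then 1 else 0) ≤ 1 := by split_ifs <;> omega
  unfold wt
  rcases Nat.eq_zero_or_pos (j e) with hj | hj
  · have h1 : b e t ≤ ∑ k, b e k := single_le_sum (fun _ _ => Nat.zero_le _) (mem_univ t)
    rw [hb, hj, pow_zero] at h1
    have h2 : b e t = 0 := by omega
    rw [hj, h2]
    refine ⟨by omega, fun h => absurd h (by omega), fun _ hne => ?_⟩
    rw [if_neg hne]
    rfl
  · have h1 : b e t + 1 ≤ 2 ^ (j e - 1) := hbt.resolve_left (by omega)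
    have h2 : 2 ^ (j e + 1) = 4 * 2 ^ (j e - 1) := by
      rw [show j e + 1 = 2 + (j e - 1) by omega, pow_add]
      norm_num
    rw [h2]
    refine ⟨by omega, fun _ => by omega, fun h => absurd h (by omega)⟩

open Classical in
/-- the weight argument for one destination -/
theorem core [Finite G] (hG : Homo G a r) (ha : 10 ≤ a) {κ : Type w} [Fintype κ] {x l : κ → G}
    (h : Hv 0 x l) (A : Finset G) (s : κ → ℕ)
    (hs : ∀ k, #(A.filter fun g => g - x k ∈ AddSubgroup.zmultiples (l k)) + s k = 2 ^ a)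
    (hsmall : 64 * (∑ k, s k + 2) ≤ 2 ^ a)
    (E : Finset G) (hEA : E ⊆ A) (hE : ∀ e ∈ E, ∀ k, e - x k ∉ AddSubgroup.zmultiples (l k))
    (hEc : #E ≤ ∑ k, s k + 1) (f : G → G) (κe : G → κ) (hf : Set.InjOn f E)
    (hf' : ∀ e ∈ E, f e ∈ A ∧ f e - x (κe e) ∈ AddSubgroup.zmultiples (l (κe e)))
    (t : κ) (j : G → ℕ) (b : G → κ → ℕ) (hj : ∀ e ∈ E, 1 + j e < a)
    (hb : ∀ e ∈ E, ∑ k, b e k = 2 ^ j e - 1)
    (hbt : ∀ e ∈ E, j e = 0 ∨ b e t + 1 ≤ 2 ^ (j e - 1))
    (hp : ∀ e ∈ E, e + f e + ∑ k, b e k • (2 • x k) - 2 ^ j e • (2 • x t) ∈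
      Lb l (b e) ⊔ AddSubgroup.zmultiples (l t))
    (hw : s t + 2 ≤ ∑ e ∈ E, wt κe t j b e) : Hit A (2 ^ a) 0 := by
  have hst : ∀ k, s k ≤ ∑ k, s k := fun k => single_le_sum (fun _ _ => Nat.zero_le _) (mem_univ k)
  have ht := hst t
  obtain ⟨F, hFE, hF1, hF2, -⟩ := fmin E (wt κe t j b) (fun e => 2 ^ (j e + 1)) (s := s t + 1)
    (q := 2 ^ a) (by omega) (fun e he => (wt_spec (hb e he) (hbt e he)).1) (fun e he => by
      have h1 := hj e he
      calc 2 * 2 ^ (j e + 1) = 2 ^ (j e + 1 + 1) := by rw [pow_succ' 2 (j e + 1)]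
        _ ≤ 2 ^ a := Nat.pow_le_pow_right (by norm_num) (by omega)) hw
  have hFc : #F ≤ #E := card_le_card hFE
  refine endb hG ha h A s hs F (hFE.trans hEA) (fun e he => hE e (hFE he)) f κe
    (hf.mono (by exact_mod_cast hFE)) (fun e he => hf' e (hFE he)) t j b
    (fun e he => hb e (hFE he)) (fun e he => hp e (hFE he)) hF2 ?_ (fun k => ?_)
  · have h1 : ∑ e ∈ F, wt κe t j b e + ∑ e ∈ F, (2 * b e t + if κe e = t then 1 else 0) =
        ∑ e ∈ F, 2 ^ (j e + 1) := by
      rw [← sum_add_distrib]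
      refine sum_congr rfl fun e he => ?_
      have h2 := (wt_spec (κe := κe) (hb e (hFE he)) (hbt e (hFE he))).1
      have h3 : 0 < 2 ^ (j e + 1) := by positivity
      unfold wt at h2 ⊢
      omega
    omega
  · have := hst k
    omega

open Classical in
/-- one exceptional element which forms a pair with two elements -/
theorem endc [Finite G] (hG : Homo G a r) (ha : 2 ≤ a) (A : Finset G) {x l : G}
    (hl : Nat.card (AddSubgroup.zmultiples l) = 2 ^ a)
    (hs : #(A.filter fun g => g - x ∈ AddSubgroup.zmultiples l) + 1 = 2 ^ a) {e c c' : G}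
    (he : e ∈ A) (hc : c ∈ A) (hc' : c' ∈ A) (hec : e ≠ c) (hec' : e ≠ c') (hcc : c ≠ c')
    (he' : e - x ∉ AddSubgroup.zmultiples l) (h1 : c - x ∉ AddSubgroup.zmultiples l)
    (h2 : c' - x ∉ AddSubgroup.zmultiples l)
    (h3 : e + c - 2 • x ∈ AddSubgroup.zmultiples l)
    (h4 : e + c' - 2 • x ∈ AddSubgroup.zmultiples l) : Hit A (2 ^ a) 0 := by
  have : Fintype G := Fintype.ofFinite G
  set B := A.filter fun g => g - x ∈ AddSubgroup.zmultiples l with hB
  set D : Finset G := univ.filter fun g => g - x ∈ AddSubgroup.zmultiples l with hD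
  have hDc : #D = 2 ^ a := by
    rw [← hl, Nat.card_eq_fintype_card, ← card_univ]
    symm
    refine card_bij (fun g _ => (g : G) + x) (fun g _ => ?_) (fun g _ g' _ hg => ?_) (fun g hg => ?_)
    · rw [hD, mem_filter]
      exact ⟨mem_univ _, by rw [add_sub_cancel_right]; exact g.2⟩
    · exact Subtype.ext (add_right_cancel hg)
    · exact ⟨⟨g - x, (mem_filter.1 hg).2⟩, mem_univ _, sub_add_cancel g x⟩
  have hBD : B ⊆ D := fun g hg => mem_filter.2 ⟨mem_univ _, (mem_filter.1 hg).2⟩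
  -- one of the two sums is available
  have key : ∀ y, y ∈ A → e ≠ y → y - x ∉ AddSubgroup.zmultiples l →
      e + y - 2 • x ∈ AddSubgroup.zmultiples l → e + y + ∑ g ∈ B, g ∈ B → Hit A (2 ^ a) 0 := by
    intro y hy hey hyx hexy hmem
    have h5 : e ∉ B := fun h => he' (mem_filter.1 h).2
    have h6 : y ∉ B := fun h => hyx (mem_filter.1 h).2
    refine ⟨insert e (insert y (B.erase (e + y + ∑ g ∈ B, g))), ?_, ?_, ?_⟩
    · intro g hg
      rcases mem_insert.1 hg with rfl | hg
      · exact he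
      · rcases mem_insert.1 hg with rfl | hg
        · exact hy
        · exact (mem_filter.1 (mem_of_mem_erase hg)).1
    · rw [card_insert_of_notMem, card_insert_of_notMem, card_erase_of_mem hmem]
      · have : 4 ≤ 2 ^ a := by
          calc 4 = 2 ^ 2 := rfl
            _ ≤ 2 ^ a := Nat.pow_le_pow_right (by norm_num) ha
        omega
      · exact fun h => h6 (mem_of_mem_erase h)
      · intro h
        rcases mem_insert.1 h with h | h
        · exact hey h
        · exact h5 (mem_of_mem_erase h)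
    · rw [sum_insert, sum_insert]
      · have h7 := sum_erase_add B (fun g : G => g) hmem
        simp only at h7
        have h8 : ∑ g ∈ B.erase (e + y + ∑ g ∈ B, g), g = ∑ g ∈ B, g - (e + y + ∑ g ∈ B, g) :=
          eq_sub_of_add_eq h7
        rw [h8]
        abel
      · exact fun h => h6 (mem_of_mem_erase h)
      · intro h
        rcases mem_insert.1 h with h | h
        · exact hey h
        · exact h5 (mem_of_mem_erase h)
  have hin : ∀ y, e + y - 2 • x ∈ AddSubgroup.zmultiples l → e + y + ∑ g ∈ B, g ∈ D := by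
    intro y hy
    rw [hD, mem_filter]
    refine ⟨mem_univ _, ?_⟩
    have h5 : ∑ g ∈ B, g - #B • x ∈ AddSubgroup.zmultiples l := by
      rw [← sum_const, ← sum_sub_distrib]
      exact AddSubgroup.sum_mem _ fun g hg => (mem_filter.1 hg).2
    have h6 : e + y + ∑ g ∈ B, g - x = (e + y - 2 • x) + (∑ g ∈ B, g - #B • x) + (#B + 1) • x := by
      rw [add_smul, one_smul, two_smul]
      abel
    rw [h6, hs, hG.kill, add_zero]
    exact AddSubgroup.add_mem _ hy h5
  by_cases hb1 : e + c + ∑ g ∈ B, g ∈ B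
  · exact key c hc hec h1 h3 hb1
  by_cases hb2 : e + c' + ∑ g ∈ B, g ∈ B
  · exact key c' hc' hec' h2 h4 hb2
  exfalso
  have h5 : ({e + c + ∑ g ∈ B, g, e + c' + ∑ g ∈ B, g} : Finset G) ⊆ D \ B := by
    intro g hg
    rw [mem_sdiff]
    rcases mem_insert.1 hg with rfl | hg
    · exact ⟨hin c h3, hb1⟩
    · rw [mem_singleton.1 hg]
      exact ⟨hin c' h4, hb2⟩
  have h6 := card_le_card h5
  rw [card_pair, card_sdiff_of_subset hBD] at h6
  · omega
  · intro h
    exact hcc (add_left_cancel (add_right_cancel h))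

theorem class_of {κ : Type w} {x l : κ → G} (h : Hv 0 x l) {c : G} {k k' : κ}
    (h1 : c - x k ∈ AddSubgroup.zmultiples (l k)) (h2 : c - x k' ∈ AddSubgroup.zmultiples (l k')) :
    k = k' := by
  refine h.dis k k' ?_
  show x k - x k' ∈ _
  have h3 : x k - x k' = (c - x k') - (c - x k) := by abel
  rw [h3]
  refine AddSubgroup.sub_mem _ ?_ ?_
  · exact AddSubgroup.mem_sup_left (AddSubgroup.mem_sup_right h2)
  · exact AddSubgroup.mem_sup_left (AddSubgroup.mem_sup_left h1)

theorem mul_mem {z l : G} (u : ℤ) (hz : z = u • l) : z ∈ AddSubgroup.zmultiples l := by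
  rw [hz]
  exact AddSubgroup.zsmul_mem_zmultiples l u

theorem zsmul_two {i : ℕ} {l : G} (hl : l ∈ V G i) {u : ℤ} (hu : Even u) : u • l ∈ V G (i + 1) := by
  obtain ⟨w, rfl⟩ := hu
  rw [← two_mul, mul_comm, mul_smul]
  refine AddSubgroup.zsmul_mem _ ?_ w
  have h1 := two_mem hl
  rw [← natCast_zsmul] at h1
  exact h1

open Classical in
/-- companions of one element -/
theorem many [Finite G] (ha : 1 ≤ a) (A : Finset G) {x l : G}
    (hlc : Nat.card (AddSubgroup.zmultiples l) = 2 ^ a) {e : G}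
    (he : e - x ∈ AddSubgroup.zmultiples l ⊔ V G 1) :
    #(A.filter fun g => g - x ∈ AddSubgroup.zmultiples l) ≤
      #(A.filter fun g => g - x ∈ AddSubgroup.zmultiples l ∧ e + g ∈ V G 1) + 2 ^ (a - 1) := by
  have : Fintype G := Fintype.ofFinite G
  set D : Finset G := univ.filter fun g => g - x ∈ AddSubgroup.zmultiples l with hD
  have hDc : #D = 2 ^ a := by
    rw [← hlc, Nat.card_eq_fintype_card, ← card_univ]
    symm
    refine card_bij (fun g _ => (g : G) + x) (fun g _ => ?_) (fun g _ g' _ hg => ?_) (fun g hg => ?_)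
    · rw [hD, mem_filter]
      exact ⟨mem_univ _, by rw [add_sub_cancel_right]; exact g.2⟩
    · exact Subtype.ext (add_right_cancel hg)
    · exact ⟨⟨g - x, (mem_filter.1 hg).2⟩, mem_univ _, sub_add_cancel g x⟩
  have h0 : ∀ z : G, z ∈ V G 0 := fun z => by rw [V_zero]; exact AddSubgroup.mem_top z
  have h1 : #(D.filter fun g => ¬ e + g ∈ V G 1) ≤ #(D.filter fun g => e + g ∈ V G 1) := by
    refine card_le_card_of_injOn (fun g => g + l) (fun g hg => ?_) (fun g _ g' _ h => add_right_cancel h)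
    obtain ⟨hg1, hg2⟩ := mem_filter.1 (mem_coe.1 hg)
    have hg1 := (mem_filter.1 hg1).2
    refine mem_coe.2 (mem_filter.2 ⟨mem_filter.2 ⟨mem_univ _, ?_⟩, ?_⟩)
    · have h2 : g + l - x = (g - x) + l := by abel
      rw [h2]
      exact AddSubgroup.add_mem _ hg1 (AddSubgroup.mem_zmultiples l)
    · obtain ⟨y, hy, v, hv, hyv⟩ := AddSubgroup.mem_sup.1 he
      obtain ⟨u, hu⟩ := AddSubgroup.mem_zmultiples_iff.1 (AddSubgroup.add_mem _ hy hg1)
      have h2 : e + g = u • l + (v + 2 • x) := by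
        rw [hu, two_smul]
        have : e = y + v + x := by rw [hyv]; abel
        rw [this]
        abel
      have h3 : v + 2 • x ∈ V G 1 := AddSubgroup.add_mem _ hv (two_mem (h0 x))
      rcases Int.even_or_odd u with hu' | hu'
      · exact absurd (by rw [h2]; exact AddSubgroup.add_mem _ (zsmul_two (h0 l) hu') h3) hg2
      · have h4 : e + (g + l) = (u + 1) • l + (v + 2 • x) := by
          rw [← add_assoc, h2, add_smul, one_smul]
          abel
        rw [h4]
        exact AddSubgroup.add_mem _ (zsmul_two (h0 l) hu'.add_one) h3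
  have h2 := card_filter_add_card_filter_not (s := D) (fun g => e + g ∈ V G 1)
  have h3 : 2 ^ a = 2 * 2 ^ (a - 1) := by
    rw [← pow_succ', Nat.sub_add_cancel ha]
  have h4 : #(A.filter fun g => g - x ∈ AddSubgroup.zmultiples l) ≤
      #(A.filter fun g => g - x ∈ AddSubgroup.zmultiples l ∧ e + g ∈ V G 1) +
      #(D.filter fun g => ¬ e + g ∈ V G 1) := by
    rw [← card_filter_add_card_filter_not (s := A.filter fun g => g - x ∈ AddSubgroup.zmultiples l)
      (fun g => e + g ∈ V G 1)]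
    refine add_le_add (card_le_card fun g hg => ?_) (card_le_card fun g hg => ?_)
    · obtain ⟨hg1, hg2⟩ := mem_filter.1 hg
      obtain ⟨hg1, hg3⟩ := mem_filter.1 hg1
      exact mem_filter.2 ⟨hg1, hg3, hg2⟩
    · obtain ⟨hg1, hg2⟩ := mem_filter.1 hg
      obtain ⟨hg1, hg3⟩ := mem_filter.1 hg1
      exact mem_filter.2 ⟨mem_filter.2 ⟨mem_univ _, hg3⟩, hg2⟩
  omega

theorem pathw (hG : Homo G a r) (ha : 2 ≤ a) {κ : Type w} [Fintype κ] {x l : κ → G}
    (h : Hv 0 x l) {z : G} (hz : z ∈ V G 1) :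
    ∃ (j : ℕ) (t : κ) (b : κ → ℕ), 1 + j < a ∧ ∑ k, b k = 2 ^ j - 1 ∧
      (j = 0 ∨ b t + 1 ≤ 2 ^ (j - 1)) ∧
      z + ∑ k, b k • (2 • x k) - 2 ^ j • (2 • x t) ∈ Lb l b ⊔ AddSubgroup.zmultiples (l t) := by
  obtain ⟨j, t, b, h1, h2, h3, h4⟩ := path hG (i := 1) (by omega)
    (hv_up hG (i := 0) (by omega) h) ⊥ z hz
  refine ⟨j, t, b, h1, h2, h3, ?_⟩
  have h5 : ∀ k, AddSubgroup.zmultiples (2 • l k) ≤ AddSubgroup.zmultiples (l k) := fun k => by
    rw [AddSubgroup.zmultiples_le]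
    exact AddSubgroup.nsmul_mem _ (AddSubgroup.mem_zmultiples (l k)) 2
  refine (sup_le (sup_le bot_le ?_) ?_ : ⊥ ⊔ Lb (fun k => 2 • l k) b ⊔
    AddSubgroup.zmultiples ((fun k => 2 • l k) t) ≤ Lb l b ⊔ AddSubgroup.zmultiples (l t)) h4
  · refine le_trans (iSup_mono fun k => iSup_mono fun _ => h5 k) le_sup_left
  · exact (h5 t).trans le_sup_right

theorem pathz {κ : Type w} [Fintype κ] {x l : κ → G} {z : G} {t : κ} {b : κ → ℕ}
    (hb : ∑ k, b k = 2 ^ 0 - 1)
    (h : z + ∑ k, b k • (2 • x k) - 2 ^ 0 • (2 • x t) ∈ Lb l b ⊔ AddSubgroup.zmultiples (l t)) :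
    z - 2 • x t ∈ AddSubgroup.zmultiples (l t) := by
  have h1 : ∀ k, b k = 0 := by
    intro k
    have : b k ≤ ∑ k, b k := single_le_sum (fun _ _ => Nat.zero_le _) (mem_univ k)
    rw [hb] at this
    simpa using this
  have h2 : Lb l b = ⊥ := by
    rw [eq_bot_iff]
    refine iSup_le fun k => iSup_le fun hk => absurd (h1 k) hk
  rw [h2, bot_sup_eq, sum_eq_zero (fun k _ => by rw [h1 k, zero_smul]), add_zero, pow_zero,
    one_smul] at h
  exact h

theorem wt_two {κ : Type w} [Fintype κ] {x l : κ → G} {e c : G} {k t : κ} {j : ℕ} {b : κ → ℕ}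
    (he : ∀ k, e - x k ∉ AddSubgroup.zmultiples (l k))
    (hc : c - x k ∈ AddSubgroup.zmultiples (l k)) (hb : ∑ k, b k = 2 ^ j - 1)
    (h : e + c + ∑ k, b k • (2 • x k) - 2 ^ j • (2 • x t) ∈ Lb l b ⊔ AddSubgroup.zmultiples (l t))
    (hj : j = 0) : k ≠ t := by
  rintro rfl
  subst hj
  have h1 := pathz hb h
  apply he k
  have h2 : e - x k = (e + c - 2 • x k) - (c - x k) := by
    rw [two_smul]
    abel
  rw [h2]
  exact AddSubgroup.sub_mem _ h1 hc

open Classical in
/-- near the structure: a set of extremal size without a hit has no exceptional elements -/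
theorem endi' [Finite G] (hG : Homo G a r) (ha : 10 ≤ a) {κ : Type w} [Fintype κ] {x l : κ → G}
    (h : Hv 0 x l) (A : Finset G) (s : κ → ℕ)
    (hs : ∀ k, #(A.filter fun g => g - x k ∈ AddSubgroup.zmultiples (l k)) + s k = 2 ^ a)
    (hlc : ∀ k, Nat.card (AddSubgroup.zmultiples (l k)) = 2 ^ a)
    (hsmall : 64 * (∑ k, s k + 2) ≤ 2 ^ a) (hN : ¬ Hit A (2 ^ a) 0)
    (hE0 : ∑ k, s k ≤ #(A.filter fun g => ∀ k, g - x k ∉ AddSubgroup.zmultiples (l k))) :
    #(A.filter fun g => ∀ k, g - x k ∉ AddSubgroup.zmultiples (l k)) = 0 := by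
  by_contra hne
  have hst : ∀ k, s k ≤ ∑ k, s k := fun k => single_le_sum (fun _ _ => Nat.zero_le _) (mem_univ k)
  set E := A.filter fun g => ∀ k, g - x k ∉ AddSubgroup.zmultiples (l k) with hE
  have h2a : 2 ^ a = 2 * 2 ^ (a - 1) := by
    rw [← pow_succ', Nat.sub_add_cancel (by omega)]
  obtain ⟨E', hE'E, hE'c⟩ := exists_subset_card_eq (s := E) (n := max 1 (∑ k, s k)) (by omega)
  have hE'A : ∀ e ∈ E', e ∈ A ∧ ∀ k, e - x k ∉ AddSubgroup.zmultiples (l k) := fun e he =>
    mem_filter.1 (hE'E he)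
  obtain ⟨f, κe, hf, hf'⟩ := compn hG (by omega) h A E' (fun k => by
    have h1 := hs k
    have h2 := hst k
    omega)
  -- destinations
  have hpath : ∀ e : G, ∃ (j : ℕ) (t : κ) (b : κ → ℕ), e ∈ E' → 1 + j < a ∧ ∑ k, b k = 2 ^ j - 1 ∧
      (j = 0 ∨ b t + 1 ≤ 2 ^ (j - 1)) ∧
      e + f e + ∑ k, b k • (2 • x k) - 2 ^ j • (2 • x t) ∈ Lb l b ⊔ AddSubgroup.zmultiples (l t) := by
    intro e
    by_cases he : e ∈ E'
    · obtain ⟨j, t, b, h1⟩ := pathw hG (by omega) h (hf' e he).2.2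
      exact ⟨j, t, b, fun _ => h1⟩
    · obtain ⟨k, -⟩ := h.cov 0 (AddSubgroup.zero_mem _)
      exact ⟨0, k, 0, fun h => absurd h he⟩
  choose j t b hp using hpath
  have hw : ∀ e ∈ E', 2 ≤ wt κe (t e) j b e := by
    intro e he
    obtain ⟨h1, h2, h3, h4⟩ := hp e he
    have h5 := wt_spec (κe := κe) h2 h3
    rcases Nat.eq_zero_or_pos (j e) with hj | hj
    · have h6 := h5.2.2 hj (wt_two (hE'A e he).2 (hf' e he).2.1 h2 h4 hj)
      omega
    · have h6 := h5.2.1 hj
      omega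
  have hle : ∀ t₀, 2 * #(E'.filter fun e => t e = t₀) ≤ s t₀ + 1 := by
    intro t₀
    by_contra hcon
    push Not at hcon
    apply hN
    refine core hG ha h A s hs hsmall (E'.filter fun e => t e = t₀)
      (fun e he => (hE'A e (mem_filter.1 he).1).1) (fun e he => (hE'A e (mem_filter.1 he).1).2)
      ((card_filter_le _ _).trans (by omega)) f κe
      (hf.mono (by exact_mod_cast filter_subset _ _))
      (fun e he => ⟨(hf' e (mem_filter.1 he).1).1, (hf' e (mem_filter.1 he).1).2.1⟩) t₀ j b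
      (fun e he => (hp e (mem_filter.1 he).1).1) (fun e he => (hp e (mem_filter.1 he).1).2.1)
      (fun e he => ?_) (fun e he => ?_) ?_
    · have h1 := (hp e (mem_filter.1 he).1).2.2.1
      rw [(mem_filter.1 he).2] at h1
      exact h1
    · have h1 := (hp e (mem_filter.1 he).1).2.2.2
      rw [(mem_filter.1 he).2] at h1
      exact h1
    · have h1 : #(E'.filter fun e => t e = t₀) * 2 ≤
          ∑ e ∈ E'.filter (fun e => t e = t₀), wt κe t₀ j b e := by
        rw [← smul_eq_mul, ← sum_const]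
        refine sum_le_sum fun e he => ?_
        have h2 := hw e (mem_filter.1 he).1
        rw [(mem_filter.1 he).2] at h2
        exact h2
      omega
  have hcount : #E' = ∑ t₀, #(E'.filter fun e => t e = t₀) :=
    card_eq_sum_card_fiberwise fun e _ => mem_coe.2 (mem_univ (t e))
  have hs1 : ∀ k, s k ≤ 1 := by
    intro k
    by_contra hk
    push Not at hk
    have h1 : ∑ t₀, #(E'.filter fun e => t e = t₀) < ∑ t₀, s t₀ := by
      refine sum_lt_sum (fun t₀ _ => ?_) ⟨k, mem_univ _, ?_⟩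
      · have := hle t₀
        omega
      · have := hle k
        omega
    omega
  -- one exceptional element
  obtain ⟨e, he⟩ : E'.Nonempty := card_pos.1 (by omega)
  obtain ⟨heA, heE⟩ := hE'A e he
  obtain ⟨k₀, hk₀⟩ := h.cov e (by rw [V_zero]; exact AddSubgroup.mem_top e)
  set S := A.filter fun g => g - x k₀ ∈ AddSubgroup.zmultiples (l k₀) ∧ e + g ∈ V G 1 with hS
  have hSc := many (by omega) A (hlc k₀) hk₀
  rw [← hS] at hSc
  have hdest : ∀ c : G, ∃ t : κ, c ∈ S → s t = 1 ∧ k₀ ≠ t ∧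
      e + c - 2 • x t ∈ AddSubgroup.zmultiples (l t) := by
    intro c
    by_cases hc : c ∈ S
    · obtain ⟨hcA, hck, hcV⟩ := mem_filter.1 hc
      obtain ⟨j, t, b, h1, h2, h3, h4⟩ := pathw hG (by omega) h hcV
      have h5 := wt_spec (κe := fun _ : G => k₀) (t := t) (j := fun _ => j) (b := fun _ => b)
        (e := e) h2 h3
      have h6 : wt (fun _ : G => k₀) t (fun _ => j) (fun _ => b) e ≤ s t + 1 := by
        by_contra hcon
        push Not at hcon
        apply hN
        refine core hG ha h A s hs hsmall {e} (singleton_subset_iff.2 heA)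
          (fun e' he' => by rw [mem_singleton.1 he']; exact heE) (by rw [card_singleton]; omega)
          (fun _ => c) (fun _ => k₀) (by rw [coe_singleton]; exact Set.injOn_singleton _ _)
          (fun _ _ => ⟨hcA, hck⟩) t (fun _ => j) (fun _ => b) (fun _ _ => h1) (fun _ _ => h2)
          (fun _ _ => h3) (fun e' he' => by rw [mem_singleton.1 he']; exact h4) ?_
        rw [sum_singleton]
        omega
      have h7 := hs1 t
      rcases Nat.eq_zero_or_pos j with hj | hj
      · have h8 := wt_two heE hck h2 h4 hj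
        have h9 := h5.2.2 hj h8
        subst hj
        refine ⟨t, fun _ => ⟨by omega, h8, pathz h2 h4⟩⟩
      · have h8 := h5.2.1 hj
        omega
    · exact ⟨k₀, fun h => absurd h hc⟩
  choose τ hτ using hdest
  have hT : #(univ.filter fun t => s t = 1) ≤ ∑ k, s k := by
    rw [card_filter]
    refine sum_le_sum fun k _ => ?_
    split_ifs with hk
    · omega
    · omega
  obtain ⟨c, hc, c', hc', hcc, hcτ⟩ := exists_ne_map_eq_of_card_lt_of_maps_to
    (s := S) (t := univ.filter fun t => s t = 1) (f := τ) (by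
      have h1 := hs k₀
      have h2 := hs1 k₀
      omega) (fun c hc => mem_coe.2 (mem_filter.2 ⟨mem_univ _, (hτ c hc).1⟩))
  obtain ⟨h1, h2, h3⟩ := hτ c hc
  obtain ⟨h1', h2', h3'⟩ := hτ c' hc'
  rw [← hcτ] at h3'
  obtain ⟨hcA, hck, hcV⟩ := mem_filter.1 hc
  obtain ⟨hcA', hck', hcV'⟩ := mem_filter.1 hc'
  refine hN (endc hG (by omega) A (hlc (τ c)) (by have := hs (τ c); omega) heA hcA hcA' ?_ ?_ hcc
    (heE _) ?_ ?_ h3 h3')
  · rintro rfl
    exact heE k₀ hck
  · rintro rfl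
    exact heE k₀ hck'
  · exact fun h4 => h2 (class_of h hck h4)
  · exact fun h4 => h2 (class_of h hck' h4)

end ENDIM

variable {G : Type u} [AddCommGroup G] {a r : ℕ}

open Classical in
/-- near the structure: a set of extremal size without a hit has no exceptional elements -/
theorem endi [Finite G] (hG : Homo G a r) (ha : 10 ≤ a) {κ : Type w} [Fintype κ] {x l : κ → G}
    (h : Hv 0 x l) (A : Finset G) (s : κ → ℕ)
    (hs : ∀ k, #(A.filter fun g => g - x k ∈ AddSubgroup.zmultiples (l k)) + s k = 2 ^ a)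
    (hlc : ∀ k, Nat.card (AddSubgroup.zmultiples (l k)) = 2 ^ a)
    (hsmall : 64 * (∑ k, s k + 2) ≤ 2 ^ a) (hN : ¬ Hit A (2 ^ a) 0) (E : Finset G)
    (hE : ∀ g, g ∈ E ↔ g ∈ A ∧ ∀ k, g - x k ∉ AddSubgroup.zmultiples (l k))
    (hE0 : ∑ k, s k ≤ #E) : E = ∅ := by
  have h1 : E = A.filter fun g => ∀ k, g - x k ∉ AddSubgroup.zmultiples (l k) := by
    ext g
    rw [hE, mem_filter]
  rw [h1] at hE0 ⊢
  exact card_eq_zero.1 (ENDIM.endi' hG ha h A s hs hlc hsmall hN hE0)

end Pool.Agent.Lib.MPa7239a.EX
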