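import Pool.Agent.Lib.MP_a7239a_co.EX.Defs2

/-! # folder EX: disjoint groups of `2 ^ i` elements (GRP) -/

set_option autoImplicit false

universe u v

open Finset

namespace Pool.Agent.Lib.MPa7239a.EX

open Pool.Agent.Lib.MPa7239a.RN (Sol HW DW)

variable {G : Type u} [AddCommGroup G] {a : ℕ}

/-- GRP: disjoint groups of `2 ^ i` elements give a family without a hit -/
theorem grp {N : ℕ} {x : Fin N → G} {H : Fin N → AddSubgroup G} {m : Fin N → ℕ}
    {W : Finset (Fin N)} (hS : ¬ Sol (2 ^ a) x H m W) {i : ℕ} (hi : i ≤ a) {ι : Type v}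
    (I : Finset ι) (b : ι → Fin N → ℕ) (y : ι → G) (H' : ι → AddSubgroup G)
    (h1 : ∀ k ∈ I, ∑ c, b k c = 2 ^ i) (h2 : ∀ k ∈ I, ∀ c, c ∉ W → b k c = 0)
    (h3 : ∀ c, ∑ k ∈ I, b k c ≤ m c)
    (h4 : ∀ k ∈ I, y k - ∑ c, b k c • x c ∈ HW H (univ.filter fun c => b k c ≠ 0))
    (h5 : ∀ k ∈ I, H' k ≤ HW H (univ.filter fun c => b k c ≠ 0)) :
    NoHit (2 ^ (a - i)) y H' I := by
  intro J hJ hc hsum
  apply hS
  refine ⟨fun c => ∑ k ∈ J, b k c, ?_, ?_, ?_, ?_⟩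
  · intro c
    exact (sum_le_sum_of_subset hJ).trans (h3 c)
  · intro c hcW
    exact sum_eq_zero fun k hk => h2 k (hJ hk) c hcW
  · rw [sum_comm, sum_congr rfl fun k hk => h1 k (hJ hk), sum_const, hc, smul_eq_mul, ← pow_add,
      Nat.sub_add_cancel hi]
  · have key : ∀ k ∈ J, HW H (univ.filter fun c => b k c ≠ 0) ≤
        HW H (univ.filter fun c => ∑ k ∈ J, b k c ≠ 0) := by
      intro k hk
      apply RN.HW_mono
      intro c hc
      rw [mem_filter] at hc ⊢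
      exact ⟨mem_univ _, fun h0 => hc.2 (sum_eq_zero_iff.1 h0 k hk)⟩
    have e : ∑ c, (∑ k ∈ J, b k c) • x c =
        ∑ k ∈ J, y k - ∑ k ∈ J, (y k - ∑ c, b k c • x c) := by
      rw [← sum_sub_distrib]
      simp only [sub_sub_cancel, sum_smul]
      exact sum_comm
    show ∑ c, (∑ k ∈ J, b k c) • x c ∈ _
    rw [e]
    refine AddSubgroup.sub_mem _ ?_ (AddSubgroup.sum_mem _ fun k hk => key k hk (h4 k (hJ hk)))
    exact (iSup₂_le fun k hk => (h5 k (hJ hk)).trans (key k hk)) hsum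

end Pool.Agent.Lib.MPa7239a.EX
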