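import Pool.Agent.Lib.MP_a7239a_co.EX.DISJ

/-!
# HVOF: lines which do not meet modulo `V (i + 1)` are heavy lines
-/

set_option autoImplicit false

universe u v

open Finset

namespace Pool.Agent.Lib.MPa7239a.EX

variable {G : Type u} [AddCommGroup G] {a r : ℕ}

/-- HVOF -/
theorem hv_of [Finite G] (hG : Homo G a r) (hr : 1 ≤ r) {i : ℕ} (hi : i < a) {κ : Type v}
    [Fintype κ] (hκ : Fintype.card κ = 2 ^ (r - 1)) {x l : κ → G} (hx : ∀ k, x k ∈ V G i)
    (hl : ∀ k, l k ∈ V G i) (hn : ∀ k, l k ∉ V G (i + 1))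
    (hd : ∀ k k', Meet i (x k) (AddSubgroup.zmultiples (l k)) (x k')
      (AddSubgroup.zmultiples (l k')) → k = k') : Hv i x l := by
  refine ⟨hx, hl, hn, fun z hz => ?_, hd⟩
  have hF : Fam i x (fun k => AddSubgroup.zmultiples (l k)) (univ : Finset κ) := by
    refine ⟨fun k _ => hx k, fun k _ => ?_, fun k _ h => hn k ?_⟩
    · rw [AddSubgroup.zmultiples_le]
      exact hl k
    · exact h (AddSubgroup.mem_zmultiples (l k))
  obtain ⟨k, _, hk⟩ := disj_cover hG hr hi hF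
    (fun k _ k' _ hne hM => hne (hd k k' hM)) (by rw [card_univ, hκ]) z hz
  exact ⟨k, hk⟩

end Pool.Agent.Lib.MPa7239a.EX
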