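import Pool.Agent.Lib.MP_a7239a_co.EX.NFC
import Pool.Agent.Lib.MP_a7239a_co.EX.REPL

/-!
# EX, module INV: unions of cosets of cyclic groups with and without a hit
-/

set_option autoImplicit false

universe u v w

open Finset

namespace Pool.Agent.Lib.MPa7239a.EX

open Pool.Agent.Lib.MPa7239a.GC (Hit)

variable {G : Type u} [AddCommGroup G] {a r : ℕ}

namespace INVM

/-- all sums of `k` distinct elements of a full coset -/
theorem fcl [DecidableEq G] (hG : Homo G a r) (ha : 8 ≤ a) {D : Finset G} {x l : G}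
    (hl : addOrderOf l = 2 ^ a)
    (hD : ∀ g, g ∈ D ↔ g - x ∈ AddSubgroup.zmultiples l) (hc : #D = 2 ^ a) {k : ℕ}
    (hk : 1 ≤ k) (hk' : k < 2 ^ a) {g : G} (hg : g - k • x ∈ AddSubgroup.zmultiples l) :
    Hit D k g := by
  rcases Nat.lt_or_ge k 2 with h2 | h2
  · obtain rfl : k = 1 := by omega
    rw [one_smul] at hg
    exact ⟨{g}, singleton_subset_iff.2 ((hD g).2 hg), card_singleton _, sum_singleton _ _⟩
  rcases Nat.lt_or_ge (k + 1) (2 ^ a) with h3 | h3
  · exact nfc ha hl (fun b hb => (hD b).1 hb) (by omega) h2 (by omega) hg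
  · have h4 : k + 1 = 2 ^ a := by omega
    have h5 : ∑ g ∈ D, g - #D • x ∈ AddSubgroup.zmultiples l := by
      rw [← sum_const, ← sum_sub_distrib]
      exact AddSubgroup.sum_mem _ fun g hg => (hD g).1 hg
    have h6 : ∑ g ∈ D, g - g ∈ D := by
      rw [hD]
      have h7 : ∑ g ∈ D, g - g - x = (∑ g ∈ D, g - #D • x) - (g - k • x) := by
        rw [hc, ← h4, add_smul, one_smul]
        abel
      rw [h7]
      exact AddSubgroup.sub_mem _ h5 hg
    refine ⟨D.erase (∑ g ∈ D, g - g), erase_subset _ _, ?_, ?_⟩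
    · rw [card_erase_of_mem h6]
      omega
    · have h7 := sum_erase_add D (fun g : G => g) h6
      simp only at h7
      have h8 : ∑ z ∈ D.erase (∑ g ∈ D, g - g), z = ∑ g ∈ D, g - (∑ g ∈ D, g - g) :=
        eq_sub_of_add_eq h7
      rw [h8]
      abel

/-- the finset of a coset -/
theorem coset [Finite G] (x l : G) (hl : addOrderOf l = 2 ^ a) :
    ∃ D : Finset G, (∀ g, g ∈ D ↔ g - x ∈ AddSubgroup.zmultiples l) ∧ #D = 2 ^ a := by
  classical
  have : Fintype G := Fintype.ofFinite G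
  refine ⟨univ.filter fun g => g - x ∈ AddSubgroup.zmultiples l, fun g => by simp, ?_⟩
  rw [← hl, ← Nat.card_zmultiples, Nat.card_eq_fintype_card, ← card_univ]
  symm
  refine card_bij (fun g _ => (g : G) + x) (fun g _ => ?_) (fun g _ g' _ hg => ?_) (fun g hg => ?_)
  · rw [mem_filter]
    exact ⟨mem_univ _, by rw [add_sub_cancel_right]; exact g.2⟩
  · exact Subtype.ext (add_right_cancel hg)
  · exact ⟨⟨g - x, (mem_filter.1 hg).2⟩, mem_univ _, sub_add_cancel g x⟩

end INVM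

open INVM

/-- a union of cosets without a hit has no mixed solution -/
theorem inv_only [Finite G] (hG : Homo G a r) (ha : 8 ≤ a) {κ : Type w} [Fintype κ] {x l : κ → G}
    (hdis : ∀ k k' g, g - x k ∈ AddSubgroup.zmultiples (l k) →
      g - x k' ∈ AddSubgroup.zmultiples (l k') → k = k')
    (hl : ∀ k, addOrderOf (l k) = 2 ^ a) (A : Finset G)
    (hA : ∀ g k, g - x k ∈ AddSubgroup.zmultiples (l k) → g ∈ A) (hN : ¬ Hit A (2 ^ a) 0)
    (b : κ → ℕ) (hb : ∑ k, b k = 2 ^ a) (hb' : ∀ k, b k < 2 ^ a) : ∑ k, b k • x k ∉ Lb l b := by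
  classical
  intro h
  obtain ⟨t, ht⟩ : ∃ t, b t ≠ 0 := by
    by_contra hcon
    push Not at hcon
    rw [sum_eq_zero fun k _ => hcon k] at hb
    have : 0 < 2 ^ a := by positivity
    omega
  obtain ⟨lam, h1, h2, h3⟩ := rep (t := t) (AddSubgroup.mem_sup_left
    ((Lb l b).neg_mem h) : -∑ k, b k • x k ∈ Lb l b ⊔ AddSubgroup.zmultiples (l t))
  have h4 : ∀ k, ∃ T : Finset G, (∀ g ∈ T, g - x k ∈ AddSubgroup.zmultiples (l k)) ∧ #T = b k ∧
      ∑ g ∈ T, g = b k • x k + lam k := by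
    intro k
    rcases Nat.eq_zero_or_pos (b k) with hk | hk
    · refine ⟨∅, by simp, by rw [hk]; rfl, ?_⟩
      rw [hk, h2 k (by rintro rfl; exact ht hk) hk]
      simp
    · obtain ⟨D, hD, hDc⟩ := coset (a := a) (x k) (l k) (hl k)
      obtain ⟨T, hT, hTc, hTs⟩ := fcl hG ha (hl k) hD hDc hk (hb' k) (g := b k • x k + lam k)
        (by rw [add_sub_cancel_left]; exact h1 k)
      exact ⟨T, fun g hg => (hD g).1 (hT hg), hTc, hTs⟩
  choose T hT hTc hTs using h4
  have hd : ∀ k ∈ (univ : Finset κ), ∀ k' ∈ (univ : Finset κ), k ≠ k' → Disjoint (T k) (T k') := by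
    intro k _ k' _ hkk
    rw [disjoint_left]
    intro g hg hg'
    exact hkk (hdis k k' g (hT k g hg) (hT k' g hg'))
  refine hN ⟨univ.biUnion T, ?_, ?_, ?_⟩
  · intro g hg
    obtain ⟨k, -, hk⟩ := mem_biUnion.1 hg
    exact hA g k (hT k g hk)
  · rw [card_biUnion hd, sum_congr rfl fun k _ => hTc k, hb]
  · rw [sum_biUnion hd, sum_congr rfl fun k _ => hTs k, sum_add_distrib, h3, add_neg_cancel]

/-- the sum of a full coset -/
theorem coset_sum (ha : 1 ≤ a) (hG : Homo G a r) {x l : G} (hl : addOrderOf l = 2 ^ a)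
    {T : Finset G} (hT : ∀ g ∈ T, g - x ∈ AddSubgroup.zmultiples l) (hc : #T = 2 ^ a) :
    ∑ g ∈ T, g ≠ 0 := by
  classical
  have hinj : Set.InjOn (fun u : ℕ => x + u • l) (range (2 ^ a) : Finset ℕ) := by
    intro u hu v hv huv
    have h1 : u • l = v • l := add_left_cancel huv
    have hu : u < 2 ^ a := mem_range.1 (mem_coe.1 hu)
    have hv : v < 2 ^ a := mem_range.1 (mem_coe.1 hv)
    rw [← hl] at hu hv
    exact nsmul_injOn_Iio_addOrderOf hu hv h1
  have himg : T = (range (2 ^ a)).image (fun u : ℕ => x + u • l) := by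
    refine eq_of_subset_of_card_le (fun g hg => ?_) ?_
    · obtain ⟨u, hu⟩ := AddSubgroup.mem_zmultiples_iff.1 (hT g hg)
      have h1 : (0 : ℤ) ≤ u % (2 ^ a : ℕ) := Int.emod_nonneg _ (by positivity)
      have h2 : u % (2 ^ a : ℕ) < (2 ^ a : ℕ) := Int.emod_lt_of_pos _ (by positivity)
      refine mem_image.2 ⟨(u % (2 ^ a : ℕ)).toNat, mem_range.2 (by omega), ?_⟩
      have h3 : (u % (2 ^ a : ℕ)).toNat • l = u • l := by
        rw [← natCast_zsmul, Int.toNat_of_nonneg h1, ← hl, mod_addOrderOf_zsmul]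
      rw [h3, hu]
      abel
    · rw [card_image_of_injOn hinj, card_range, hc]
  rw [himg, sum_image hinj, sum_add_distrib, sum_const, card_range, hG.kill, zero_add,
    ← sum_smul]
  intro h
  have h1 := addOrderOf_dvd_of_nsmul_eq_zero h
  rw [hl] at h1
  have h2 := Finset.sum_range_id_mul_two (2 ^ a)
  obtain ⟨m, hm⟩ := h1
  have h3 : 2 ^ a * (m * 2) = 2 ^ a * (2 ^ a - 1) := by
    rw [← h2, hm]
    ring
  have h4 := Nat.eq_of_mul_eq_mul_left (by positivity) h3
  have h5 : 2 ^ a = 2 * 2 ^ (a - 1) := by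
    rw [← pow_succ', Nat.sub_add_cancel ha]
  have h6 : 0 < 2 ^ (a - 1) := by positivity
  omega

/-- a union of cosets without a mixed solution has no hit -/
theorem inv_if (hG : Homo G a r) (ha : 1 ≤ a) {κ : Type w} [Fintype κ] {x l : κ → G}
    (hl : ∀ k, addOrderOf (l k) = 2 ^ a) (A : Finset G)
    (hA : ∀ g ∈ A, ∃ k, g - x k ∈ AddSubgroup.zmultiples (l k))
    (hb : ∀ b : κ → ℕ, ∑ k, b k = 2 ^ a → (∀ k, b k < 2 ^ a) → ∑ k, b k • x k ∉ Lb l b) :
    ¬ Hit A (2 ^ a) 0 := by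
  classical
  rintro ⟨T, hTA, hTc, hTs⟩
  have h1 : ∀ g : G, ∃ k : κ, g ∈ T → g - x k ∈ AddSubgroup.zmultiples (l k) := by
    intro g
    by_cases hg : g ∈ T
    · obtain ⟨k, hk⟩ := hA g (hTA hg)
      exact ⟨k, fun _ => hk⟩
    · obtain ⟨g₀, hg₀⟩ : T.Nonempty := card_pos.1 (by rw [hTc]; positivity)
      obtain ⟨k, -⟩ := hA g₀ (hTA hg₀)
      exact ⟨k, fun h => absurd h hg⟩
  choose k hk using h1
  set b : κ → ℕ := fun c => #(T.filter fun g => k g = c) with hbdef
  have hbs : ∑ c, b c = 2 ^ a := by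
    rw [← hTc]
    exact (card_eq_sum_card_fiberwise fun g _ => mem_coe.2 (mem_univ (k g))).symm
  have hmem : ∑ c, b c • x c ∈ Lb l b := by
    have h2 : ∑ g ∈ T, (g - x (k g)) = ∑ g ∈ T, g - ∑ c, b c • x c := by
      rw [sum_sub_distrib]
      congr 1
      rw [← sum_fiberwise T k (fun g => x (k g))]
      refine sum_congr rfl fun c _ => ?_
      rw [hbdef, sum_congr rfl fun g hg => by rw [(mem_filter.1 hg).2], sum_const]
    rw [hTs, zero_sub] at h2
    have h3 : ∑ g ∈ T, (g - x (k g)) ∈ Lb l b := by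
      refine AddSubgroup.sum_mem _ fun g hg => ?_
      have h4 : b (k g) ≠ 0 := by
        have : 0 < #(T.filter fun g' => k g' = k g) :=
          card_pos.2 ⟨g, mem_filter.2 ⟨hg, rfl⟩⟩
        simp only [hbdef]
        omega
      exact (le_iSup_of_le (k g) (le_iSup_of_le h4 le_rfl) :
        AddSubgroup.zmultiples (l (k g)) ≤ Lb l b) (hk g hg)
    rw [h2] at h3
    rw [← neg_neg (∑ c, b c • x c)]
    exact AddSubgroup.neg_mem _ h3
  have h2 : ∃ c, 2 ^ a ≤ b c := by
    by_contra hcon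
    push Not at hcon
    exact hb b hbs hcon hmem
  obtain ⟨c, hc⟩ := h2
  have h3 : T.filter (fun g => k g = c) = T :=
    eq_of_subset_of_card_le (filter_subset _ _) (by rw [hTc]; exact hc)
  refine coset_sum ha hG (hl c) (T := T) (x := x c) (fun g hg => ?_) hTc hTs
  rw [← h3] at hg
  obtain ⟨hg1, hg2⟩ := mem_filter.1 hg
  rw [← hg2]
  exact hk g hg1

end Pool.Agent.Lib.MPa7239a.EX
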