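import Pool.Agent.Lib.MP_a7239a_co.EX.CYC

/-! # folder EX, module LNG (helper54): maximal cyclic groups -/

set_option autoImplicit false

universe u v w

open Finset

namespace Pool.Agent.Lib.MPa7239a.EX

variable {G : Type u} [AddCommGroup G] {a r : ℕ}

theorem LNGM.up {i j : ℕ} {x : G} (hx : x ∈ V G j) : 2 ^ i • x ∈ V G (i + j) := by
  obtain ⟨y, rfl⟩ := hx
  refine ⟨y, ?_⟩
  show 2 ^ (i + j) • y = 2 ^ i • (2 ^ j • y)
  rw [smul_smul, pow_add]

/-- not everything is divisible by two -/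
theorem LNGM.ex [Finite G] (hG : Homo G a r) (hr : 1 ≤ r) : ∃ l : G, l ∉ V G 1 := by
  by_contra hcon
  push Not at hcon
  have h1 : ∀ j : ℕ, ∀ x : G, x ∈ V G j := by
    intro j
    induction j with
    | zero => intro x; rw [V_zero]; exact AddSubgroup.mem_top x
    | succ j ih =>
      intro x
      obtain ⟨y, rfl⟩ := ih x
      exact LNGM.up (hcon y)
  have h2 : ∀ x : G, x = 0 := by
    intro x
    have := h1 a x
    rw [hG.bot] at this
    exact this
  have h3 : Subsingleton {x : G // 2 • x = 0} :=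
    ⟨fun x y => Subtype.ext ((h2 x.1).trans (h2 y.1).symm)⟩
  have h4 := hG.card
  have h5 : Nat.card {x : G // 2 • x = 0} ≤ 1 := Finite.card_le_one_iff_subsingleton.2 h3
  have h6 : 2 ^ 1 ≤ 2 ^ r := Nat.pow_le_pow_right (by norm_num) hr
  omega

/-- LNG: a maximal cyclic group -/
theorem lng [Finite G] (hG : Homo G a r) (ha : 1 ≤ a) (hr : 1 ≤ r) (g : G) :
    ∃ l, l ∉ V G 1 ∧ g ∈ AddSubgroup.zmultiples l := by
  classical
  by_cases hg : g = 0
  · obtain ⟨l, hl⟩ := LNGM.ex hG hr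
    exact ⟨l, hl, by rw [hg]; exact AddSubgroup.zero_mem _⟩
  · have hex : ∃ j, g ∉ V G j := by
      refine ⟨a, ?_⟩
      rw [hG.bot]
      exact hg
    have h1 := Nat.find_spec hex
    have h0 : Nat.find hex ≠ 0 := by
      intro h
      rw [h, V_zero] at h1
      exact h1 (AddSubgroup.mem_top g)
    obtain ⟨u, hu⟩ := Nat.exists_eq_succ_of_ne_zero h0
    have h2 : g ∈ V G u := not_not.1 (Nat.find_min hex (m := u) (by omega))
    rw [hu] at h1
    obtain ⟨y, rfl⟩ := h2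
    refine ⟨y, fun h => h1 (LNGM.up h), ?_⟩
    exact AddSubgroup.nsmul_mem _ (AddSubgroup.mem_zmultiples y) _

/-- LNG: the group at level `i` of a maximal cyclic group -/
theorem lng_up (hG : Homo G a r) {i : ℕ} (hi : i < a) {l l' : G} (h1 : l' ∉ V G 1)
    (h2 : l ∈ AddSubgroup.zmultiples l') (h3 : l ∈ V G i) (h4 : l ∉ V G (i + 1)) :
    AddSubgroup.zmultiples (2 ^ i • l') = AddSubgroup.zmultiples l := by
  obtain ⟨k, rfl⟩ := AddSubgroup.mem_zmultiples_iff.1 h2
  have hk : k ≠ 0 := by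
    rintro rfl
    apply h4
    rw [zero_smul]
    exact AddSubgroup.zero_mem _
  obtain ⟨j, k', hk', rfl⟩ : ∃ (j : ℕ) (k' : ℤ), Odd k' ∧ k = 2 ^ j * k' := by
    have hfin : FiniteMultiplicity (2 : ℤ) k := Int.finiteMultiplicity_iff.2 ⟨by norm_num, hk⟩
    obtain ⟨k', h5, h6⟩ := hfin.exists_eq_pow_mul_and_not_dvd
    exact ⟨_, k', by rwa [← Int.not_even_iff_odd, even_iff_two_dvd], h5⟩
  obtain ⟨u, hu⟩ := CYC.undo hG hk'
  have hcast : ∀ (j : ℕ) (y : G), ((2 : ℤ) ^ j) • y = 2 ^ j • y := by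
    intro j y
    rw [← natCast_zsmul]
    push_cast
    rfl
  have e0 : (2 ^ j * k') • l' = k' • (2 ^ j • l') := by
    rw [mul_comm, mul_smul, hcast]
  rw [e0] at h3 h4 ⊢
  have hji : j = i := by
    by_contra hne
    rcases Nat.lt_or_gt_of_ne hne with hlt | hgt
    · -- `j < i`
      apply h1
      have h5 : 2 ^ j • l' ∈ V G i := by
        rw [← hu (2 ^ j • l')]
        exact AddSubgroup.zsmul_mem _ h3 u
      rw [hG.mem_iff hi.le, smul_smul, ← pow_add, show a - i + j = a - (i - j) by omega,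
        ← hG.mem_iff (by omega)] at h5
      exact V_anti (show 1 ≤ i - j by omega) h5
    · apply h4
      refine AddSubgroup.zsmul_mem _ ?_ k'
      exact V_anti (show i + 1 ≤ j by omega) ⟨l', rfl⟩
  subst hji
  apply le_antisymm
  · apply AddSubgroup.zmultiples_le_of_mem
    rw [AddSubgroup.mem_zmultiples_iff]
    exact ⟨u, hu _⟩
  · apply AddSubgroup.zmultiples_le_of_mem
    exact AddSubgroup.zsmul_mem _ (AddSubgroup.mem_zmultiples _) k'

/-- LNG: lines which meet at level `0` meet at level `i` -/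
theorem meet_up {i : ℕ} {x l x' l' : G}
    (h : Meet 0 x (AddSubgroup.zmultiples l) x' (AddSubgroup.zmultiples l')) :
    Meet i (2 ^ i • x) (AddSubgroup.zmultiples (2 ^ i • l)) (2 ^ i • x')
      (AddSubgroup.zmultiples (2 ^ i • l')) := by
  unfold Meet at h ⊢
  obtain ⟨p, hp, v, hv, hpv⟩ := AddSubgroup.mem_sup.1 h
  obtain ⟨p1, hp1, p2, hp2, rfl⟩ := AddSubgroup.mem_sup.1 hp
  obtain ⟨c, rfl⟩ := AddSubgroup.mem_zmultiples_iff.1 hp1
  obtain ⟨c', rfl⟩ := AddSubgroup.mem_zmultiples_iff.1 hp2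
  have h1 : 2 ^ i • x - 2 ^ i • x' = (c • (2 ^ i • l) + c' • (2 ^ i • l')) + 2 ^ i • v := by
    rw [← smul_sub, ← hpv, smul_add, smul_add, smul_comm c, smul_comm c']
  rw [h1]
  refine AddSubgroup.add_mem _ (AddSubgroup.mem_sup_left (AddSubgroup.add_mem _ ?_ ?_))
    (AddSubgroup.mem_sup_right ?_)
  · exact AddSubgroup.mem_sup_left
      (AddSubgroup.zsmul_mem _ (AddSubgroup.mem_zmultiples _) c)
  · exact AddSubgroup.mem_sup_right
      (AddSubgroup.zsmul_mem _ (AddSubgroup.mem_zmultiples _) c')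
  · exact LNGM.up hv

end Pool.Agent.Lib.MPa7239a.EX
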