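import Pool.Agent.Lib.MP_a7239a_co.EX.ASMB
import Pool.Agent.Lib.MP_a7239a_co.EX.CELA
import Pool.Agent.Lib.MP_a7239a_co.EX.CELB
import Pool.Agent.Lib.MP_a7239a_co.EX.CELC
import Pool.Agent.Lib.MP_a7239a_co.EX.CYD
import Pool.Agent.Lib.MP_a7239a_co.EX.LNG
import Pool.Agent.Lib.MP_a7239a_co.EX.HVOF

/-! # folder EX, module STRU: the structure theorem for sets -/

set_option autoImplicit false

universe u

open Finset

namespace Pool.Agent.Lib.MPa7239a.EX

open Pool.Agent.Lib.MPa7239a.GC (Hit)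
open Pool.Agent.Lib.MPa7239a.RN (Sol HW DW)

variable {G : Type u} [AddCommGroup G] {a r : ℕ}

namespace STRUM

/-- a set in a coset has at most as many elements as the group -/
theorem card_le [Finite G] {B : Finset G} {x : G} {H : AddSubgroup G}
    (h : ∀ b ∈ B, b - x ∈ H) : #B ≤ Nat.card H := by
  classical
  have : Fintype H := Fintype.ofFinite _
  rw [Nat.card_eq_fintype_card, ← card_univ]
  refine card_le_card_of_injOn (fun b => if h : b - x ∈ H then ⟨b - x, h⟩ else 0)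
    (fun b _ => mem_coe.2 (mem_univ _)) ?_
  intro b hb b' hb' e
  have h1 := h b hb
  have h2 := h b' hb'
  simp only [h1, h2, dif_pos] at e
  exact sub_left_injective (congrArg Subtype.val e)

theorem le_DW {N : ℕ} {x : Fin N → G} {H : Fin N → AddSubgroup G} {U : Finset (Fin N)}
    {c : Fin N} (hc : c ∈ U) : H c ≤ DW x H U :=
  le_trans (le_iSup₂ (f := fun c (_ : c ∈ U) => H c) c hc) le_sup_right

theorem sub_mem_DW {N : ℕ} {x : Fin N → G} {H : Fin N → AddSubgroup G} {U : Finset (Fin N)}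
    {c c' : Fin N} (hc : c ∈ U) (hc' : c' ∈ U) : x c - x c' ∈ DW x H U :=
  AddSubgroup.mem_sup_left (AddSubgroup.subset_closure ⟨c, hc, c', hc', rfl⟩)

open Classical in
/-- the mass of a class -/
theorem mass {N : ℕ} {A : Finset G} {B : Fin N → Finset G} {x : Fin N → G} {m : Fin N → ℕ}
    {U : Finset (Fin N)} (hA : ∀ c, B c ⊆ A) (hd : ∀ c c', c ≠ c' → Disjoint (B c) (B c'))
    (hm : ∀ c ∈ U, m c ≤ #(B c)) {y : G} {L : AddSubgroup G}
    (hB : ∀ c ∈ U, ∀ b ∈ B c, b - y ∈ L) :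
    ∑ c ∈ U, m c ≤ #(A.filter fun g => g - y ∈ L) := by
  calc ∑ c ∈ U, m c ≤ ∑ c ∈ U, #(B c) := sum_le_sum hm
    _ = #(U.biUnion B) := (card_biUnion fun c _ c' _ hne => hd c c' hne).symm
    _ ≤ _ := card_le_card fun g hg => by
        obtain ⟨c, hc, hg⟩ := mem_biUnion.1 hg
        exact mem_filter.2 ⟨hA c hg, hB c hc g hg⟩

/-- the classes of the directions meet at level `i` -/
theorem meet_tr {i : ℕ} {x x' z z' l l' m m' : G}
    (h : Meet 0 x (AddSubgroup.zmultiples l) x' (AddSubgroup.zmultiples l'))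
    (hl : AddSubgroup.zmultiples (2 ^ i • l) = AddSubgroup.zmultiples m)
    (hl' : AddSubgroup.zmultiples (2 ^ i • l') = AddSubgroup.zmultiples m')
    (hz : 2 ^ i • x - z ∈ AddSubgroup.zmultiples m)
    (hz' : 2 ^ i • x' - z' ∈ AddSubgroup.zmultiples m') :
    Meet i z (AddSubgroup.zmultiples m) z' (AddSubgroup.zmultiples m') := by
  have h1 := meet_up (i := i) h
  rw [hl, hl'] at h1
  unfold Meet at h1 ⊢
  have e : z - z' = (2 ^ i • x - 2 ^ i • x') - (2 ^ i • x - z) + (2 ^ i • x' - z') := by abel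
  rw [e]
  refine AddSubgroup.add_mem _ (AddSubgroup.sub_mem _ h1 ?_) ?_
  · exact AddSubgroup.mem_sup_left (AddSubgroup.mem_sup_left hz)
  · exact AddSubgroup.mem_sup_left (AddSubgroup.mem_sup_right hz')

end STRUM

open STRUM

open Classical in
/-- STRU: the structure theorem for sets -/
theorem stru (r : ℕ) (hr : 1 ≤ r) (ε : ℝ) (hε : 0 < ε) : ∃ a₀ : ℕ, ∀ a ≥ a₀, ∀ (G : Type u)
    [AddCommGroup G] [Finite G], Homo G a r → Nat.card G ≤ (2 ^ a) ^ r → ∀ A : Finset G,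
    ¬ Hit A (2 ^ a) 0 → 2 ^ (r - 1) * 2 ^ a ≤ #A →
    ∃ x l : Fin (2 ^ (r - 1)) → G, Hv 0 x l ∧ ∀ k, (1 - ε) * 2 ^ a ≤
      (#(A.filter fun g => g - x k ∈ AddSubgroup.zmultiples (l k)) : ℝ) := by
  have hR0 : (0 : ℝ) < 2 ^ (r - 1) := by positivity
  obtain ⟨η, hη, hη1, hη2⟩ : ∃ η : ℝ, 0 < η ∧ 64 * η ≤ ε ∧ 8000 * (2 ^ (r - 1) + 1) * η ≤ 1 := by
    refine ⟨min (ε / 64) (1 / (8000 * (2 ^ (r - 1) + 1))), lt_min (by positivity) (by positivity),
      ?_, ?_⟩
    · have := min_le_left (ε / 64) (1 / (8000 * ((2 : ℝ) ^ (r - 1) + 1)))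
      linarith
    · have h1 := min_le_right (ε / 64) (1 / (8000 * ((2 : ℝ) ^ (r - 1) + 1)))
      rwa [le_div_iff₀ (by positivity), mul_comm] at h1
  have hη3 : 8000 * η ≤ 1 := by nlinarith
  have hR1 : (1 : ℝ) ≤ 2 ^ (r - 1) := one_le_pow₀ (by norm_num)
  obtain ⟨Kmax, δ, hδ, n₀, hasm⟩ := assemB.{u} r hr (2 ^ (r - 1) + 2) (2 * η) (by linarith)
    (by linarith)
  obtain ⟨aA, hA⟩ := cela.{u} r hr Kmax δ η hδ hη (by nlinarith)
  obtain ⟨i₂, aB, hB⟩ := celb.{u} r hr Kmax δ (8 * η) hδ (by linarith) (by linarith)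
  obtain ⟨aC, hC⟩ := celc.{u} r hr Kmax δ (8 * η) hδ (by linarith) (by linarith) i₂
  refine ⟨n₀ + aA + aB + aC + 1, ?_⟩
  intro a ha G _ _ hG hcard A hno hAc
  have hpos : (0 : ℝ) < 2 ^ a := by positivity
  have hn₀ : n₀ ≤ 2 ^ a := le_trans (by omega) Nat.lt_two_pow_self.le
  obtain ⟨K, hK, B, x, H, m, W, hBA, hBd, hBx, hmB, hHδ, hmδ, htot, hsol⟩ :=
    hasm (2 ^ a) hn₀ G hG.kill hcard (2 ^ (r - 1) - 2 * η) (by linarith) (by push_cast; linarith) A
    (by
      have h1 : ((2 ^ (r - 1) * 2 ^ a : ℕ) : ℝ) ≤ (#A : ℝ) := by exact_mod_cast hAc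
      push_cast at h1 ⊢
      linarith)
  have hCP : CP a r η δ Kmax x H m W := by
    refine ⟨hK, fun h => hno (hsol h), ?_, ?_, fun c hc => (hmB c hc).trans (card_le (hBx c hc)), ?_⟩
    · intro c hc
      have := hHδ c hc
      push_cast at this
      exact this
    · intro c hc
      have := hmδ c hc
      push_cast at this
      exact this
    · push_cast at htot
      linarith
  obtain ⟨W₁, hW₁, hCP₁, hcyc⟩ := hA a (by omega) G hG K x H m W hCP
  obtain ⟨hi₂, hB'⟩ := hB a (by omega)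
  obtain ⟨z, l, U, hU, hl, hUc, hdis, hmass⟩ := hB' G hG K x H m W₁ hCP₁ hcyc
  have hD : ∀ k, ∀ τ ∈ DW x H (U k), 2 • τ = 0 → τ ∈ AddSubgroup.zmultiples (l k) := by
    intro k
    refine hC a (by omega) G hG K x H m W₁ hCP₁ hcyc (U k) (z k) (l k) (hU k) (hUc k) ?_
    have := hmass k
    nlinarith
  have hne : ∀ k, (U k).Nonempty := by
    intro k
    rw [nonempty_iff_ne_empty]
    intro h0
    have := hmass k
    rw [h0, sum_empty] at this
    nlinarith
  have hL : ∀ k, ∃ l' : G, l' ∉ V G 1 ∧ DW x H (U k) ≤ AddSubgroup.zmultiples l' := by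
    intro k
    obtain ⟨g, hg⟩ := cyd hG (hD k)
    obtain ⟨l', h1, h2⟩ := lng hG (by omega) hr g
    refine ⟨l', h1, ?_⟩
    rw [hg]
    exact (AddSubgroup.zmultiples_le_of_mem h2)
  choose c hc using hne
  choose l' hl' hDl using hL
  have hup : ∀ k, AddSubgroup.zmultiples (2 ^ i₂ • l' k) = AddSubgroup.zmultiples (l k) := by
    intro k
    refine lng_up hG (by omega) (hl' k) ?_ (hl k).1 (hl k).2
    apply hDl k
    apply le_DW (hc k)
    have h1 := (hUc k (c k) (hc k)).1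
    have h2 : l k ∈ AddSubgroup.zmultiples (l k) := AddSubgroup.mem_zmultiples _
    rw [← h1] at h2
    exact h2.1
  refine ⟨fun k => x (c k), l', ?_, ?_⟩
  · refine hv_of hG hr (by omega) (Fintype.card_fin _) ?_ ?_ hl' ?_
    · intro k
      rw [V_zero]
      exact AddSubgroup.mem_top _
    · intro k
      rw [V_zero]
      exact AddSubgroup.mem_top _
    · intro k k' h
      exact hdis k k' (meet_tr h (hup k) (hup k') (hUc k _ (hc k)).2 (hUc k' _ (hc k')).2)
  · intro k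
    have h1 := mass (x := x) (A := A) hBA hBd (fun c hc => hmB c (hW₁ (hU k hc)))
      (y := x (c k)) (L := AddSubgroup.zmultiples (l' k)) (U := U k) (m := m) ?_
    · have h2 : ((∑ c ∈ U k, m c : ℕ) : ℝ) ≤
        (#(A.filter fun g => g - x (c k) ∈ AddSubgroup.zmultiples (l' k)) : ℝ) := by
        exact_mod_cast h1
      push_cast at h2
      have h3 := hmass k
      refine le_trans ?_ h2
      nlinarith
    · intro d hd b hb
      have e : b - x (c k) = (b - x d) + (x d - x (c k)) := by abel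
      rw [e]
      refine AddSubgroup.add_mem _ (hDl k (le_DW hd (hBx d (hW₁ (hU k hd)) b hb)))
        (hDl k (sub_mem_DW hd (hc k)))

end Pool.Agent.Lib.MPa7239a.EX
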