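import Pool.Agent.Lib.MP_a7239a_co.EX.Defs
import Pool.Agent.Lib.MP_a7239a_co.RN.LOWN

/-!
# folder EX: the group `(Z / 2 ^ a) ^ r` (HOMZ) and the lower bound (LOWZ)
-/

set_option autoImplicit false

open Finset

namespace Pool.Agent.Lib.MPa7239a.EX

open Pool.Agent.Lib.MPa7239a.GC (Hit)

namespace ZMDM

lemma smul_eq_zero_iff {a i : ℕ} (hi : i ≤ a) (z : ZMod (2 ^ a)) :
    2 ^ (a - i) • z = 0 ↔ 2 ^ i ∣ z.val := by
  have h1 : 2 ^ (a - i) • z = ((2 ^ (a - i) * z.val : ℕ) : ZMod (2 ^ a)) := by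
    rw [nsmul_eq_mul, Nat.cast_mul, ZMod.natCast_zmod_val]
  rw [h1, ZMod.natCast_eq_zero_iff]
  have h2 : 2 ^ a = 2 ^ (a - i) * 2 ^ i := by rw [← pow_add, Nat.sub_add_cancel hi]
  have key : ∀ v : ℕ, 2 ^ a ∣ 2 ^ (a - i) * v ↔ 2 ^ i ∣ v := by
    intro v
    rw [h2]
    exact Nat.mul_dvd_mul_iff_left (by positivity)
  exact key _

lemma div_coord {a i : ℕ} (hi : i ≤ a) (z : ZMod (2 ^ a)) (h : 2 ^ (a - i) • z = 0) :
    ∃ w : ZMod (2 ^ a), 2 ^ i • w = z := by
  rw [smul_eq_zero_iff hi] at h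
  obtain ⟨m, hm⟩ := h
  refine ⟨(m : ZMod (2 ^ a)), ?_⟩
  rw [nsmul_eq_mul, ← Nat.cast_mul, ← hm, ZMod.natCast_zmod_val]

lemma card_invol {a : ℕ} (ha : 1 ≤ a) : Nat.card {z : ZMod (2 ^ a) // 2 • z = 0} = 2 := by
  have h1 : ∀ z : ZMod (2 ^ a), 2 • z = 0 ↔ z = 0 ∨ z = ((2 ^ (a - 1) : ℕ) : ZMod (2 ^ a)) := by
    intro z
    have h2 := smul_eq_zero_iff (a := a) (i := a - 1) (by omega) z
    rw [show a - (a - 1) = 1 by omega, pow_one] at h2
    rw [h2]
    have hlt : z.val < 2 ^ a := ZMod.val_lt z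
    have hp : 2 ^ a = 2 ^ (a - 1) * 2 := by rw [← pow_succ, Nat.sub_add_cancel ha]
    have hp0 : 0 < 2 ^ (a - 1) := by positivity
    constructor
    · rintro ⟨m, hm⟩
      have hm2 : m < 2 := by
        rw [hm, hp] at hlt
        exact Nat.lt_of_mul_lt_mul_left hlt
      have hz : z = ((2 ^ (a - 1) * m : ℕ) : ZMod (2 ^ a)) := by
        rw [← hm, ZMod.natCast_zmod_val]
      interval_cases m
      · left
        rw [hz, mul_zero, Nat.cast_zero]
      · right
        rw [hz, mul_one]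
    · rintro (rfl | rfl)
      · rw [ZMod.val_zero]
        exact dvd_zero _
      · rw [ZMod.val_natCast, Nat.mod_eq_of_lt (by rw [hp]; omega)]
  have h3 : ((2 ^ (a - 1) : ℕ) : ZMod (2 ^ a)) ≠ 0 := by
    rw [Ne, ZMod.natCast_eq_zero_iff]
    intro h
    have := Nat.le_of_dvd (by positivity) h
    have h4 : 2 ^ (a - 1) < 2 ^ a := Nat.pow_lt_pow_right (by norm_num) (by omega)
    omega
  have h4 : {z : ZMod (2 ^ a) | 2 • z = 0} = {0, ((2 ^ (a - 1) : ℕ) : ZMod (2 ^ a))} := by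
    ext z
    exact h1 z
  have h5 : Nat.card {z : ZMod (2 ^ a) // 2 • z = 0}
      = Set.ncard {z : ZMod (2 ^ a) | 2 • z = 0} := rfl
  rw [h5, h4, Set.ncard_pair h3.symm]

end ZMDM

open ZMDM in
/-- HOMZ -/
theorem homz {a : ℕ} (ha : 1 ≤ a) (r : ℕ) : Homo (Fin r → ZMod (2 ^ a)) a r where
  kill x := by
    funext i
    rw [Pi.smul_apply, nsmul_eq_mul, ZMod.natCast_self, zero_mul, Pi.zero_apply]
  div i hi x hx := by
    have h1 : ∀ j, ∃ w : ZMod (2 ^ a), 2 ^ i • w = x j := fun j =>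
      div_coord hi (x j) (congrFun hx j)
    choose y hy using h1
    exact ⟨y, funext fun j => hy j⟩
  card := by
    have h1 : Nat.card {x : Fin r → ZMod (2 ^ a) // 2 • x = 0}
        = Nat.card {x : Fin r → ZMod (2 ^ a) // ∀ j, 2 • x j = 0} := by
      refine Nat.card_congr (Equiv.subtypeEquivRight fun x => ?_)
      exact funext_iff
    have h2 : {x : Fin r → ZMod (2 ^ a) // ∀ j, 2 • x j = 0} ≃
        (Fin r → {z : ZMod (2 ^ a) // 2 • z = 0}) :=
      { toFun := fun x j => ⟨x.1 j, x.2 j⟩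
        invFun := fun y => ⟨fun j => (y j).1, fun j => (y j).2⟩
        left_inv := fun _ => rfl
        right_inv := fun _ => rfl }
    rw [h1, Nat.card_congr h2, Nat.card_pi, prod_const, card_univ, Fintype.card_fin,
      card_invol ha]

namespace ZMDM

/-- the sum of all the residues modulo `2 ^ a` is not `0` -/
lemma sum_univ_ne {a : ℕ} (ha : 1 ≤ a) : ∑ z : ZMod (2 ^ a), z ≠ 0 := by
  have h1 : ∑ z : ZMod (2 ^ a), z = ∑ i ∈ range (2 ^ a), (i : ZMod (2 ^ a)) := by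
    symm
    refine sum_nbij (fun i => (i : ZMod (2 ^ a))) ?_ ?_ ?_ ?_
    · intro i _
      exact mem_univ _
    · intro i hi j hj h
      have hi' : i < 2 ^ a := mem_range.1 (mem_coe.1 hi)
      have hj' : j < 2 ^ a := mem_range.1 (mem_coe.1 hj)
      have h2 := congrArg ZMod.val h
      simp only [ZMod.val_natCast] at h2
      rwa [Nat.mod_eq_of_lt hi', Nat.mod_eq_of_lt hj'] at h2
    · intro z _
      exact ⟨z.val, mem_coe.2 (mem_range.2 (ZMod.val_lt z)), ZMod.natCast_zmod_val z⟩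
    · intro i _
      rfl
  rw [h1, ← Nat.cast_sum, Ne, ZMod.natCast_eq_zero_iff]
  intro h
  have h2 := Finset.sum_range_id_mul_two (2 ^ a)
  obtain ⟨m, hm⟩ := h
  rw [hm] at h2
  have hp0 : 0 < 2 ^ a := by positivity
  have h3 : m * 2 = 2 ^ a - 1 := by
    have : 2 ^ a * (m * 2) = 2 ^ a * (2 ^ a - 1) := by rw [← h2]; ring
    exact Nat.eq_of_mul_eq_mul_left hp0 this
  have hp : 2 ^ a = 2 * 2 ^ (a - 1) := by rw [← pow_succ', Nat.sub_add_cancel ha]
  omega

end ZMDM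

open ZMDM in
/-- LOWZ: the lower bound -/
theorem lowz {r a : ℕ} (hr : 1 ≤ r) (ha : 1 ≤ a) : ∃ A : Finset (Fin r → ZMod (2 ^ a)),
    #A = 2 ^ (r - 1) * 2 ^ a ∧ ¬ Hit A (2 ^ a) 0 := by
  classical
  have h2 : 2 ≤ 2 ^ a := by
    calc 2 = 2 ^ 1 := (pow_one 2).symm
      _ ≤ 2 ^ a := Nat.pow_le_pow_right (by norm_num) ha
  have : Fact (1 < 2 ^ a) := ⟨h2⟩
  obtain ⟨t, rfl⟩ : ∃ t, r = t + 1 := ⟨r - 1, by omega⟩
  have h01 : #({0, 1} : Finset (ZMod (2 ^ a))) = 2 := card_pair zero_ne_one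
  let B : Fin (t + 1) → Finset (ZMod (2 ^ a)) := fun i => if i = 0 then univ else {0, 1}
  refine ⟨Fintype.piFinset B, ?_, ?_⟩
  · rw [Fintype.card_piFinset, Fin.prod_univ_succ]
    have hB0 : #(B 0) = 2 ^ a := by
      simp only [B, if_true]
      rw [card_univ, ZMod.card]
    have hB1 : ∀ i : Fin t, #(B i.succ) = 2 := by
      intro i
      simp only [B, if_neg (Fin.succ_ne_zero i)]
      exact h01
    rw [hB0]
    simp only [hB1, prod_const, card_univ, Fintype.card_fin]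
    rw [Nat.add_sub_cancel, mul_comm]
  · rintro ⟨T, hT, hTc, hTs⟩
    have hs : ∀ j, ∑ x ∈ T, x j = 0 := by
      intro j
      have h3 := congrFun hTs j
      rw [Finset.sum_apply] at h3
      exact h3
    have hbit : ∀ j : Fin t, ∀ x ∈ T, x j.succ = 0 ∨ x j.succ = 1 := by
      intro j x hx
      have h3 := Fintype.mem_piFinset.1 (hT hx) j.succ
      simp only [B, if_neg (Fin.succ_ne_zero j)] at h3
      rwa [mem_insert, mem_singleton] at h3
    choose ε hε using fun j : Fin t =>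
      RN.LOWNM.bits h2 (f := fun x : Fin (t + 1) → ZMod (2 ^ a) => x j.succ)
        (hbit j) hTc (hs j.succ)
    have hinj : Set.InjOn (fun x : Fin (t + 1) → ZMod (2 ^ a) => x 0) T := by
      intro x hx y hy hxy
      funext j
      refine Fin.cases ?_ (fun j => ?_) j
      · exact hxy
      · exact (hε j x hx).trans (hε j y hy).symm
    have h3 : T.image (fun x => x 0) = univ := by
      refine eq_univ_of_card _ ?_
      rw [card_image_of_injOn hinj, hTc, ZMod.card]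
    have h4 : ∑ z : ZMod (2 ^ a), z = ∑ x ∈ T, x 0 := by
      rw [← h3, sum_image hinj]
    exact sum_univ_ne ha (h4.trans (hs 0))

end Pool.Agent.Lib.MPa7239a.EX
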