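import Pool.Agent.Lib.MP_a7239a_co.EX.ENDI
import Pool.Agent.Lib.MP_a7239a_co.EX.INV
import Pool.Agent.Lib.MP_a7239a_co.EX.ZMD
import Pool.Agent.Lib.MP_a7239a_co.EX.STRU

/-!
# EX, module INVF: the theorem for sets in `(Z / 2 ^ a) ^ r` and the extremal sets
-/

set_option autoImplicit false

universe u v w

open Finset

namespace Pool.Agent.Lib.MPa7239a.EX

open Pool.Agent.Lib.MPa7239a.GC (Hit)

open Classical in
/-- the extremal sets -/
theorem extremal (r : ℕ) (hr : 1 ≤ r) : ∃ a₀ : ℕ, ∀ a ≥ a₀, ∀ (G : Type u)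
    [AddCommGroup G] [Finite G], Homo G a r → Nat.card G ≤ (2 ^ a) ^ r → ∀ A : Finset G,
    ¬ Hit A (2 ^ a) 0 → 2 ^ (r - 1) * 2 ^ a ≤ #A →
    #A = 2 ^ (r - 1) * 2 ^ a ∧ ∃ x l : Fin (2 ^ (r - 1)) → G, Hv 0 x l ∧
      (∀ k, addOrderOf (l k) = 2 ^ a) ∧
      ∀ g, g ∈ A ↔ ∃ k, g - x k ∈ AddSubgroup.zmultiples (l k) := by
  obtain ⟨a₀, h⟩ := stru r hr (1 / (128 * 2 ^ (r - 1))) (by positivity)
  refine ⟨max a₀ 10, fun a ha G _ _ hG hc A hN hA => ?_⟩
  have ha1 : a₀ ≤ a := (le_max_left _ _).trans ha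
  have ha2 : 10 ≤ a := (le_max_right _ _).trans ha
  obtain ⟨x, l, hv, hm⟩ := h a ha1 G hG hc A hN hA
  have : Fintype G := Fintype.ofFinite G
  set A' : Fin (2 ^ (r - 1)) → Finset G := fun k =>
    A.filter fun g => g - x k ∈ AddSubgroup.zmultiples (l k) with hA'
  have hord : ∀ k, addOrderOf (l k) = 2 ^ a := fun k => ENDBaux.order hG (by omega) (hv.hn k)
  have hlc : ∀ k, Nat.card (AddSubgroup.zmultiples (l k)) = 2 ^ a := fun k => by
    rw [Nat.card_zmultiples, hord]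
  choose D hD hDc using fun k => INVM.coset (a := a) (x k) (l k) (hord k)
  have hAD : ∀ k, A' k ⊆ D k := fun k g hg => (hD k g).2 (mem_filter.1 hg).2
  have hle : ∀ k, #(A' k) ≤ 2 ^ a := fun k => by
    rw [← hDc k]
    exact card_le_card (hAD k)
  obtain ⟨s, hs⟩ : ∃ s : Fin (2 ^ (r - 1)) → ℕ, ∀ k, #(A' k) + s k = 2 ^ a :=
    ⟨fun k => 2 ^ a - #(A' k), fun k => Nat.add_sub_cancel' (hle k)⟩
  -- the defects are small
  have hsm : 64 * (∑ k, s k + 2) ≤ 2 ^ a := by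
    have h1 : ∀ k, (s k : ℝ) ≤ 1 / (128 * 2 ^ (r - 1)) * 2 ^ a := by
      intro k
      have h2 : (#(A' k) : ℝ) + s k = 2 ^ a := by exact_mod_cast hs k
      have h3 := hm k
      have h4 : ((#(A' k) : ℕ) : ℝ) = (#(A.filter fun g => g - x k ∈
        AddSubgroup.zmultiples (l k)) : ℝ) := rfl
      rw [← h4] at h3
      linarith
    have h2 : (∑ k, s k : ℝ) ≤ 2 ^ a / 128 := by
      calc (∑ k, s k : ℝ) ≤ ∑ _k : Fin (2 ^ (r - 1)), (1 / (128 * 2 ^ (r - 1)) * 2 ^ a : ℝ) :=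
            sum_le_sum fun k _ => h1 k
        _ = 2 ^ a / 128 := by
            rw [sum_const, card_univ, Fintype.card_fin, nsmul_eq_mul]
            push_cast
            field_simp
    have h3 : ((128 * ∑ k, s k : ℕ) : ℝ) ≤ ((2 ^ a : ℕ) : ℝ) := by
      push_cast
      linarith
    have h4 : 128 * ∑ k, s k ≤ 2 ^ a := by exact_mod_cast h3
    have h5 : 2 ^ 10 ≤ 2 ^ a := Nat.pow_le_pow_right (by norm_num) ha2
    omega
  -- the size of `A`
  have hdisj : ∀ k ∈ (univ : Finset (Fin (2 ^ (r - 1)))), ∀ k' ∈ (univ : Finset _), k ≠ k' →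
      Disjoint (A' k) (A' k') := by
    intro k _ k' _ hne
    rw [disjoint_left]
    intro g hg hg'
    exact hne (ENDIM.class_of hv (mem_filter.1 hg).2 (mem_filter.1 hg').2)
  obtain ⟨E, hE⟩ : ∃ E : Finset G, ∀ g, g ∈ E ↔ g ∈ A ∧
      ∀ k, g - x k ∉ AddSubgroup.zmultiples (l k) :=
    ⟨A.filter fun g => ∀ k, g - x k ∉ AddSubgroup.zmultiples (l k), fun g => mem_filter⟩
  have hsize : #A = #E + ∑ k, #(A' k) := by
    rw [← card_biUnion hdisj, ← card_union_of_disjoint]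
    · congr 1
      ext g
      simp only [mem_union, mem_filter, mem_biUnion, mem_univ, true_and, hA', hE]
      by_cases hg : ∃ k, g - x k ∈ AddSubgroup.zmultiples (l k)
      · obtain ⟨k, hk⟩ := hg
        constructor
        · intro h
          exact Or.inr ⟨k, h, hk⟩
        · rintro (h | ⟨k', h, -⟩)
          · exact h.1
          · exact h
      · push Not at hg
        constructor
        · intro h
          exact Or.inl ⟨h, hg⟩
        · rintro (h | ⟨k', h, -⟩)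
          · exact h.1
          · exact h
    · rw [disjoint_left]
      intro g hg hg'
      obtain ⟨k, -, hk⟩ := mem_biUnion.1 hg'
      exact ((hE g).1 hg).2 k (mem_filter.1 hk).2
  have hsum : ∑ k, #(A' k) + ∑ k, s k = 2 ^ (r - 1) * 2 ^ a := by
    rw [← sum_add_distrib, sum_congr rfl fun k _ => hs k, sum_const, card_univ, Fintype.card_fin,
      smul_eq_mul]
  have hE0 := endi hG ha2 hv A s hs hlc hsm hN E hE (by omega)
  have hEc : #E = 0 := by rw [hE0, card_empty]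
  have hs0 : ∑ k, s k = 0 := by omega
  have hs0' : ∀ k, s k = 0 := fun k => by
    have := single_le_sum (f := s) (fun _ _ => Nat.zero_le _) (mem_univ k)
    omega
  refine ⟨by omega, x, l, hv, hord, fun g => ⟨fun hg => ?_, ?_⟩⟩
  · by_contra hcon
    push Not at hcon
    have h1 : g ∈ E := (hE g).2 ⟨hg, hcon⟩
    rw [hE0] at h1
    exact notMem_empty _ h1
  · rintro ⟨k, hk⟩
    have h1 : A' k = D k := eq_of_subset_of_card_le (hAD k) (by
      have h2 := hs k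
      have h3 := hs0' k
      have h4 := hDc k
      omega)
    have h2 : g ∈ A' k := by rw [h1]; exact (hD k g).2 hk
    exact (mem_filter.1 h2).1

/-- the extremal sets in `(Z / 2 ^ a) ^ r` -/
theorem main (r : ℕ) (hr : 1 ≤ r) : ∃ a₀ : ℕ, ∀ a ≥ a₀, ∀ A : Finset (Fin r → ZMod (2 ^ a)),
    (2 ^ (r - 1) * 2 ^ a ≤ #A ∧ ¬ Hit A (2 ^ a) 0) ↔ (#A = 2 ^ (r - 1) * 2 ^ a ∧
      ∃ x l : Fin (2 ^ (r - 1)) → (Fin r → ZMod (2 ^ a)), (∀ k, addOrderOf (l k) = 2 ^ a) ∧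
      (∀ g, g ∈ A ↔ ∃ k, g - x k ∈ AddSubgroup.zmultiples (l k)) ∧
      ∀ b : Fin (2 ^ (r - 1)) → ℕ, ∑ k, b k = 2 ^ a → (∀ k, b k < 2 ^ a) →
        ∑ k, b k • x k ∉ Lb l b) := by
  obtain ⟨a₀, h⟩ := extremal.{0} r hr
  refine ⟨max a₀ 8, fun a ha A => ?_⟩
  have ha1 : a₀ ≤ a := (le_max_left _ _).trans ha
  have ha2 : 8 ≤ a := (le_max_right _ _).trans ha
  have hG : Homo (Fin r → ZMod (2 ^ a)) a r := homz (by omega) r
  constructor
  · rintro ⟨h1, h2⟩
    obtain ⟨h3, x, l, h4, h5, h6⟩ := h a ha1 _ hG (by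
      rw [Nat.card_eq_fintype_card, Fintype.card_fun, ZMod.card, Fintype.card_fin]) A h2 h1
    refine ⟨h3, x, l, h5, h6, fun b hb hb' => ?_⟩
    exact inv_only hG ha2 (fun k k' g hk hk' => ENDIM.class_of h4 hk hk') h5 A
      (fun g k hk => (h6 g).2 ⟨k, hk⟩) h2 b hb hb'
  · rintro ⟨h1, x, l, h2, h3, h4⟩
    exact ⟨h1.ge, inv_if hG (by omega) h2 A (fun g hg => (h3 g).1 hg) h4⟩

end Pool.Agent.Lib.MPa7239a.EX
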