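import Pool.Agent.Lib.MP_a7239a_co.EX.Defs2
import Pool.Agent.Lib.MP_a7239a_co.GC.Defs

/-! # folder EX: NFC (sums of distinct elements of a large part of a coset of a cyclic group) -/

set_option autoImplicit false

universe u

open Finset

namespace Pool.Agent.Lib.MPa7239a.EX

namespace NFCaux

variable {G : Type u} [AddCommGroup G]

open Classical in
/-- a set closed under a fixed point free involution with constant sum -/
theorem pairs {t : G} : ∀ (j : ℕ) (S : Finset G), (∀ u ∈ S, t - u ∈ S ∧ t - u ≠ u) →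
    2 * j ≤ #S → ∃ C ⊆ S, #C = 2 * j ∧ ∑ b ∈ C, b = j • t := by
  intro j
  induction j with
  | zero =>
    intro S _ _
    exact ⟨∅, empty_subset _, by simp, by simp⟩
  | succ j ih =>
    intro S hS hj
    have hne : S.Nonempty := by
      rw [← card_pos]; omega
    obtain ⟨u, hu⟩ := hne
    obtain ⟨h1, h2⟩ := hS u hu
    have hsub : ({u, t - u} : Finset G) ⊆ S := by
      intro z hz
      rcases mem_insert.1 hz with rfl | hz
      · exact hu
      · rw [mem_singleton.1 hz]; exact h1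
    have hc2 : #({u, t - u} : Finset G) = 2 := card_pair h2.symm
    have hcd : #(S \ {u, t - u}) = #S - 2 := by
      rw [card_sdiff_of_subset hsub, hc2]
    obtain ⟨C, hC, hcC, hsC⟩ := ih (S \ {u, t - u}) (by
      intro v hv
      rw [mem_sdiff] at hv
      obtain ⟨hv1, hv2⟩ := hv
      obtain ⟨h3, h4⟩ := hS v hv1
      refine ⟨mem_sdiff.2 ⟨h3, ?_⟩, h4⟩
      intro h5
      apply hv2
      rcases mem_insert.1 h5 with h5 | h5
      · rw [mem_insert, mem_singleton]
        right
        rw [← h5]; abel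
      · rw [mem_insert, mem_singleton]
        left
        have h6 := mem_singleton.1 h5
        exact sub_right_inj.1 h6) (by rw [hcd]; omega)
    have hd : Disjoint C {u, t - u} := disjoint_of_subset_left hC sdiff_disjoint
    refine ⟨C ∪ {u, t - u}, union_subset (hC.trans sdiff_subset) hsub, ?_, ?_⟩
    · rw [card_union_of_disjoint hd, hcC, hc2]; ring
    · rw [sum_union hd, hsC, sum_pair h2.symm, succ_nsmul]
      abel

/-- involutions of a cyclic group -/
theorem invol {l τ : G} {h : ℕ} (hl : addOrderOf l = 2 * h)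
    (hτ : τ ∈ AddSubgroup.zmultiples l) (h2 : 2 • τ = 0) : τ = 0 ∨ τ = h • l := by
  obtain ⟨m, rfl⟩ := AddSubgroup.mem_zmultiples_iff.1 hτ
  have h3 : (2 * m) • l = 0 := by
    rw [mul_smul]
    have : (2 : ℤ) • m • l = 2 • (m • l) := by
      rw [two_zsmul, two_nsmul]
    rw [this]; exact h2
  have h4 := addOrderOf_dvd_iff_zsmul_eq_zero.2 h3
  rw [hl] at h4
  obtain ⟨c, hc⟩ := h4
  push_cast at hc
  have h5 : m = h * c := by
    have : (2 : ℤ) * m = 2 * (h * c) := by rw [hc]; ring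
    exact mul_left_cancel₀ two_ne_zero this
  rcases Int.even_or_odd' c with ⟨d, hd | hd⟩
  · left
    rw [h5, hd]
    have : (h : ℤ) * (2 * d) = d * ((2 * h : ℕ) : ℤ) := by push_cast; ring
    rw [this, mul_smul, natCast_zsmul, ← hl, addOrderOf_nsmul_eq_zero, smul_zero]
  · right
    rw [h5, hd]
    have : (h : ℤ) * (2 * d + 1) = d * ((2 * h : ℕ) : ℤ) + (h : ℤ) := by push_cast; ring
    rw [this, add_smul, mul_smul, natCast_zsmul, natCast_zsmul, ← hl, addOrderOf_nsmul_eq_zero,
      smul_zero, zero_add]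

open Classical in
/-- the number of elements paired by `u ↦ t - u` inside `B` -/
theorem count {l x t : G} {h : ℕ} (hh : 0 < h) (hl : addOrderOf l = 2 * h) {B : Finset G}
    (hB : ∀ b ∈ B, b - x ∈ AddSubgroup.zmultiples l) (ht : t - 2 • x ∈ AddSubgroup.zmultiples l) :
    2 * #B ≤ #(B.filter fun u => t - u ∈ B ∧ t - u ≠ u) + 2 * h + 2 := by
  have hfin : Finite (AddSubgroup.zmultiples l) := by
    apply Nat.finite_of_card_ne_zero
    rw [Nat.card_zmultiples, hl]; omega
  have hFt : Fintype (AddSubgroup.zmultiples l) := Fintype.ofFinite _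
  set U : Finset G := (univ : Finset (AddSubgroup.zmultiples l)).image fun g => x + g.1 with hU
  have hUc : #U = 2 * h := by
    rw [hU, card_image_of_injective _ (fun g g' hg => Subtype.ext (add_left_cancel hg)), card_univ,
      ← Nat.card_eq_fintype_card, Nat.card_zmultiples, hl]
  have hUm : ∀ g, g - x ∈ AddSubgroup.zmultiples l → g ∈ U := by
    intro g hg
    rw [hU, mem_image]
    exact ⟨⟨g - x, hg⟩, mem_univ _, by simp⟩
  have hBU : B ⊆ U := fun b hb => hUm b (hB b hb)
  -- the fixed points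
  have h1 : #(B.filter fun u => t - u = u) ≤ 2 := by
    rcases (B.filter fun u => t - u = u).eq_empty_or_nonempty with he | ⟨u0, hu0⟩
    · rw [he]; simp
    · rw [mem_filter] at hu0
      refine (card_le_card (t := ({u0, u0 + h • l} : Finset G)) ?_).trans card_le_two
      intro u hu
      rw [mem_filter] at hu
      have h2 : u - u0 ∈ AddSubgroup.zmultiples l := by
        have := AddSubgroup.sub_mem _ (hB u hu.1) (hB u0 hu0.1)
        rwa [sub_sub_sub_cancel_right] at this
      have h3 : 2 • (u - u0) = 0 := by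
        have e1 : t = u + u := by
          have := hu.2; rw [sub_eq_iff_eq_add] at this; exact this
        have e2 : t = u0 + u0 := by
          have := hu0.2; rw [sub_eq_iff_eq_add] at this; exact this
        rw [smul_sub, two_nsmul, two_nsmul, ← e1, ← e2, sub_self]
      rw [mem_insert, mem_singleton]
      rcases invol hl h2 h3 with h4 | h4
      · left; exact sub_eq_zero.1 h4
      · right; rw [← h4]; abel
  -- the elements with partner outside
  have h2 : #(B.filter fun u => t - u ∉ B) ≤ #(U \ B) := by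
    apply card_le_card_of_injOn (fun u => t - u)
    · intro u hu
      rw [mem_coe, mem_filter] at hu
      rw [mem_coe, mem_sdiff]
      refine ⟨hUm _ ?_, hu.2⟩
      have := AddSubgroup.sub_mem _ ht (hB u hu.1)
      have e : t - u - x = t - 2 • x - (u - x) := by rw [two_nsmul]; abel
      rw [e]; exact this
    · intro u _ v _ huv
      exact sub_right_inj.1 huv
  rw [card_sdiff_of_subset hBU, hUc] at h2
  have h3 : B ⊆ ((B.filter fun u => t - u ∈ B ∧ t - u ≠ u) ∪ (B.filter fun u => t - u = u)) ∪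
      (B.filter fun u => t - u ∉ B) := by
    intro u hu
    rw [mem_union, mem_union, mem_filter, mem_filter, mem_filter]
    by_cases h4 : t - u ∈ B
    · by_cases h5 : t - u = u
      · exact Or.inl (Or.inr ⟨hu, h5⟩)
      · exact Or.inl (Or.inl ⟨hu, h4, h5⟩)
    · exact Or.inr ⟨hu, h4⟩
  have h4 := (card_le_card h3).trans ((card_union_le _ _).trans
    (Nat.add_le_add_right (card_union_le _ _) _))
  have h5 := card_le_card hBU
  rw [hUc] at h5
  omega

open Classical in
/-- a pair with prescribed sum -/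
theorem pair {l x t : G} {h : ℕ} (hh : 0 < h) (hl : addOrderOf l = 2 * h) {B : Finset G}
    (hB : ∀ b ∈ B, b - x ∈ AddSubgroup.zmultiples l) (ht : t - 2 • x ∈ AddSubgroup.zmultiples l)
    (hc : 2 * h + 3 ≤ 2 * #B) : ∃ u ∈ B, ∃ v ∈ B, u ≠ v ∧ u + v = t := by
  have h1 := count hh hl hB ht
  have h2 : (B.filter fun u => t - u ∈ B ∧ t - u ≠ u).Nonempty := by
    rw [← card_pos]; omega
  obtain ⟨u, hu⟩ := h2
  rw [mem_filter] at hu
  exact ⟨u, hu.1, t - u, hu.2.1, hu.2.2.symm, by abel⟩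

theorem sum_mem {l x : G} {C : Finset G} (hC : ∀ b ∈ C, b - x ∈ AddSubgroup.zmultiples l) :
    ∑ b ∈ C, b - #C • x ∈ AddSubgroup.zmultiples l := by
  have : ∑ b ∈ C, b - #C • x = ∑ b ∈ C, (b - x) := by
    rw [sum_sub_distrib, sum_const]
  rw [this]
  exact AddSubgroup.sum_mem _ hC

open Classical in
/-- extend a set of `j` elements by a pair -/
theorem ext_pair {l x z : G} {h : ℕ} (hh : 0 < h) (hl : addOrderOf l = 2 * h) {B : Finset G}
    (hB : ∀ b ∈ B, b - x ∈ AddSubgroup.zmultiples l) {D : Finset G} (hD : D ⊆ B)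
    (hc : 2 * h + 3 + 2 * #D ≤ 2 * #B)
    (hz : z - (#D + 2) • x ∈ AddSubgroup.zmultiples l) :
    ∃ C ⊆ B, #C = #D + 2 ∧ ∑ b ∈ C, b = z := by
  have h1 : ∀ b ∈ B \ D, b - x ∈ AddSubgroup.zmultiples l :=
    fun b hb => hB b (mem_sdiff.1 hb).1
  have h2 : z - ∑ b ∈ D, b - 2 • x ∈ AddSubgroup.zmultiples l := by
    have := AddSubgroup.sub_mem _ hz (sum_mem (C := D) (fun b hb => hB b (hD hb)))
    have e : z - ∑ b ∈ D, b - 2 • x = z - (#D + 2) • x - (∑ b ∈ D, b - #D • x) := by
      rw [add_smul]; abel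
    rw [e]; exact this
  obtain ⟨u, hu, v, hv, huv, hs⟩ := pair hh hl h1 h2 (by
    rw [card_sdiff_of_subset hD]
    have := card_le_card hD
    omega)
  rw [mem_sdiff] at hu hv
  have hd : Disjoint D {u, v} := by
    rw [disjoint_insert_right, disjoint_singleton_right]
    exact ⟨hu.2, hv.2⟩
  refine ⟨D ∪ {u, v}, union_subset hD ?_, ?_, ?_⟩
  · intro w hw
    rcases mem_insert.1 hw with rfl | hw
    · exact hu.1
    · rw [mem_singleton.1 hw]; exact hv.1
  · rw [card_union_of_disjoint hd, card_pair huv]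
  · rw [sum_union hd, sum_pair huv, hs]; abel

open Classical in
/-- extend a small set `D` and a pair by pairs `{u, t - u}` -/
theorem ext_pairs {l x z : G} {h : ℕ} (hh : 0 < h) (hl : addOrderOf l = 2 * h) {B : Finset G}
    (hB : ∀ b ∈ B, b - x ∈ AddSubgroup.zmultiples l) {D : Finset G} (hD : D ⊆ B) (j : ℕ)
    (hc : 2 * h + 2 * j + 6 + 2 * #D ≤ 2 * #B)
    (hz : z - (#D + 2 + 2 * j) • x ∈ AddSubgroup.zmultiples l) :
    ∃ C ⊆ B, #C = #D + 2 + 2 * j ∧ ∑ b ∈ C, b = z := by
  obtain ⟨C1, hC1, hcC1, hsC1⟩ := ext_pair (z := z - j • (2 • x)) hh hl hB hD (by omega) (by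
    have e : z - j • (2 • x) - (#D + 2) • x = z - (#D + 2 + 2 * j) • x := by
      rw [smul_smul, sub_sub, ← add_smul]
      congr 2
      ring
    rw [e]; exact hz)
  have h1 : ∀ b ∈ B \ C1, b - x ∈ AddSubgroup.zmultiples l :=
    fun b hb => hB b (mem_sdiff.1 hb).1
  have h2 : (2 • x) - 2 • x ∈ AddSubgroup.zmultiples l := by
    rw [sub_self]; exact AddSubgroup.zero_mem _
  have h3 := count hh hl h1 h2
  rw [card_sdiff_of_subset hC1, hcC1] at h3
  obtain ⟨C2, hC2, hcC2, hsC2⟩ := pairs (t := 2 • x) j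
    ((B \ C1).filter fun u => 2 • x - u ∈ B \ C1 ∧ 2 • x - u ≠ u) (by
      intro u hu
      rw [mem_filter] at hu
      refine ⟨mem_filter.2 ⟨hu.2.1, ?_, ?_⟩, hu.2.2⟩
      · rw [sub_sub_cancel]; exact hu.1
      · rw [sub_sub_cancel]; exact hu.2.2.symm) (by omega)
  have hC2' : C2 ⊆ B \ C1 := hC2.trans (filter_subset _ _)
  have hd : Disjoint C1 C2 := disjoint_of_subset_right hC2' disjoint_sdiff
  refine ⟨C1 ∪ C2, union_subset hC1 (hC2'.trans sdiff_subset), ?_, ?_⟩
  · rw [card_union_of_disjoint hd, hcC1, hcC2]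
  · rw [sum_union hd, hsC1, hsC2]; abel

open Classical in
/-- the case `2 * k ≤ #B` -/
theorem half {l x z : G} {a : ℕ} (hl : addOrderOf l = 2 ^ a) {B : Finset G}
    (hB : ∀ b ∈ B, b - x ∈ AddSubgroup.zmultiples l) (hc : 7 * 2 ^ a ≤ 8 * #B) {k : ℕ}
    (hk : 2 ≤ k) (hk' : k + 2 ≤ #B) (hk2 : 2 * k ≤ #B)
    (hz : z - k • x ∈ AddSubgroup.zmultiples l) :
    ∃ C ⊆ B, #C = k ∧ ∑ b ∈ C, b = z := by
  have hUc : #B ≤ 2 ^ a := by
    have hfin : Finite (AddSubgroup.zmultiples l) := by
      apply Nat.finite_of_card_ne_zero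
      rw [Nat.card_zmultiples, hl]; positivity
    have hFt : Fintype (AddSubgroup.zmultiples l) := Fintype.ofFinite _
    have h1 : #((univ : Finset (AddSubgroup.zmultiples l)).image fun g => x + g.1) = 2 ^ a := by
      rw [card_image_of_injective _ (fun g g' hg => Subtype.ext (add_left_cancel hg)), card_univ,
        ← Nat.card_eq_fintype_card, Nat.card_zmultiples, hl]
    rw [← h1]
    apply card_le_card
    intro b hb
    rw [mem_image]
    exact ⟨⟨b - x, hB b hb⟩, mem_univ _, by simp⟩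
  have ha : a ≠ 0 := by
    rintro rfl
    rw [pow_zero] at hUc
    omega
  obtain ⟨a', rfl⟩ := Nat.exists_eq_succ_of_ne_zero ha
  have hp : 0 < 2 ^ a' := by positivity
  have hl' : addOrderOf l = 2 * 2 ^ a' := by rw [hl, pow_succ']
  rw [pow_succ'] at hc hUc
  by_cases hs : a' ≤ 2
  · -- small orders
    have h1 : 2 * 2 ^ a' ≤ #B + 1 := by
      interval_cases a' <;> omega
    obtain ⟨D, hD, hcD⟩ := exists_subset_card_eq (show k - 2 ≤ #B by omega)
    have h3 : 2 * 2 ^ a' + 3 + 2 * #D ≤ 2 * #B := by rw [hcD]; omega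
    have h4 : #D + 2 = k := by omega
    obtain ⟨C, hC, hcC, hsC⟩ := ext_pair (z := z) hp hl' hB hD h3 (by rw [h4]; exact hz)
    exact ⟨C, hC, by rw [hcC, h4], hsC⟩
  · have h8 : 8 ≤ 2 ^ a' := by
      calc 8 = 2 ^ 3 := by norm_num
        _ ≤ 2 ^ a' := Nat.pow_le_pow_right (by norm_num) (by omega)
    rcases Nat.even_or_odd' k with ⟨m, hm | hm⟩
    · obtain ⟨C, hC, hcC, hsC⟩ := ext_pairs (z := z) hp hl' hB (empty_subset B) (m - 1) (by
        rw [card_empty]; omega) (by
        rw [card_empty, show 0 + 2 + 2 * (m - 1) = k by omega]; exact hz)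
      exact ⟨C, hC, by rw [hcC, card_empty]; omega, hsC⟩
    · obtain ⟨b0, hb0⟩ : B.Nonempty := by rw [← card_pos]; omega
      obtain ⟨C, hC, hcC, hsC⟩ := ext_pairs (z := z) hp hl' hB (singleton_subset_iff.2 hb0) (m - 1) (by
        rw [card_singleton]; omega) (by
        rw [card_singleton, show 1 + 2 + 2 * (m - 1) = k by omega]; exact hz)
      exact ⟨C, hC, by rw [hcC, card_singleton]; omega, hsC⟩

open Classical in
/-- all `k` -/
theorem full {l x z : G} {a : ℕ} (hl : addOrderOf l = 2 ^ a) {B : Finset G}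
    (hB : ∀ b ∈ B, b - x ∈ AddSubgroup.zmultiples l) (hc : 7 * 2 ^ a ≤ 8 * #B) {k : ℕ}
    (hk : 2 ≤ k) (hk' : k + 2 ≤ #B)
    (hz : z - k • x ∈ AddSubgroup.zmultiples l) :
    ∃ C ⊆ B, #C = k ∧ ∑ b ∈ C, b = z := by
  by_cases hk2 : 2 * k ≤ #B
  · exact half hl hB hc hk hk' hk2 hz
  · obtain ⟨C, hC, hcC, hsC⟩ := half (z := ∑ b ∈ B, b - z) (k := #B - k) hl hB hc (by omega)
      (by omega) (by omega) (by
        have := AddSubgroup.sub_mem _ (sum_mem hB) hz
        have e : ∑ b ∈ B, b - z - (#B - k) • x = ∑ b ∈ B, b - #B • x - (z - k • x) := by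
          have h1 : #B • x = (#B - k) • x + k • x := by
            rw [← add_smul, Nat.sub_add_cancel (by omega)]
          rw [h1]; abel
        rw [e]; exact this)
    refine ⟨B \ C, sdiff_subset, ?_, ?_⟩
    · rw [card_sdiff_of_subset hC, hcC]; omega
    · have := sum_sdiff (f := fun b : G => b) hC
      rw [hsC] at this
      rw [← sub_eq_zero] at this
      have e : ∑ b ∈ B \ C, b - z = ∑ b ∈ B \ C, b + (∑ b ∈ B, b - z) - ∑ b ∈ B, b := by abel
      rw [← sub_eq_zero, e]
      exact this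

end NFCaux

open Pool.Agent.Lib.MPa7239a.GC (Hit)

variable {G : Type u} [AddCommGroup G] {a : ℕ}

/-- NFC: almost all of a cyclic coset -/
theorem nfc (ha : 8 ≤ a) {B : Finset G} {x l : G} (hl : addOrderOf l = 2 ^ a)
    (hB : ∀ b ∈ B, b - x ∈ AddSubgroup.zmultiples l) (hc : 7 * 2 ^ a ≤ 8 * #B) {k : ℕ}
    (hk : 2 ≤ k) (hk' : k + 2 ≤ #B) {g : G} (hg : g - k • x ∈ AddSubgroup.zmultiples l) :
    Hit B k g := by
  have _ := ha
  obtain ⟨C, hC, hcC, hsC⟩ := NFCaux.full hl hB hc hk hk' hg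
  exact ⟨C, hC, hcC, hsC⟩

end Pool.Agent.Lib.MPa7239a.EX
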