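import Pool.Agent.Lib.MP_a7239a_co.EX.Defs
import Pool.Agent.Lib.MP_a7239a_co.W2.HARB

/-! # folder EX: statements of the modules, part 1 (the theorem LT on families of cosets) -/

set_option autoImplicit false

universe u v w

open Finset

namespace Pool.Agent.Lib.MPa7239a.EXSpec

open Pool.Agent.Lib.MPa7239a.EX

variable {G : Type u} [AddCommGroup G] {a r : ℕ} {ι : Type v}

/-- DISJ -/
theorem disj [Finite G] (hG : Homo G a r) (hr : 1 ≤ r) {i : ℕ} (hi : i < a) {y : ι → G}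
    {H : ι → AddSubgroup G} {I : Finset ι} (hF : Fam i y H I)
    (hd : ∀ k ∈ I, ∀ k' ∈ I, k ≠ k' → ¬ Meet i (y k) (H k) (y k') (H k')) : #I ≤ 2 ^ (r - 1) := by
  sorry

/-- DISJ -/
theorem disj_cover [Finite G] (hG : Homo G a r) (hr : 1 ≤ r) {i : ℕ} (hi : i < a) {y : ι → G}
    {H : ι → AddSubgroup G} {I : Finset ι} (hF : Fam i y H I)
    (hd : ∀ k ∈ I, ∀ k' ∈ I, k ≠ k' → ¬ Meet i (y k) (H k) (y k') (H k'))
    (hc : #I = 2 ^ (r - 1)) (z : G) (hz : z ∈ V G i) : ∃ k ∈ I, z - y k ∈ H k ⊔ V G (i + 1) := by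
  sorry

/-- CYC -/
theorem cyc (hG : Homo G a r) {i : ℕ} (hi : i + 1 < a) {H H' : AddSubgroup G} (h1 : H ≤ V G i)
    (h1' : H' ≤ V G i) (h2 : ¬ H ≤ V G (i + 1)) (h2' : ¬ H' ≤ V G (i + 1))
    (h3 : ∃ l, (H ⊔ H') ⊓ V G (i + 1) = AddSubgroup.zmultiples l) :
    ∃ g ∈ V G i, g ∉ V G (i + 1) ∧ H = AddSubgroup.zmultiples g ∧
      H' = AddSubgroup.zmultiples g := by
  sorry

/-- CYC: involutions decide -/
theorem cyc_inv (hG : Homo G a r) {i : ℕ} (hi : i < a) {M : AddSubgroup G} {l : G}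
    (hM : M ≤ V G i) (hl : l ∈ M) (hl' : l ∉ V G (i + 1))
    (h : ∀ τ ∈ M, 2 • τ = 0 → τ ∈ AddSubgroup.zmultiples l) : M = AddSubgroup.zmultiples l := by
  sorry

/-- CYC: a subgroup of a line not in `V (i + 1)` is the line -/
theorem cyc_sub (hG : Homo G a r) {i : ℕ} {H : AddSubgroup G} {l : G} (hl : l ∈ V G i)
    (h1 : H ≤ AddSubgroup.zmultiples l) (h2 : ¬ H ≤ V G (i + 1)) :
    H = AddSubgroup.zmultiples l := by
  sorry

/-- PSI -/
theorem ps_comm (i : ℕ) (y : ι → G) (H : ι → AddSubgroup G) (k k' : ι) :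
    ps i y H k k' = ps i y H k' k := by
  sorry

/-- PSI -/
theorem ps_nonempty {i : ℕ} {y : ι → G} {H : ι → AddSubgroup G} {k k' : ι}
    (hk : y k' ∈ V G i) (h : Meet i (y k) (H k) (y k') (H k')) : (ps i y H k k').Nonempty := by
  sorry

/-- PSI -/
theorem ps_cs {i : ℕ} {y : ι → G} {H : ι → AddSubgroup G} {p : ι × ι}
    (h : (ps i y H p.1 p.2).Nonempty) :
    cs (Zp i y H p) (Kp i H p) = ps i y H p.1 p.2 := by
  sorry

/-- PSI: if the value of a pair is a line, the two members have the same group, a line -/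
theorem ps_line (hG : Homo G a r) {i : ℕ} (hi : i + 1 < a) {y : ι → G} {H : ι → AddSubgroup G}
    {I : Finset ι} (hF : Fam i y H I) {k k' : ι} (hk : k ∈ I) (hk' : k' ∈ I)
    (hn : (ps i y H k k').Nonempty) (h : Ln (i + 1) (ps i y H k k')) :
    ∃ g ∈ V G i, g ∉ V G (i + 1) ∧ H k = AddSubgroup.zmultiples g ∧
      H k' = AddSubgroup.zmultiples g := by
  sorry

/-- PSI: the value of a pair and one member determine the coset of the other -/
theorem ps_inj {i : ℕ} {y : ι → G} {H : ι → AddSubgroup G} {k m m' : ι}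
    (hn : (ps i y H k m).Nonempty) (h1 : H k = H m) (h2 : H m = H m')
    (h : ps i y H k m = ps i y H k m') : cs (y m) (H m) = cs (y m') (H m') := by
  sorry

/-- MATCH -/
theorem mat_fam (hG : Homo G a r) {i : ℕ} (hi : i + 1 < a) {y : ι → G} {H : ι → AddSubgroup G}
    {I : Finset ι} (hF : Fam i y H I) {P : Finset (ι × ι)} (hP : Mat i y H I P) :
    Fam (i + 1) (Zp i y H) (Kp i H) P := by
  sorry

/-- MATCH -/
theorem mat_nohit {i : ℕ} (hi : i < a) {y : ι → G} {H : ι → AddSubgroup G}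
    {I : Finset ι} (hF : Fam i y H I) (hN : NoHit (2 ^ (a - i)) y H I) {P : Finset (ι × ι)}
    (hP : Mat i y H I P) : NoHit (2 ^ (a - (i + 1))) (Zp i y H) (Kp i H) P := by
  sorry

/-- MATCH: a maximum matching; the unmatched members do not meet -/
theorem mat_max (i : ℕ) (y : ι → G) (H : ι → AddSubgroup G) (I : Finset ι) :
    ∃ P, Mat i y H I P ∧ ∀ P', Mat i y H I P' → #P' ≤ #P := by
  sorry

/-- MATCH: the unmatched members of a maximum matching do not meet -/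
theorem mat_unm {i : ℕ} {y : ι → G} {H : ι → AddSubgroup G} {I : Finset ι}
    {P : Finset (ι × ι)} (hP : Mat i y H I P) (hmax : ∀ P', Mat i y H I P' → #P' ≤ #P) {k k' : ι}
    (hk : k ∈ I) (hk' : k' ∈ I) (hne : k ≠ k') (h1 : ∀ p ∈ P, p.1 ≠ k ∧ p.2 ≠ k)
    (h1' : ∀ p ∈ P, p.1 ≠ k' ∧ p.2 ≠ k') : ¬ Meet i (y k) (H k) (y k') (H k') := by
  sorry

/-- MATCH: the number of matched members -/
theorem mat_card {i : ℕ} {y : ι → G} {H : ι → AddSubgroup G} {I : Finset ι}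
    {P : Finset (ι × ι)} (hP : Mat i y H I P) (U : Finset ι)
    (hU : ∀ k, k ∈ U ↔ k ∈ I ∧ ∀ p ∈ P, p.1 ≠ k ∧ p.2 ≠ k) : #I = 2 * #P + #U := by
  sorry

/-- MATCH: the size of a maximum matching -/
theorem mat_size [Finite G] (hG : Homo G a r) (hr : 1 ≤ r) {i : ℕ} (hi : i < a) {y : ι → G}
    {H : ι → AddSubgroup G} {I : Finset ι} (hF : Fam i y H I) {P : Finset (ι × ι)}
    (hP : Mat i y H I P) (hmax : ∀ P', Mat i y H I P' → #P' ≤ #P) :
    #I ≤ 2 * #P + 2 ^ (r - 1) := by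
  sorry

open Classical in
/-- MATCH: the number of pairs with a given value -/
theorem mat_cnt {i : ℕ} {y : ι → G} {H : ι → AddSubgroup G} {I : Finset ι} (hF : Fam i y H I)
    {P : Finset (ι × ι)} (hP : Mat i y H I P) (t : Set G) :
    cnt (Zp i y H) (Kp i H) P t = #(P.filter fun p => ps i y H p.1 p.2 = t) := by
  sorry

/-- SWAP: turning a pair -/
theorem mat_flip {i : ℕ} {y : ι → G} {H : ι → AddSubgroup G} {I : Finset ι} (hF : Fam i y H I)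
    {P : Finset (ι × ι)} (hP : Mat i y H I P) {p : ι × ι} (hp : p ∈ P) :
    ∃ P', Mat i y H I P' ∧ #P' = #P ∧ p.swap ∈ P' ∧ (∀ q ∈ P, q ≠ p → q ∈ P') ∧
      ∀ t, cnt (Zp i y H) (Kp i H) P' t = cnt (Zp i y H) (Kp i H) P t := by
  sorry

open Classical in
/-- SWAP: exchange of partners in two pairs -/
theorem mat_swap {i : ℕ} {y : ι → G} {H : ι → AddSubgroup G} {I : Finset ι} (hF : Fam i y H I)
    {P : Finset (ι × ι)} (hP : Mat i y H I P) {p p' : ι × ι} (hp : p ∈ P) (hp' : p' ∈ P)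
    (hne : p ≠ p') (h1 : Meet i (y p.1) (H p.1) (y p'.1) (H p'.1))
    (h2 : Meet i (y p.2) (H p.2) (y p'.2) (H p'.2)) (t : Set G)
    (ht : ps i y H p.1 p.2 = t) (ht' : ps i y H p'.1 p'.2 = t)
    (hn1 : ps i y H p.1 p'.1 ≠ t) (hn2 : ps i y H p.2 p'.2 ≠ t) :
    ∃ P', Mat i y H I P' ∧ #P' = #P ∧
      cnt (Zp i y H) (Kp i H) P' t + 2 = cnt (Zp i y H) (Kp i H) P t := by
  sorry

open Classical in
/-- SWAP: an unmatched member replaces a partner -/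
theorem mat_swap_one {i : ℕ} {y : ι → G} {H : ι → AddSubgroup G} {I : Finset ι}
    (hF : Fam i y H I) {P : Finset (ι × ι)} (hP : Mat i y H I P) {p : ι × ι} (hp : p ∈ P) {u : ι}
    (hu : u ∈ I) (hu' : ∀ q ∈ P, q.1 ≠ u ∧ q.2 ≠ u)
    (h : Meet i (y p.1) (H p.1) (y u) (H u)) :
    ∃ P', Mat i y H I P' ∧ #P' = #P ∧ (∀ t, cnt (Zp i y H) (Kp i H) P' t +
      (if ps i y H p.1 p.2 = t then 1 else 0) = cnt (Zp i y H) (Kp i H) P t +
      (if ps i y H p.1 u = t then 1 else 0)) ∧ (p.1, u) ∈ P' := by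
  sorry

open Classical in
/-- SWAP: the same with the second member of the pair -/
theorem mat_swap_two {i : ℕ} {y : ι → G} {H : ι → AddSubgroup G} {I : Finset ι}
    (hF : Fam i y H I) {P : Finset (ι × ι)} (hP : Mat i y H I P) {p : ι × ι} (hp : p ∈ P) {u : ι}
    (hu : u ∈ I) (hu' : ∀ q ∈ P, q.1 ≠ u ∧ q.2 ≠ u)
    (h : Meet i (y p.2) (H p.2) (y u) (H u)) :
    ∃ P', Mat i y H I P' ∧ #P' = #P ∧ (∀ t, cnt (Zp i y H) (Kp i H) P' t +
      (if ps i y H p.1 p.2 = t then 1 else 0) = cnt (Zp i y H) (Kp i H) P t +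
      (if ps i y H p.2 u = t then 1 else 0)) ∧ (p.2, u) ∈ P' := by
  sorry

/-- HARBI -/
theorem harbi [Finite G] (hG : Homo G a r) (hr : 1 ≤ r) {i : ℕ} (hi : i < a) {y : ι → G}
    {H : ι → AddSubgroup G} {I : Finset ι} (hF : Fam i y H I)
    (hN : NoHit (2 ^ (a - i)) y H I) : #I ≤ 2 ^ (r - 1) * (2 ^ (a - i) - 1) := by
  sorry

/-- HARBI: one coset occurs at most `2 ^ (a - i) - 1` times -/
theorem cnt_le (hG : Homo G a r) {i : ℕ} (hi : i ≤ a) {y : ι → G}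
    {H : ι → AddSubgroup G} {I : Finset ι} (hF : Fam i y H I)
    (hN : NoHit (2 ^ (a - i)) y H I) (t : Set G) : cnt y H I t + 1 ≤ 2 ^ (a - i) := by
  sorry

/-- EBASE -/
theorem ebase [Finite G] (hG : Homo G a r) (hr : 1 ≤ r) {i : ℕ} (hi : i + 1 = a) {y : ι → G}
    {H : ι → AddSubgroup G} {I : Finset ι} (hF : Fam i y H I) (hN : NoHit (2 ^ (a - i)) y H I)
    (hI : 2 ^ (r - 1) * (2 ^ (a - i) - 1) ≤ #I) : Str a r i 0 y H I := by
  sorry

/-- ESTEP -/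
theorem estep [Finite G] (hG : Homo G a r) (hr : 1 ≤ r) {i : ℕ} (hi : i + 1 < a) {y : ι → G}
    {H : ι → AddSubgroup G} {I : Finset ι} (hF : Fam i y H I) (hN : NoHit (2 ^ (a - i)) y H I)
    (hI : 2 ^ (r - 1) * (2 ^ (a - i) - 1) ≤ #I)
    (IH : ∀ P, Mat i y H I P → 2 ^ (r - 1) * (2 ^ (a - (i + 1)) - 1) ≤ #P →
      Str a r (i + 1) 0 (Zp i y H) (Kp i H) P) : Str a r i 0 y H I := by
  sorry

/-- NSTEP -/
theorem nstep [Finite G] (hG : Homo G a r) (hr : 1 ≤ r) {i d' : ℕ} (hi : i + 1 < a)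
    (hq : 3 * d' + 2 ^ (r - 1) + 4 ≤ 2 ^ (a - (i + 1))) {y : ι → G}
    {H : ι → AddSubgroup G} {I : Finset ι} (hF : Fam i y H I) (hN : NoHit (2 ^ (a - i)) y H I)
    {P : Finset (ι × ι)} (hP : Mat i y H I P)
    (IH : ∀ P', Mat i y H I P' → #P' = #P → Str a r (i + 1) d' (Zp i y H) (Kp i H) P') :
    ∃ T : Finset (Set G), #T = 2 ^ (r - 1) ∧
      ∀ t ∈ T, Ln i t ∧ 2 ^ (a - i) ≤ cnt y H I t + 4 * d' + 2 * 2 ^ (r - 1) := by
  sorry

/-- NOMEET -/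
theorem nomeet (hG : Homo G a r) {i : ℕ} (hi : i < a) {y : ι → G} {H : ι → AddSubgroup G}
    {I : Finset ι} (hF : Fam i y H I) (hN : NoHit (2 ^ (a - i)) y H I) {x l x' l' : G}
    (hne : cs x (AddSubgroup.zmultiples l) ≠ cs x' (AddSubgroup.zmultiples l'))
    (h : 2 ^ (a - i) ≤ 2 * cnt y H I (cs x (AddSubgroup.zmultiples l)))
    (h' : 2 ^ (a - i) ≤ 2 * cnt y H I (cs x' (AddSubgroup.zmultiples l'))) :
    ¬ Meet i x (AddSubgroup.zmultiples l) x' (AddSubgroup.zmultiples l') := by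
  sorry

/-- HVM: `2 ^ (r - 1)` lines which do not meet are heavy -/
theorem hv_mk [Finite G] (hG : Homo G a r) (hr : 1 ≤ r) {i : ℕ} (hi : i < a)
    (T : Finset (Set G)) (hT : #T = 2 ^ (r - 1)) (hL : ∀ t ∈ T, Ln i t)
    (hd : ∀ x l x' l' : G, cs x (AddSubgroup.zmultiples l) ∈ T →
      cs x' (AddSubgroup.zmultiples l') ∈ T →
      cs x (AddSubgroup.zmultiples l) ≠ cs x' (AddSubgroup.zmultiples l') →
      ¬ Meet i x (AddSubgroup.zmultiples l) x' (AddSubgroup.zmultiples l')) :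
    ∃ x l : {t // t ∈ T} → G, Hv i x l ∧ ∀ t, t.1 = cs (x t) (AddSubgroup.zmultiples (l t)) := by
  sorry

/-- HVM -/
theorem hv_up (hG : Homo G a r) {i : ℕ} (hi : i + 1 < a) {κ : Type w} {x l : κ → G}
    (h : Hv i x l) : Hv (i + 1) (fun k => 2 • x k) (fun k => 2 • l k) := by
  sorry

/-- HVM: the last level -/
theorem hv_last (hG : Homo G a r) {i : ℕ} (hi : i < a) {κ : Type w} {x l : κ → G}
    (h : Hv i x l) : Hv (a - 1) (fun k => 2 ^ (a - 1 - i) • x k)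
      (fun k => 2 ^ (a - 1 - i) • l k) := by
  sorry

/-- PATH: the destination of an element -/
theorem path (hG : Homo G a r) {κ : Type w} [Fintype κ] {i : ℕ} (hi : i < a) {x l : κ → G}
    (h : Hv i x l) (K : AddSubgroup G) (z : G) (hz : z ∈ V G i) :
    ∃ (j : ℕ) (t : κ) (b : κ → ℕ), i + j < a ∧ ∑ k, b k = 2 ^ j - 1 ∧
      (j = 0 ∨ b t + 1 ≤ 2 ^ (j - 1)) ∧
      z + ∑ k, b k • x k - 2 ^ j • x t ∈ K ⊔ Lb l b ⊔ AddSubgroup.zmultiples (l t) := by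
  sorry

/-- DEST: the destination of an exceptional member -/
theorem dest (hG : Homo G a r) {κ : Type w} [Fintype κ] {i : ℕ} (hi : i + 1 < a) {x l : κ → G}
    (h : Hv i x l) (y : G) (hy : y ∈ V G i) (H : AddSubgroup G) (hH : H ≤ V G i)
    (hH' : ¬ H ≤ V G (i + 1)) (hne : ∀ k, cs y H ≠ cs (x k) (AddSubgroup.zmultiples (l k))) :
    ∃ (j : ℕ) (t : κ) (b : κ → ℕ), 1 ≤ j ∧ i + j < a ∧ ∑ k, b k = 2 ^ j - 1 ∧
      b t + 1 ≤ 2 ^ (j - 1) ∧
      y + ∑ k, b k • x k - 2 ^ j • x t ∈ H ⊔ Lb l b ⊔ AddSubgroup.zmultiples (l t) := by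
  sorry

/-- FMIN: choice of few exceptional members with enough weight -/
theorem fmin {α : Type v} (E : Finset α) (w σ : α → ℕ) {s q : ℕ} (hs : 16 * (s + 1) ≤ q)
    (hw : ∀ e ∈ E, σ e ≤ 2 * w e) (hσ : ∀ e ∈ E, 2 * σ e ≤ q) (hE : s + 1 ≤ ∑ e ∈ E, w e) :
    ∃ F ⊆ E, s + 1 ≤ ∑ e ∈ F, w e ∧ 2 * ∑ e ∈ F, σ e ≤ q ∧ F.Nonempty := by
  sorry

open Classical in
/-- IMPR -/
theorem impr (hG : Homo G a r) {κ : Type w} [Fintype κ] {i : ℕ} (hi : i + 1 < a) {x l : κ → G}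
    (h : Hv i x l) {y : ι → G} {H : ι → AddSubgroup G} {I : Finset ι} (hF : Fam i y H I)
    (hN : NoHit (2 ^ (a - i)) y H I) (s : κ → ℕ)
    (hs : ∀ k, cnt y H I (cs (x k) (AddSubgroup.zmultiples (l k))) + 1 + s k = 2 ^ (a - i))
    (hs' : ∀ k, 16 * (s k + 1) ≤ 2 ^ (a - i)) :
    2 * #(I.filter fun m => ∀ k, cs (y m) (H m) ≠ cs (x k) (AddSubgroup.zmultiples (l k))) ≤
      ∑ k, s k := by
  sorry

/-- LT: the stable theorem -/
theorem lt [Finite G] (hG : Homo G a r) (hr : 1 ≤ r) : ∀ i < a, ∀ d,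
    (d = 0 ∨ 32 * (2 ^ (r - 1) + 1) * d ≤ 2 ^ (a - i)) → ∀ (ι : Type v) (y : ι → G)
    (H : ι → AddSubgroup G) (I : Finset ι), Fam i y H I → NoHit (2 ^ (a - i)) y H I →
    2 ^ (r - 1) * (2 ^ (a - i) - 1) ≤ #I + d → Str a r i d y H I := by
  sorry

end Pool.Agent.Lib.MPa7239a.EXSpec
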