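import Pool.Agent.Lib.MP_a7239a_co.EX.Defs2
import Pool.Agent.Lib.MP_a7239a_co.W2.ASM

/-! # folder EX: statements of the modules, parts 2 and 3 (cells; the end) -/

set_option autoImplicit false

universe u v w

open Finset

namespace Pool.Agent.Lib.MPa7239a.EX.Spec2

open Pool.Agent.Lib.MPa7239a.GC (Hit)
open Pool.Agent.Lib.MPa7239a.RN (Sol HW DW)

variable {G : Type u} [AddCommGroup G] {a r : ℕ}

/- `CP` is in `Defs2.lean` -/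

/-- ASMB: `W2.assem` with the pieces -/
theorem assemB (R : ℕ) (hR : 1 ≤ R) (C : ℕ) (ε' : ℝ) (hε'0 : 0 < ε') (hε'1 : ε' ≤ 1) :
    ∃ (Kmax : ℕ) (δ : ℝ), 0 < δ ∧ ∃ n₀ : ℕ, ∀ n : ℕ, n₀ ≤ n →
    ∀ (G : Type u) [AddCommGroup G] [Finite G], (∀ g : G, n • g = 0) → Nat.card G ≤ n ^ R →
    ∀ c₀ : ℝ, 0 ≤ c₀ → c₀ + 2 ≤ C →
    ∀ A : Finset G, (c₀ + ε') * n ≤ #A → ∃ K ≤ Kmax, ∃ (B : Fin K → Finset G) (x : Fin K → G)
      (H : Fin K → AddSubgroup G) (m : Fin K → ℕ) (W : Finset (Fin K)),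
      (∀ c, B c ⊆ A) ∧ (∀ c c', c ≠ c' → Disjoint (B c) (B c')) ∧
      (∀ c ∈ W, ∀ b ∈ B c, b - x c ∈ H c) ∧ (∀ c ∈ W, m c ≤ #(B c)) ∧
      (∀ c ∈ W, δ * n ≤ Nat.card (H c)) ∧ (∀ c ∈ W, δ * n ≤ m c) ∧
      (c₀ + ε' / 2) * n ≤ ∑ c ∈ W, (m c : ℝ) ∧ (Sol n x H m W → Hit A n 0) := by
  sorry

/-- GRP: disjoint groups of `2 ^ i` elements give a family without a hit -/
theorem grp {N : ℕ} {x : Fin N → G} {H : Fin N → AddSubgroup G} {m : Fin N → ℕ}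
    {W : Finset (Fin N)} (hS : ¬ Sol (2 ^ a) x H m W) {i : ℕ} (hi : i ≤ a) {ι : Type v}
    (I : Finset ι) (b : ι → Fin N → ℕ) (y : ι → G) (H' : ι → AddSubgroup G)
    (h1 : ∀ k ∈ I, ∑ c, b k c = 2 ^ i) (h2 : ∀ k ∈ I, ∀ c, c ∉ W → b k c = 0)
    (h3 : ∀ c, ∑ k ∈ I, b k c ≤ m c)
    (h4 : ∀ k ∈ I, y k - ∑ c, b k c • x c ∈ HW H (univ.filter fun c => b k c ≠ 0))
    (h5 : ∀ k ∈ I, H' k ≤ HW H (univ.filter fun c => b k c ≠ 0)) :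
    NoHit (2 ^ (a - i)) y H' I := by
  sorry

open Classical in
/-- SING: the theorem LT for the groups of `2 ^ i` elements of one cell -/
theorem sing [Finite G] (hG : Homo G a r) (hr : 1 ≤ r) {N : ℕ} {x : Fin N → G}
    {H : Fin N → AddSubgroup G} {m : Fin N → ℕ} {W : Finset (Fin N)}
    (hS : ¬ Sol (2 ^ a) x H m W) {i d : ℕ} (hi : i < a)
    (hd : d = 0 ∨ 32 * (2 ^ (r - 1) + 1) * d ≤ 2 ^ (a - i))
    (hn : ∀ c ∈ W, ¬ H c ⊓ V G i ≤ V G (i + 1))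
    (hm : 2 ^ (r - 1) * (2 ^ (a - i) - 1) ≤ ∑ c ∈ W, m c / 2 ^ i + d) :
    ∃ T : Finset (Set G), #T = 2 ^ (r - 1) ∧
      (∀ t ∈ T, Ln i t ∧ 2 ^ (a - i) ≤
        ∑ c ∈ W.filter (fun c => cs (2 ^ i • x c) (H c ⊓ V G i) = t), m c / 2 ^ i + 1 + 2 * d) ∧
      ∑ c ∈ W.filter (fun c => cs (2 ^ i • x c) (H c ⊓ V G i) ∉ T), m c / 2 ^ i ≤ d ∧
      ∀ y l y' l' : G, cs y (AddSubgroup.zmultiples l) ∈ T →
        cs y' (AddSubgroup.zmultiples l') ∈ T →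
        cs y (AddSubgroup.zmultiples l) ≠ cs y' (AddSubgroup.zmultiples l') →
        ¬ Meet i y (AddSubgroup.zmultiples l) y' (AddSubgroup.zmultiples l') := by
  sorry

/-- CYD: a subgroup all whose involutions lie in one cyclic group is cyclic -/
theorem cyd [Finite G] (hG : Homo G a r) {D : AddSubgroup G} {l : G}
    (h : ∀ τ ∈ D, 2 • τ = 0 → τ ∈ AddSubgroup.zmultiples l) :
    ∃ g, D = AddSubgroup.zmultiples g := by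
  sorry

/-- ORD: large cyclic groups -/
theorem ordh [Finite G] (hG : Homo G a r) {i : ℕ} (hi : i < a) {g : G}
    (h : 2 ^ (a - i) ≤ Nat.card (AddSubgroup.zmultiples g)) :
    ¬ AddSubgroup.zmultiples g ⊓ V G i ≤ V G (i + 1) := by
  sorry

/-- ORD: large groups -/
theorem ordl [Finite G] (hG : Homo G a r) {i : ℕ} (hi : i < a) {H : AddSubgroup G}
    (h : (2 ^ r) ^ (a - i - 1) < Nat.card H) : ¬ H ⊓ V G i ≤ V G (i + 1) := by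
  sorry

/-- ORD: a cyclic subgroup has at most `2 ^ a` elements -/
theorem ordc [Finite G] (hG : Homo G a r) (g : G) :
    Nat.card (AddSubgroup.zmultiples g) ≤ 2 ^ a := by
  sorry

/-- LNG: a maximal cyclic group -/
theorem lng [Finite G] (hG : Homo G a r) (ha : 1 ≤ a) (hr : 1 ≤ r) (g : G) :
    ∃ l, l ∉ V G 1 ∧ g ∈ AddSubgroup.zmultiples l := by
  sorry

/-- LNG: the group at level `i` of a maximal cyclic group -/
theorem lng_up (hG : Homo G a r) {i : ℕ} (hi : i < a) {l l' : G} (h1 : l' ∉ V G 1)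
    (h2 : l ∈ AddSubgroup.zmultiples l') (h3 : l ∈ V G i) (h4 : l ∉ V G (i + 1)) :
    AddSubgroup.zmultiples (2 ^ i • l') = AddSubgroup.zmultiples l := by
  sorry

/-- LNG: lines which meet at level `0` meet at level `i` -/
theorem meet_up {i : ℕ} {x l x' l' : G}
    (h : Meet 0 x (AddSubgroup.zmultiples l) x' (AddSubgroup.zmultiples l')) :
    Meet i (2 ^ i • x) (AddSubgroup.zmultiples (2 ^ i • l)) (2 ^ i • x')
      (AddSubgroup.zmultiples (2 ^ i • l')) := by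
  sorry

/-- MIX: the class `W'` of a line contains no involution outside the line -/
theorem mix [Finite G] (hG : Homo G a r) (hr : 1 ≤ r) {N : ℕ} {x : Fin N → G}
    {H : Fin N → AddSubgroup G} {m : Fin N → ℕ} {W : Finset (Fin N)}
    (hS : ¬ Sol (2 ^ a) x H m W) {i i₂ d : ℕ} (hi : i + 1 < a) (hi₂ : i₂ ≤ i)
    (hd : d = 0 ∨ 32 * (2 ^ (r - 1) + 1) * d ≤ 2 ^ (a - i))
    (hn : ∀ c ∈ W, ¬ H c ⊓ V G i ≤ V G (i + 1)) {W' : Finset (Fin N)} (hW : W' ⊆ W) {l : G}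
    (hl : ∀ c ∈ W', H c ⊓ V G i₂ = AddSubgroup.zmultiples l)
    (hx : ∀ c ∈ W', ∀ c' ∈ W', 2 ^ i₂ • (x c - x c') ∈ AddSubgroup.zmultiples l)
    (hN : 2 ^ (i₂ + 1) * N ≤ 2 ^ i) (M : Fin N → ℕ)
    (hM : ∀ c ∈ W', 2 ^ i * M c + 2 ^ (i₂ + 1) * ∑ c' ∈ W', M c' ≤ m c)
    (hM' : 2 * (d + 1) + N ≤ ∑ c ∈ W', M c)
    (hs : 2 ^ (r - 1) * (2 ^ (a - i) - 1) ≤ ∑ c ∈ W \ W', m c / 2 ^ i + ∑ c ∈ W', M c + d) :
    ∀ τ ∈ DW x H W', 2 • τ = 0 → τ ∈ AddSubgroup.zmultiples l := by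
  sorry

/-- CELA: almost all of the mass is in cells with cyclic groups -/
theorem cela (r : ℕ) (hr : 1 ≤ r) (K : ℕ) (δ η : ℝ) (hδ : 0 < δ) (hη : 0 < η)
    (hη' : 1000 * (2 ^ (r - 1) + 1) * η ≤ 1) : ∃ a₀ : ℕ, ∀ a ≥ a₀, ∀ (G : Type u)
    [AddCommGroup G] [Finite G], Homo G a r → ∀ (N : ℕ) (x : Fin N → G)
    (H : Fin N → AddSubgroup G) (m : Fin N → ℕ) (W : Finset (Fin N)), CP a r η δ K x H m W →
    ∃ W₁ ⊆ W, CP a r (8 * η) δ K x H m W₁ ∧ ∀ c ∈ W₁, ∃ g, H c = AddSubgroup.zmultiples g := by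
  sorry

/-- CELB: the classes at a bounded level -/
theorem celb (r : ℕ) (hr : 1 ≤ r) (K : ℕ) (δ η : ℝ) (hδ : 0 < δ) (hη : 0 < η)
    (hη' : 1000 * (2 ^ (r - 1) + 1) * η ≤ 1) : ∃ i₂ a₀ : ℕ, ∀ a ≥ a₀, i₂ + 1 < a ∧ ∀ (G : Type u)
    [AddCommGroup G] [Finite G], Homo G a r → ∀ (N : ℕ) (x : Fin N → G)
    (H : Fin N → AddSubgroup G) (m : Fin N → ℕ) (W : Finset (Fin N)), CP a r η δ K x H m W →
    (∀ c ∈ W, ∃ g, H c = AddSubgroup.zmultiples g) →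
    ∃ (z l : Fin (2 ^ (r - 1)) → G) (U : Fin (2 ^ (r - 1)) → Finset (Fin N)),
      (∀ k, U k ⊆ W) ∧ (∀ k, l k ∈ V G i₂ ∧ l k ∉ V G (i₂ + 1)) ∧
      (∀ k, ∀ c ∈ U k, H c ⊓ V G i₂ = AddSubgroup.zmultiples (l k) ∧
        2 ^ i₂ • x c - z k ∈ AddSubgroup.zmultiples (l k)) ∧
      (∀ k k', Meet i₂ (z k) (AddSubgroup.zmultiples (l k)) (z k')
        (AddSubgroup.zmultiples (l k')) → k = k') ∧
      ∀ k, (1 - 8 * η) * 2 ^ a ≤ ∑ c ∈ U k, (m c : ℝ) := by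
  sorry

/-- CELC: a class generates a cyclic group -/
theorem celc (r : ℕ) (hr : 1 ≤ r) (K : ℕ) (δ η : ℝ) (hδ : 0 < δ) (hη : 0 < η)
    (hη' : 1000 * (2 ^ (r - 1) + 1) * η ≤ 1) (i₂ : ℕ) : ∃ a₀ : ℕ, ∀ a ≥ a₀, ∀ (G : Type u)
    [AddCommGroup G] [Finite G], Homo G a r → ∀ (N : ℕ) (x : Fin N → G)
    (H : Fin N → AddSubgroup G) (m : Fin N → ℕ) (W : Finset (Fin N)), CP a r η δ K x H m W →
    (∀ c ∈ W, ∃ g, H c = AddSubgroup.zmultiples g) → ∀ (U : Finset (Fin N)) (z l : G), U ⊆ W →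
    (∀ c ∈ U, H c ⊓ V G i₂ = AddSubgroup.zmultiples l ∧
      2 ^ i₂ • x c - z ∈ AddSubgroup.zmultiples l) →
    (2 : ℝ) ^ a ≤ 2 * ∑ c ∈ U, (m c : ℝ) →
    ∀ τ ∈ DW x H U, 2 • τ = 0 → τ ∈ AddSubgroup.zmultiples l := by
  sorry

/-- HVOF -/
theorem hv_of [Finite G] (hG : Homo G a r) (hr : 1 ≤ r) {i : ℕ} (hi : i < a) {κ : Type v}
    [Fintype κ] (hκ : Fintype.card κ = 2 ^ (r - 1)) {x l : κ → G} (hx : ∀ k, x k ∈ V G i)
    (hl : ∀ k, l k ∈ V G i) (hn : ∀ k, l k ∉ V G (i + 1))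
    (hd : ∀ k k', Meet i (x k) (AddSubgroup.zmultiples (l k)) (x k')
      (AddSubgroup.zmultiples (l k')) → k = k') : Hv i x l := by
  sorry

open Classical in
/-- STRU: the structure theorem for sets -/
theorem stru (r : ℕ) (hr : 1 ≤ r) (ε : ℝ) (hε : 0 < ε) : ∃ a₀ : ℕ, ∀ a ≥ a₀, ∀ (G : Type u)
    [AddCommGroup G] [Finite G], Homo G a r → Nat.card G ≤ (2 ^ a) ^ r → ∀ A : Finset G,
    ¬ Hit A (2 ^ a) 0 → 2 ^ (r - 1) * 2 ^ a ≤ #A →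
    ∃ x l : Fin (2 ^ (r - 1)) → G, Hv 0 x l ∧ ∀ k, (1 - ε) * 2 ^ a ≤
      (#(A.filter fun g => g - x k ∈ AddSubgroup.zmultiples (l k)) : ℝ) := by
  sorry

/-! ## Part 3: the end -/

/-- NFC: almost all of a cyclic coset -/
theorem nfc (ha : 8 ≤ a) {B : Finset G} {x l : G} (hl : addOrderOf l = 2 ^ a)
    (hB : ∀ b ∈ B, b - x ∈ AddSubgroup.zmultiples l) (hc : 7 * 2 ^ a ≤ 8 * #B) {k : ℕ}
    (hk : 2 ≤ k) (hk' : k + 2 ≤ #B) {g : G} (hg : g - k • x ∈ AddSubgroup.zmultiples l) :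
    Hit B k g := by
  sorry

/-- REP: elements of a sum of cyclic groups -/
theorem rep {κ : Type w} [Fintype κ] [DecidableEq κ] {l : κ → G} {b : κ → ℕ} {t : κ} {g : G}
    (h : g ∈ Lb l b ⊔ AddSubgroup.zmultiples (l t)) :
    ∃ lam : κ → G, (∀ k, lam k ∈ AddSubgroup.zmultiples (l k)) ∧
      (∀ k, k ≠ t → b k = 0 → lam k = 0) ∧ ∑ k, lam k = g := by
  sorry

open Classical in
/-- COMPN: companions -/
theorem compn [Finite G] (hG : Homo G a r) (ha : 1 ≤ a) {κ : Type w} [Fintype κ] {x l : κ → G}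
    (h : Hv 0 x l) (A : Finset G) (E : Finset G)
    (hs : ∀ k, 2 ^ (a - 1) + #E ≤ #(A.filter fun g => g - x k ∈ AddSubgroup.zmultiples (l k))) :
    ∃ (f : G → G) (κe : G → κ), Set.InjOn f E ∧ ∀ e ∈ E, f e ∈ A ∧
      f e - x (κe e) ∈ AddSubgroup.zmultiples (l (κe e)) ∧ e + f e ∈ V G 1 := by
  sorry

open Classical in
/-- ENDB: a hit from exceptional elements with one destination -/
theorem endb [Finite G] (hG : Homo G a r) (ha : 10 ≤ a) {κ : Type w} [Fintype κ] {x l : κ → G}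
    (h : Hv 0 x l) (A : Finset G) (s : κ → ℕ)
    (hs : ∀ k, #(A.filter fun g => g - x k ∈ AddSubgroup.zmultiples (l k)) + s k = 2 ^ a)
    (F : Finset G) (hFA : F ⊆ A) (hF : ∀ e ∈ F, ∀ k, e - x k ∉ AddSubgroup.zmultiples (l k))
    (f : G → G) (κe : G → κ) (hf : Set.InjOn f F)
    (hf' : ∀ e ∈ F, f e ∈ A ∧ f e - x (κe e) ∈ AddSubgroup.zmultiples (l (κe e)))
    (t : κ) (j : G → ℕ) (b : G → κ → ℕ) (hb : ∀ e ∈ F, ∑ k, b e k = 2 ^ j e - 1)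
    (hp : ∀ e ∈ F, e + f e + ∑ k, b e k • (2 • x k) - 2 ^ j e • (2 • x t) ∈
      Lb l (b e) ⊔ AddSubgroup.zmultiples (l t))
    (hσ : 2 * ∑ e ∈ F, 2 ^ (j e + 1) ≤ 2 ^ a)
    (hw : s t + 2 + ∑ e ∈ F, (2 * b e t + if κe e = t then 1 else 0) ≤ ∑ e ∈ F, 2 ^ (j e + 1))
    (hsmall : ∀ k, 8 * (s k + #F + 2) ≤ 2 ^ a) : Hit A (2 ^ a) 0 := by
  sorry

open Classical in
/-- ENDE -/
theorem ende [Finite G] (hG : Homo G a r) (ha : 10 ≤ a) {κ : Type w} [Fintype κ] {x l : κ → G}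
    (h : Hv 0 x l) (A : Finset G) (s : κ → ℕ)
    (hs : ∀ k, #(A.filter fun g => g - x k ∈ AddSubgroup.zmultiples (l k)) + s k = 2 ^ a)
    (hsmall : 64 * (∑ k, s k + 2) ≤ 2 ^ a) (hA : Fintype.card κ * 2 ^ a + 1 ≤ #A) :
    Hit A (2 ^ a) 0 := by
  sorry

/-- HOMZ -/
theorem homz {a : ℕ} (ha : 1 ≤ a) (r : ℕ) : Homo (Fin r → ZMod (2 ^ a)) a r := by
  sorry

/-- UPZ: the upper bound -/
theorem upz (r : ℕ) (hr : 1 ≤ r) : ∃ a₀ : ℕ, ∀ a ≥ a₀, ∀ A : Finset (Fin r → ZMod (2 ^ a)),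
    2 ^ (r - 1) * 2 ^ a + 1 ≤ #A → Hit A (2 ^ a) 0 := by
  sorry

/-- LOWZ: the lower bound -/
theorem lowz {r a : ℕ} (hr : 1 ≤ r) (ha : 1 ≤ a) : ∃ A : Finset (Fin r → ZMod (2 ^ a)),
    #A = 2 ^ (r - 1) * 2 ^ a ∧ ¬ Hit A (2 ^ a) 0 := by
  sorry

end Pool.Agent.Lib.MPa7239a.EX.Spec2
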